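import Pool.Agent.Lib.MuZ.Spec

/-!
# Total ramification of `p` in the `p`-power cyclotomic fields
-/

open scoped Pointwise

noncomputable section

namespace Pool.Agent.MuZ

theorem tot_adj {A : Type} [CommRing A] (a w : A) (hw : w ∈ Algebra.adjoin ℤ {a}) :
    ∃ f : Polynomial ℤ, Polynomial.aeval a f = w := by
  rw [Algebra.adjoin_singleton_eq_range_aeval] at hw
  exact hw

/-- The algebraic integers of `ℚ(z)` are the polynomials in `z`. -/
theorem tot_gen (p n : ℕ) [Fact p.Prime] (z : Om) (hz : IsPrimitiveRoot z (p ^ n)) (x : Om)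
    (hx : x ∈ IntermediateField.adjoin ℚ {z}) (hi : IsIntegral ℤ x) :
    ∃ f : Polynomial ℤ, Polynomial.aeval z f = x := by
  have hc : IsCyclotomicExtension {p ^ n} ℚ (IntermediateField.adjoin ℚ {z}) :=
    IsPrimitiveRoot.intermediateField_adjoin_isCyclotomicExtension ℚ hz
  have hz' : IsPrimitiveRoot (⟨z, IntermediateField.mem_adjoin_simple_self ℚ z⟩ :
      IntermediateField.adjoin ℚ {z}) (p ^ n) := by
    apply IsPrimitiveRoot.of_map_of_injective (f := (IntermediateField.adjoin ℚ {z}).val)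
    · exact hz
    · exact (IntermediateField.adjoin ℚ {z}).val.injective
  have hI := IsCyclotomicExtension.Rat.isIntegralClosure_adjoin_singleton_of_prime_pow hz'
  have h1 : IsIntegral ℤ (⟨x, hx⟩ : IntermediateField.adjoin ℚ {z}) := by
    rw [← isIntegral_algebraMap_iff (B := Om)
      (show Function.Injective (algebraMap (IntermediateField.adjoin ℚ {z}) Om) from
        Subtype.val_injective)]
    exact hi
  obtain ⟨y, hy⟩ := hI.isIntegral_iff.mp h1
  have h2 : x = ((y : IntermediateField.adjoin ℚ {z}) : Om) := congrArg Subtype.val hy.symm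
  obtain ⟨f, hf⟩ := tot_adj _ _ y.2
  refine ⟨f, ?_⟩
  rw [h2, ← hf]
  have h3 := Polynomial.aeval_algebraMap_apply Om
    (⟨z, IntermediateField.mem_adjoin_simple_self ℚ z⟩ : IntermediateField.adjoin ℚ {z}) f
  exact h3

/-- An integer lies in a prime above `p` iff it is divisible by `p`. -/
theorem tot_int {A : Type} [CommRing A] (p : ℕ) (hp : p.Prime) (Q : Ideal A) (hQ : Q.IsPrime)
    (hpQ : (p : A) ∈ Q) (m : ℤ) : (m : A) ∈ Q ↔ (p : ℤ) ∣ m := by
  constructor
  · intro hm
    by_contra hd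
    have hco : IsCoprime (p : ℤ) m := (Nat.prime_iff_prime_int.mp hp).coprime_iff_not_dvd.mpr hd
    obtain ⟨a, b, hab⟩ := hco
    apply hQ.ne_top
    rw [Ideal.eq_top_iff_one]
    have h1 : (1 : A) = (a : A) * (p : A) + (b : A) * (m : A) := by
      have := congrArg (fun t : ℤ => (t : A)) hab
      push_cast at this
      exact this.symm
    rw [h1]
    exact Q.add_mem (Q.mul_mem_left _ hpQ) (Q.mul_mem_left _ hm)
  · rintro ⟨c, rfl⟩
    push_cast
    exact Q.mul_mem_right _ hpQ

/-- `1 - z` lies in every prime above `p`. -/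
theorem tot_one {A : Type} [CommRing A] (p n : ℕ) (hp : p.Prime) (Q : Ideal A) (hQ : Q.IsPrime)
    (hpQ : (p : A) ∈ Q) (z : A) (hz : z ^ p ^ n = 1) : z - 1 ∈ Q := by
  have hfact : Fact p.Prime := ⟨hp⟩
  have hdom : IsDomain (A ⧸ Q) := Ideal.Quotient.isDomain Q
  have hchar : CharP (A ⧸ Q) p := by
    apply (CharP.charP_iff_prime_eq_zero hp).mpr
    rw [← map_natCast (Ideal.Quotient.mk Q), Ideal.Quotient.eq_zero_iff_mem]
    exact hpQ
  rw [← Ideal.Quotient.eq_zero_iff_mem]
  have h1 : (Ideal.Quotient.mk Q (z - 1)) ^ p ^ n = 0 := by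
    rw [map_sub, map_one, sub_pow_char_pow, one_pow, ← map_pow, hz, map_one, sub_self]
  exact (pow_eq_zero_iff (pow_pos hp.pos n).ne').mp h1

theorem tot_mem {A : Type} [CommRing A] (p n : ℕ) (hp : p.Prime) (Q : Ideal A) (hQ : Q.IsPrime)
    (hpQ : (p : A) ∈ Q) (z : A) (hz : z ^ p ^ n = 1) (f : Polynomial ℤ) :
    Polynomial.aeval z f ∈ Q ↔ (p : ℤ) ∣ f.eval 1 := by
  have h1 : z - 1 ∈ Q := tot_one p n hp Q hQ hpQ z hz
  have h2 : Polynomial.aeval z f - ((f.eval 1 : ℤ) : A) ∈ Q := by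
    have h3 := Polynomial.sub_dvd_eval_sub z 1 (f.map (Int.castRingHom A))
    have h4 : (f.map (Int.castRingHom A)).eval z = Polynomial.aeval z f := by
      rw [Polynomial.eval_map, Polynomial.aeval_def]
      rfl
    have h5 : (f.map (Int.castRingHom A)).eval 1 = ((f.eval 1 : ℤ) : A) := by
      rw [Polynomial.eval_map, Polynomial.eval₂_at_one]
      rfl
    rw [h4, h5] at h3
    exact Q.mem_of_dvd h3 h1
  rw [← tot_int p hp Q hQ hpQ]
  constructor
  · intro h
    have := Q.sub_mem h h2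
    rwa [sub_sub_cancel] at this
  · intro h
    have := Q.add_mem h2 h
    rwa [sub_add_cancel] at this

theorem tot_stab (x : ZZ) : IsOpen (MulAction.stabilizer Gal(Om/ℚ) x : Set Gal(Om/ℚ)) := by
  have h1 := stabilizer_isOpen_of_isIntegral (K := ℚ) (L := Om) (x : Om)
  have h2 : (MulAction.stabilizer Gal(Om/ℚ) x : Set Gal(Om/ℚ)) =
      MulAction.stabilizer Gal(Om/ℚ) (x : Om) := by
    ext σ
    constructor
    · intro h
      exact congrArg Subtype.val (show σ • x = x from h)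
    · intro h
      exact Subtype.ext h
  rw [h2]
  exact h1

/-- A closed subgroup acts transitively on the primes above a prime of its ring of invariants. -/
theorem tot_trans (H : Subgroup Gal(Om/ℚ)) (hH : IsClosed (H : Set Gal(Om/ℚ)))
    (P Q : Ideal ZZ) (hP : P.IsPrime) (hQ : Q.IsPrime)
    (h : ∀ x : ZZ, (∀ g ∈ H, g • x = x) → (x ∈ P ↔ x ∈ Q)) : ∃ g ∈ H, Q = g • P := by
  have hcomp : CompactSpace H := isCompact_iff_compactSpace.mp hH.isCompact
  let _ : TopologicalSpace ZZ := ⊥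
  have hdisc : DiscreteTopology ZZ := ⟨rfl⟩
  have hcs : ContinuousSMul Gal(Om/ℚ) ZZ :=
    continuousSMul_iff_stabilizer_isOpen.mpr tot_stab
  let A := FixedPoints.subalgebra ℤ ZZ H
  have hcomm : SMulCommClass H A ZZ := by
    constructor
    intro g a b
    show (g : Gal(Om/ℚ)) • ((a : ZZ) * b) = (a : ZZ) * ((g : Gal(Om/ℚ)) • b)
    rw [smul_mul']
    congr 1
    exact a.2 g
  have hinv : Algebra.IsInvariant A ZZ H := by
    constructor
    intro b hb
    exact ⟨⟨b, hb⟩, rfl⟩
  obtain ⟨g, hg⟩ := Algebra.IsInvariant.exists_smul_of_under_eq_of_profinite (A := A) (G := H) P Q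
    (by
      ext a
      exact h a (fun g hg => a.2 ⟨g, hg⟩))
  exact ⟨g, g.2, hg⟩

theorem tot : S_Tot := by
  intro p hp P hP hpP τ n
  have hfact : Fact p.Prime := ⟨hp⟩
  have hne : NeZero (p ^ n) := ⟨(pow_pos hp.pos n).ne'⟩
  have hne' : NeZero ((p ^ n : ℕ) : Om) := ⟨by
    rw [Nat.cast_ne_zero]
    exact hne.out⟩
  obtain ⟨z, hz⟩ := HasEnoughRootsOfUnity.exists_primitiveRoot Om (p ^ n)
  let K : IntermediateField ℚ Om := IntermediateField.adjoin ℚ {z}
  have hzK : z ∈ K := IntermediateField.mem_adjoin_simple_self ℚ z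
  have hzi : IsIntegral ℤ z := hz.isIntegral hne.pos
  let ζ : ZZ := ⟨z, hzi⟩
  have hζ : ζ ^ p ^ n = 1 := Subtype.ext hz.pow_eq_one
  have hclosed : IsClosed (K.fixingSubgroup : Set Gal(Om/ℚ)) :=
    InfiniteGalois.fixingSubgroup_isClosed K
  have hτP : (τ • P).IsPrime := hP.smul τ
  have hpτ : (p : ZZ) ∈ τ • P := by
    have h1 : (p : ZZ) = τ • (p : ZZ) := by
      apply Subtype.ext
      show (((p : ZZ) : ZZ) : Om) = τ (((p : ZZ) : ZZ) : Om)
      have h2 : (((p : ZZ) : ZZ) : Om) = (p : Om) := rfl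
      rw [h2, map_natCast]
    rw [h1]
    exact Ideal.smul_mem_pointwise_smul τ _ _ hpP
  obtain ⟨g, hg, hgP⟩ := tot_trans K.fixingSubgroup hclosed (τ • P) P hτP hP (by
    intro x hx
    have hxK : (x : Om) ∈ K := by
      rw [← InfiniteGalois.fixedField_fixingSubgroup K]
      rintro ⟨g, hg⟩
      exact congrArg Subtype.val (hx g hg)
    obtain ⟨f, hf⟩ := tot_gen p n z hz (x : Om) hxK x.2
    have hfx : Polynomial.aeval ζ f = x := by
      apply Subtype.ext
      rw [← hf]
      exact (Polynomial.aeval_algebraMap_apply Om ζ f).symm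
    rw [← hfx]
    exact (tot_mem p n hp _ hτP hpτ ζ hζ f).trans (tot_mem p n hp _ hP hpP ζ hζ f).symm)
  refine ⟨g * τ, ?_, ?_⟩
  · rw [MulAction.mem_stabilizer_iff, mul_smul]
    exact hgP.symm
  · intro w hw
    rw [AlgEquiv.mul_apply]
    have h1 : (τ w) ^ p ^ n = 1 := by
      rw [← map_pow, hw, map_one]
    obtain ⟨i, -, hi⟩ := hz.eq_pow_of_pow_eq_one h1
    have h2 : τ w ∈ K := by
      rw [← hi]
      exact pow_mem hzK i
    exact (IntermediateField.mem_fixingSubgroup_iff K g).mp hg (τ w) h2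

end Pool.Agent.MuZ
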