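import Pool.Agent.Lib.MuZ.Defs

/-!
# Instances for `Om` over `ℚ`
-/

noncomputable section

namespace Pool.Agent.MuZ

instance instIsAlgClosure : IsAlgClosure ℚ Om := by
  have h : (DivisionRing.toRatAlgebra : Algebra ℚ Om) =
      AlgebraicClosure.instAlgebra ℚ := Subsingleton.elim _ _
  rw [h]
  infer_instance

instance instIsAlgebraic : Algebra.IsAlgebraic ℚ Om := IsAlgClosure.isAlgebraic

instance instNormal : Normal ℚ Om := IsAlgClosure.normal ℚ Om

instance instIsGalois : IsGalois ℚ Om := IsAlgClosure.isGalois ℚ Om

instance instCompact : CompactSpace Gal(Om/ℚ) := inferInstance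

instance instTotDisc : TotallyDisconnectedSpace Gal(Om/ℚ) := inferInstance

example : IsTopologicalGroup Gal(Om/ℚ) := inferInstance

end Pool.Agent.MuZ
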