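import Pool.Agent.Lib.MuZ.CDefs
import Pool.Agent.Lib.MuZ.Inst

/-!
# Specification: the finite level criterion for mu = 0

Every `S_...` below is a statement (a `Prop`) with a complete proof in its docstring. Every one is to
be proved in its own module; no statement needs another one unless it is named as a hypothesis.
In the abstract part `G` is a profinite group. USEFUL: for an open set `U` with `1 ∈ U` there is an
open NORMAL subgroup inside `U` (`IsTopologicalGroup.exist_openNormalSubgroup_sub_clopen_nhds_of_one`,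
`ProfiniteGrp.exist_openNormalSubgroup_sub_open_nhds_of_one` in
`Mathlib/Topology/Algebra/ClopenNhdofOne.lean`); below `O` is often such a subgroup, and a statement
about an open subgroup follows from the one about a smaller normal one.
COMPACTNESS: if `C_O ⊆ G` is a nonempty closed set for every open normal `O`, and
`C_O' ⊆ C_O` for `O' ≤ O`, then the intersection of all `C_O` is not empty
(`IsCompact.nonempty_iInter_of_directed_nonempty_isCompact_isClosed`); `⋂ N O = N` for a closed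
subgroup `N` (if `x ∉ N` then some `x O` is disjoint from `N`).
-/

open scoped Pointwise

noncomputable section

namespace Pool.Agent.MuZ

section Abs

variable {G : Type} [Group G] [TopologicalSpace G]

/-- `Coc Ls ρ Y M`: continuous cocycles `Y → S`, written as functions on `G` which vanish outside `Y`,
whose restriction to `Λ ∩ M` is a coboundary for every `Λ` in `Ls`. -/
def Coc {p : ℕ} {S : Type} [AddCommGroup S] [Module (ZMod p) S] (Ls : Set (Subgroup G))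
    (ρ : Representation (ZMod p) G S) (Y M : Subgroup G) : Submodule (ZMod p) (G → S) where
  carrier := {c | (∀ g ∉ Y, c g = 0) ∧ (∀ g ∈ Y, ∀ h ∈ Y, c (g * h) = c g + ρ g (c h)) ∧
    (∃ O : OpenSubgroup G, ∀ g ∈ Y, g ∈ O → c g = 0) ∧
    ∀ Λ ∈ Ls, ∃ s : S, ∀ g ∈ Λ, g ∈ M → c g = ρ g s - s}
  add_mem' := by
    rintro a b ⟨a1, a2, ⟨E, a3⟩, a4⟩ ⟨b1, b2, ⟨E', b3⟩, b4⟩
    refine ⟨fun g hg => ?_, fun g hg h hh => ?_, ⟨E ⊓ E', fun g hg hE => ?_⟩, fun Λ hΛ => ?_⟩
    · simp [a1 g hg, b1 g hg]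
    · simp only [Pi.add_apply, a2 g hg h hh, b2 g hg h hh, map_add]
      abel
    · simp [a3 g hg hE.1, b3 g hg hE.2]
    · obtain ⟨s, hs⟩ := a4 Λ hΛ
      obtain ⟨t, ht⟩ := b4 Λ hΛ
      refine ⟨s + t, fun g hg hgΛ => ?_⟩
      simp only [Pi.add_apply, hs g hg hgΛ, ht g hg hgΛ, map_add]
      abel
  zero_mem' := ⟨fun _ _ => rfl, fun _ _ _ _ => by simp, ⟨⊤, fun _ _ _ => rfl⟩,
    fun _ _ => ⟨0, fun _ _ _ => by simp⟩⟩
  smul_mem' := by
    rintro r a ⟨a1, a2, ⟨E, a3⟩, a4⟩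
    refine ⟨fun g hg => ?_, fun g hg h hh => ?_, ⟨E, fun g hg hE => ?_⟩, fun Λ hΛ => ?_⟩
    · simp [a1 g hg]
    · simp only [Pi.smul_apply, a2 g hg h hh, map_smul, smul_add]
    · simp [a3 g hg hE]
    · obtain ⟨s, hs⟩ := a4 Λ hΛ
      refine ⟨r • s, fun g hg hgΛ => ?_⟩
      simp only [Pi.smul_apply, hs g hg hgΛ, map_smul, smul_sub]

/-- The equivariant functions `X → S`. -/
def EqF {p : ℕ} {S X : Type} [AddCommGroup S] [Module (ZMod p) S] [MulAction G X]
    (ρ : Representation (ZMod p) G S) (Y : Subgroup G) : Submodule (ZMod p) (X → S) where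
  carrier := {φ | ∀ y ∈ Y, ∀ x : X, φ (y • x) = ρ y (φ x)}
  add_mem' := by
    intro a b ha hb y hy x
    simp [ha y hy x, hb y hy x]
  zero_mem' := by
    intro y _ x
    simp
  smul_mem' := by
    intro r a ha y hy x
    simp [ha y hy x]

/-- `δ` generates topologically the procyclic pro-`p` group `Y / N`, which is infinite. -/
structure Gq (p : ℕ) (Y N : Subgroup G) (δ : G) : Prop where
  mem : δ ∈ Y
  le : N ≤ Y
  nrm : ∀ y ∈ Y, ∀ n ∈ N, y * n * y⁻¹ ∈ N
  cloY : IsClosed (Y : Set G)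
  cloN : IsClosed (N : Set G)
  gen : ∀ y ∈ Y, ∀ O : OpenSubgroup G, ∃ j : ℕ, ∃ t ∈ N, y⁻¹ * δ ^ j * t ∈ O
  quo : ∀ y ∈ Y, ∀ O : OpenSubgroup G, ∃ a : ℕ, ∃ t ∈ N, y ^ p ^ a * t ∈ O
  inf : ∀ m : ℕ, 0 < m → δ ^ m ∉ N

/-- In addition `δ` is a pro-`p` element. -/
structure Zq (p : ℕ) (Y N : Subgroup G) (δ : G) : Prop extends Gq p Y N δ where
  pro : ∀ O : OpenSubgroup G, ∃ a : ℕ, δ ^ p ^ a ∈ O

/-- The operator `(g c) x = g c (g⁻¹ x g)` on functions. -/
def act {p : ℕ} {S : Type} [AddCommGroup S] [Module (ZMod p) S]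
    (ρ : Representation (ZMod p) G S) (g : G) : (G → S) →ₗ[ZMod p] (G → S) where
  toFun c := fun x => ρ g (c (g⁻¹ * x * g))
  map_add' := by
    intro a b
    ext x
    simp
  map_smul' := by
    intro r a
    ext x
    simp

/-- The coboundary of `s`, cut to `Y`. -/
def cob {p : ℕ} {S : Type} [AddCommGroup S] [Module (ZMod p) S]
    (ρ : Representation (ZMod p) G S) (Y : Subgroup G) : S →ₗ[ZMod p] (G → S) where
  toFun s := by
    classical
    exact fun x => if x ∈ Y then ρ x s - s else 0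
  map_add' := by
    intro a b
    ext x
    by_cases h : x ∈ Y
    · simp only [h, if_true, map_add, Pi.add_apply]
      abel
    · simp [h]
  map_smul' := by
    intro r a
    ext x
    by_cases h : x ∈ Y
    · simp [h, smul_sub]
    · simp [h]

end Abs

/-! ## Procyclic quotients -/

/-- (150 lines) **Closed subgroups of procyclic groups are procyclic.**
PROOF. For an open normal subgroup `O` of `G` the image of `Y` in `G / (N O)`... precisely: `N O` is a
subgroup (`O` normal), normalised by `Y`, and by `gen` every `y ∈ Y` lies in `δ ^ j N O`. So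
`Y / (Y ∩ N O)` is cyclic, finite; its subgroup `Λ / (Λ ∩ N O)` is cyclic: the set `C_O` of all
`x ∈ Λ` such that every `y ∈ Λ` lies in `x ^ j N O` for some `j : ℕ` is not empty (elementary:
`{j : ℤ | δ ^ j ∈ Λ N O}`... or pass to quotient groups and use `Subgroup.isCyclic`). `C_O` is closed
(with `x` it contains `Λ ∩ x O`) and `C_O' ⊆ C_O` for `O' ≤ O`. By compactness there is `δ'` in all
`C_O`. Let `y ∈ Λ`, `O` open normal (enough). For every open normal `O'` choose `j = j(O')` with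
`δ' ^ j ∈ y N O'`, i.e. `y⁻¹ δ' ^ j ∈ N O' ∩ Λ`. The set `{x ∈ Λ : x ∈ N O', x ∈ y⁻¹ δ' ^ j O for some j}`
is closed (a union of cosets of `O` cut with closed sets; finitely many cosets), not empty
(take `x = y⁻¹ δ' ^ j(O')`) and decreasing in `O'`, so there is `x ∈ Λ ∩ N` (as `⋂ N O' = N`)
with `x ∈ y⁻¹ δ' ^ j O`, that is `x = y⁻¹ δ' ^ j o`, so `y⁻¹ δ' ^ j x⁻¹ = x o⁻¹ x⁻¹ ∈ O`; `t = x⁻¹`. -/
def S_Pc : Prop :=
  ∀ (G : Type) [Group G] [TopologicalSpace G] [IsTopologicalGroup G] [CompactSpace G]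
    [TotallyDisconnectedSpace G] [T2Space G] (p : ℕ) (Y N : Subgroup G) (δ : G), Gq p Y N δ →
    ∀ Λ : Subgroup G, Λ ≤ Y → IsClosed (Λ : Set G) →
      ∃ δ' ∈ Λ, ∀ y ∈ Λ, ∀ O : OpenSubgroup G, ∃ j : ℕ, ∃ t ∈ Λ ⊓ N, y⁻¹ * δ' ^ j * t ∈ O

/-- (100 lines) **Subgroups.** Uses `S_Pc`.
PROOF. Take `δ'` from `S_Pc`. `mem`, `le`, `nrm`, `cloY`, `cloN`, `gen` are clear. `quo`: let `y ∈ Λ` and
`O` open normal. For every open normal `O'` there are `a` and `t ∈ N` with `y ^ p ^ a t ∈ O'`, so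
`y ^ p ^ a ∈ N O' ∩ Λ`. The sets `{x ∈ Λ ∩ N O' : x ∈ y ^ p ^ a O for some a}` are closed, not empty and
decreasing in `O'`, so there is `x ∈ Λ ∩ N` in `y ^ p ^ a O`: `t = x⁻¹` (`O` normal). `inf`: suppose
`δ' ^ m ∈ Λ ∩ N`, `m > 0`. Let `y = δ ^ M ∈ Λ`. For every open normal `O`, `y ∈ δ' ^ j N O` for some `j`
(`gen`), so `y ^ m ∈ δ' ^ (j m) N O = N O` (`Λ` normalises `N`, and `N O` is a subgroup normalised by
`Y`). So `y ^ m ∈ ⋂ N O = N`, i.e. `δ ^ (M m) ∈ N`, contradicting `inf` for `δ`. -/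
def S_Sub : Prop :=
  S_Pc → ∀ (G : Type) [Group G] [TopologicalSpace G] [IsTopologicalGroup G] [CompactSpace G]
    [TotallyDisconnectedSpace G] [T2Space G] (p : ℕ) (Y N : Subgroup G) (δ : G), Gq p Y N δ →
    ∀ Λ : Subgroup G, Λ ≤ Y → IsClosed (Λ : Set G) → (∃ M : ℕ, 0 < M ∧ δ ^ M ∈ Λ) →
      ∃ δ', Gq p Λ (Λ ⊓ N) δ'

/-- (150 lines) **Pro-`p` lift of the generator.**
PROOF. For an open normal subgroup `O` let
`C_O = {x ∈ Y : x ^ p ^ a ∈ O for some a, and x δ⁻¹ ∈ N O}`. It is closed (with `x` it contains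
`Y ∩ x O`: it is a union of such sets, finitely many) and decreasing in `O`. It is not empty: let
`p ^ a m'` with `p ∤ m'` be the order of `δ` in the finite group `G / O`, and by `quo` let `b` be such
that `δ ^ p ^ b ∈ N O`. Choose `r : ℕ` with `r ≡ 0 mod m'`, `r ≡ 1 mod p ^ b` (Chinese remainder),
`r ≥ 1`. Then `x = δ ^ r` has `x ^ p ^ a ∈ O` and `x δ⁻¹ = δ ^ (r - 1) ∈ N O`. By compactness there is `γ`
in all `C_O`. So `pro` holds for `γ` and `n₀ = γ δ⁻¹ ∈ ⋂ N O = N`. `gen`: let `y ∈ Y`, `O` open, and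
`y⁻¹ δ ^ j t ∈ O`. As `N` is normal in `Y` and `γ = n₀ δ`, `δ ^ j = γ ^ j t'` with `t' ∈ N`
(`δ⁻ʲ`, `γ ^ j` agree modulo `N`). So `y⁻¹ γ ^ j (t' t) ∈ O`. `inf`: `γ ^ m ∈ N` gives `δ ^ m ∈ N`. The other
fields do not involve `δ` except `mem`. -/
def S_PL : Prop :=
  ∀ (G : Type) [Group G] [TopologicalSpace G] [IsTopologicalGroup G] [CompactSpace G]
    [TotallyDisconnectedSpace G] [T2Space G] (p : ℕ) [Fact p.Prime] (Y N : Subgroup G) (δ : G),
    Gq p Y N δ → ∃ γ, Zq p Y N γ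

/-- (100 lines) **Divisibility.** If `γ ^ m` is close to `N` then `m` is divisible by a high power of `p`.
PROOF. Suppose not: `v` is a counterexample, so for every open normal `O` there is `m` not divisible
by `p ^ v` (so `v ≥ 1`) with `γ ^ m ∈ N O`. By `pro` `γ ^ p ^ a ∈ O` for some `a`; the greatest common
divisor `p ^ w` of `m` and `p ^ a`... `w < v` or `a ≤ w`; in all cases `γ ^ gcd (m, p ^ a) ∈ N O` and the gcd is
a power `p ^ w` of `p`; if `a ≥ v` then `w < v` as `p ^ v ∤ m` (we may increase `a`), so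
`γ ^ p ^ (v - 1) ∈ N O`. This holds for all open normal `O`, so `γ ^ p ^ (v - 1) ∈ N`, contradicting
`inf`. (`γ ∈ Y` normalises `N`, so `N O` is a subgroup and `{m : γ ^ m ∈ N O}` is a subgroup of `ℤ`.) -/
def S_Val : Prop :=
  ∀ (G : Type) [Group G] [TopologicalSpace G] [IsTopologicalGroup G] [CompactSpace G]
    [TotallyDisconnectedSpace G] [T2Space G] (p : ℕ) [Fact p.Prime] (Y N : Subgroup G) (γ : G),
    Zq p Y N γ → ∀ v : ℕ, ∃ O : OpenSubgroup G, ∀ m : ℕ, ∀ t ∈ N, γ ^ m * t ∈ O → p ^ v ∣ m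

/-- (200 lines) **Layers.** Uses `S_Val`.
PROOF. EXISTENCE. Let `O` be as in `S_Val` for `v = n`, made smaller so that it is normal; `N` is normal
in `G` (`Y = ⊤`). Let `L = N ⊔ O = N O`, normal and open; `G / L` is cyclic, generated by the image of `γ`
(`gen` for `O`), of order `p ^ e` by `pro`, and `e ≥ n` because `γ ^ p ^ e ∈ N O` implies `p ^ n ∣ p ^ e`.
The subgroup `Y` generated by `L` and `γ ^ p ^ n` has index `p ^ n`. PROPERTIES. Let `Y` be open, `N ≤ Y`,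
of index `p ^ n`. `G / N` is abelian: for `x, y ∈ G` and `O` open normal `x ∈ γ ^ i N O`, `y ∈ γ ^ j N O`, so
`x y x⁻¹ y⁻¹ ∈ N O`; as `⋂ N O = N` the commutator is in `N ≤ Y`. So `Y` is normal. `G / Y` is cyclic
generated by the image of `γ` (`gen` with `O = Y`), so the order of this image is `p ^ n`:
`γ ^ m ∈ Y ↔ p ^ n ∣ m`. `gen` for `Y`, `γ ^ p ^ n`: let `y ∈ Y` and `O` open; apply `gen` of `G` to
`O ⊓ Y`: `y⁻¹ γ ^ j t ∈ O ⊓ Y`, so `γ ^ j ∈ Y`, `j = p ^ n i`. `quo` is the restriction of `quo` for `⊤`. `pro`: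
`(γ ^ p ^ n) ^ p ^ a = (γ ^ p ^ a) ^ p ^ n`. `inf` clear. `cloY`: open subgroups are closed. -/
def S_Lev : Prop :=
  S_Val → ∀ (G : Type) [Group G] [TopologicalSpace G] [IsTopologicalGroup G] [CompactSpace G]
    [TotallyDisconnectedSpace G] [T2Space G] (p : ℕ) [Fact p.Prime] (N : Subgroup G) (γ : G),
    Zq p ⊤ N γ →
    (∀ n : ℕ, ∃ Y : Subgroup G, IsOpen (Y : Set G) ∧ N ≤ Y ∧ Y.index = p ^ n) ∧
    ∀ (n : ℕ) (Y : Subgroup G), IsOpen (Y : Set G) → N ≤ Y → Y.index = p ^ n →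
      Y.Normal ∧ Zq p Y N (γ ^ p ^ n)

/-! ## Extension of cocycles -/

/-- (200 lines) **Extension of homomorphisms from `N` to `Y`.** Uses `S_Val`.
`h : N → A` is a continuous homomorphism to a finite group, written as a function on `G` (only the
values on `N` matter); `a ∈ A` has `p`-power order and `h (γ x γ⁻¹) = a h x a⁻¹`.
PROOF. STEP 1: for `m : ℕ` and `x ∈ N`: `h (γ ^ m x γ⁻ᵐ) = a ^ m h x a⁻ᵐ` (induction). STEP 2, KEY: there is
an open normal subgroup `O` such that `γ ^ m x ∈ O`, `x ∈ N`, `m : ℕ` imply `a ^ m h x = 1`. Let `h = 1` on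
`N ∩ O₀`; let `a ^ p ^ e = 1`; by `pro` and `S_Val` choose `w ≥ e` with `γ ^ p ^ w ∈ O₀'` where
`O₀' ≤ O₀` is open normal, and then `O ≤ O₀'` open normal such that `γ ^ m x ∈ O` implies `p ^ w ∣ m`.
For such `m`, `x`: `γ ^ m ∈ O₀'`, so `x ∈ O₀'` and `h x = 1`, and `a ^ m = 1` as `e ≤ w`. STEP 3. For
`y ∈ Y` by `gen` there are `m : ℕ`, `x ∈ N` with `y ∈ γ ^ m x O` (`y⁻¹ γ ^ m x ∈ O`, `O` normal); put
`h' y = a ^ m h x` for some such `(m, x)`. WELL DEFINED: if `γ ^ m x ∈ y O` and `γ ^ m' x' ∈ y O`, say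
`m ≤ m'`, then `x⁻¹ γ ^ (m' - m) x' ∈ O`, which is `γ ^ d x'' `, `d = m' - m`,
`x'' = (γ⁻ᵈ x⁻¹ γ ^ d) x' ∈ N`; KEY: `1 = a ^ d h x'' = a ^ d (a⁻ᵈ (h x)⁻¹ a ^ d) h x' = (h x)⁻¹ a ^ d h x'`,
so `h x = a ^ d h x'` and `a ^ m h x = a ^ m' h x'`. HOMOMORPHISM: if `y ∈ γ ^ m x O`, `y' ∈ γ ^ m' x' O`
then `y y' ∈ γ ^ (m + m') (γ^(-m') x γ ^ m') x' O` (`O` normal) and
`a ^ (m + m') h (γ^(-m') x γ ^ m') h x' = a ^ (m + m') a^(-m') h x a ^ m' h x' = (a ^ m h x) (a ^ m' h x')`.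
`h' = h` on `N` (`m = 0`), `h' γ = a`, `h' = 1` on `Y ∩ O` (`m = 0`, `x = 1`). -/
def S_Semi : Prop :=
  S_Val → ∀ (G : Type) [Group G] [TopologicalSpace G] [IsTopologicalGroup G] [CompactSpace G]
    [TotallyDisconnectedSpace G] [T2Space G] (p : ℕ) [Fact p.Prime] (Y N : Subgroup G) (γ : G),
    Zq p Y N γ → ∀ (A : Type) [Group A] (h : G → A) (a : A),
    (∀ x ∈ N, ∀ y ∈ N, h (x * y) = h x * h y) → (∃ O : OpenSubgroup G, ∀ x ∈ N, x ∈ O → h x = 1) →
    (∃ e : ℕ, a ^ p ^ e = 1) → (∀ x ∈ N, h (γ * x * γ⁻¹) = a * h x * a⁻¹) →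
    ∃ h' : G → A, (∀ x ∈ Y, ∀ y ∈ Y, h' (x * y) = h' x * h' y) ∧
      (∃ O : OpenSubgroup G, ∀ x ∈ Y, x ∈ O → h' x = 1) ∧ (∀ x ∈ N, h' x = h x) ∧ h' γ = a

/-- (60 lines) **Uniqueness.** A cocycle on `Y` which vanishes on `N` and at a topological generator `δ` of
`Y / N` vanishes.
PROOF. `c (δ ^ j) = 0` for `j : ℕ` by induction, so `c (δ ^ j t) = c (δ ^ j) + ρ (δ ^ j) (c t) = 0` for
`t ∈ N`. Let `c` vanish on `Y ∩ O`, `y ∈ Y`, and `y⁻¹ δ ^ j t ∈ O` (`gen`): it is an element `o` of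
`Y ∩ O` and `y o = δ ^ j t`, so `0 = c (y o) = c y + ρ y (c o) = c y`. -/
def S_Uni : Prop :=
  ∀ (G : Type) [Group G] [TopologicalSpace G] (p : ℕ) (Y N : Subgroup G) (δ : G),
    N ≤ Y → δ ∈ Y → (∀ y ∈ Y, ∀ O : OpenSubgroup G, ∃ j : ℕ, ∃ t ∈ N, y⁻¹ * δ ^ j * t ∈ O) →
    ∀ (S : Type) [AddCommGroup S] [Module (ZMod p) S] (ρ : Representation (ZMod p) G S)
      (c : G → S), c ∈ Coc ∅ ρ Y Y → (∀ x ∈ N, c x = 0) → c δ = 0 → c = 0

/-- (150 lines) **Extension of cocycles from `N` to `Y`.** Uses `S_Semi`.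
PROOF. Let `A` be the group `Equiv.Perm S` and for `x ∈ N` let `h x` be the affine bijection
`s ↦ ρ x s + c x`; the cocycle identity gives `h (x y) = h x h y`; `h x = 1` for `x ∈ N` in the
intersection of the open subgroups on which `c = 0` resp. `ρ = 1`. Let `a` be `s ↦ ρ γ s + t`. By `pro`
`g = ρ γ` has `g ^ p ^ e = 1` for some `e`, and `a ^ j` is `s ↦ g ^ j s + (1 + g + ... + g ^ (j - 1)) t`;
for `j = p ^ (e + 1)` the sum is `p (1 + ... + g ^ (p ^ e - 1)) t = 0`. So `a ^ p ^ (e + 1) = 1`. The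
hypothesis on `c` says `h (γ x γ⁻¹) a = a h x` (both map `s` to ... check with
`ρ (γ x γ⁻¹) (ρ γ s + t) + c (γ x γ⁻¹) = ρ γ (ρ x s + c x) + t`). Let `h'` be the homomorphism from
`S_Semi`. Put `c' y = h' y 0` for `y ∈ Y`, `0` outside. CLAIM `h' y s = ρ y s + c' y` for all `y ∈ Y`, `s`: the
set of such `y` is closed under products, contains `N`, `γ`, and `Y ∩ O` for `O` an open subgroup on which
`h' = 1` (within `Y`) and `ρ = 1`; by `gen` every `y ∈ Y` is `γ ^ j t o⁻¹` with `o ∈ Y ∩ O`. So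
`c' (x y) = h' x (h' y 0) = ρ x (c' y) + c' x`. -/
def S_CocX : Prop :=
  S_Semi → S_Val → ∀ (G : Type) [Group G] [TopologicalSpace G] [IsTopologicalGroup G]
    [CompactSpace G] [TotallyDisconnectedSpace G] [T2Space G] (p : ℕ) [Fact p.Prime]
    (Y N : Subgroup G) (γ : G), Zq p Y N γ →
    ∀ (S : Type) [AddCommGroup S] [Module (ZMod p) S] (ρ : Representation (ZMod p) G S),
      (∃ O : OpenSubgroup G, ∀ g ∈ O, ρ g = 1) →
      ∀ c ∈ Coc ∅ ρ N N, ∀ t : S,
        (∀ x ∈ N, c (γ * x * γ⁻¹) = t + ρ γ (c x) - ρ (γ * x * γ⁻¹) t) →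
        ∃ c' ∈ Coc ∅ ρ Y Y, (∀ x ∈ N, c' x = c x) ∧ c' γ = t

/-! ## The operator on the cohomology of `N` and dimensions -/

/-- `H(N, S)`: locally trivial cocycles on `N` modulo coboundaries. -/
abbrev HN {p : ℕ} {G S : Type} [Group G] [TopologicalSpace G] [AddCommGroup S]
    [Module (ZMod p) S] (Ls : Set (Subgroup G)) (ρ : Representation (ZMod p) G S)
    (N : Subgroup G) : Type :=
  Coc Ls ρ N N ⧸ (LinearMap.range (cob ρ N)).comap (Coc Ls ρ N N).subtype

/-- (200 lines) **The operator `T = γ - 1`.**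
PROOF. Let `A = act ρ γ` (definition in this file). `act ρ (g h) = act ρ g ∘ act ρ h`. For `g ∈ G`, `act ρ g`
maps `Coc Ls ρ N N` to itself: for `c` in it and `c' = act ρ g c`, `c' x = 0` for `x ∉ N` (`N` normal);
`c' (x y) = ρ g (c (g⁻¹ x g) + ρ (g⁻¹ x g) (c (g⁻¹ y g))) = c' x + ρ x (c' y)`; locally constant: if `c = 0` on
`N ∩ O` then `c' = 0` on `N ∩ g O g⁻¹`; local condition: `Λ' = g⁻¹ Λ g ∈ Ls`, `c = ρ . s - s` on `Λ' ∩ N` gives
`c' x = ρ g (ρ (g⁻¹ x g) s - s) = ρ x (ρ g s) - ρ g s` for `x ∈ Λ ∩ N`. It maps `cob ρ N s` to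
`cob ρ N (ρ g s)` by the same computation. So `act ρ γ` induces an endomorphism `A` of `HN Ls ρ N`; put
`T = A - 1`. As `p = 0` on `HN`, `T ^ p ^ n = A ^ p ^ n - 1` (`sub_pow_char_pow_of_commute` in the ring
`Module.End`, which has characteristic `p` unless trivial, or `Commute.add_pow_prime_pow`..., or use
`Commute` and an exponential induction), and `A ^ p ^ n` is induced by `act ρ (γ ^ p ^ n)`: this is the
second property. LOCALLY NILPOTENT: let `c ∈ Coc Ls ρ N N`; let `O` be an open normal subgroup with `c = 0`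
on `N ∩ O` and `ρ = 1` on `O`; by `pro` `u = γ ^ p ^ n ∈ O` for some `n`. For `x ∈ N`,
`(act ρ u c) x = c (u⁻¹ x u)` and `u⁻¹ x u = x (x⁻¹ u⁻¹ x u)` with `x⁻¹ u⁻¹ x u ∈ O ∩ N` (`N`, `O` normal), so
`c (u⁻¹ x u) = c x + ρ x 0 = c x`. So `act ρ u c = c` and `T ^ p ^ n [c] = 0`. -/
def S_Op : Prop :=
  ∀ (G : Type) [Group G] [TopologicalSpace G] [IsTopologicalGroup G] [CompactSpace G]
    [TotallyDisconnectedSpace G] [T2Space G] (p : ℕ) [Fact p.Prime] (Ls : Set (Subgroup G))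
    (N : Subgroup G) (γ : G), Zq p ⊤ N γ → (∀ g : G, ∀ Λ ∈ Ls, cj g Λ ∈ Ls) →
    ∀ (S : Type) [AddCommGroup S] [Module (ZMod p) S] (ρ : Representation (ZMod p) G S),
      (∃ O : OpenSubgroup G, ∀ g ∈ O, ρ g = 1) →
      ∃ T : HN Ls ρ N →ₗ[ZMod p] HN Ls ρ N,
        (∀ v, ∃ n : ℕ, (T ^ p ^ n) v = 0) ∧
        ∀ (n : ℕ) (c c' : Coc Ls ρ N N), (c' : G → S) = act ρ (γ ^ p ^ n) c →
          (T ^ p ^ n) (Submodule.Quotient.mk c) = Submodule.Quotient.mk c' - Submodule.Quotient.mk c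

/-- (250 lines) **Dimension formula.** `Y` is a layer (`S_Lev`), `Γ = γ ^ p ^ n`, so `Zq p Y N Γ`. `T` is the
operator, of which we only need the formula `h1` for `T ^ p ^ n` (named `U` here).
PROOF (uses `S_CocX`, `S_Uni`). Let `Z = Coc Ls ρ Y N` and `r : Z → Coc Ls ρ N N` the restriction to `N`
(cut to `N`), `q : Z → HN` the composite with the quotient map. RANGE of `q` is the kernel of `U`:
(a) let `c ∈ Z`, `x ∈ N`. The cocycle identity on `Y` gives
`c (Γ x Γ⁻¹) = c Γ + ρ Γ (c x) - ρ (Γ x Γ⁻¹) (c Γ)`, that is, replacing `x` by `Γ⁻¹ x Γ`,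
`(act ρ Γ (r c)) x = c x + ρ x (c Γ) - c Γ`; so `act ρ Γ (r c) - r c = cob ρ N (c Γ)` and `U (q c) = 0`.
(b) conversely let `c ∈ Coc Ls ρ N N` with `U [c] = 0`: `act ρ Γ c - c = cob ρ N t` for some `t ∈ S`, i.e.
for `x ∈ N`: `ρ Γ (c (Γ⁻¹ x Γ)) = c x + ρ x t - t`; replacing `x` by `Γ x Γ⁻¹` this is the hypothesis of
`S_CocX` (for `Y`, `N`, `Γ`), so there is `c' ∈ Coc ∅ ρ Y Y` equal to `c` on `N`; it is in `Z`, `r c' = c`.
KERNEL of `q` has dimension `dim S`: let `K = ker q`, `S^N = {s : ρ x s = s for x ∈ N}`,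
`K₀ = {c ∈ Z : c = 0 on N} ≤ K`. (c) `K₀ → S^N`, `c ↦ c Γ` is bijective: for `x ∈ N`,
`c (x Γ) = ρ x (c Γ)` and `c (x Γ) = c (Γ (Γ⁻¹ x Γ)) = c Γ`, so `c Γ ∈ S^N`; injective by `S_Uni`; surjective by
`S_CocX` with `c = 0`, `t ∈ S^N` (`ρ (Γ x Γ⁻¹) t = t`). (d) `r` maps `K` onto the range `B` of `cob ρ N`
(`cob ρ Y s ∈ Z` restricts to `cob ρ N s`; it is locally constant because `ρ` is locally trivial), with
kernel `K₀`; `cob ρ N : S → B` has kernel `S^N`. So `dim K = dim K₀ + dim B = dim S^N + dim B = dim S`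
(all finite). With `LinearMap.rank_range_add_rank_ker` we get the claim. -/
def S_Dim : Prop :=
  S_CocX → S_Uni → S_Semi → S_Val → ∀ (G : Type) [Group G] [TopologicalSpace G]
    [IsTopologicalGroup G] [CompactSpace G] [TotallyDisconnectedSpace G] [T2Space G]
    (p : ℕ) [Fact p.Prime] (Ls : Set (Subgroup G)) (Y N : Subgroup G) (Γ : G), Zq p Y N Γ →
    (∀ y ∈ Y, ∀ Λ ∈ Ls, cj y Λ ∈ Ls) →
    ∀ (S : Type) [AddCommGroup S] [Module (ZMod p) S] [Finite S]
      (ρ : Representation (ZMod p) G S), (∃ O : OpenSubgroup G, ∀ g ∈ O, ρ g = 1) →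
      ∀ U : HN Ls ρ N →ₗ[ZMod p] HN Ls ρ N,
        (∀ c c' : Coc Ls ρ N N, (c' : G → S) = act ρ Γ c →
          U (Submodule.Quotient.mk c) = Submodule.Quotient.mk c' - Submodule.Quotient.mk c) →
        Module.rank (ZMod p) (Coc Ls ρ Y N) =
          Module.rank (ZMod p) (LinearMap.ker U) + Module.rank (ZMod p) S

/-- (120 lines) **Linear algebra.** A locally nilpotent operator with slowly growing kernels lives on a
finite dimensional space.
PROOF. `ker (T ^ q) ≤ ker (T ^ q')`. If `ker (T ^ q')` were infinite dimensional, then by the hypothesis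
`rank ker (T ^ q') ≤ rank ker (T ^ q') + q < rank ker (T ^ q) + q'`, so `ker (T ^ q)` is infinite
dimensional, `rank ker (T ^ q) + q' = rank ker (T ^ q) ≤ rank ker (T ^ q')`: contradiction. So the
dimensions are natural numbers `d_i` for `i ≤ q'`, and `d_q' - d_q < q' - q`; as `d_i` is not decreasing
there is `i` with `q ≤ i < q'` and `d_(i+1) = d_i`, so `ker (T ^ (i + 1)) = ker (T ^ i)`, hence
`ker (T ^ j) = ker (T ^ i)` for all `j ≥ i` (if `T ^ (j + 1) v = 0` then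
`T ^ (j - i) v ∈ ker (T ^ (i + 1)) = ker (T ^ i)`), hence the whole space is `ker (T ^ i)`. -/
def S_Lin : Prop :=
  ∀ (p : ℕ) [Fact p.Prime] (V : Type) [AddCommGroup V] [Module (ZMod p) V]
    (T : V →ₗ[ZMod p] V), (∀ v, ∃ n : ℕ, (T ^ n) v = 0) → ∀ q q' : ℕ, q < q' →
    Module.rank (ZMod p) (LinearMap.ker (T ^ q')) + (q : Cardinal) <
      Module.rank (ZMod p) (LinearMap.ker (T ^ q)) + (q' : Cardinal) → Finite V

/-! ## Local conditions -/

/-- (200 lines) **The local map.** `Λ` is a closed subgroup (in the application `Λ = D ∩ Y` with `D` a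
decomposition group); `δ` generates topologically `Λ / (Λ ∩ N)`.
PROOF (uses `S_Uni`). Let `Z` be the space of the hypothesis (`Coc {Λ} ρ Y N`), `M = Λ ∩ N`,
`W = {s : ρ x s = s for x ∈ M}`, `d = dim {s : ρ x s = s for x ∈ Λ}`. `Λ` maps `W` to itself (`N` is normal).
The linear map `∂ : S → (G → S)`, `s ↦ cob ρ M s`, has kernel `W`; for `c ∈ Z` the restriction of `c` to
`M` (cut) is in its range. Choose a linear right inverse of `∂ : S → range ∂`
(`LinearMap.exists_rightInverse_of_surjective`); this gives a linear map `c ↦ s_c` on `Z` with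
`c x = ρ x s_c - s_c` for `x ∈ M`. Put `c₁ = c - (ρ . s_c - s_c)` on `Λ`: a cocycle on `Λ` which vanishes on
`M`; `w_c = c₁ δ` is in `W`: for `x ∈ M`, `c₁ (x δ) = ρ x (c₁ δ)` and
`c₁ (x δ) = c₁ (δ (δ⁻¹ x δ)) = c₁ δ` (`δ⁻¹ x δ ∈ M`). Let `ℓ c` be the class of `w_c` in
`W / (ρ δ - 1) W`; the dimension of this quotient is `dim ker (ρ δ - 1 | W) = d`: if `s ∈ W` and `ρ δ s = s`
then `ρ y s = s` for all `y ∈ Λ` (the cocycle `ρ . s - s` on `Λ` vanishes on `M` and at `δ`, use `S_Uni` for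
`Λ`, `M`). If `ℓ c = 0` then `c₁ δ = ρ δ w - w`, `w ∈ W`, and the cocycle `c₁ - (ρ . w - w)` on `Λ` vanishes
on `M` and at `δ`, so it is `0` (`S_Uni`) and `c = ρ . (s_c + w) - (s_c + w)` on `Λ`. -/
def S_LocD : Prop :=
  S_Uni → ∀ (G : Type) [Group G] [TopologicalSpace G] [IsTopologicalGroup G] (p : ℕ)
    [Fact p.Prime] (Y N Λ : Subgroup G) (δ : G), Λ ≤ Y →
    (∀ y ∈ Y, ∀ n ∈ N, y * n * y⁻¹ ∈ N) → δ ∈ Λ →
    (∀ y ∈ Λ, ∀ O : OpenSubgroup G, ∃ j : ℕ, ∃ t ∈ Λ ⊓ N, y⁻¹ * δ ^ j * t ∈ O) →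
    ∀ (S : Type) [AddCommGroup S] [Module (ZMod p) S] [Finite S]
      (ρ : Representation (ZMod p) G S), (∃ O : OpenSubgroup G, ∀ g ∈ O, ρ g = 1) →
      ∀ Fix : Submodule (ZMod p) S, (∀ s, s ∈ Fix ↔ ∀ x ∈ Λ, ρ x s = s) →
      ∃ ℓ : Coc {Λ} ρ Y N →ₗ[ZMod p] (Fin (Module.finrank (ZMod p) Fix) → ZMod p),
        ∀ c : Coc {Λ} ρ Y N, ℓ c = 0 → ∃ s : S, ∀ g ∈ Λ, (c : G → S) g = ρ g s - s

/-- (250 lines) **All local maps together.** `X` is the set of the primes above `p`, with its action of `G`;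
`N` has finitely many orbits on it. Uses `S_LocD`, `S_Pc`, `S_Uni`.
PROOF. Choose `R' ⊆ R` which contains exactly one element of every `Y`-orbit on `X` (`N ≤ Y`). For
`x ∈ R'` let `Λ_x = stabilizer x ⊓ Y`, a closed subgroup; `δ_x` from `S_Pc` (with `Gq p ⊤ N γ`, `Λ_x ≤ ⊤`);
`Coc Ls ρ Y N ≤ Coc {Λ_x} ρ Y N` because the stabiliser of `x` is in `Ls` and `Λ_x ≤ stabilizer x`. Let
`ℓ_x` be the map from `S_LocD`, `F_x = {s : ρ g s = s for g ∈ Λ_x}`. The product of the `ℓ_x` is a linear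
map `ℓ` from `Coc Ls ρ Y N` to a space of dimension `∑ dim F_x`. (a) Its kernel is contained in
`Coc Ls ρ Y Y`: let `c` be in it. For `z ∈ X` write `z = y • x`, `y ∈ Y`, `x ∈ R'`; for `g ∈ Y` fixing `z`,
`g = y g' y⁻¹`, `g' ∈ Λ_x`, `c g' = ρ g' s - s`, and
`c (y g' y⁻¹) = c y + ρ y (c g') + ρ (y g') (c y⁻¹)`, `c y⁻¹ = - ρ y⁻¹ (c y)`, which is
`ρ g s' - s'` with `s' = ρ y s - c y`. So the local condition on `Y` holds for the stabiliser of
`z`, hence for every `Λ` contained in it; for the `Λ ≤ N` the conditions on `Λ ∩ N` and `Λ ∩ Y` are the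
same. (b) `∑ dim F_x ≤ dim EqF ρ Y`: the map which sends `(s_x) ∈ ∏ F_x` to the function
`φ (y • x) = ρ y s_x` (`y ∈ Y`, `x ∈ R'`; well defined) is linear and injective. So
`rank Coc Ls ρ Y N = rank ker ℓ + rank range ℓ ≤ rank Coc Ls ρ Y Y + rank EqF ρ Y`. -/
def S_LocE : Prop :=
  S_LocD → S_Pc → S_Uni → ∀ (G : Type) [Group G] [TopologicalSpace G] [IsTopologicalGroup G]
    [CompactSpace G] [TotallyDisconnectedSpace G] [T2Space G] (p : ℕ) [Fact p.Prime]
    (X : Type) [MulAction G X] (Ls : Set (Subgroup G)) (Y N : Subgroup G) (γ : G),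
    Gq p ⊤ N γ → N ≤ Y → IsOpen (Y : Set G) →
    (∀ x : X, IsClosed (MulAction.stabilizer G x : Set G)) →
    (∀ x : X, MulAction.stabilizer G x ∈ Ls) →
    (∀ Λ ∈ Ls, Λ ≤ N ∨ ∃ x : X, Λ ≤ MulAction.stabilizer G x) →
    (∃ R : Set X, R.Finite ∧ ∀ x : X, ∃ r ∈ R, ∃ n ∈ N, x = n • r) →
    ∀ (S : Type) [AddCommGroup S] [Module (ZMod p) S] [Finite S]
      (ρ : Representation (ZMod p) G S), (∃ O : OpenSubgroup G, ∀ g ∈ O, ρ g = 1) →
      Module.rank (ZMod p) (Coc Ls ρ Y N) ≤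
        Module.rank (ZMod p) (Coc Ls ρ Y Y) + Module.rank (ZMod p) (EqF (X := X) ρ Y)

/-- (60 lines) **The second term is bounded.**
PROOF. The restriction `EqF ρ Y → (R → S)` is injective (`N ≤ Y`), so the rank is at most
`|R| dim S`, independent of `Y`. -/
def S_EB : Prop :=
  ∀ (G : Type) [Group G] (p : ℕ) [Fact p.Prime] (X : Type) [MulAction G X] (N : Subgroup G),
    (∃ R : Set X, R.Finite ∧ ∀ x : X, ∃ r ∈ R, ∃ n ∈ N, x = n • r) →
    ∀ (S : Type) [AddCommGroup S] [Module (ZMod p) S] [Finite S]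
      (ρ : Representation (ZMod p) G S), ∃ b : ℕ, ∀ Y : Subgroup G, N ≤ Y →
        Module.rank (ZMod p) (EqF (X := X) ρ Y) ≤ (b : Cardinal)

/-! ## From characters of `N ∩ D` to cocycles on `N` -/

/-- (200 lines) **Dévissage.** `N`, `D` normal subgroups of `G`, `D` open, `U = N ∩ D`. For a finite
representation `ρ` trivial on `D` consider the set `Hom(ρ)` of the functions `ψ : G → S` which vanish
outside `U`, are additive on `U`, locally constant, vanish on `Λ ∩ U` for `Λ ∈ Ls` and satisfy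
`ψ (n u n⁻¹) = ρ n (ψ u)` for `n ∈ N`, `u ∈ U`. If `Hom(ρ)` is finite for all irreducible `ρ` then
`VV p Ls U` is finite.
PROOF. STEP 1: `Hom(ρ)` is finite for every finite `ρ` trivial on `D`, by strong induction on the
cardinality of `S`: if `S = 0` clear. Otherwise choose an invariant subspace `S' ≠ 0` of minimal
cardinality: the restriction of `ρ` to it is irreducible. The map `Hom(ρ) → Hom(S / S')` (composition with
the quotient map) has finite target (`S / S'` is smaller; it is again trivial on `D`) and two elements in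
the same fibre differ by an element of `Hom(S')`: finite. STEP 2: let `M = (G ⧸ D → ZMod p)` with
`(g m) x = m (g⁻¹ x)`, a finite representation, trivial on `D`. For `f ∈ VV p Ls U` let
`ψ_f : G → M` be `0` outside `U`, and for `u ∈ U`: `ψ_f u (n D) = f (n⁻¹ u n)` for `n ∈ N`, and
`ψ_f u x = 0` for the classes `x` which do not meet `N`. Well defined: `n D = n' D` with `n, n' ∈ N` gives
`n' = n v` with `v ∈ U`, and `f (v⁻¹ (n⁻¹ u n) v) = f (n⁻¹ u n)` since `f` is a homomorphism on `U`. It is in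
`Hom(M)`: additive; `f = 0` on `U ∩ O` gives `ψ_f = 0` on `U ∩ O'` where `O' ≤ O` is an open subgroup
normalised by `G` (the intersection of the finitely many conjugates, or
`exist_openNormalSubgroup...`, `G` is compact and totally disconnected); local condition: `n⁻¹ Λ n ∈ Ls`;
`ψ_f (n' u n'⁻¹) (n D) = f (n⁻¹ n' u n'⁻¹ n) = ψ_f u (n'⁻¹ n D)`. And `f ↦ ψ_f` is injective:
`ψ_f u (D) = f u`. -/
def S_Dev : Prop :=
  ∀ (G : Type) [Group G] [TopologicalSpace G] [IsTopologicalGroup G] [CompactSpace G]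
    [TotallyDisconnectedSpace G] [T2Space G] (p : ℕ) [Fact p.Prime] (Ls : Set (Subgroup G))
    (N D : Subgroup G), N.Normal → D.Normal → IsOpen (D : Set G) →
    (∀ g : G, ∀ Λ ∈ Ls, cj g Λ ∈ Ls) →
    (∀ (S : Type) [AddCommGroup S] [Module (ZMod p) S] [Finite S]
      (ρ : Representation (ZMod p) G S), Irr ρ → (∀ g ∈ D, ρ g = 1) →
      {ψ : G → S | (∀ g ∉ N ⊓ D, ψ g = 0) ∧
        (∀ g ∈ N ⊓ D, ∀ h ∈ N ⊓ D, ψ (g * h) = ψ g + ψ h) ∧
        (∃ O : OpenSubgroup G, ∀ g ∈ N ⊓ D, g ∈ O → ψ g = 0) ∧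
        (∀ Λ ∈ Ls, ∀ g ∈ Λ, g ∈ N ⊓ D → ψ g = 0) ∧
        ∀ n ∈ N, ∀ u ∈ N ⊓ D, ψ (n * u * n⁻¹) = ρ n (ψ u)}.Finite) →
    Finite (VV p Ls (N ⊓ D))

/-- (200 lines) **Extension of equivariant homomorphisms to cocycles.** (As `S_Ext`, whose proof is in
`Pool/Agent/Lib/MuZ/Ext.lean`; copy and adapt.)
PROOF. `U = N ∩ D` has finite index in `N`: choose a finite set `Tr ⊆ N`, `1 ∈ Tr`, such that every
`w ∈ N` is uniquely `w = u t`, `u ∈ U`, `t ∈ Tr`; write `t = s w`. STEP 1. For `ψ` in the set let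
`β_ψ (t, t') = ψ (t t' (s (t t'))⁻¹)`; the target is finite, so by subtraction it is enough to show that the
`ψ` with `β_ψ = 0` are finitely many. STEP 2. For such `ψ` put `F w = ψ (w (s w)⁻¹)` for `w ∈ N`, `F = 0`
outside `N`. If `w = u t`, `w' = u' t'` then
`w w' = u (t u' t⁻¹) (t t' (s (t t'))⁻¹) (s (t t'))`, so
`F (w w') = ψ u + ψ (t u' t⁻¹) + 0 = ψ u + ρ t (ψ u') = F w + ρ w (F w')` (`ρ u = 1`), `F = ψ` on `U`, and `F`
is locally constant (`ψ = 0` on `U ∩ O` gives `F = 0` on `N ∩ D ∩ O`). STEP 3. Let `R` be the finite set of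
the representatives of the bad `Λ`. For `Λ ∈ R` the restriction of `F` to `Λ ∩ N` vanishes on `Λ ∩ U`, so it is
determined by the values at finitely many elements (representatives of `(Λ ∩ N) / (Λ ∩ U)`:
`F (w v) = F w + ρ w (F v) = F w` for `v ∈ Λ ∩ U`); the target of this evaluation is finite, so again we may
assume that all these values are `0`: `F = 0` on `Λ ∩ N` for `Λ ∈ R`. Then `F ∈ Coc Ls ρ N N`: for `Λ ∈ Ls`
with `Λ ∩ N ≤ U` clear (`s = 0`); for `Λ = w Λ' w⁻¹`, `Λ' ∈ R`, `w ∈ N`, and `g ∈ Λ' ∩ N`: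
`F (w g w⁻¹) = F w + ρ w (F g) + ρ (w g) (F w⁻¹) = F w - ρ (w g w⁻¹) (F w)`, a coboundary with
`s = - F w`. The map `ψ ↦ F` is injective (`F = ψ` on `U`) into a finite set. -/
def S_ExtC : Prop :=
  ∀ (G : Type) [Group G] [TopologicalSpace G] [IsTopologicalGroup G] [CompactSpace G]
    (p : ℕ) [Fact p.Prime] (Ls : Set (Subgroup G)) (N D : Subgroup G), N.Normal → D.Normal →
    IsOpen (D : Set G) → (∀ g : G, ∀ Λ ∈ Ls, cj g Λ ∈ Ls) →
    (∃ R : Set (Subgroup G), R.Finite ∧ R ⊆ Ls ∧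
      ∀ Λ ∈ Ls, ¬ (Λ ⊓ N ≤ N ⊓ D) → ∃ Λ' ∈ R, ∃ w ∈ N, Λ = cj w Λ') →
    ∀ (S : Type) [AddCommGroup S] [Module (ZMod p) S] [Finite S]
      (ρ : Representation (ZMod p) G S), (∀ g ∈ D, ρ g = 1) → Finite (Coc Ls ρ N N) →
      {ψ : G → S | (∀ g ∉ N ⊓ D, ψ g = 0) ∧
        (∀ g ∈ N ⊓ D, ∀ h ∈ N ⊓ D, ψ (g * h) = ψ g + ψ h) ∧
        (∃ O : OpenSubgroup G, ∀ g ∈ N ⊓ D, g ∈ O → ψ g = 0) ∧
        (∀ Λ ∈ Ls, ∀ g ∈ Λ, g ∈ N ⊓ D → ψ g = 0) ∧
        ∀ n ∈ N, ∀ u ∈ N ⊓ D, ψ (n * u * n⁻¹) = ρ n (ψ u)}.Finite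

/-- (120 lines) **Restriction of cocycles.**
PROOF. `U = N ∩ D` acts trivially on `S`, so the restriction of `c ∈ Coc Ls ρ N N` to `U` (cut to `U`) is
additive, locally constant and vanishes on `Λ ∩ U` (`ρ g s - s = 0`). Choose a basis
`S ≃ (Fin d → ZMod p)`; the coordinates of the restriction are in `VV p Ls U`: finitely many
restrictions. If `c = c'` on `U` and on a finite set of representatives `t` of `N / U` then `c = c'`:
`c (t u) = c t + ρ t (c u)`. So `Coc Ls ρ N N` embeds in a finite set. -/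
def S_FwdC : Prop :=
  ∀ (G : Type) [Group G] [TopologicalSpace G] [IsTopologicalGroup G] [CompactSpace G]
    (p : ℕ) [Fact p.Prime] (Ls : Set (Subgroup G)) (N D : Subgroup G), IsOpen (D : Set G) →
    ∀ (S : Type) [AddCommGroup S] [Module (ZMod p) S] [Finite S]
      (ρ : Representation (ZMod p) G S), (∀ g ∈ D, ρ g = 1) → Finite (VV p Ls (N ⊓ D)) →
      Finite (Coc Ls ρ N N)

/-! ## Number theory -/

/-- (200 lines) **The Galois group of `Qcyc p`.** `σ` fixes `Qcyc p` iff it acts on the `p`-power roots of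
unity with finite order.
PROOF. (⇐) is the definition of `Qcyc`. (⇒) Let `w = 2 (p - 1)`. CLAIM: if `σ ^ m` fixes all `p`-power roots of
unity for some `m > 0` then `σ ^ w` does. Let `c_n` be a natural number with `σ z = z ^ c_n` for the
`p ^ n`-th roots of unity; `c_n` is prime to `p` (for `n ≥ 1`), `c_n' ≡ c_n mod p ^ n` for `n' ≥ n`,
`c_n ^ (w m) ≡ 1 mod p ^ n`. Put `b = c_n' ^ w`, `n' = n + v`, `v = v_p(m)`, `n' ≥ 3`: `b ≡ 1 mod p` (mod 8 if
`p = 2`), and `v_p(b ^ m - 1) = v_p(b - 1) + v_p(m)` (lifting the exponent; Mathlib: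
`Nat.emultiplicity_pow_sub_pow`, `Int.two_pow_sub_pow`, `padicValNat.pow_sub_pow`) or `b = 1`; so
`v_p(b - 1) ≥ n' - v = n` and `σ ^ w` fixes the `p ^ n`-th roots of unity, for all `n`. The set
`T' = {σ : σ ^ w fixes all p-power roots of unity}` is a subgroup (the Galois group acts on the roots of
unity through a commutative group) and closed; by the claim `Qcyc p` is its fixed field
(`IntermediateField.fixedField`), so by `InfiniteGalois.fixingSubgroup_fixedField` the fixing subgroup of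
`Qcyc p` is `T'`. -/
def S_TFix : Prop :=
  ∀ (p : ℕ), p.Prime → ∀ σ : Gal(Om/ℚ), σ ∈ (Qcyc p).fixingSubgroup →
    ∀ z : Om, (∃ n : ℕ, z ^ p ^ n = 1) → (σ ^ (2 * (p - 1))) z = z

/-- (250 lines) **`Gal(Qcyc p / ℚ)` is procyclic.** Uses `S_TFix`. Here `T` is the fixing subgroup of
`Qcyc p`, `w = 2 (p - 1)`; an element `σ` with `σ ^ w` trivial on all `p`-power roots of unity is in `T` by
the definition of `Qcyc`; with `S_TFix`: `T = {σ : σ ^ w = 1 on all p-power roots of unity}`.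
PROOF. Let `q = p` for `p` odd, `q = 4` for `p = 2`. For every `n` there is `σ` with `σ z = z ^ (1 + q)` for all
`p ^ n`-th roots of unity (the cyclotomic polynomial is irreducible over `ℚ`:
`IsCyclotomicExtension.autEquivPow`, or `z` and `z ^ (1 + q)` are conjugate,
`Polynomial.cyclotomic_eq_minpoly_rat`, `minpoly`-conjugacy and lifting to `Om`); by compactness there is
`δ` with `δ z = z ^ (1 + q)` for all `p`-power roots of unity. Let
`F_n = {σ : σ ^ w = 1 on the p^n-th roots of unity}`, closed, decreasing, with intersection `T`; so for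
every open subgroup `O`, which may be assumed normal, `F_n ⊆ O T` for some `n` (compactness; `O T` is
open). `gen`: let `σ ∈ Gal(Om/ℚ)`; let `σ z = z ^ c` for `z` in `μ_{p^n}`, `c` prime to `p`. There is `j` with
`c ^ w ≡ (1 + q) ^ (w j) mod p ^ n`: the group of the units of `ZMod (p ^ n)` which are `1` modulo `p`
(modulo `8` if `p = 2`) is cyclic generated by `(1 + q) ^ w` (orders: `ZMod.orderOf_one_add_prime`,
`ZMod.orderOf_five` in `Mathlib/RingTheory/ZMod/UnitsCyclic.lean`; for odd `p`, `1 + p` has order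
`p ^ (n - 1)` and `w` is prime to `p`; for `p = 2`, `5` has order `2 ^ (n - 2)` and `w = 2`) and `c ^ w` is in
it. So `σ⁻¹ δ ^ j ∈ F_n ⊆ O T`: `σ⁻¹ δ ^ j = o t`, `σ⁻¹ δ ^ j t⁻¹ ∈ O`. `quo`: `δ ^ p ^ a` acts on
`μ_{p^(a+1)}` as `1` (`(1 + q) ^ p ^ a ≡ 1 mod p ^ (a + 1)`), so it is in `F_n ⊆ O T` for `a` large, and for
`σ ∈ δ ^ j t O` (from `gen`) `σ ^ p ^ a ∈ δ ^ (j p ^ a) T O ⊆ T O` (`T` is normal: `Qcyc_normal` in AsmA, easy).
`inf`: if `δ ^ m ∈ T` then `(1 + q) ^ (m w) ≡ 1 mod p ^ n` for all `n`, so `(1 + q) ^ (m w) = 1`, `m = 0`. -/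
def S_QZ : Prop :=
  S_TFix → ∀ (p : ℕ) [Fact p.Prime],
    ∃ δ, Gq p (⊤ : Subgroup Gal(Om/ℚ)) (Qcyc p).fixingSubgroup δ

/-- (60 lines) **`Qcyc p` is unramified outside `p`.**
PROOF. Let `σ` be in the inertia group of `P`, `p ∉ P`, `z ^ p ^ n = 1`. Then `w = σ z / z` is a `p ^ n`-th root
of unity and `w - 1 ∈ P` (`σ z - z ∈ P`, `z` is a unit of `ZZ`). If `w ≠ 1` then
`1 + w + ... + w ^ (p ^ n - 1) = 0`, and it is `≡ p ^ n` modulo `P`, so `p ∈ P`: contradiction. So `σ` fixes all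
`p`-power roots of unity, hence it fixes `Qcyc p` (definition, `m = 1`). -/
def S_InT : Prop :=
  ∀ (p : ℕ), p.Prime → ∀ P : Ideal ZZ, P.IsPrime → (p : ZZ) ∉ P →
    P.inertia Gal(Om/ℚ) ≤ (Qcyc p).fixingSubgroup

/-- (100 lines) **Number fields.** Uses `S_QZ`, `S_Sub`, `S_PL`, `S_Pc`, `S_TFix`. The ambient group is
`Gal(Om/k)` now.
PROOF. `K = k.fixingSubgroup` is a closed (open) subgroup of finite index of `Gal(Om/ℚ)`, so
`δ ^ M ∈ K` for some `M > 0`; `S_Sub` gives `Gq p K (K ⊓ (Qcyc p).fixingSubgroup) δ'`, `S_PL` gives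
`Zq p K (K ⊓ ...) γ`. Transfer to the group `↥K` (subspace topology): for an open subgroup `O` of `↥K`
there is an open subgroup `O'` of `Gal(Om/ℚ)` with `O' ∩ K` inside `O` (`K` is open, so the image of `O` is
open). All fields are restrictions. -/
def S_NF : Prop :=
  S_QZ → S_Sub → S_PL → S_Pc → S_TFix → ∀ (p : ℕ) [Fact p.Prime] (k : IntermediateField ℚ Om),
    FiniteDimensional ℚ k →
    ∃ γ : k.fixingSubgroup, Zq p (⊤ : Subgroup k.fixingSubgroup)
      ((cyc p k).fixingSubgroup.subgroupOf k.fixingSubgroup) γ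

/-- (150 lines) **Layers as subgroups.**
PROOF. Infinite Galois theory: the maps `F ↦ F.fixingSubgroup` and `fixedField` are inverse bijections
between intermediate fields and closed subgroups, `[F : ℚ]` is the index of `F.fixingSubgroup` in
`Gal(Om/ℚ)` for finite `F` (see `Pool/Agent/Lib/MuZ/Vec.lean`, where such degrees are computed, and
`IntermediateField.finrank_eq_fixingSubgroup_index`). (1) If `Layer p k n F` then `F` is a number field, so
`F.fixingSubgroup` is open, contained in `k.fixingSubgroup` (`k ≤ F`), contains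
`(cyc p k).fixingSubgroup` and its index in `k.fixingSubgroup` is `[F : ℚ] / [k : ℚ] = p ^ n`. (2) Conversely
for an open subgroup `Y` of `k.fixingSubgroup` of index `p ^ n` which contains
`(cyc p k).fixingSubgroup` let `F` be the fixed field of (the image of) `Y`. -/
def S_Lay : Prop :=
  ∀ (p : ℕ) [Fact p.Prime] (k : IntermediateField ℚ Om), FiniteDimensional ℚ k →
    (∀ (n : ℕ) (F : IntermediateField ℚ Om), Layer p k n F →
      IsOpen ((F.fixingSubgroup.subgroupOf k.fixingSubgroup : Subgroup k.fixingSubgroup) :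
        Set k.fixingSubgroup) ∧
      (cyc p k).fixingSubgroup.subgroupOf k.fixingSubgroup ≤
        F.fixingSubgroup.subgroupOf k.fixingSubgroup ∧
      (F.fixingSubgroup.subgroupOf k.fixingSubgroup).index = p ^ n) ∧
    ∀ (n : ℕ) (Y : Subgroup k.fixingSubgroup), IsOpen (Y : Set k.fixingSubgroup) →
      (cyc p k).fixingSubgroup.subgroupOf k.fixingSubgroup ≤ Y → Y.index = p ^ n →
      ∃ F : IntermediateField ℚ Om, Layer p k n F ∧
        F.fixingSubgroup.subgroupOf k.fixingSubgroup = Y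

/-! ## Transfer between `Gal(Om/ℚ)` and `Gal(Om/k)` -/

/-- The set of the primes above `p`. -/
def PX (p : ℕ) : Type := {P : Ideal ZZ // P.IsPrime ∧ (p : ZZ) ∈ P}

instance PX.act (p : ℕ) (k : IntermediateField ℚ Om) : MulAction k.fixingSubgroup (PX p) where
  smul g P := ⟨(g : Gal(Om/ℚ)) • P.1, by
    have := P.2.1
    refine ⟨inferInstance, ?_⟩
    have h := Ideal.smul_mem_pointwise_smul (g : Gal(Om/ℚ)) (p : ZZ) P.1 P.2.2
    rwa [show (g : Gal(Om/ℚ)) • (p : ZZ) = (p : ZZ) from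
      map_natCast (MulSemiringAction.toRingHom Gal(Om/ℚ) ZZ (g : Gal(Om/ℚ))) p] at h⟩
  one_smul P := Subtype.ext (one_smul _ P.1)
  mul_smul g h P := Subtype.ext (mul_smul (g : Gal(Om/ℚ)) (h : Gal(Om/ℚ)) P.1)

/-- The local groups inside `Gal(Om/k)`. -/
def LocK (p : ℕ) (k : IntermediateField ℚ Om) : Set (Subgroup k.fixingSubgroup) :=
  (fun Λ => Λ.subgroupOf k.fixingSubgroup) '' Loc p

/-- (200 lines) **Transfer.** Uses `S_Conj`, `S_InT` and a form of `S_Orb`, `bad` (see `AsmA.lean`).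
PROOF. Everything is a rewriting between functions on `Gal(Om/ℚ)` with support in `k.fixingSubgroup` and
functions on `↥k.fixingSubgroup`. (1) conjugation of local groups: `S_Conj`. (2) the bijection
`f ↦ f ∘ Subtype.val` between `VV p (Loc p) (cyc p L).fixingSubgroup` (`k ≤ L`) and
`VV p (LocK p k) (N ⊓ D)`; open subgroups of `k.fixingSubgroup` come from open subgroups of `Gal(Om/ℚ)` and
conversely. (3), (4) are equivalences of definitions: `Coc (LocK p k) ρ Y Y = ZL p k F ρ` for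
`Y = F.fixingSubgroup.subgroupOf k.fixingSubgroup` (an open subgroup of `Gal(Om/ℚ)` contains the fixing
subgroup of a finite extension, `krullTopology_mem_nhds_one_iff`, and that one is open); the functions in
`EL` correspond to functions on `PX p` by restriction (linear equivalence). -/
def S_Tr : Prop :=
  S_Conj → ∀ (p : ℕ) [Fact p.Prime] (k : IntermediateField ℚ Om), FiniteDimensional ℚ k →
    (∀ g : k.fixingSubgroup, ∀ Λ ∈ LocK p k, cj g Λ ∈ LocK p k) ∧
    (∀ L : IntermediateField ℚ Om, FiniteDimensional ℚ L → k ≤ L →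
      (Finite (VV p (Loc p) (cyc p L).fixingSubgroup) ↔
        Finite (VV p (LocK p k) ((cyc p k).fixingSubgroup.subgroupOf k.fixingSubgroup ⊓
          L.fixingSubgroup.subgroupOf k.fixingSubgroup)))) ∧
    ∀ (S : Type) [AddCommGroup S] [Module (ZMod p) S]
      (ρ : Representation (ZMod p) k.fixingSubgroup S) (F : IntermediateField ℚ Om),
      Coc (LocK p k) ρ (F.fixingSubgroup.subgroupOf k.fixingSubgroup)
        (F.fixingSubgroup.subgroupOf k.fixingSubgroup) = ZL p k F ρ ∧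
      Module.rank (ZMod p) (EqF (X := PX p) ρ (F.fixingSubgroup.subgroupOf k.fixingSubgroup)) =
        Module.rank (ZMod p) (EL p k F ρ)

/-- (150 lines) **Local groups in `Gal(Om/k)`.** `hO` is the conclusion of `S_Orb`.
PROOF. (1) The stabiliser of an element of `PX p` is the trace of a decomposition group; it is closed (an
ideal is a set of elements of the discrete `ZZ`, `Pool/Agent/Lib/MuZ/Orb.lean` has `stab_closed`).
(2) definition of `Loc`. (3) An inertia group of `P` with `p ∉ P` lies in `(Qcyc p).fixingSubgroup` (`S_InT`);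
its trace on `k.fixingSubgroup` is in `(cyc p k).fixingSubgroup = k.fixingSubgroup ⊓ (Qcyc p).fixingSubgroup`;
an inertia group of `P` with `p ∈ P` is contained in the stabiliser (`Ideal.inertia_le_stabilizer`).
(4) `hO` for `l = p`, `F = k`: the elements `w` are in `(cyc p k).fixingSubgroup ≤ k.fixingSubgroup`. (5) as the
lemma `bad` in `Pool/Agent/Lib/MuZ/AsmA.lean` (it will be on main soon; it gives `Λ = cj u Λ'` in
`Gal(Om/ℚ)` with `u ∈ (cyc p L).fixingSubgroup ≤ (cyc p k).fixingSubgroup`); pass to the traces. -/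
def S_LK : Prop :=
  S_Conj → S_InT → S_Ram → (∀ (p l : ℕ), p.Prime → l.Prime → ∀ F : IntermediateField ℚ Om,
    FiniteDimensional ℚ F → ∃ R : Set (Ideal ZZ), R.Finite ∧ (∀ P ∈ R, P.IsPrime ∧ (l : ZZ) ∈ P) ∧
      ∀ P : Ideal ZZ, P.IsPrime → (l : ZZ) ∈ P → ∃ P' ∈ R, ∃ w ∈ (cyc p F).fixingSubgroup,
        P = w • P') →
  ∀ (p : ℕ) [Fact p.Prime] (k : IntermediateField ℚ Om), FiniteDimensional ℚ k →
    (∀ x : PX p, IsClosed (MulAction.stabilizer k.fixingSubgroup x : Set k.fixingSubgroup)) ∧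
    (∀ x : PX p, MulAction.stabilizer k.fixingSubgroup x ∈ LocK p k) ∧
    (∀ Λ ∈ LocK p k, Λ ≤ (cyc p k).fixingSubgroup.subgroupOf k.fixingSubgroup ∨
      ∃ x : PX p, Λ ≤ MulAction.stabilizer k.fixingSubgroup x) ∧
    (∃ R : Set (PX p), R.Finite ∧ ∀ x : PX p, ∃ r ∈ R,
      ∃ n ∈ (cyc p k).fixingSubgroup.subgroupOf k.fixingSubgroup, x = n • r) ∧
    ∀ L : IntermediateField ℚ Om, FiniteDimensional ℚ L → k ≤ L →
      ∃ R : Set (Subgroup k.fixingSubgroup), R.Finite ∧ R ⊆ LocK p k ∧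
        ∀ Λ ∈ LocK p k, ¬ (Λ ⊓ (cyc p k).fixingSubgroup.subgroupOf k.fixingSubgroup ≤
          (cyc p k).fixingSubgroup.subgroupOf k.fixingSubgroup ⊓
            L.fixingSubgroup.subgroupOf k.fixingSubgroup) →
          ∃ Λ' ∈ R, ∃ w ∈ (cyc p k).fixingSubgroup.subgroupOf k.fixingSubgroup, Λ = cj w Λ'

/-- **Theorem C** (finite level criterion). -/
def ThmC : Prop :=
  ∀ (p : ℕ) [Fact p.Prime] (k L : IntermediateField ℚ Om), FiniteDimensional ℚ L → k ≤ L →
    (∀ σ ∈ k.fixingSubgroup, ∀ x ∈ L, σ x ∈ L) →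
    (XFinGen p (cyc p L) ↔
      ∀ (S : Type) [AddCommGroup S] [Module (ZMod p) S] [Finite S]
        (ρ : Representation (ZMod p) k.fixingSubgroup S), Irr ρ →
        (∀ g : k.fixingSubgroup, (g : Gal(Om/ℚ)) ∈ L.fixingSubgroup → ρ g = 1) →
        ∃ (n : ℕ) (F : IntermediateField ℚ Om), Layer p k n F ∧
          (Module.rank (ZMod p) (ZL p k F ρ) + Module.rank (ZMod p) (EL p k F ρ) <
              ((p ^ n : ℕ) : Cardinal) + Module.rank (ZMod p) S ∨
            ∃ m < n, ∃ F' : IntermediateField ℚ Om, Layer p k m F' ∧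
              Module.rank (ZMod p) (ZL p k F ρ) + Module.rank (ZMod p) (EL p k F ρ) +
                ((p ^ m : ℕ) : Cardinal) <
              ((p ^ n : ℕ) : Cardinal) + Module.rank (ZMod p) (ZL p k F' ρ)))

end Pool.Agent.MuZ
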