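import Pool.Agent.Lib.MuZ.Spec

/-!
# Assembly of Theorem A
-/

open scoped Pointwise

noncomputable section

namespace Pool.Agent.MuZ

theorem fix_cyc (p : ℕ) (F : IntermediateField ℚ Om) :
    (cyc p F).fixingSubgroup = F.fixingSubgroup ⊓ (Qcyc p).fixingSubgroup := by
  unfold cyc
  exact IntermediateField.fixingSubgroup_sup

theorem mem_fix (F : IntermediateField ℚ Om) (σ : Gal(Om/ℚ)) :
    σ ∈ F.fixingSubgroup ↔ ∀ x ∈ F, σ x = x :=
  IntermediateField.mem_fixingSubgroup_iff F σ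

/-- The fixing subgroup of a number field as an open subgroup. -/
def opn (L : IntermediateField ℚ Om) [FiniteDimensional ℚ L] : OpenSubgroup Gal(Om/ℚ) :=
  ⟨L.fixingSubgroup, L.fixingSubgroup_isOpen⟩

/-- The group of `Qcyc p` is normal. -/
theorem Qcyc_normal (p : ℕ) (g n : Gal(Om/ℚ)) (hn : n ∈ (Qcyc p).fixingSubgroup) :
    g * n * g⁻¹ ∈ (Qcyc p).fixingSubgroup := by
  rw [mem_fix] at hn ⊢
  intro x hx
  have key : g⁻¹ x ∈ Qcyc p := by
    intro σ ⟨m, hm, hσ⟩
    have h1 : (g * σ * g⁻¹) x = x := by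
      apply hx
      refine ⟨m, hm, ?_⟩
      intro z ⟨j, hz⟩
      have h2 : (g * σ * g⁻¹) ^ m = g * σ ^ m * g⁻¹ := by
        rw [conj_pow]
      rw [h2]
      simp only [AlgEquiv.mul_apply]
      rw [hσ (g⁻¹ z) ⟨j, by rw [← map_pow, hz, map_one]⟩]
      change (g * g⁻¹) z = z
      simp
    have h3 : g (σ (g⁻¹ x)) = x := h1
    have h4 : g⁻¹ (g (σ (g⁻¹ x))) = σ (g⁻¹ x) := by
      change (g⁻¹ * g) (σ (g⁻¹ x)) = _
      simp
    rw [← h4, h3]
  have h5 := hn _ key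
  change g (n (g⁻¹ x)) = x
  rw [h5]
  change (g * g⁻¹) x = x
  simp

theorem fix_normal (k L : IntermediateField ℚ Om)
    (hnorm : ∀ σ ∈ k.fixingSubgroup, ∀ x ∈ L, σ x ∈ L) (g d : Gal(Om/ℚ))
    (hg : g ∈ k.fixingSubgroup) (hd : d ∈ L.fixingSubgroup) :
    g * d * g⁻¹ ∈ L.fixingSubgroup := by
  rw [mem_fix] at hd ⊢
  intro x hx
  have h1 : g⁻¹ x ∈ L := hnorm g⁻¹ (inv_mem hg) x hx
  change g (d (g⁻¹ x)) = x
  rw [hd _ h1]
  change (g * g⁻¹) x = x
  simp

/-- The bad local groups of `L` fall into finitely many classes. -/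
theorem bad (hRam : S_Ram) (hConj : S_Conj)
    (hOrb : ∀ (p l : ℕ), p.Prime → l.Prime → ∀ F : IntermediateField ℚ Om, FiniteDimensional ℚ F →
    ∃ R : Set (Ideal ZZ), R.Finite ∧ (∀ P ∈ R, P.IsPrime ∧ (l : ZZ) ∈ P) ∧
      ∀ P : Ideal ZZ, P.IsPrime → (l : ZZ) ∈ P → ∃ P' ∈ R, ∃ w ∈ (cyc p F).fixingSubgroup,
        P = w • P')
    (p : ℕ) [Fact p.Prime] (L : IntermediateField ℚ Om) [hL : FiniteDimensional ℚ L]
    (N : Subgroup Gal(Om/ℚ)) :
    ∃ R : Set (Subgroup Gal(Om/ℚ)), R.Finite ∧ R ⊆ Loc p ∧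
      ∀ Λ ∈ Loc p, ¬ (Λ ⊓ N ≤ N ⊓ L.fixingSubgroup) →
        ∃ Λ' ∈ R, ∃ u ∈ (cyc p L).fixingSubgroup, Λ = cj u Λ' := by
  classical
  obtain ⟨B, hB, hram⟩ := hRam L hL
  have hp : p.Prime := Fact.out
  -- the relevant prime numbers
  let Q : Finset ℕ := insert p B.primeFactors
  have hQ : ∀ l ∈ Q, l.Prime := by
    intro l hl
    rcases Finset.mem_insert.1 hl with h | h
    · exact h ▸ hp
    · exact Nat.prime_of_mem_primeFactors h
  choose! R hRfin hRpr hRorb using fun (l : ℕ) (hl : l.Prime) => hOrb p l hp hl L hL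
  let T : Set (Ideal ZZ) := ⋃ l ∈ Q, R l
  have hT : T.Finite := Set.Finite.biUnion (Finset.finite_toSet Q) (fun l hl => hRfin l (hQ l hl))
  have hTne : ∀ P ∈ T, P.IsPrime ∧ P ≠ ⊥ := by
    intro P hP
    simp only [T, Set.mem_iUnion] at hP
    obtain ⟨l, hl, hP⟩ := hP
    refine ⟨(hRpr l (hQ l hl) P hP).1, ?_⟩
    rintro rfl
    have h1 := (hRpr l (hQ l hl) ⊥ hP).2
    have h2 : (l : ZZ) = 0 := by simpa using h1
    have h3 : (l : ℕ) = 0 := by exact_mod_cast h2
    exact (hQ l hl).ne_zero h3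
  let T' : Set (Ideal ZZ) := R p
  have hT' : T'.Finite := hRfin p hp
  refine ⟨(fun P => P.inertia Gal(Om/ℚ)) '' T ∪
    (fun P => MulAction.stabilizer Gal(Om/ℚ) P) '' T', (hT.image _).union (hT'.image _), ?_, ?_⟩
  · rintro Λ (⟨P, hP, rfl⟩ | ⟨P, hP, rfl⟩)
    · exact Or.inl ⟨P, (hTne P hP).1, (hTne P hP).2, rfl⟩
    · exact Or.inr ⟨P, (hRpr p hp P hP).1, (hRpr p hp P hP).2, rfl⟩
  · rintro Λ (⟨P, hP, hPne, rfl⟩ | ⟨P, hP, hpP, rfl⟩) hbad
    · -- inertia
      have h1 : (B : ZZ) ∈ P := by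
        by_contra hcon
        apply hbad
        exact le_inf inf_le_right (inf_le_left.trans (hram P hP hcon))
      -- a prime factor of B lies in P
      have h2 : ∃ l ∈ B.primeFactors, (l : ZZ) ∈ P := by
        have h3 : ((∏ l ∈ B.primeFactors, l ^ B.factorization l : ℕ) : ZZ) ∈ P := by
          have := Nat.prod_factorization_pow_eq_self hB.ne'
          rw [Finsupp.prod] at this
          rw [Nat.support_factorization] at this
          rw [this]
          exact h1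
        rw [Nat.cast_prod] at h3
        obtain ⟨l, hl, h4⟩ := (hP.prod_mem_iff).1 h3
        refine ⟨l, hl, ?_⟩
        rw [Nat.cast_pow] at h4
        exact hP.mem_of_pow_mem _ h4
      obtain ⟨l, hl, hlP⟩ := h2
      have hlQ : l ∈ Q := Finset.mem_insert_of_mem hl
      obtain ⟨P', hP', w, hw, hPP'⟩ := hRorb l (hQ l hlQ) P hP hlP
      refine ⟨P'.inertia Gal(Om/ℚ), Or.inl ⟨P', ?_, rfl⟩, w, hw, ?_⟩
      · simp only [T, Set.mem_iUnion]
        exact ⟨l, hlQ, hP'⟩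
      · rw [hPP', hConj.2.1]
    · obtain ⟨P', hP', w, hw, hPP'⟩ := hRorb p hp P hP hpP
      refine ⟨MulAction.stabilizer Gal(Om/ℚ) P', Or.inr ⟨P', hP', rfl⟩, w, hw, ?_⟩
      rw [hPP', hConj.2.2]

/-- **Theorem A** from the statements of the specification. -/
theorem thmA (hRes : S_Res) (hExt : S_Ext) (hAlg : S_Alg) (hCliff : S_Cliff) (hCrit : S_Crit)
    (hConj : S_Conj) (hRam : S_Ram) (hFrob : S_Frob) (hPow : S_Pow) (hTot : S_Tot)
    (hOrb : S_Orb) (hSup : S_Sup) (hFld : S_Fld) (hFwd : S_Fwd) (hBwd : S_Bwd) : ThmA := by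
  intro p _ k L Fs hfin hkL hnorm hFs hirr
  have hFinL : FiniteDimensional ℚ L := hfin
  constructor
  · intro hX F hF
    apply hBwd hSup
    have h1 := hFwd hFld p (cyc p L) hX
    refine hRes Gal(Om/ℚ) p (Loc p) (cyc p L).fixingSubgroup (cyc p F).fixingSubgroup (opn L)
      ?_ ?_ h1
    · rw [fix_cyc, fix_cyc]
      exact inf_le_inf_right _ (IntermediateField.fixingSubgroup_le (hFs F hF).2)
    · rw [fix_cyc, fix_cyc]
      change _ ⊓ L.fixingSubgroup ≤ _
      exact le_inf inf_le_right (inf_le_left.trans inf_le_right)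
  · intro hX
    apply hBwd hSup
    have hUeq : (cyc p L).fixingSubgroup = (cyc p k).fixingSubgroup ⊓
        ((opn L : OpenSubgroup Gal(Om/ℚ)) : Subgroup Gal(Om/ℚ)) := by
      rw [fix_cyc, fix_cyc]
      change _ = _ ⊓ L.fixingSubgroup
      apply le_antisymm
      · exact le_inf (le_inf (inf_le_left.trans (IntermediateField.fixingSubgroup_le hkL))
          inf_le_right) inf_le_left
      · exact le_inf inf_le_right (inf_le_left.trans inf_le_right)
    rw [hUeq]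
    refine hCrit hExt hAlg hCliff Gal(Om/ℚ) p (Loc p) k.fixingSubgroup (cyc p k).fixingSubgroup
      (opn L) ((fun F : IntermediateField ℚ Om => F.fixingSubgroup) '' Fs) ?_ ?_ ?_ ?_ ?_ ?_ ?_ ?_ ?_
    · rw [fix_cyc]
      exact inf_le_left
    · exact IntermediateField.fixingSubgroup_le hkL
    · intro g hg n hn
      rw [fix_cyc] at hn ⊢
      have h3 : g * n * g⁻¹ ∈ k.fixingSubgroup := by
        have h4 := hn.1
        exact mul_mem (mul_mem hg h4) (inv_mem hg)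
      exact ⟨h3, Qcyc_normal p g n hn.2⟩
    · intro g hg d hd
      exact fix_normal k L hnorm g d hg hd
    · intro g _ Λ hΛ
      exact hConj.1 p g Λ hΛ
    · obtain ⟨R, hR1, hR2, hR3⟩ := bad hRam hConj (hOrb hFrob hPow hTot) p L
        (cyc p k).fixingSubgroup
      refine ⟨R, hR1, hR2, ?_⟩
      intro Λ hΛ hb
      obtain ⟨Λ', h1, u, h2, h3⟩ := hR3 Λ hΛ hb
      refine ⟨Λ', h1, u, ?_, h3⟩
      rw [← hUeq]
      exact h2
    · rintro H ⟨F, hF, rfl⟩
      exact ⟨IntermediateField.fixingSubgroup_le (hFs F hF).2,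
        IntermediateField.fixingSubgroup_le (hFs F hF).1⟩
    · intro S _ _ _ τ hτ htriv
      obtain ⟨F, hF, v, hv, hfix⟩ := hirr S τ hτ htriv
      exact ⟨F.fixingSubgroup, ⟨F, hF, rfl⟩, v, hv, hfix⟩
    · rintro H ⟨F, hF, rfl⟩
      have h1 := hFwd hFld p (cyc p F) (hX F hF)
      have h2 : (cyc p F).fixingSubgroup = (cyc p k).fixingSubgroup ⊓ F.fixingSubgroup := by
        rw [fix_cyc, fix_cyc]
        apply le_antisymm
        · exact le_inf (le_inf (inf_le_left.trans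
            (IntermediateField.fixingSubgroup_le (hFs F hF).1)) inf_le_right) inf_le_left
        · exact le_inf inf_le_right (inf_le_left.trans inf_le_right)
      rw [h2] at h1
      exact h1

end Pool.Agent.MuZ
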