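import Pool.Agent.Lib.MuZ.Spec

/-!
# Finite decomposition: finitely many primes of `F^cyc` above a prime number
-/

open scoped Pointwise

noncomputable section

namespace Pool.Agent.MuZ

namespace Orb

theorem algOm : Algebra.IsAlgebraic ℚ Om := AlgebraicClosure.isAlgebraic ℚ

attribute [local instance] algOm

theorem intOm : Algebra.IsIntegral ℚ Om := Algebra.isAlgebraic_iff_isIntegral.mp algOm

attribute [local instance] intOm

theorem galOm : IsGalois ℚ Om := by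
  have : IsAlgClosure ℚ Om := ⟨inferInstance, algOm⟩
  have : Normal ℚ Om := IsAlgClosure.normal ℚ Om
  exact ⟨⟩

attribute [local instance] galOm

/-! ## Group theory -/

lemma reps {Γ : Type} [Group Γ] (M D A H : Subgroup Γ) [M.Normal] [A.FiniteIndex] [H.FiniteIndex]
    (h : ∀ τ ∈ A, ∃ δ ∈ D, δ⁻¹ * τ ∈ M) :
    ∃ T : Set Γ, T.Finite ∧ ∀ g : Γ, ∃ t ∈ T, ∃ w ∈ M ⊓ H, ∃ d ∈ D, g = w * t * d := by
  classical
  let c : Γ ⧸ H → Γ := fun q =>
    if hq : ∃ m ∈ M, (QuotientGroup.mk m : Γ ⧸ H) = q then hq.choose else 1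
  have hc : ∀ m ∈ M, c (QuotientGroup.mk m) ∈ M ∧
      (QuotientGroup.mk (c (QuotientGroup.mk m)) : Γ ⧸ H) = QuotientGroup.mk m := by
    intro m hm
    have hq : ∃ m' ∈ M, (QuotientGroup.mk m' : Γ ⧸ H) = QuotientGroup.mk m := ⟨m, hm, rfl⟩
    have e : c (QuotientGroup.mk m) = hq.choose := dif_pos hq
    rw [e]
    exact hq.choose_spec
  let r : Γ ⧸ A → Γ := fun q => q.out
  refine ⟨Set.range fun q : (Γ ⧸ H) × (Γ ⧸ A) => (c q.1)⁻¹ * r q.2, Set.finite_range _,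
    fun g => ?_⟩
  -- `g = r a`
  have ha : (r (QuotientGroup.mk g))⁻¹ * g ∈ A := by
    rw [← QuotientGroup.eq]
    exact QuotientGroup.out_eq' _
  set r0 := r (QuotientGroup.mk g) with hr0
  set a := r0⁻¹ * g with hadef
  obtain ⟨δ, hδ, hm⟩ := h a⁻¹ (A.inv_mem ha)
  set m := δ⁻¹ * a⁻¹ with hmdef
  have hga : g = r0 * m⁻¹ * r0⁻¹ * r0 * δ⁻¹ := by
    rw [hmdef, hadef]
    group
  have hm' : r0 * m⁻¹ * r0⁻¹ ∈ M := Subgroup.Normal.conj_mem inferInstance _ (M.inv_mem hm) _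
  set m' := r0 * m⁻¹ * r0⁻¹ with hm'def
  obtain ⟨h1, h2⟩ := hc m'⁻¹ (M.inv_mem hm')
  rw [QuotientGroup.eq] at h2
  set c0 := c (QuotientGroup.mk m'⁻¹) with hc0
  have h3 : m' * c0 ∈ H := by
    have := H.inv_mem h2
    simpa using this
  refine ⟨_, ⟨(QuotientGroup.mk m'⁻¹, QuotientGroup.mk g), rfl⟩, m' * c0,
    ⟨M.mul_mem hm' h1, h3⟩, δ⁻¹, D.inv_mem hδ, ?_⟩
  refine hga.trans ?_
  change m' * r0 * δ⁻¹ = m' * c0 * (c0⁻¹ * r0) * δ⁻¹
  group

/-! ## The action on the algebraic integers -/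

lemma isInv : Algebra.IsInvariant ℤ ZZ Gal(Om/ℚ) := by
  refine ⟨fun b hb => ?_⟩
  have h1 : (b : Om) ∈ Set.range (algebraMap ℚ Om) := by
    rw [InfiniteGalois.mem_range_algebraMap_iff_fixed]
    intro f
    have := hb f
    exact congrArg Subtype.val this
  obtain ⟨q, hq⟩ := h1
  have hbi : IsIntegral ℤ (b : Om) := b.2
  rw [← hq, isIntegral_algebraMap_iff (FaithfulSMul.algebraMap_injective ℚ Om)] at hbi
  obtain ⟨a, rfl⟩ := IsIntegrallyClosed.algebraMap_eq_of_integral hbi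
  refine ⟨a, ?_⟩
  apply Subtype.ext
  rw [← hq]
  simp

lemma stab_open (x : ZZ) : IsOpen (MulAction.stabilizer Gal(Om/ℚ) x : Set Gal(Om/ℚ)) := by
  have := stabilizer_isOpen_of_isIntegral (K := ℚ) (x : Om)
  convert! this using 1
  ext g
  simp only [SetLike.mem_coe, MulAction.mem_stabilizer_iff]
  constructor
  · intro h
    exact congrArg Subtype.val h
  · intro h
    exact Subtype.ext h

lemma contSMul [TopologicalSpace ZZ] [DiscreteTopology ZZ] : ContinuousSMul Gal(Om/ℚ) ZZ :=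
  (continuousSMul_iff_stabilizer_isOpen (M := Gal(Om/ℚ)) (X := ZZ)).2 stab_open

lemma trans (l : ℕ) (hl : l.Prime) (P Q : Ideal ZZ) (hP : P.IsPrime) (hQ : Q.IsPrime)
    (hlP : (l : ZZ) ∈ P) (hlQ : (l : ZZ) ∈ Q) : ∃ g : Gal(Om/ℚ), Q = g • P := by
  let : TopologicalSpace ZZ := ⊥
  have : DiscreteTopology ZZ := ⟨rfl⟩
  have : ContinuousSMul Gal(Om/ℚ) ZZ := contSMul
  have := isInv
  apply Algebra.IsInvariant.exists_smul_of_under_eq_of_profinite (A := ℤ) (G := Gal(Om/ℚ)) P Q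
  have key : ∀ I : Ideal ZZ, I.IsPrime → (l : ZZ) ∈ I → I.under ℤ = Ideal.span {(l : ℤ)} := by
    intro I hI hlI
    have hmax : (Ideal.span {(l : ℤ)}).IsMaximal :=
      PrincipalIdealRing.isMaximal_of_irreducible (Nat.prime_iff_prime_int.mp hl).irreducible
    refine (hmax.eq_of_le ?_ ?_).symm
    · exact (Ideal.IsPrime.under ℤ I).ne_top
    · rw [Ideal.span_singleton_le_iff_mem]
      change algebraMap ℤ ZZ (l : ℤ) ∈ I
      simpa using hlI
  rw [key P hP hlP, key Q hQ hlQ]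

lemma stab_closed (P : Ideal ZZ) :
    IsClosed (MulAction.stabilizer Gal(Om/ℚ) P : Set Gal(Om/ℚ)) := by
  let : TopologicalSpace ZZ := ⊥
  have : DiscreteTopology ZZ := ⟨rfl⟩
  have : ContinuousSMul Gal(Om/ℚ) ZZ := contSMul
  have e : (MulAction.stabilizer Gal(Om/ℚ) P : Set Gal(Om/ℚ)) =
      ⋂ x : ZZ, (fun σ : Gal(Om/ℚ) => σ⁻¹ • x) ⁻¹' {y | y ∈ P ↔ x ∈ P} := by
    ext σ
    simp only [SetLike.mem_coe, MulAction.mem_stabilizer_iff, Set.mem_iInter, Set.mem_preimage,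
      Set.mem_ofPred_eq]
    rw [Ideal.ext_iff]
    simp only [Ideal.mem_pointwise_smul_iff_inv_smul_mem]
  rw [e]
  refine isClosed_iInter fun x => IsClosed.preimage ?_ (isClosed_discrete _)
  fun_prop

lemma eq_closed (τ : Gal(Om/ℚ)) (z : Om) : IsClosed {δ : Gal(Om/ℚ) | δ z = τ z} := by
  have h0 := stabilizer_isOpen_of_isIntegral (K := ℚ) z
  have h1 : IsClosed (MulAction.stabilizer Gal(Om/ℚ) z : Set Gal(Om/ℚ)) :=
    Subgroup.isClosed_of_isOpen _ h0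
  have e : {δ : Gal(Om/ℚ) | δ z = τ z} =
      (fun δ : Gal(Om/ℚ) => τ⁻¹ * δ) ⁻¹' (MulAction.stabilizer Gal(Om/ℚ) z : Set Gal(Om/ℚ)) := by
    ext δ
    simp only [Set.mem_ofPred_eq, Set.mem_preimage, SetLike.mem_coe, MulAction.mem_stabilizer_iff,
      mul_smul]
    rw [inv_smul_eq_iff]
    rfl
  rw [e]
  exact h1.preimage (by fun_prop)

/-- Compactness. -/
lemma compact_agree (p : ℕ) (P : Ideal ZZ) (τ : Gal(Om/ℚ))
    (h : ∀ n : ℕ, ∃ δ ∈ MulAction.stabilizer Gal(Om/ℚ) P, ∀ z : Om, z ^ p ^ n = 1 → δ z = τ z) :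
    ∃ δ ∈ MulAction.stabilizer Gal(Om/ℚ) P, ∀ z : Om, (∃ n : ℕ, z ^ p ^ n = 1) → δ z = τ z := by
  let C : ℕ → Set Gal(Om/ℚ) := fun n =>
    (MulAction.stabilizer Gal(Om/ℚ) P : Set Gal(Om/ℚ)) ∩
      ⋂ z : {z : Om // z ^ p ^ n = 1}, {δ : Gal(Om/ℚ) | δ z.1 = τ z.1}
  have hcl : ∀ n, IsClosed (C n) := fun n =>
    (stab_closed P).inter (isClosed_iInter fun z => eq_closed τ z.1)
  have hne : (⋂ n, C n).Nonempty := by
    apply IsCompact.nonempty_iInter_of_sequence_nonempty_isCompact_isClosed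
    · intro n x hx
      refine ⟨hx.1, ?_⟩
      simp only [Set.mem_iInter, Subtype.forall, Set.mem_ofPred_eq]
      intro z hz
      have hz' : z ^ p ^ (n + 1) = 1 := by rw [pow_succ, pow_mul, hz, one_pow]
      have := hx.2
      simp only [Set.mem_iInter, Subtype.forall, Set.mem_ofPred_eq] at this
      exact this z hz'
    · intro n
      obtain ⟨δ, hδ, hz⟩ := h n
      refine ⟨δ, hδ, ?_⟩
      simp only [Set.mem_iInter, Subtype.forall, Set.mem_ofPred_eq]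
      exact hz
    · exact (hcl 0).isCompact
    · exact hcl
  obtain ⟨δ, hδ⟩ := hne
  rw [Set.mem_iInter] at hδ
  refine ⟨δ, (hδ 0).1, fun z ⟨n, hz⟩ => ?_⟩
  have := (hδ n).2
  simp only [Set.mem_iInter, Subtype.forall, Set.mem_ofPred_eq] at this
  exact this z hz

/-! ## The subgroup fixing all `p`-power roots of unity -/

/-- The elements which fix all `p`-power roots of unity. -/
def MM (p : ℕ) : Subgroup Gal(Om/ℚ) where
  carrier := {σ | ∀ z : Om, (∃ n : ℕ, z ^ p ^ n = 1) → σ z = z}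
  mul_mem' := by
    intro a b ha hb z hz
    rw [AlgEquiv.mul_apply, hb z hz, ha z hz]
  one_mem' := by
    intro z _
    rfl
  inv_mem' := by
    intro a ha z hz
    have := ha z hz
    calc a⁻¹ z = a⁻¹ (a z) := by rw [this]
      _ = z := by rw [← AlgEquiv.mul_apply, inv_mul_cancel, AlgEquiv.one_apply]

instance (p : ℕ) : (MM p).Normal where
  conj_mem := by
    intro m hm g z hz
    obtain ⟨n, hn⟩ := hz
    have h1 : m (g⁻¹ z) = g⁻¹ z := hm _ ⟨n, by rw [← map_pow, hn, map_one]⟩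
    rw [AlgEquiv.mul_apply, AlgEquiv.mul_apply, h1, ← AlgEquiv.mul_apply, mul_inv_cancel,
      AlgEquiv.one_apply]

lemma MM_le (p : ℕ) : MM p ≤ (Qcyc p).fixingSubgroup := by
  intro σ hσ
  rw [IntermediateField.mem_fixingSubgroup_iff]
  intro x hx
  exact hx σ ⟨1, one_pos, fun z hz => by rw [pow_one]; exact hσ z hz⟩

lemma finIndex_of_isOpen (H : Subgroup Gal(Om/ℚ)) (h : IsOpen (H : Set Gal(Om/ℚ))) :
    H.FiniteIndex := by
  have := Subgroup.quotient_finite_of_isOpen H h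
  exact Subgroup.finiteIndex_of_finite_quotient

/-- The elements fixing the `p^a`-th roots of unity. -/
def AA (p a : ℕ) : Subgroup Gal(Om/ℚ) :=
  ⨅ z : {z : Om // z ^ p ^ a = 1}, MulAction.stabilizer Gal(Om/ℚ) z.1

lemma AA_fin (p a : ℕ) (hp : p.Prime) : (AA p a).FiniteIndex := by
  have : Finite {z : Om // z ^ p ^ a = 1} := by
    have hpos : 0 < p ^ a := pow_pos hp.pos a
    have : {z : Om | z ^ p ^ a = 1} = (Polynomial.nthRootsFinset (p ^ a) (1 : Om) : Set Om) := by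
      ext z
      simp [Polynomial.mem_nthRootsFinset hpos]
    have hf : {z : Om | z ^ p ^ a = 1}.Finite := by
      rw [this]
      exact Finset.finite_toSet _
    exact hf.to_subtype
  exact Subgroup.finiteIndex_iInf fun z =>
    finIndex_of_isOpen _ (stabilizer_isOpen_of_isIntegral z.1)

lemma mem_AA {p a : ℕ} {τ : Gal(Om/ℚ)} : τ ∈ AA p a ↔ ∀ z : Om, z ^ p ^ a = 1 → τ z = z := by
  simp only [AA, Subgroup.mem_iInf, MulAction.mem_stabilizer_iff, Subtype.forall]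
  rfl

/-- The case `l ≠ p`. -/
lemma step_ne (hF : S_Frob) (hP : S_Pow) (p l : ℕ) (hp : p.Prime) (hl : l.Prime) (hne : p ≠ l)
    (P : Ideal ZZ) (hPp : P.IsPrime) (hlP : (l : ZZ) ∈ P) :
    ∃ A : Subgroup Gal(Om/ℚ), A.FiniteIndex ∧ ∀ τ ∈ A, ∀ n : ℕ,
      ∃ δ ∈ MulAction.stabilizer Gal(Om/ℚ) P, ∀ z : Om, z ^ p ^ n = 1 → δ z = τ z := by
  obtain ⟨σ, hσ, hσz⟩ := hF p l hp hl hne P hPp hlP
  obtain ⟨a, ha⟩ := hP p l hp hl hne
  refine ⟨AA p a, AA_fin p a hp, fun τ hτ => ?_⟩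
  rw [mem_AA] at hτ
  have hσj : ∀ (j : ℕ) (z : Om) (n : ℕ), z ^ p ^ n = 1 → (σ ^ j) z = z ^ l ^ j := by
    intro j
    induction j with
    | zero => intro z n hz; simp
    | succ j ih =>
      intro z n hz
      rw [pow_succ, AlgEquiv.mul_apply, hσz z n hz, map_pow, ih z n hz, ← pow_mul, ← pow_succ]
  have main : ∀ n : ℕ, a ≤ n →
      ∃ δ ∈ MulAction.stabilizer Gal(Om/ℚ) P, ∀ z : Om, z ^ p ^ n = 1 → δ z = τ z := by
    intro n hn
    have : NeZero (p ^ n) := ⟨(pow_pos hp.pos n).ne'⟩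
    obtain ⟨ζ, hζ⟩ := HasEnoughRootsOfUnity.exists_primitiveRoot Om (p ^ n)
    have h1 : (τ ζ) ^ p ^ n = 1 := by rw [← map_pow, hζ.pow_eq_one, map_one]
    obtain ⟨c, -, hc⟩ := hζ.eq_pow_of_pow_eq_one h1
    have hcz : ∀ z : Om, z ^ p ^ n = 1 → τ z = z ^ c := by
      intro z hz
      obtain ⟨i, -, rfl⟩ := hζ.eq_pow_of_pow_eq_one hz
      rw [map_pow, ← hc, ← pow_mul, ← pow_mul, mul_comm]
    have hc1 : c ≡ 1 [MOD p ^ a] := by
      have hζ' : IsPrimitiveRoot (ζ ^ p ^ (n - a)) (p ^ a) :=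
        hζ.pow (pow_pos hp.pos n) (by rw [← pow_add, Nat.sub_add_cancel hn])
      have h2 := hcz (ζ ^ p ^ (n - a)) (by rw [← pow_mul, mul_comm, pow_mul, hζ.pow_eq_one, one_pow])
      rw [hτ _ hζ'.pow_eq_one] at h2
      have h3 : (ζ ^ p ^ (n - a)) ^ c = (ζ ^ p ^ (n - a)) ^ 1 := by rw [pow_one]; exact h2.symm
      have h4 := hζ'.eq_orderOf
      have h5 : IsOfFinOrder (ζ ^ p ^ (n - a)) :=
        isOfFinOrder_iff_pow_eq_one.mpr ⟨p ^ a, pow_pos hp.pos a, hζ'.pow_eq_one⟩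
      rw [h4]
      exact h5.pow_eq_pow_iff_modEq.mp h3
    obtain ⟨j, hj⟩ := ha n c hc1
    refine ⟨σ ^ j, Subgroup.pow_mem _ hσ j, fun z hz => ?_⟩
    rw [hσj j z n hz, hcz z hz]
    have := hj.symm
    rw [← Nat.mod_add_div (l ^ j) (p ^ n), ← Nat.mod_add_div c (p ^ n)]
    rw [pow_add, pow_mul, pow_add, pow_mul, hz, one_pow, one_pow, this]
  intro n
  obtain ⟨δ, hδ, hz⟩ := main (max n a) (le_max_right _ _)
  refine ⟨δ, hδ, fun z h => hz z ?_⟩
  have : p ^ max n a = p ^ n * p ^ (max n a - n) := by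
    rw [← pow_add, Nat.add_sub_cancel' (le_max_left _ _)]
  rw [this, pow_mul, h, one_pow]

end Orb

open Orb in
theorem orb : S_Orb := by
  intro hFrob hPow hTot p l hp hl F hF
  by_cases hex : ∃ P : Ideal ZZ, P.IsPrime ∧ (l : ZZ) ∈ P
  swap
  · refine ⟨∅, Set.finite_empty, fun P hP => hP.elim, fun P h1 h2 => (hex ⟨P, h1, h2⟩).elim⟩
  obtain ⟨P, hP, hlP⟩ := hex
  have step : ∃ A : Subgroup Gal(Om/ℚ), A.FiniteIndex ∧ ∀ τ ∈ A, ∀ n : ℕ,
      ∃ δ ∈ MulAction.stabilizer Gal(Om/ℚ) P, ∀ z : Om, z ^ p ^ n = 1 → δ z = τ z := by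
    by_cases hne : p = l
    · subst hne
      exact ⟨⊤, inferInstance, fun τ _ n => hTot p hp P hP hlP τ n⟩
    · exact step_ne hFrob hPow p l hp hl hne P hP hlP
  obtain ⟨A, hA, hAτ⟩ := step
  have hAM : ∀ τ ∈ A, ∃ δ ∈ MulAction.stabilizer Gal(Om/ℚ) P, δ⁻¹ * τ ∈ MM p := by
    intro τ hτ
    obtain ⟨δ, hδ, hz⟩ := compact_agree p P τ (hAτ τ hτ)
    refine ⟨δ, hδ, fun z hn => ?_⟩
    rw [AlgEquiv.mul_apply, ← hz z hn, ← AlgEquiv.mul_apply, inv_mul_cancel, AlgEquiv.one_apply]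
  have := hF
  have : F.fixingSubgroup.FiniteIndex :=
    finIndex_of_isOpen _ (IntermediateField.fixingSubgroup_isOpen F)
  obtain ⟨T, hT, hTg⟩ := reps (MM p) (MulAction.stabilizer Gal(Om/ℚ) P) A F.fixingSubgroup hAM
  refine ⟨(fun t : Gal(Om/ℚ) => t • P) '' T, hT.image _, ?_, ?_⟩
  · rintro _ ⟨t, ht, rfl⟩
    refine ⟨inferInstance, ?_⟩
    change (l : ZZ) ∈ t • P
    rw [Ideal.mem_pointwise_smul_iff_inv_smul_mem]
    have : t⁻¹ • (l : ZZ) = (l : ZZ) := by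
      rw [← MulSemiringAction.toRingHom_apply Gal(Om/ℚ) ZZ t⁻¹, map_natCast]
    rw [this]
    exact hlP
  · intro Q hQ hlQ
    obtain ⟨g, rfl⟩ := trans l hl P Q hP hQ hlP hlQ
    obtain ⟨t, ht, w, hw, d, hd, rfl⟩ := hTg g
    refine ⟨t • P, ⟨t, ht, rfl⟩, w, ?_, ?_⟩
    · rw [cyc, IntermediateField.fixingSubgroup_sup]
      exact ⟨hw.2, MM_le p hw.1⟩
    · rw [mul_smul, mul_smul, MulAction.mem_stabilizer_iff.mp hd]

end Pool.Agent.MuZ
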