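import Pool.Agent.Lib.MuZ.Spec

/-!
# Powers of `l` modulo powers of `p`
-/

set_option autoImplicit false

open scoped Pointwise

namespace Pool.Agent.MuZ

namespace PowAux

/-- A power of `l` of the form `1 + p ^ a u`, `p ∤ u`. -/
theorem base (p l : ℕ) (hp : p.Prime) (hl : l.Prime) (hpl : p ≠ l) :
    ∃ m a u : ℕ, 1 ≤ a ∧ a + 2 ≤ p * a ∧ ¬ p ∣ u ∧ l ^ m = 1 + p ^ a * u := by
  have hp2 : 2 ≤ p := hp.two_le
  have hl2 : 2 ≤ l := hl.two_le
  have hcop : Nat.Coprime l p := (Nat.coprime_primes hl hp).2 (Ne.symm hpl)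
  have hpos : 1 < l ^ (2 * (p - 1)) := Nat.one_lt_pow (by omega) (by omega)
  obtain ⟨N, hN⟩ : ∃ N, l ^ (2 * (p - 1)) = 1 + N := ⟨l ^ (2 * (p - 1)) - 1, by omega⟩
  have hN0 : N ≠ 0 := by omega
  have hpN : p ∣ N := by
    have h1 : l ^ Nat.totient p ≡ 1 [MOD p] := Nat.ModEq.pow_totient hcop
    rw [Nat.totient_prime hp] at h1
    have h2 : l ^ (2 * (p - 1)) ≡ 1 [MOD p] := by
      have h3 := h1.pow 2
      rw [one_pow, ← pow_mul] at h3
      rwa [mul_comm 2 (p - 1)]
    rw [hN] at h2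
    have h3 : 1 ≡ 1 + N [MOD p] := h2.symm
    have h4 := (Nat.modEq_iff_dvd' (by omega)).1 h3
    simpa using h4
  obtain ⟨a, u, hu, hNu⟩ := Nat.exists_eq_pow_mul_and_not_dvd hN0 p hp.ne_one
  have ha : 1 ≤ a := by
    rcases Nat.eq_zero_or_pos a with h | h
    · subst h
      rw [pow_zero, one_mul] at hNu
      exact absurd (hNu ▸ hpN) hu
    · exact h
  refine ⟨2 * (p - 1), a, u, ha, ?_, hu, by rw [hN, hNu]⟩
  rcases Nat.lt_or_ge 2 p with h3 | h3
  · nlinarith
  · have hpe : p = 2 := le_antisymm h3 hp2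
    subst hpe
    have ha2 : 2 ≤ a := by
      by_contra hcon
      have ha1 : a = 1 := by omega
      subst ha1
      have hodd : l % 2 = 1 := by
        rcases hl.eq_two_or_odd with h | h
        · exact absurd h.symm hpl
        · exact h
      have h4 : 4 ∣ N := by
        have h5 : l ^ 2 % 4 = 1 := by
          have h6 : l % 4 = 1 ∨ l % 4 = 3 := by omega
          rcases h6 with h6 | h6 <;> simp [Nat.pow_mod, h6]
        have h7 : l ^ (2 * (2 - 1)) = l ^ 2 := by norm_num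
        rw [h7] at hN
        omega
      rw [hNu] at h4
      apply hu
      omega
    omega

/-- Solving a linear congruence with a natural number. -/
theorem lin (p : ℕ) (hp : p.Prime) (r s : ℤ) (hs : ¬ (p : ℤ) ∣ s) : ∃ i : ℕ, (p : ℤ) ∣ i * s - r := by
  have : Fact p.Prime := ⟨hp⟩
  have hs' : (s : ZMod p) ≠ 0 := by
    intro h
    exact hs ((ZMod.intCast_zmod_eq_zero_iff_dvd s p).1 h)
  refine ⟨((r : ZMod p) * (s : ZMod p)⁻¹).val, ?_⟩
  rw [← ZMod.intCast_zmod_eq_zero_iff_dvd]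
  push_cast
  rw [ZMod.natCast_zmod_val, mul_assoc, inv_mul_cancel₀ hs', mul_one, sub_self]

end PowAux

open PowAux

theorem pow : S_Pow := by
  intro p l hp hl hpl
  obtain ⟨m, a, u, ha, hap, hu, hL⟩ := base p l hp hl hpl
  have hpZ : Prime (p : ℤ) := Nat.prime_iff_prime_int.1 hp
  have huZ : ¬ (p : ℤ) ∣ (u : ℤ) := fun h => hu (Int.natCast_dvd_natCast.1 h)
  have hLZ : ((l : ℤ) ^ m) = 1 + (p : ℤ) ^ a * (u : ℤ) := by exact_mod_cast hL
  have hLp : ¬ (p : ℤ) ∣ (l : ℤ) ^ m := by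
    rw [hLZ]
    intro h
    have h1 : (p : ℤ) ∣ (p : ℤ) ^ a * (u : ℤ) := (dvd_pow_self _ (by omega)).mul_right _
    have h2 := (dvd_add_left h1).1 h
    exact hpZ.not_isUnit (isUnit_of_dvd_one h2)
  refine ⟨a, ?_⟩
  -- the statement over the integers
  have key : ∀ (c : ℤ), (p : ℤ) ^ a ∣ c - 1 → ∀ n : ℕ, ∃ j : ℕ, (p : ℤ) ^ n ∣ c - ((l : ℤ) ^ m) ^ j := by
    intro c hc n
    induction n with
    | zero => exact ⟨0, by simp⟩
    | succ n ih =>
      rcases Nat.lt_or_ge n a with hn | hn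
      · exact ⟨0, by rw [pow_zero]; exact (pow_dvd_pow _ hn).trans hc⟩
      · obtain ⟨j, r, hr⟩ := ih
        obtain ⟨y, hy⟩ := ZMod.exists_one_add_mul_pow_prime_pow_eq (R := ℤ) (u := (p : ℤ) ^ a)
          (v := (p : ℤ)) hp (dvd_pow_self _ (by omega)) (by
            rw [← pow_mul, mul_comm a p]
            have : (p : ℤ) * (p : ℤ) ^ a * (p : ℤ) = (p : ℤ) ^ (a + 2) := by ring
            rw [this]
            exact pow_dvd_pow _ hap) (u : ℤ) (n - a)
        rw [← hLZ] at hy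
        have hpn : (p : ℤ) ^ (n - a) * (p : ℤ) ^ a = (p : ℤ) ^ n := by
          rw [← pow_add, Nat.sub_add_cancel hn]
        rw [hpn] at hy
        set w : ℤ := (u : ℤ) + (p : ℤ) * y with hw
        have hwp : ¬ (p : ℤ) ∣ w := by
          intro h
          exact huZ ((dvd_add_left (dvd_mul_right _ _)).1 h)
        have hs : ¬ (p : ℤ) ∣ w * ((l : ℤ) ^ m) ^ j := by
          intro h
          rcases hpZ.dvd_or_dvd h with h | h
          · exact hwp h
          · exact hLp (hpZ.dvd_of_dvd_pow h)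
        obtain ⟨i, hi⟩ := lin p hp r _ hs
        refine ⟨j + p ^ (n - a) * i, ?_⟩
        have h1 : (p : ℤ) ^ (n + 1) ∣ (1 + (p : ℤ) ^ n * w) ^ i - (1 + i * ((p : ℤ) ^ n * w)) := by
          have h2 : ((p : ℤ) ^ n * w) ^ 2 ∣
              (1 + (p : ℤ) ^ n * w) ^ i - (1 + i * ((p : ℤ) ^ n * w)) := by
            generalize (p : ℤ) ^ n * w = z
            clear hi
            induction i with
            | zero => simp
            | succ i ih =>
              obtain ⟨q, hq⟩ := ih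
              refine ⟨q * (1 + z) + i, ?_⟩
              rw [pow_succ]
              push_cast
              linear_combination (1 + z) * hq
          refine dvd_trans ?_ h2
          rw [mul_pow, ← pow_mul]
          exact (pow_dvd_pow _ (by omega)).mul_right _
        obtain ⟨q1, hq1⟩ := h1
        obtain ⟨q2, hq2⟩ := hi
        refine ⟨-q2 - ((l : ℤ) ^ m) ^ j * q1, ?_⟩
        rw [pow_add, pow_mul, hy]
        rw [pow_succ] at hq1 ⊢
        linear_combination hr - (p : ℤ) ^ n * hq2 - ((l : ℤ) ^ m) ^ j * hq1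
  intro n c hc
  have hc' : (p : ℤ) ^ a ∣ (c : ℤ) - 1 := by
    have h := (Nat.modEq_iff_dvd.1 hc.symm)
    exact_mod_cast h
  obtain ⟨j, hj⟩ := key c hc' n
  refine ⟨m * j, ?_⟩
  refine Nat.ModEq.symm (Nat.modEq_iff_dvd.2 ?_)
  push_cast
  rwa [pow_mul]

end Pool.Agent.MuZ
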