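import Pool.Agent.Lib.MuZ.CSpec
import Pool.Agent.Lib.MuZ.AsmA
import Pool.Agent.Lib.MuZ.Orb
import Pool.Agent.Lib.MuZ.Pow

/-!
# The Galois group of `Qcyc p` is procyclic
-/

set_option autoImplicit false

open scoped Pointwise

noncomputable section

namespace Pool.Agent.MuZ

namespace QZ

/-! ## Arithmetic -/

/-- `(1 + z) ^ i` modulo `z ^ 2`. -/
theorem lin2 (z : ℤ) (i : ℕ) : z ^ 2 ∣ (1 + z) ^ i - (1 + i * z) := by
  induction i with
  | zero => simp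
  | succ i ih =>
    obtain ⟨q, hq⟩ := ih
    refine ⟨q * (1 + z) + i, ?_⟩
    rw [pow_succ]
    push_cast
    linear_combination (1 + z) * hq

/-- The powers of `L = 1 + p ^ a u` are all the residues which are `1` modulo `p ^ a`. -/
theorem key (p : ℕ) (hp : p.Prime) (a : ℕ) (ha : 1 ≤ a) (hap : a + 2 ≤ p * a) (u L : ℤ)
    (huZ : ¬ (p : ℤ) ∣ u) (hLZ : L = 1 + (p : ℤ) ^ a * u) (c : ℤ) (hc : (p : ℤ) ^ a ∣ c - 1)
    (n : ℕ) : ∃ j : ℕ, (p : ℤ) ^ n ∣ c - L ^ j := by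
  have hpZ : Prime (p : ℤ) := Nat.prime_iff_prime_int.1 hp
  have hLp : ¬ (p : ℤ) ∣ L := by
    rw [hLZ]
    intro h
    have h1 : (p : ℤ) ∣ (p : ℤ) ^ a * u := (dvd_pow_self _ (by omega)).mul_right _
    have h2 := (dvd_add_left h1).1 h
    exact hpZ.not_isUnit (isUnit_of_dvd_one h2)
  induction n with
  | zero => exact ⟨0, by simp⟩
  | succ n ih =>
    rcases Nat.lt_or_ge n a with hn | hn
    · exact ⟨0, by rw [pow_zero]; exact (pow_dvd_pow _ hn).trans hc⟩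
    · obtain ⟨j, r, hr⟩ := ih
      obtain ⟨y, hy⟩ := ZMod.exists_one_add_mul_pow_prime_pow_eq (R := ℤ) (u := (p : ℤ) ^ a)
        (v := (p : ℤ)) hp (dvd_pow_self _ (by omega)) (by
          rw [← pow_mul, mul_comm a p]
          have : (p : ℤ) * (p : ℤ) ^ a * (p : ℤ) = (p : ℤ) ^ (a + 2) := by ring
          rw [this]
          exact pow_dvd_pow _ hap) u (n - a)
      rw [← hLZ] at hy
      have hpn : (p : ℤ) ^ (n - a) * (p : ℤ) ^ a = (p : ℤ) ^ n := by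
        rw [← pow_add, Nat.sub_add_cancel hn]
      rw [hpn] at hy
      set w : ℤ := u + (p : ℤ) * y with hw
      have hwp : ¬ (p : ℤ) ∣ w := by
        intro h
        exact huZ ((dvd_add_left (dvd_mul_right _ _)).1 h)
      have hs : ¬ (p : ℤ) ∣ w * L ^ j := by
        intro h
        rcases hpZ.dvd_or_dvd h with h | h
        · exact hwp h
        · exact hLp (hpZ.dvd_of_dvd_pow h)
      obtain ⟨i, hi⟩ := PowAux.lin p hp r _ hs
      refine ⟨j + p ^ (n - a) * i, ?_⟩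
      have h1 : (p : ℤ) ^ (n + 1) ∣ (1 + (p : ℤ) ^ n * w) ^ i - (1 + i * ((p : ℤ) ^ n * w)) := by
        refine dvd_trans ?_ (lin2 _ i)
        rw [mul_pow, ← pow_mul]
        exact (pow_dvd_pow _ (by omega)).mul_right _
      obtain ⟨q1, hq1⟩ := h1
      obtain ⟨q2, hq2⟩ := hi
      refine ⟨-q2 - L ^ j * q1, ?_⟩
      rw [pow_add, pow_mul, hy]
      rw [pow_succ] at hq1 ⊢
      linear_combination hr - (p : ℤ) ^ n * hq2 - L ^ j * hq1

/-- The base `1 + q`, and the exponent `a`. -/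
theorem base (p : ℕ) (hp : p.Prime) : ∃ (b a : ℕ) (u : ℤ), 2 ≤ b ∧ 1 ≤ a ∧ a + 2 ≤ p * a ∧
    ¬ (p : ℤ) ∣ u ∧ ((b : ℤ) ^ (2 * (p - 1)) = 1 + (p : ℤ) ^ a * u) ∧ Nat.Coprime b p ∧
    ∀ c : ℕ, Nat.Coprime c p → (p : ℤ) ^ a ∣ (c : ℤ) ^ (2 * (p - 1)) - 1 := by
  rcases hp.eq_two_or_odd with rfl | hodd
  · refine ⟨5, 3, 3, by omega, by omega, by omega, by omega, by norm_num, by decide, ?_⟩
    intro c hc
    have hc2 : c % 2 = 1 := by
      rcases Nat.mod_two_eq_zero_or_one c with h | h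
      · exfalso
        have h2 : 2 ∣ Nat.gcd c 2 := Nat.dvd_gcd (Nat.dvd_of_mod_eq_zero h) dvd_rfl
        rw [hc] at h2
        omega
      · exact h
    obtain ⟨e, rfl⟩ : ∃ e, c = 2 * e + 1 := ⟨c / 2, by omega⟩
    have h3 : Even (e * (e + 1)) := Nat.even_mul_succ_self e
    obtain ⟨f, hf⟩ := h3
    refine ⟨f, ?_⟩
    have hf' : (e : ℤ) * (e + 1) = f + f := by exact_mod_cast hf
    push_cast
    linear_combination 4 * hf'
  · have hp3 : 3 ≤ p := by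
      have := hp.two_le
      rcases Nat.lt_or_ge p 3 with h | h
      · have : p = 2 := by omega
        subst this
        omega
      · exact h
    have hpZ : Prime (p : ℤ) := Nat.prime_iff_prime_int.1 hp
    obtain ⟨t, ht⟩ := lin2 (p : ℤ) (2 * (p - 1))
    refine ⟨1 + p, 1, ((2 * (p - 1) : ℕ) : ℤ) + p * t, by omega, le_rfl, by omega, ?_, ?_, ?_, ?_⟩
    · intro h
      have h1 : (p : ℤ) ∣ ((2 * (p - 1) : ℕ) : ℤ) := (dvd_add_left (dvd_mul_right _ _)).1 h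
      have h2 : p ∣ 2 * (p - 1) := Int.natCast_dvd_natCast.1 h1
      rcases (Nat.Prime.dvd_mul hp).1 h2 with h3 | h3
      · have := Nat.le_of_dvd (by omega) h3
        omega
      · have := Nat.le_of_dvd (by omega) h3
        omega
    · push_cast at ht ⊢
      linear_combination ht
    · rw [add_comm]
      simp
    · intro c hc
      have h1 : c ^ Nat.totient p ≡ 1 [MOD p] := Nat.ModEq.pow_totient hc
      rw [Nat.totient_prime hp] at h1
      have h2 : c ^ (2 * (p - 1)) ≡ 1 [MOD p] := by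
        have h3 := h1.pow 2
        rw [one_pow, ← pow_mul] at h3
        rwa [mul_comm 2 (p - 1)]
      have h4 := Nat.modEq_iff_dvd.1 h2.symm
      rw [pow_one]
      exact_mod_cast h4

/-- `x ≡ 1` modulo `p` implies `x ^ p ^ n ≡ 1` modulo `p ^ n`. -/
theorem ppow (p : ℕ) (x : ℤ) (h : (p : ℤ) ∣ x - 1) (n : ℕ) : (p : ℤ) ^ n ∣ x ^ p ^ n - 1 := by
  have h1 := dvd_sub_pow_of_dvd_sub (R := ℤ) (p := p) (a := x) (b := 1) h n
  rw [one_pow] at h1
  exact (pow_dvd_pow _ (Nat.le_succ n)).trans h1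

/-- The congruence which is needed for `gen`. -/
theorem cong (p : ℕ) (hp : p.Prime) (b a : ℕ) (u : ℤ) (ha : 1 ≤ a) (hap : a + 2 ≤ p * a)
    (hu : ¬ (p : ℤ) ∣ u) (hL : (b : ℤ) ^ (2 * (p - 1)) = 1 + (p : ℤ) ^ a * u) (c : ℕ)
    (hc : (p : ℤ) ^ a ∣ (c : ℤ) ^ (2 * (p - 1)) - 1) (n : ℕ) :
    ∃ j : ℕ, (c * b ^ j) ^ (2 * (p - 1)) ≡ 1 [MOD p ^ n] := by
  set w := 2 * (p - 1) with hw
  have hc1 : (p : ℤ) ∣ (c : ℤ) ^ w - 1 := (dvd_pow_self _ (by omega)).trans hc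
  have hc2 : (p : ℤ) ^ a ∣ ((c : ℤ) ^ w) ^ (p ^ n - 1) - 1 := by
    have h1 := sub_dvd_pow_sub_pow ((c : ℤ) ^ w) 1 (p ^ n - 1)
    rw [one_pow] at h1
    exact hc.trans h1
  obtain ⟨j, r, hr⟩ := key p hp a ha hap u _ hu hL _ hc2 n
  obtain ⟨s, hs⟩ := ppow p _ hc1 n
  refine ⟨j, ?_⟩
  refine Nat.ModEq.symm (Nat.modEq_iff_dvd.2 ?_)
  push_cast
  refine ⟨s - (c : ℤ) ^ w * r, ?_⟩
  have hpos : 0 < p ^ n := pow_pos hp.pos n
  have h2 : ((c : ℤ) ^ w) ^ p ^ n = (c : ℤ) ^ w * ((c : ℤ) ^ w) ^ (p ^ n - 1) := by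
    rw [← pow_succ', Nat.sub_add_cancel hpos]
  rw [mul_pow, ← pow_mul, mul_comm j w, pow_mul]
  linear_combination hs - (c : ℤ) ^ w * hr - h2

/-! ## The action on the roots of unity -/

/-- `σ` acts on the `p ^ n`-th roots of unity as the `c`-th power. -/
def Acts (p n : ℕ) (σ : Gal(Om/ℚ)) (c : ℕ) : Prop := ∀ z : Om, z ^ p ^ n = 1 → σ z = z ^ c

theorem Acts.mul {p n : ℕ} {σ τ : Gal(Om/ℚ)} {c d : ℕ} (h : Acts p n σ c) (h' : Acts p n τ d) :
    Acts p n (σ * τ) (c * d) := by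
  intro z hz
  rw [AlgEquiv.mul_apply, h' z hz, map_pow, h z hz, ← pow_mul]

theorem Acts.pow {p n : ℕ} {σ : Gal(Om/ℚ)} {c : ℕ} (h : Acts p n σ c) (j : ℕ) :
    Acts p n (σ ^ j) (c ^ j) := by
  induction j with
  | zero => intro z _; simp
  | succ j ih => rw [pow_succ, pow_succ]; exact ih.mul h

theorem Acts.mono {p n m : ℕ} (hnm : n ≤ m) {σ : Gal(Om/ℚ)} {c : ℕ} (h : Acts p m σ c) :
    Acts p n σ c := by
  intro z hz
  apply h z
  have : p ^ m = p ^ n * p ^ (m - n) := by rw [← pow_add, Nat.add_sub_cancel' hnm]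
  rw [this, pow_mul, hz, one_pow]

theorem Acts.fix {p n : ℕ} {σ : Gal(Om/ℚ)} {c : ℕ} (h : Acts p n σ c) (hc : c ≡ 1 [MOD p ^ n])
    (z : Om) (hz : z ^ p ^ n = 1) : σ z = z := by
  have hc' : c % p ^ n = 1 % p ^ n := hc
  rw [h z hz, ← Nat.mod_add_div c (p ^ n), pow_add, pow_mul, hz, one_pow, mul_one, hc']
  conv_rhs => rw [← pow_one z, ← Nat.mod_add_div 1 (p ^ n), pow_add, pow_mul, hz, one_pow, mul_one]

theorem exists_acts (p : ℕ) (hp : p.Prime) (n : ℕ) (σ : Gal(Om/ℚ)) :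
    ∃ c : ℕ, Nat.Coprime c p ∧ Acts p n σ c := by
  have : NeZero (p ^ (n + 1)) := ⟨(pow_pos hp.pos _).ne'⟩
  obtain ⟨ζ, hζ⟩ := HasEnoughRootsOfUnity.exists_primitiveRoot Om (p ^ (n + 1))
  have h1 : IsPrimitiveRoot (σ ζ) (p ^ (n + 1)) := hζ.map_of_injective σ.injective
  obtain ⟨c, -, hc, hcζ⟩ := (hζ.isPrimitiveRoot_iff).1 h1
  refine ⟨c, ?_, Acts.mono (Nat.le_succ n) ?_⟩
  · exact Nat.Coprime.coprime_dvd_right (dvd_pow_self p (Nat.succ_ne_zero n)) hc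
  · intro z hz
    obtain ⟨i, -, rfl⟩ := hζ.eq_pow_of_pow_eq_one hz
    rw [map_pow, ← hcζ, ← pow_mul, ← pow_mul, mul_comm]

/-- There is `δ` acting as the `b`-th power on all `p ^ n`-th roots of unity. -/
theorem exists_delta_n (p : ℕ) (hp : p.Prime) (b : ℕ) (hb : Nat.Coprime b p) (n : ℕ) :
    ∃ σ : Gal(Om/ℚ), Acts p n σ b := by
  have hn0 : 0 < p ^ n := pow_pos hp.pos _
  have : NeZero (p ^ n) := ⟨hn0.ne'⟩
  obtain ⟨ζ, hζ⟩ := HasEnoughRootsOfUnity.exists_primitiveRoot Om (p ^ n)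
  have hζb : IsPrimitiveRoot (ζ ^ b) (p ^ n) := hζ.pow_of_coprime b (Nat.Coprime.pow_right n hb)
  have h1 : minpoly ℚ ζ = minpoly ℚ (ζ ^ b) := by
    rw [← Polynomial.cyclotomic_eq_minpoly_rat hζ hn0, ← Polynomial.cyclotomic_eq_minpoly_rat hζb hn0]
  obtain ⟨σ, hσ⟩ := (Normal.minpoly_eq_iff_mem_orbit (F := ℚ) (E := Om)).1 h1.symm
  have hσ' : σ ζ = ζ ^ b := hσ
  refine ⟨σ, fun z hz => ?_⟩
  obtain ⟨i, -, rfl⟩ := hζ.eq_pow_of_pow_eq_one hz
  rw [map_pow, hσ', ← pow_mul, ← pow_mul, mul_comm]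

/-- The set where `δ z = y` is closed. -/
theorem eq_closed' (z y : Om) : IsClosed {δ : Gal(Om/ℚ) | δ z = y} := by
  rcases Set.eq_empty_or_nonempty {δ : Gal(Om/ℚ) | δ z = y} with h | ⟨τ, hτ⟩
  · rw [h]
    exact isClosed_empty
  · have h1 : τ z = y := hτ
    rw [← h1]
    exact Orb.eq_closed τ z

/-- There is `δ` acting as the `b`-th power on all `p`-power roots of unity. -/
theorem exists_delta (p : ℕ) (hp : p.Prime) (b : ℕ) (hb : Nat.Coprime b p) :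
    ∃ σ : Gal(Om/ℚ), ∀ n, Acts p n σ b := by
  let C : ℕ → Set Gal(Om/ℚ) := fun n =>
    ⋂ z : {z : Om // z ^ p ^ n = 1}, {δ : Gal(Om/ℚ) | δ z.1 = z.1 ^ b}
  have hcl : ∀ n, IsClosed (C n) := fun n => isClosed_iInter fun z => eq_closed' z.1 (z.1 ^ b)
  have hmem : ∀ n (δ : Gal(Om/ℚ)), δ ∈ C n ↔ Acts p n δ b := by
    intro n δ
    simp only [C, Set.mem_iInter, Subtype.forall, Set.mem_ofPred_eq]
    rfl
  have hne : (⋂ n, C n).Nonempty := by
    apply IsCompact.nonempty_iInter_of_sequence_nonempty_isCompact_isClosed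
    · intro n x hx
      rw [hmem] at hx ⊢
      exact hx.mono (Nat.le_succ n)
    · intro n
      obtain ⟨δ, hδ⟩ := exists_delta_n p hp b hb n
      exact ⟨δ, (hmem n δ).2 hδ⟩
    · exact (hcl 0).isCompact
    · exact hcl
  obtain ⟨δ, hδ⟩ := hne
  rw [Set.mem_iInter] at hδ
  exact ⟨δ, fun n => (hmem n δ).1 (hδ n)⟩

/-- Elements whose `w`-th power fixes many roots of unity are close to the fixing subgroup. -/
theorem near (p : ℕ) (hp : p.Prime) (O : OpenSubgroup Gal(Om/ℚ)) :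
    ∃ n : ℕ, ∀ σ : Gal(Om/ℚ), (∀ z : Om, z ^ p ^ n = 1 → (σ ^ (2 * (p - 1))) z = z) →
      ∃ t ∈ (Qcyc p).fixingSubgroup, σ * t ∈ O := by
  by_contra hcon
  push Not at hcon
  set w := 2 * (p - 1) with hw
  have hw0 : 0 < w := by
    have := hp.two_le
    omega
  let D : Set Gal(Om/ℚ) := ⋂ t : (Qcyc p).fixingSubgroup, {σ : Gal(Om/ℚ) | σ * t.1 ∉ O}
  let C : ℕ → Set Gal(Om/ℚ) := fun n => D ∩
    ⋂ z : {z : Om // z ^ p ^ n = 1}, {σ : Gal(Om/ℚ) | (σ ^ w) z.1 = z.1}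
  have hD : IsClosed D := by
    refine isClosed_iInter fun t => ?_
    have h1 : IsClosed ((O : Set Gal(Om/ℚ))ᶜ) := O.isOpen.isClosed_compl
    exact h1.preimage (f := fun σ : Gal(Om/ℚ) => σ * t.1) (by fun_prop)
  have hcl : ∀ n, IsClosed (C n) := by
    intro n
    refine hD.inter (isClosed_iInter fun z => ?_)
    exact (eq_closed' z.1 z.1).preimage (f := fun σ : Gal(Om/ℚ) => σ ^ w) (by fun_prop)
  have hmem : ∀ n (σ : Gal(Om/ℚ)), σ ∈ C n ↔ (∀ t ∈ (Qcyc p).fixingSubgroup, σ * t ∉ O) ∧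
      ∀ z : Om, z ^ p ^ n = 1 → (σ ^ w) z = z := by
    intro n σ
    simp only [C, D, Set.mem_inter_iff, Set.mem_iInter, Subtype.forall, Set.mem_ofPred_eq]
  have hne : (⋂ n, C n).Nonempty := by
    apply IsCompact.nonempty_iInter_of_sequence_nonempty_isCompact_isClosed
    · intro n x hx
      rw [hmem] at hx ⊢
      refine ⟨hx.1, fun z hz => hx.2 z ?_⟩
      rw [pow_succ, pow_mul, hz, one_pow]
    · intro n
      obtain ⟨σ, h1, h2⟩ := hcon n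
      exact ⟨σ, (hmem n σ).2 ⟨h2, h1⟩⟩
    · exact (hcl 0).isCompact
    · exact hcl
  obtain ⟨σ, hσ⟩ := hne
  rw [Set.mem_iInter] at hσ
  have hT : σ ∈ (Qcyc p).fixingSubgroup := by
    rw [mem_fix]
    intro x hx
    refine hx σ ⟨w, hw0, fun z hz => ?_⟩
    obtain ⟨n, hn⟩ := hz
    exact ((hmem n σ).1 (hσ n)).2 z hn
  apply ((hmem 0 σ).1 (hσ 0)).1 σ⁻¹ (inv_mem hT)
  rw [mul_inv_cancel]
  exact one_mem O

end QZ

open QZ in
theorem c_QZ : S_QZ := by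
  intro hTFix p hpf
  have hp : p.Prime := hpf.out
  obtain ⟨b, a, u, hb2, ha, hap, hu, hL, hbp, hcp⟩ := base p hp
  obtain ⟨δ, hδ⟩ := exists_delta p hp b hbp
  have hw0 : 0 < 2 * (p - 1) := by
    have := hp.two_le
    omega
  refine ⟨δ, ?_⟩
  refine { mem := Subgroup.mem_top _, le := le_top, nrm := ?_, cloY := ?_, cloN := ?_, gen := ?_,
           quo := ?_, inf := ?_ }
  · intro y _ n hn
    exact Qcyc_normal p y n hn
  · exact isClosed_univ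
  · exact InfiniteGalois.fixingSubgroup_isClosed _
  · intro y _ O
    obtain ⟨n, hn⟩ := near p hp O
    obtain ⟨c, hc, hcy⟩ := exists_acts p hp n y⁻¹
    obtain ⟨j, hj⟩ := cong p hp b a u ha hap hu hL c (hcp c hc) n
    obtain ⟨t, ht, hO⟩ := hn (y⁻¹ * δ ^ j) (((hcy.mul ((hδ n).pow j)).pow _).fix hj)
    exact ⟨j, t, ht, hO⟩
  · intro y _ O
    obtain ⟨n, hn⟩ := near p hp O
    obtain ⟨c, hc, hcy⟩ := exists_acts p hp n y
    have h1 : (p : ℤ) ∣ (c : ℤ) ^ (2 * (p - 1)) - 1 :=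
      (dvd_pow_self _ (by omega)).trans (hcp c hc)
    have h2 := ppow p _ h1 n
    have h3 : (c ^ p ^ n) ^ (2 * (p - 1)) ≡ 1 [MOD p ^ n] := by
      refine Nat.ModEq.symm (Nat.modEq_iff_dvd.2 ?_)
      push_cast
      rw [← pow_mul, mul_comm, pow_mul]
      exact h2
    obtain ⟨t, ht, hO⟩ := hn (y ^ p ^ n) (((hcy.pow (p ^ n)).pow _).fix h3)
    exact ⟨n, t, ht, hO⟩
  · intro m hm hmem
    have h1 := hTFix p hp (δ ^ m) hmem
    set w := 2 * (p - 1) with hw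
    have key : ∀ n : ℕ, p ^ n ∣ b ^ (m * w) - 1 := by
      intro n
      have : NeZero (p ^ n) := ⟨(pow_pos hp.pos _).ne'⟩
      obtain ⟨ζ, hζ⟩ := HasEnoughRootsOfUnity.exists_primitiveRoot Om (p ^ n)
      have h2 := h1 ζ ⟨n, hζ.pow_eq_one⟩
      have h3 : Acts p n ((δ ^ m) ^ w) ((b ^ m) ^ w) := ((hδ n).pow m).pow w
      rw [h3 ζ hζ.pow_eq_one, ← pow_mul] at h2
      have h4 : 1 ≤ b ^ (m * w) := Nat.one_le_pow _ _ (by omega)
      have h5 : ζ ^ (b ^ (m * w) - 1) = 1 := by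
        have h6 : ζ ≠ 0 := hζ.ne_zero (by exact (pow_pos hp.pos n).ne')
        have h7 : ζ ^ (b ^ (m * w) - 1) * ζ = 1 * ζ := by
          rw [← pow_succ, Nat.sub_add_cancel h4, one_mul, h2]
        exact mul_right_cancel₀ h6 h7
      exact (hζ.pow_eq_one_iff_dvd _).1 h5
    have hmw : m * w ≠ 0 := Nat.mul_ne_zero hm.ne' hw0.ne'
    have h2 : 2 ≤ b ^ (m * w) := by
      calc 2 ≤ b := hb2
        _ = b ^ 1 := (pow_one b).symm
        _ ≤ b ^ (m * w) := Nat.pow_le_pow_right (by omega) (Nat.one_le_iff_ne_zero.2 hmw)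
    have h3 := Nat.le_of_dvd (by omega) (key (b ^ (m * w)))
    have h4 : b ^ (m * w) < p ^ (b ^ (m * w)) := Nat.lt_pow_self hp.one_lt
    omega

end Pool.Agent.MuZ
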