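import Pool.Agent.Lib.MuZ.CSpec
import Pool.Agent.Lib.MuZ.AsmA

/-!
# Transfer between `Gal(Om/ℚ)` and `Gal(Om/k)`
-/

open scoped Pointwise

noncomputable section

namespace Pool.Agent.MuZ

namespace Tr

theorem mem_cj {G : Type} [Group G] (u g : G) (Λ : Subgroup G) :
    g ∈ cj u Λ ↔ u⁻¹ * g * u ∈ Λ := by
  unfold cj
  rw [Subgroup.mem_map]
  constructor
  · rintro ⟨x, hx, rfl⟩
    simpa [MulAut.conj_apply, mul_assoc] using hx
  · intro h
    exact ⟨u⁻¹ * g * u, h, by simp [MulAut.conj_apply, mul_assoc]⟩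

theorem cj_subgroupOf {G : Type} [Group G] (K : Subgroup G) (u : K) (Λ : Subgroup G) :
    cj u (Λ.subgroupOf K) = (cj (u : G) Λ).subgroupOf K := by
  ext g
  rw [mem_cj, Subgroup.mem_subgroupOf, Subgroup.mem_subgroupOf, mem_cj]
  simp

section Top

variable {G : Type} [Group G] [TopologicalSpace G] (K : Subgroup G)

/-- An open subgroup of an open subgroup is open. -/
def up (hK : IsOpen (K : Set G)) (O : OpenSubgroup K) : OpenSubgroup G :=
  ⟨(O : Subgroup K).map K.subtype, by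
    have h := hK.isOpenMap_subtype_val (O : Set K) O.isOpen
    exact h⟩

theorem mem_up (hK : IsOpen (K : Set G)) (O : OpenSubgroup K) (g : K) :
    (g : G) ∈ up K hK O ↔ g ∈ O := by
  constructor
  · rintro ⟨x, hx, hxg⟩
    have : x = g := Subtype.ext hxg
    rw [← this]
    exact hx
  · intro h
    exact ⟨g, h, rfl⟩

/-- The trace of an open subgroup. -/
def down (O : OpenSubgroup G) : OpenSubgroup K :=
  ⟨(O : Subgroup G).subgroupOf K, O.isOpen.preimage continuous_subtype_val⟩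

theorem mem_down (O : OpenSubgroup G) (g : K) : g ∈ down K O ↔ (g : G) ∈ O := Iff.rfl

/-- The characters of `W` and of its trace. -/
def eqv (p : ℕ) (hK : IsOpen (K : Set G)) (Ls : Set (Subgroup G)) (W : Subgroup G) (hW : W ≤ K) :
    VV p Ls W ≃ VV p ((fun Λ => Λ.subgroupOf K) '' Ls) (W.subgroupOf K) where
  toFun f := ⟨fun g => f.1 g, by
    obtain ⟨f, f1, f2, ⟨O, f3⟩, f4⟩ := f
    refine ⟨fun g hg => f1 _ hg, fun g hg h hh => f2 _ hg _ hh,
      ⟨down K O, fun g hg hO => f3 _ hg hO⟩, ?_⟩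
    rintro Λ ⟨Λ0, hΛ0, rfl⟩ g hg hW
    exact f4 Λ0 hΛ0 g hg hW⟩
  invFun f := ⟨fun g => by
      classical
      exact if h : g ∈ K then f.1 ⟨g, h⟩ else 0, by
    classical
    obtain ⟨f, f1, f2, ⟨O, f3⟩, f4⟩ := f
    refine ⟨fun g hg => ?_, fun g hg h hh => ?_, ⟨up K hK O, fun g hg hO => ?_⟩, ?_⟩
    · by_cases h : g ∈ K
      · simp only [h, dif_pos]
        exact f1 _ hg
      · simp [h]
    · have h1 := hW hg
      have h2 := hW hh
      have h3 := K.mul_mem h1 h2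
      simp only [h1, h2, h3, dif_pos]
      exact f2 ⟨g, h1⟩ hg ⟨h, h2⟩ hh
    · have h1 := hW hg
      simp only [h1, dif_pos]
      exact f3 ⟨g, h1⟩ hg ((mem_up K hK O ⟨g, h1⟩).1 hO)
    · intro Λ hΛ g hg hgW
      have h1 := hW hgW
      simp only [h1, dif_pos]
      exact f4 _ ⟨Λ, hΛ, rfl⟩ ⟨g, h1⟩ hg hgW⟩
  left_inv f := by
    classical
    apply Subtype.ext
    funext g
    by_cases h : g ∈ K
    · simp [h]
    · simp only [h, dif_neg, not_false_eq_true]
      exact (f.2.1 g (fun hg => h (hW hg))).symm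
  right_inv f := by
    classical
    apply Subtype.ext
    funext g
    simp

end Top

section Equi

variable {p : ℕ} {k F : IntermediateField ℚ Om} {S : Type} [AddCommGroup S] [Module (ZMod p) S]
  (ρ : Representation (ZMod p) k.fixingSubgroup S)

/-- The equivariant functions. -/
def eqE : EqF (X := PX p) ρ (F.fixingSubgroup.subgroupOf k.fixingSubgroup) ≃ₗ[ZMod p]
    EL p k F ρ where
  toFun φ := ⟨fun P => by
      classical
      exact if h : P.IsPrime ∧ (p : ZZ) ∈ P then φ.1 ⟨P, h⟩ else 0, by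
    classical
    obtain ⟨φ, hφ⟩ := φ
    refine ⟨fun P hP => by simp only [hP, dif_neg, not_false_eq_true], ?_⟩
    intro P hP hp g hg
    have h1 : P.IsPrime ∧ (p : ZZ) ∈ P := ⟨hP, hp⟩
    have h2 : ((g : Gal(Om/ℚ)) • P).IsPrime ∧ (p : ZZ) ∈ (g : Gal(Om/ℚ)) • P :=
      (show PX p from g • (show PX p from ⟨P, h1⟩)).2
    simp only [h1, h2, and_self, dif_pos]
    exact hφ g hg ⟨P, h1⟩⟩
  invFun φ := ⟨fun x => φ.1 x.1, by
    intro y hy x
    exact φ.2.2 x.1 x.2.1 x.2.2 y hy⟩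
  left_inv φ := by
    apply Subtype.ext
    funext x
    have h1 : x.1.IsPrime ∧ (p : ZZ) ∈ x.1 := x.2
    simp only [h1, and_self, dif_pos]
    rfl
  right_inv φ := by
    apply Subtype.ext
    funext P
    by_cases h : P.IsPrime ∧ (p : ZZ) ∈ P
    · simp only [h, and_self, dif_pos]
    · simp only [h, dif_neg, not_false_eq_true]
      exact (φ.2.1 P h).symm
  map_add' φ ψ := by
    apply Subtype.ext
    funext P
    by_cases h : P.IsPrime ∧ (p : ZZ) ∈ P
    · simp [h]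
    · simp [h]
  map_smul' r φ := by
    apply Subtype.ext
    funext P
    by_cases h : P.IsPrime ∧ (p : ZZ) ∈ P
    · simp [h]
    · simp [h]

end Equi

end Tr

open Tr in
theorem c_Tr : S_Tr := by
  intro hConj p _ k hk
  have hk' : FiniteDimensional ℚ k := hk
  have hKo : IsOpen (k.fixingSubgroup : Set Gal(Om/ℚ)) := k.fixingSubgroup_isOpen
  refine ⟨?_, ?_, ?_⟩
  · rintro g Λ ⟨Λ0, hΛ0, rfl⟩
    exact ⟨cj (g : Gal(Om/ℚ)) Λ0, hConj.1 p g Λ0 hΛ0, (cj_subgroupOf _ g Λ0).symm⟩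
  · intro L hL hkL
    have hLK : (cyc p L).fixingSubgroup ≤ k.fixingSubgroup := by
      rw [fix_cyc]
      exact inf_le_left.trans (IntermediateField.fixingSubgroup_le hkL)
    have hW : (cyc p k).fixingSubgroup.subgroupOf k.fixingSubgroup ⊓
        L.fixingSubgroup.subgroupOf k.fixingSubgroup =
        (cyc p L).fixingSubgroup.subgroupOf k.fixingSubgroup := by
      ext g
      rw [Subgroup.mem_inf, Subgroup.mem_subgroupOf, Subgroup.mem_subgroupOf,
        Subgroup.mem_subgroupOf, fix_cyc, fix_cyc, Subgroup.mem_inf, Subgroup.mem_inf]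
      constructor
      · rintro ⟨⟨_, h2⟩, h3⟩
        exact ⟨h3, h2⟩
      · rintro ⟨h1, h2⟩
        exact ⟨⟨g.2, h2⟩, h1⟩
    rw [hW]
    exact (eqv k.fixingSubgroup p hKo (Loc p) (cyc p L).fixingSubgroup hLK).finite_iff
  · intro S _ _ ρ F
    refine ⟨?_, (eqE (F := F) ρ).rank_eq⟩
    ext c
    constructor
    · rintro ⟨c1, c2, ⟨O, c3⟩, c4⟩
      refine ⟨fun g hg => c1 g hg, fun g h hg hh => c2 g hg h hh, ?_, ?_⟩
      · have h1 : ((up k.fixingSubgroup hKo O : OpenSubgroup Gal(Om/ℚ)) : Set Gal(Om/ℚ)) ∈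
            nhds (1 : Gal(Om/ℚ)) :=
          (up k.fixingSubgroup hKo O).isOpen.mem_nhds (one_mem _)
        obtain ⟨E, hE, hEO⟩ := (krullTopology_mem_nhds_one_iff ℚ Om _).1 h1
        refine ⟨E, hE, fun g hg hgE => c3 g hg ?_⟩
        exact (mem_up k.fixingSubgroup hKo O g).1 (hEO hgE)
      · intro Λ hΛ
        obtain ⟨s, hs⟩ := c4 _ ⟨Λ, hΛ, rfl⟩
        exact ⟨s, fun g hg hgΛ => hs g hgΛ hg⟩
    · rintro ⟨c1, c2, ⟨E, hE, c3⟩, c4⟩
      have hE' : FiniteDimensional ℚ E := hE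
      refine ⟨fun g hg => c1 g hg, fun g hg h hh => c2 g h hg hh, ?_, ?_⟩
      · exact ⟨down k.fixingSubgroup (opn E), fun g hg hgE => c3 g hg hgE⟩
      · rintro Λ ⟨Λ0, hΛ0, rfl⟩
        obtain ⟨s, hs⟩ := c4 Λ0 hΛ0
        exact ⟨s, fun g hgΛ hg => hs g hg hgΛ⟩

end Pool.Agent.MuZ
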