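import Pool.Agent.Lib.MuZ.Spec

/-!
# Finite modules
-/

noncomputable section

namespace Pool.Agent.MuZ

section Alg

variable {N : Type} [Group N] {p : ℕ} [Fact p.Prime]

/-- The restriction of a representation to an invariant subspace. -/
def alg_sub {M : Type} [AddCommGroup M] [Module (ZMod p) M] (μ : Representation (ZMod p) N M)
    (S : Submodule (ZMod p) M) (hS : ∀ g : N, ∀ w ∈ S, μ g w ∈ S) :
    Representation (ZMod p) N S where
  toFun g := (μ g).restrict (hS g)
  map_one' := by
    ext w
    simp
  map_mul' g h := by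
    ext w
    simp

theorem alg_sub_apply {M : Type} [AddCommGroup M] [Module (ZMod p) M]
    (μ : Representation (ZMod p) N M) (S : Submodule (ZMod p) M)
    (hS : ∀ g : N, ∀ w ∈ S, μ g w ∈ S) (g : N) (w : S) :
    ((alg_sub μ S hS g w : S) : M) = μ g w := rfl

/-- The quotient of a representation by an invariant subspace. -/
def alg_quo {M : Type} [AddCommGroup M] [Module (ZMod p) M] (μ : Representation (ZMod p) N M)
    (S : Submodule (ZMod p) M) (hS : ∀ g : N, ∀ w ∈ S, μ g w ∈ S) :
    Representation (ZMod p) N (M ⧸ S) where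
  toFun g := S.mapQ S (μ g) (hS g)
  map_one' := by
    apply LinearMap.ext
    intro x
    obtain ⟨m, rfl⟩ := Submodule.Quotient.mk_surjective S x
    simp
  map_mul' g h := by
    apply LinearMap.ext
    intro x
    obtain ⟨m, rfl⟩ := Submodule.Quotient.mk_surjective S x
    simp

theorem alg_quo_mk {M : Type} [AddCommGroup M] [Module (ZMod p) M]
    (μ : Representation (ZMod p) N M) (S : Submodule (ZMod p) M)
    (hS : ∀ g : N, ∀ w ∈ S, μ g w ∈ S) (g : N) (m : M) :
    alg_quo μ S hS g (S.mkQ m) = S.mkQ (μ g m) := rfl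

/-- There is an irreducible invariant subspace. -/
theorem alg_exists_irr {M : Type} [AddCommGroup M] [Module (ZMod p) M] [Finite M] [Nontrivial M]
    (μ : Representation (ZMod p) N M) :
    ∃ (S : Submodule (ZMod p) M) (hS : ∀ g : N, ∀ w ∈ S, μ g w ∈ S), S ≠ ⊥ ∧
      Irr (alg_sub μ S hS) := by
  have hfin : Finite (Submodule (ZMod p) M) :=
    Finite.of_injective (fun S : Submodule (ZMod p) M => (S : Set M)) SetLike.coe_injective
  have hwf : WellFounded ((· < ·) : Submodule (ZMod p) M → Submodule (ZMod p) M → Prop) :=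
    (Finite.to_wellFoundedLT (α := Submodule (ZMod p) M)).wf
  obtain ⟨S, ⟨hS, hS0⟩, hmin⟩ := hwf.has_min
    {S : Submodule (ZMod p) M | (∀ g : N, ∀ w ∈ S, μ g w ∈ S) ∧ S ≠ ⊥}
    ⟨⊤, fun _ _ _ => Submodule.mem_top, top_ne_bot⟩
  refine ⟨S, hS, hS0, ?_, ?_⟩
  · obtain ⟨w, hw, hw0⟩ := (Submodule.ne_bot_iff S).mp hS0
    exact ⟨⟨w, hw⟩, fun h => hw0 (congrArg Subtype.val h)⟩
  · intro W hW
    by_cases hW0 : W = ⊥
    · exact Or.inl hW0
    · right
      have hle : W.map S.subtype ≤ S := Submodule.map_subtype_le S W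
      have hnot : ¬ W.map S.subtype < S := by
        apply hmin
        refine ⟨?_, ?_⟩
        · rintro g _ ⟨w, hw, rfl⟩
          exact ⟨alg_sub μ S hS g w, hW g w hw, rfl⟩
        · intro h
          apply hW0
          rw [eq_bot_iff]
          intro w hw
          have h1 : (w : M) ∈ W.map S.subtype := ⟨w, hw, rfl⟩
          rw [h] at h1
          rw [Submodule.mem_bot]
          exact Subtype.ext ((Submodule.mem_bot _).mp h1)
      have heq : W.map S.subtype = S := by
        rcases lt_or_eq_of_le hle with h | h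
        · exact absurd h hnot
        · exact h
      rw [eq_top_iff]
      rintro ⟨x, hx⟩ -
      rw [← heq] at hx
      obtain ⟨w, hw, hwx⟩ := hx
      have : w = ⟨x, by rw [← hwx]; exact w.2⟩ := Subtype.ext hwx
      rw [← this]
      exact hw

theorem alg_good {V : Type} (U : Subgroup N) [AddCommGroup V] [Module (ZMod p) V]
    (ρ : Representation (ZMod p) N V) (Hs : Set (Subgroup N))
    (hirr : ∀ (S : Type) [AddCommGroup S] [Module (ZMod p) S] [Finite S]
      (σ : Representation (ZMod p) N S), Irr σ → (∀ u ∈ U, σ u = 1) →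
      ∃ H ∈ Hs, ∃ v : S, v ≠ 0 ∧ ∀ h ∈ H, σ h v = v)
    (hfix : ∀ H ∈ Hs, {v : V | ∀ h ∈ H, ρ h v = v}.Finite) (n : ℕ) :
    ∀ (M : Type) [AddCommGroup M] [Module (ZMod p) M] [Finite M]
      (μ : Representation (ZMod p) N M), (∀ u ∈ U, μ u = 1) → Nat.card M ≤ n →
      {φ : M →ₗ[ZMod p] V | ∀ g m, φ (μ g m) = ρ g (φ m)}.Finite := by
  induction n with
  | zero =>
    intro M _ _ _ μ _ hc
    have : 0 < Nat.card M := Nat.card_pos
    omega
  | succ n ih =>
    intro M _ _ _ μ hU hc
    by_cases hsub : Subsingleton M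
    · exact Set.toFinite _
    · have : Nontrivial M := not_subsingleton_iff_nontrivial.mp hsub
      obtain ⟨S, hS, hS0, hI⟩ := alg_exists_irr μ
      obtain ⟨H, hH, v, hv0, hv⟩ := hirr S (alg_sub μ S hS) hI (by
        intro u hu
        apply LinearMap.ext
        intro w
        apply Subtype.ext
        rw [alg_sub_apply, hU u hu]
        rfl)
      -- the kernel part
      have hker : {φ : M →ₗ[ZMod p] V | (∀ g m, φ (μ g m) = ρ g (φ m)) ∧
          ∀ w ∈ S, φ w = 0}.Finite := by
        have hfq : Finite (M ⧸ S) := Finite.of_surjective _ (Submodule.mkQ_surjective S)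
        have hcard : Nat.card (M ⧸ S) ≤ n := by
          have h1 : Nat.card M = Nat.card S * Nat.card (M ⧸ S) := by
            exact Submodule.card_eq_card_quotient_mul_card S ▸ (by ring)
          have h2 : 1 < Nat.card S := by
            rw [Finite.one_lt_card_iff_nontrivial]
            exact (Submodule.nontrivial_iff_ne_bot).mpr hS0
          have h3 : 0 < Nat.card (M ⧸ S) := Nat.card_pos
          nlinarith
        have hq := ih (M ⧸ S) (alg_quo μ S hS) (by
          intro u hu
          apply LinearMap.ext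
          intro x
          obtain ⟨m, rfl⟩ := Submodule.mkQ_surjective S x
          rw [alg_quo_mk, hU u hu]
          rfl) hcard
        refine (hq.image (fun ψ => ψ.comp S.mkQ)).subset ?_
        rintro φ ⟨h1, h2⟩
        have hle : S ≤ LinearMap.ker φ := fun w hw => h2 w hw
        refine ⟨S.liftQ φ hle, ?_, ?_⟩
        · intro g x
          obtain ⟨m, rfl⟩ := Submodule.mkQ_surjective S x
          rw [alg_quo_mk, Submodule.mkQ_apply, Submodule.mkQ_apply, Submodule.liftQ_apply,
            Submodule.liftQ_apply]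
          exact h1 g m
        · exact Submodule.liftQ_mkQ S φ hle
      apply Set.Finite.of_finite_fibers (fun φ : M →ₗ[ZMod p] V => φ (v : M))
      · refine (hfix H hH).subset ?_
        rintro _ ⟨φ, hφ, rfl⟩ h hh
        have h1 : ρ h (φ (v : M)) = φ (μ h (v : M)) := (hφ h v).symm
        show ρ h (φ (v : M)) = φ (v : M)
        rw [h1]
        have h2 := congrArg Subtype.val (hv h hh)
        rw [alg_sub_apply] at h2
        rw [h2]
      · rintro y ⟨φ₀, hφ₀, rfl⟩
        refine (hker.image (fun ψ => φ₀ + ψ)).subset ?_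
        rintro φ ⟨hφ, hφv⟩
        refine ⟨φ - φ₀, ⟨?_, ?_⟩, by simp⟩
        · intro g m
          rw [LinearMap.sub_apply, LinearMap.sub_apply, map_sub, hφ g m, hφ₀ g m]
        · -- the difference vanishes on S
          have hW := hI.2 (LinearMap.ker ((φ - φ₀).comp S.subtype)) (by
            intro g w hw
            rw [LinearMap.mem_ker, LinearMap.comp_apply, Submodule.subtype_apply] at hw ⊢
            rw [alg_sub_apply]
            rw [LinearMap.sub_apply, hφ g, hφ₀ g, ← map_sub]
            rw [LinearMap.sub_apply] at hw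
            rw [hw, map_zero])
          rcases hW with hW | hW
          · exfalso
            apply hv0
            have hmem : v ∈ LinearMap.ker ((φ - φ₀).comp S.subtype) := by
              rw [LinearMap.mem_ker, LinearMap.comp_apply, Submodule.subtype_apply,
                LinearMap.sub_apply, sub_eq_zero]
              exact hφv
            rw [hW] at hmem
            exact (Submodule.mem_bot _).mp hmem
          · intro w hw
            have hmem : (⟨w, hw⟩ : S) ∈ LinearMap.ker ((φ - φ₀).comp S.subtype) := by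
              rw [hW]
              exact Submodule.mem_top
            rw [LinearMap.mem_ker, LinearMap.comp_apply, Submodule.subtype_apply] at hmem
            exact hmem

/-- The permutation representation on functions on `N ⧸ U`. -/
def alg_perm (p : ℕ) (U : Subgroup N) : Representation (ZMod p) N (N ⧸ U → ZMod p) where
  toFun g :=
    { toFun := fun m x => m (g⁻¹ • x)
      map_add' := fun _ _ => rfl
      map_smul' := fun _ _ => rfl }
  map_one' := by
    apply LinearMap.ext
    intro m
    funext x
    show m ((1 : N)⁻¹ • x) = m x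
    rw [inv_one, one_smul]
  map_mul' g h := by
    apply LinearMap.ext
    intro m
    funext x
    show m ((g * h)⁻¹ • x) = m (h⁻¹ • g⁻¹ • x)
    rw [mul_inv_rev, mul_smul]

theorem alg : S_Alg := by
  intro N V _ U _ _ p _ _ _ ρ Hs hU hirr hfix
  have hgood := alg_good U ρ Hs hirr hfix (Nat.card (N ⧸ U → ZMod p)) (N ⧸ U → ZMod p)
    (alg_perm p U) (by
      intro u hu
      apply LinearMap.ext
      intro m
      funext x
      show m (u⁻¹ • x) = m x
      obtain ⟨y, rfl⟩ := QuotientGroup.mk_surjective x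
      congr 1
      show ((u⁻¹ * y : N) : N ⧸ U) = (y : N ⧸ U)
      rw [eq_comm, QuotientGroup.eq]
      have : y⁻¹ * (u⁻¹ * y) = y⁻¹ * u⁻¹ * (y⁻¹)⁻¹ := by group
      rw [this]
      exact (inferInstance : U.Normal).conj_mem u⁻¹ (U.inv_mem hu) y⁻¹) le_rfl
  have : Fintype (N ⧸ U) := Fintype.ofFinite _
  have hout : ∀ g : N, ∀ v : V, ρ (Quotient.out (g : N ⧸ U)) v = ρ g v := by
    intro g v
    have h1 : ((Quotient.out (g : N ⧸ U) : N) : N ⧸ U) = (g : N ⧸ U) :=
      QuotientGroup.out_eq' (g : N ⧸ U)
    rw [eq_comm, QuotientGroup.eq] at h1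
    have h2 : Quotient.out (g : N ⧸ U) = g * (g⁻¹ * Quotient.out (g : N ⧸ U)) := by group
    rw [h2, map_mul, hU _ h1]
    rfl
  let Φ : V → ((N ⧸ U → ZMod p) →ₗ[ZMod p] V) := fun v =>
    { toFun := fun m => ∑ x : N ⧸ U, m x • ρ x.out v
      map_add' := by
        intro a b
        simp only [Pi.add_apply, add_smul, Finset.sum_add_distrib]
      map_smul' := by
        intro c a
        simp only [Pi.smul_apply, smul_eq_mul, mul_smul, Finset.smul_sum, RingHom.id_apply] }
  have hΦ : ∀ v, Φ v ∈ {φ : (N ⧸ U → ZMod p) →ₗ[ZMod p] V |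
      ∀ g m, φ (alg_perm p U g m) = ρ g (φ m)} := by
    intro v g m
    show ∑ x : N ⧸ U, m (g⁻¹ • x) • ρ x.out v = ρ g (∑ x : N ⧸ U, m x • ρ x.out v)
    rw [map_sum]
    rw [← Equiv.sum_comp (MulAction.toPerm g : Equiv.Perm (N ⧸ U))]
    apply Finset.sum_congr rfl
    intro x _
    rw [MulAction.toPerm_apply, inv_smul_smul, map_smul]
    congr 1
    obtain ⟨y, rfl⟩ := QuotientGroup.mk_surjective x
    rw [hout y v]
    show ρ (Quotient.out ((g * y : N) : N ⧸ U)) v = ρ g (ρ y v)
    rw [hout, map_mul]
    rfl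
  have hinj : Function.Injective Φ := by
    intro v w hvw
    classical
    have h1 : ∀ v : V, Φ v (Pi.single ((1 : N) : N ⧸ U) 1) = v := by
      intro v
      show ∑ x : N ⧸ U, (Pi.single ((1 : N) : N ⧸ U) (1 : ZMod p) : N ⧸ U → ZMod p) x •
        ρ x.out v = v
      rw [Finset.sum_eq_single ((1 : N) : N ⧸ U)]
      · rw [Pi.single_eq_same, one_smul, hout, map_one]
        rfl
      · intro b _ hb
        rw [Pi.single_eq_of_ne hb, zero_smul]
      · intro h
        exact absurd (Finset.mem_univ _) h
    rw [← h1 v, ← h1 w, hvw]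
  have := hgood.to_subtype
  exact Finite.of_injective (fun v => (⟨Φ v, hΦ v⟩ :
    {φ : (N ⧸ U → ZMod p) →ₗ[ZMod p] V | ∀ g m, φ (alg_perm p U g m) = ρ g (φ m)}))
    (fun v w h => hinj (congrArg Subtype.val h))

end Alg

end Pool.Agent.MuZ
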