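import Pool.Agent.Lib.MuZ.CAsm1
import Pool.Agent.Lib.MuZ.AsmA

/-!
# Assembly of Theorem C: number fields
-/

open scoped Pointwise

noncomputable section

namespace Pool.Agent.MuZ

/-- **Theorem C** from the statements of the specification. -/
theorem thmC (hPc : S_Pc) (hSub : S_Sub) (hPL : S_PL) (hVal : S_Val) (hLev : S_Lev)
    (hSemi : S_Semi) (hUni : S_Uni)
    (hCocX : S_CocX) (hOp : S_Op) (hDim : S_Dim) (hLin : S_Lin) (hLocD : S_LocD)
    (hLocE : S_LocE) (hEB : S_EB) (hDev : S_Dev) (hExtC : S_ExtC) (hFwdC : S_FwdC)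
    (hTFix : S_TFix) (hQZ : S_QZ) (hInT : S_InT) (hNF : S_NF) (hLay : S_Lay) (hTr : S_Tr)
    (hLK : S_LK) (hConj : S_Conj) (hRam : S_Ram) (hFrob : S_Frob) (hPow : S_Pow) (hTot : S_Tot)
    (hOrb : S_Orb) (hSup : S_Sup) (hFld : S_Fld) (hFwd : S_Fwd) (hBwd : S_Bwd) : ThmC := by
  intro p _ k L hL hkL hnorm
  have hk : FiniteDimensional ℚ k :=
    FiniteDimensional.of_injective (IntermediateField.inclusion hkL).toLinearMap
      (IntermediateField.inclusion hkL).injective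
  obtain ⟨γ, hγ⟩ := hNF hQZ hSub hPL hPc hTFix p k hk
  obtain ⟨hLay1, hLay2⟩ := hLay p k hk
  obtain ⟨hTr1, hTr2, hTr3⟩ := hTr hConj p k hk
  obtain ⟨hLK1, hLK2, hLK3, hLK4, hLK5⟩ := hLK hConj hInT hRam (hOrb hFrob hPow hTot) p k hk
  have hKc : IsClosed (k.fixingSubgroup : Set Gal(Om/ℚ)) :=
    IntermediateField.fixingSubgroup_isClosed k
  haveI : CompactSpace k.fixingSubgroup := isCompact_iff_compactSpace.1 hKc.isCompact
  haveI : TotallyDisconnectedSpace k.fixingSubgroup := inferInstance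
  haveI : T2Space k.fixingSubgroup := inferInstance
  have hDo : IsOpen ((L.fixingSubgroup.subgroupOf k.fixingSubgroup : Subgroup k.fixingSubgroup) :
      Set k.fixingSubgroup) :=
    L.fixingSubgroup_isOpen.preimage continuous_subtype_val
  have hDn : (L.fixingSubgroup.subgroupOf k.fixingSubgroup).Normal := by
    refine ⟨fun n hn g => ?_⟩
    rw [Subgroup.mem_subgroupOf] at hn ⊢
    exact fix_normal k L hnorm g n g.2 hn
  have habs := absC hPc hVal hLev hSemi hUni hCocX hOp hDim hLin hLocD hLocE hEB hDev hExtC hFwdC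
    k.fixingSubgroup p (PX p) (LocK p k)
    ((cyc p k).fixingSubgroup.subgroupOf k.fixingSubgroup)
    (L.fixingSubgroup.subgroupOf k.fixingSubgroup) γ hγ hDn hDo hTr1 hLK1 hLK2 hLK3 hLK4
    (hLK5 L hL hkL)
  have h1 : XFinGen p (cyc p L) ↔ Finite (VV p (Loc p) (cyc p L).fixingSubgroup) :=
    ⟨fun h => hFwd hFld p (cyc p L) h, fun h => hBwd hSup p (cyc p L) h⟩
  rw [h1, hTr2 L hL hkL, habs]
  constructor
  · intro h S _ _ _ ρ hirr htriv
    obtain ⟨n, Y, ⟨hYo, hNY, hYi⟩, hcase⟩ := h S ρ hirr (fun g hg => htriv g hg)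
    obtain ⟨F, hF, hFY⟩ := hLay2 n Y hYo hNY hYi
    refine ⟨n, F, hF, ?_⟩
    obtain ⟨e1, e2⟩ := hTr3 S ρ F
    rw [hFY] at e1 e2
    rw [← e1, ← e2]
    rcases hcase with h2 | ⟨m, hmn, Y', ⟨hYo', hNY', hYi'⟩, h2⟩
    · exact Or.inl h2
    · obtain ⟨F', hF', hFY'⟩ := hLay2 m Y' hYo' hNY' hYi'
      obtain ⟨e3, _⟩ := hTr3 S ρ F'
      rw [hFY'] at e3
      refine Or.inr ⟨m, hmn, F', hF', ?_⟩
      rw [← e3]
      exact h2
  · intro h S _ _ _ ρ hirr htriv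
    obtain ⟨n, F, hF, hcase⟩ := h S ρ hirr (fun g hg => htriv g hg)
    obtain ⟨e1, e2⟩ := hTr3 S ρ F
    refine ⟨n, F.fixingSubgroup.subgroupOf k.fixingSubgroup, hLay1 n F hF, ?_⟩
    rw [e1, e2]
    rcases hcase with h2 | ⟨m, hmn, F', hF', h2⟩
    · exact Or.inl h2
    · obtain ⟨e3, _⟩ := hTr3 S ρ F'
      refine Or.inr ⟨m, hmn, F'.fixingSubgroup.subgroupOf k.fixingSubgroup, hLay1 m F' hF', ?_⟩
      rw [e3]
      exact h2

end Pool.Agent.MuZ
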