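import Pool.Agent.Lib.MuZ.Alg

/-!
# Coinduction
-/

noncomputable section

namespace Pool.Agent.MuZ

section Cliff

variable {K S' : Type} [Group K] {p : ℕ} [Fact p.Prime] [AddCommGroup S'] [Module (ZMod p) S']

/-- The coinduced space. -/
def cliff_C (N D : Subgroup K) (σ : Representation (ZMod p) N S') :
    Submodule (ZMod p) (K → S') where
  carrier := {φ | (∀ (n : N) (x : K), φ (n * x) = σ n (φ x)) ∧ ∀ d ∈ D, ∀ x, φ (x * d) = φ x}
  add_mem' := by
    rintro a b ⟨a1, a2⟩ ⟨b1, b2⟩
    refine ⟨fun n x => ?_, fun d hd x => ?_⟩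
    · rw [Pi.add_apply, Pi.add_apply, a1, b1, map_add]
    · rw [Pi.add_apply, Pi.add_apply, a2 d hd, b2 d hd]
  zero_mem' := ⟨fun n x => by simp, fun _ _ _ => rfl⟩
  smul_mem' := by
    rintro c a ⟨a1, a2⟩
    refine ⟨fun n x => ?_, fun d hd x => ?_⟩
    · rw [Pi.smul_apply, Pi.smul_apply, a1, map_smul]
    · rw [Pi.smul_apply, Pi.smul_apply, a2 d hd]

theorem cliff_mem (N D : Subgroup K) (σ : Representation (ZMod p) N S') (φ : K → S') :
    φ ∈ cliff_C N D σ ↔ (∀ (n : N) (x : K), φ (n * x) = σ n (φ x)) ∧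
      ∀ d ∈ D, ∀ x, φ (x * d) = φ x := Iff.rfl

/-- The action of `K` on the coinduced space. -/
def cliff_rep (N D : Subgroup K) [D.Normal] (σ : Representation (ZMod p) N S') :
    Representation (ZMod p) K (cliff_C N D σ) where
  toFun g :=
    { toFun := fun φ => ⟨fun x => φ.1 (x * g), by
        obtain ⟨h1, h2⟩ := φ.2
        refine ⟨fun n x => ?_, fun d hd x => ?_⟩
        · show φ.1 (n * x * g) = σ n (φ.1 (x * g))
          rw [mul_assoc]
          exact h1 n (x * g)
        · have h3 : g⁻¹ * d * g ∈ D := by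
            have := (inferInstance : D.Normal).conj_mem d hd g⁻¹
            rwa [inv_inv] at this
          have h4 : x * d * g = x * g * (g⁻¹ * d * g) := by group
          show φ.1 (x * d * g) = φ.1 (x * g)
          rw [h4]
          exact h2 _ h3 (x * g)⟩
      map_add' := fun _ _ => rfl
      map_smul' := fun _ _ => rfl }
  map_one' := by
    apply LinearMap.ext
    intro φ
    apply Subtype.ext
    funext x
    show φ.1 (x * 1) = φ.1 x
    rw [mul_one]
  map_mul' g h := by
    apply LinearMap.ext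
    intro φ
    apply Subtype.ext
    funext x
    show φ.1 (x * (g * h)) = φ.1 (x * g * h)
    rw [mul_assoc]

theorem cliff_rep_apply (N D : Subgroup K) [D.Normal] (σ : Representation (ZMod p) N S') (g : K)
    (φ : cliff_C N D σ) (x : K) : (cliff_rep N D σ g φ).1 x = φ.1 (x * g) := rfl

theorem cliff_finite [Finite S'] (N D : Subgroup K) [D.FiniteIndex]
    (σ : Representation (ZMod p) N S') : Finite (cliff_C N D σ) := by
  apply Finite.of_injective (fun (φ : cliff_C N D σ) (q : K ⧸ D) => φ.1 q.out)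
  intro φ ψ h
  apply Subtype.ext
  funext x
  have h1 : ∀ φ : cliff_C N D σ, φ.1 (Quotient.out (x : K ⧸ D)) = φ.1 x := by
    intro φ
    have h2 : ((Quotient.out (x : K ⧸ D) : K) : K ⧸ D) = (x : K ⧸ D) :=
      QuotientGroup.out_eq' (x : K ⧸ D)
    rw [eq_comm, QuotientGroup.eq] at h2
    have h3 : Quotient.out (x : K ⧸ D) = x * (x⁻¹ * Quotient.out (x : K ⧸ D)) := by group
    rw [h3]
    exact φ.2.2 _ h2 x
  rw [← h1 φ, ← h1 ψ]
  exact congrFun h (x : K ⧸ D)

theorem cliff_nontrivial (N D : Subgroup K) (σ : Representation (ZMod p) N S')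
    (hs : ∃ s : S', s ≠ 0) (hD : ∀ n : N, (n : K) ∈ D → σ n = 1) :
    Nontrivial (cliff_C N D σ) := by
  classical
  obtain ⟨s, hs⟩ := hs
  let P : K → N → Prop := fun x n => ∃ d ∈ D, x = n * d
  let φ : K → S' := fun x => if h : ∃ n : N, P x n then σ h.choose s else 0
  have hφ : ∀ (x : K) (n : N), P x n → φ x = σ n s := by
    intro x n hn
    have hex : ∃ n : N, P x n := ⟨n, hn⟩
    have h1 : φ x = σ hex.choose s := dif_pos hex
    obtain ⟨d', hd', hx'⟩ := hex.choose_spec
    obtain ⟨d, hd, hx⟩ := hn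
    rw [h1]
    have h2 : ((n⁻¹ * hex.choose : N) : K) ∈ D := by
      have h3 : ((n⁻¹ * hex.choose : N) : K) = d * d'⁻¹ := by
        push_cast
        rw [inv_mul_eq_iff_eq_mul, ← mul_assoc, ← hx, eq_mul_inv_iff_mul_eq, ← hx']
      rw [h3]
      exact D.mul_mem hd (D.inv_mem hd')
    have h4 : hex.choose = n * (n⁻¹ * hex.choose) := by group
    rw [h4, map_mul, hD _ h2]
    rfl
  have hφ0 : ∀ x : K, (¬ ∃ n : N, P x n) → φ x = 0 := by
    intro x hx
    exact dif_neg hx
  have hmem : φ ∈ cliff_C N D σ := by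
    refine ⟨fun n x => ?_, fun d hd x => ?_⟩
    · by_cases hx : ∃ n : N, P x n
      · obtain ⟨m, d, hd, hm⟩ := hx
        rw [hφ x m ⟨d, hd, hm⟩, hφ (n * x) (n * m) ⟨d, hd, by
          push_cast
          rw [hm, mul_assoc]⟩, map_mul]
        rfl
      · have hx' : ¬ ∃ m : N, P (n * x) m := by
          rintro ⟨m, d, hd, hm⟩
          apply hx
          refine ⟨n⁻¹ * m, d, hd, ?_⟩
          push_cast
          rw [mul_assoc, ← hm]
          group
        rw [hφ0 x hx, hφ0 _ hx', map_zero]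
    · by_cases hx : ∃ n : N, P x n
      · obtain ⟨m, d', hd', hm⟩ := hx
        rw [hφ x m ⟨d', hd', hm⟩, hφ (x * d) m ⟨d' * d, D.mul_mem hd' hd, by
          rw [hm, mul_assoc]⟩]
      · have hx' : ¬ ∃ m : N, P (x * d) m := by
          rintro ⟨m, d', hd', hm⟩
          apply hx
          refine ⟨m, d' * d⁻¹, D.mul_mem hd' (D.inv_mem hd), ?_⟩
          rw [← mul_assoc, ← hm]
          group
        rw [hφ0 x hx, hφ0 _ hx']
  refine ⟨⟨φ, hmem⟩, 0, ?_⟩
  intro h
  apply hs
  have h1 : φ 1 = 0 := congrFun (congrArg Subtype.val h) 1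
  have h2 : φ 1 = σ 1 s := hφ 1 1 ⟨1, D.one_mem, by simp⟩
  rw [h2, map_one] at h1
  exact h1

theorem cliff : S_Cliff := by
  intro K S' _ N D _ _ _ p _ _ _ _ σ hσ hD
  have hfin : Finite (cliff_C N D σ) := cliff_finite N D σ
  have hnt : Nontrivial (cliff_C N D σ) := cliff_nontrivial N D σ hσ.1 hD
  obtain ⟨S, hS, hS0, hI⟩ := alg_exists_irr (cliff_rep N D σ)
  refine ⟨S, inferInstance, inferInstance, inferInstance, alg_sub (cliff_rep N D σ) S hS, hI, ?_, ?_⟩
  · intro d hd
    apply LinearMap.ext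
    intro w
    apply Subtype.ext
    rw [alg_sub_apply]
    apply Subtype.ext
    funext x
    rw [cliff_rep_apply]
    exact w.1.2.2 d hd x
  · intro H v hv hfix
    have hex : ∃ g : K, (v : cliff_C N D σ).1 g ≠ 0 := by
      by_contra hcon
      push Not at hcon
      apply hv
      apply Subtype.ext
      apply Subtype.ext
      funext x
      exact hcon x
    obtain ⟨g, hg⟩ := hex
    refine ⟨g, (v : cliff_C N D σ).1 g, hg, ?_⟩
    intro n hn
    have h1 := (v : cliff_C N D σ).2.1 n g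
    rw [← h1]
    have h2 : (n : K) * g = g * (g⁻¹ * (n : K) * g) := by group
    rw [h2]
    have h3 := congrArg Subtype.val (hfix _ hn)
    rw [alg_sub_apply] at h3
    have h4 := congrFun (congrArg Subtype.val h3) g
    rw [cliff_rep_apply] at h4
    exact h4

end Cliff

end Pool.Agent.MuZ
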