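import Pool.Agent.Lib.MuZ.CSpec

/-!
# S_CocX: extension of cocycles
-/

open scoped Pointwise

noncomputable section

namespace Pool.Agent.MuZ

namespace CocXAux

variable {G : Type} [Group G] {p : ℕ} {S : Type} [AddCommGroup S] [Module (ZMod p) S]

/-- affine bijections -/
def aff (ρ : Representation (ZMod p) G S) (g : G) (t : S) : Equiv.Perm S where
  toFun s := ρ g s + t
  invFun s := ρ g⁻¹ (s - t)
  left_inv s := by
    show ρ g⁻¹ (ρ g s + t - t) = s
    rw [add_sub_cancel_right, ← Module.End.mul_apply, ← map_mul, inv_mul_cancel, map_one,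
      Module.End.one_apply]
  right_inv s := by
    show ρ g (ρ g⁻¹ (s - t)) + t = s
    rw [← Module.End.mul_apply, ← map_mul, mul_inv_cancel, map_one, Module.End.one_apply,
      sub_add_cancel]

theorem aff_apply (ρ : Representation (ZMod p) G S) (g : G) (t s : S) :
    aff ρ g t s = ρ g s + t := rfl

theorem aff_mul (ρ : Representation (ZMod p) G S) (g g' : G) (t t' : S) :
    aff ρ g t * aff ρ g' t' = aff ρ (g * g') (ρ g t' + t) := by
  ext s
  rw [Equiv.Perm.mul_apply, aff_apply, aff_apply, aff_apply, map_add, map_mul,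
    Module.End.mul_apply, add_assoc]

theorem aff_eq_one (ρ : Representation (ZMod p) G S) {g : G} (hg : ρ g = 1) :
    aff ρ g 0 = 1 := by
  ext s
  rw [aff_apply, hg, add_zero]
  rfl

theorem aff_pow (ρ : Representation (ZMod p) G S) (g : G) (t : S) (j : ℕ) :
    ∃ T : S, (aff ρ g t) ^ j = aff ρ (g ^ j) T := by
  induction j with
  | zero =>
    refine ⟨0, ?_⟩
    rw [pow_zero, pow_zero]
    exact (aff_eq_one ρ (map_one ρ)).symm
  | succ j ih =>
    obtain ⟨T, hT⟩ := ih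
    refine ⟨ρ (g ^ j) t + T, ?_⟩
    rw [pow_succ, hT, aff_mul, pow_succ]

theorem aff_pow_triv (ρ : Representation (ZMod p) G S) {g : G} (hg : ρ g = 1) (T : S) (k : ℕ)
    (s : S) : ((aff ρ g T) ^ k) s = s + k • T := by
  induction k with
  | zero => simp
  | succ k ih =>
    rw [pow_succ', Equiv.Perm.mul_apply, ih, aff_apply, hg, Module.End.one_apply, succ_nsmul,
      add_assoc]

theorem aff_order (ρ : Representation (ZMod p) G S) (g : G) (t : S) (a0 : ℕ)
    (h : ρ (g ^ p ^ a0) = 1) : (aff ρ g t) ^ p ^ (a0 + 1) = 1 := by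
  obtain ⟨T, hT⟩ := aff_pow ρ g t (p ^ a0)
  rw [pow_succ, pow_mul, hT]
  ext s
  rw [aff_pow_triv ρ h T p s, Equiv.Perm.one_apply]
  have e : p • T = 0 := by
    have : ((p : ℕ) : ZMod p) • T = p • T := by
      rw [Nat.cast_smul_eq_nsmul]
    rw [← this, ZMod.natCast_self, zero_smul]
  rw [e, add_zero]

end CocXAux

open CocXAux in
theorem c_CocX : S_CocX := by
  intro hSemi hVal G _ _ _ _ _ _ p _ Y N γ Z S _ _ ρ ⟨Oρ, hOρ⟩ c hc t hct
  obtain ⟨-, c2, ⟨Oc, c3⟩, -⟩ := hc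
  have hγ : γ ∈ Y := Z.mem
  obtain ⟨a0, ha0⟩ := Z.pro Oρ
  obtain ⟨h', hm, ⟨O', hO'⟩, hN, hγ'⟩ := hSemi hVal G p Y N γ Z (Equiv.Perm S)
    (fun x => aff ρ x (c x)) (aff ρ γ t)
    (by
      intro x hx y hy
      show aff ρ (x * y) (c (x * y)) = aff ρ x (c x) * aff ρ y (c y)
      rw [aff_mul, c2 x hx y hy, add_comm])
    (by
      refine ⟨Oc ⊓ Oρ, fun x hx hxO => ?_⟩
      show aff ρ x (c x) = 1
      rw [c3 x hx hxO.1]
      exact aff_eq_one ρ (hOρ x hxO.2))
    ⟨a0 + 1, aff_order ρ γ t a0 (hOρ _ ha0)⟩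
    (by
      intro x hx
      show aff ρ (γ * x * γ⁻¹) (c (γ * x * γ⁻¹)) = aff ρ γ t * aff ρ x (c x) * (aff ρ γ t)⁻¹
      rw [eq_mul_inv_iff_mul_eq, aff_mul, aff_mul, hct x hx]
      have e1 : γ * x * γ⁻¹ * γ = γ * x := by group
      rw [e1]
      congr 1
      abel)
  have one' : h' 1 = 1 := by
    have e := hm 1 Y.one_mem 1 Y.one_mem
    rw [mul_one] at e
    exact left_eq_mul.1 e
  have hpow : ∀ j : ℕ, h' (γ ^ j) = (aff ρ γ t) ^ j := by
    intro j
    induction j with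
    | zero => rw [pow_zero, pow_zero, one']
    | succ j ih => rw [pow_succ, hm _ (Y.pow_mem hγ j) _ hγ, ih, hγ', pow_succ]
  have claim : ∀ y ∈ Y, ∀ s : S, h' y s = ρ y s + h' y 0 := by
    intro y hy
    obtain ⟨j, u, hu, ho⟩ := Z.gen y hy (O' ⊓ Oρ)
    have huY : u ∈ Y := Z.le hu
    have hoY : y⁻¹ * γ ^ j * u ∈ Y := Y.mul_mem (Y.mul_mem (Y.inv_mem hy) (Y.pow_mem hγ j)) huY
    have e3 : y * (y⁻¹ * γ ^ j * u) = γ ^ j * u := by group
    have e1 : h' y = h' (γ ^ j * u) := by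
      rw [← e3, hm _ hy _ hoY, hO' _ hoY ho.1, mul_one]
    have e2 : ρ y = ρ (γ ^ j * u) := by
      rw [← e3, map_mul, hOρ _ ho.2, mul_one]
    obtain ⟨T, hT⟩ := aff_pow ρ γ t j
    have e4 : h' y = aff ρ (γ ^ j * u) (ρ (γ ^ j) (c u) + T) := by
      rw [e1, hm _ (Y.pow_mem hγ j) _ huY, hpow j, hN u hu, hT, aff_mul]
    intro s
    rw [e4, aff_apply, aff_apply, map_zero, zero_add, e2]
  classical
  refine ⟨fun y => if y ∈ Y then h' y 0 else 0, ⟨?_, ?_, ?_, ?_⟩, ?_, ?_⟩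
  · intro g hg
    exact if_neg hg
  · intro g hg k hk
    show (if g * k ∈ Y then h' (g * k) 0 else 0) =
      (if g ∈ Y then h' g 0 else 0) + ρ g (if k ∈ Y then h' k 0 else 0)
    rw [if_pos (Y.mul_mem hg hk), if_pos hg, if_pos hk, hm g hg k hk, Equiv.Perm.mul_apply,
      claim g hg (h' k 0), add_comm]
  · refine ⟨O', fun g hg hgO => ?_⟩
    show (if g ∈ Y then h' g 0 else 0) = 0
    rw [if_pos hg, hO' g hg hgO, Equiv.Perm.one_apply]
  · intro Λ hΛ
    exact absurd hΛ (Set.notMem_empty Λ)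
  · intro x hx
    show (if x ∈ Y then h' x 0 else 0) = c x
    rw [if_pos (Z.le hx), hN x hx, aff_apply, map_zero, zero_add]
  · show (if γ ∈ Y then h' γ 0 else 0) = t
    rw [if_pos hγ, hγ', aff_apply, map_zero, zero_add]

end Pool.Agent.MuZ
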