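import Pool.Agent.Lib.MuZ.Spec

open scoped Pointwise

noncomputable section

namespace Pool.Agent.MuZ

private theorem Conj_stab (σ : Gal(Om/ℚ)) (P : Ideal ZZ) :
    cj σ (MulAction.stabilizer Gal(Om/ℚ) P) = MulAction.stabilizer Gal(Om/ℚ) (σ • P) := by
  unfold cj
  rw [MulAction.stabilizer_smul_eq_stabilizer_map_conj]

private theorem Conj_inertia (σ : Gal(Om/ℚ)) (P : Ideal ZZ) :
    cj σ (P.inertia Gal(Om/ℚ)) = (σ • P).inertia Gal(Om/ℚ) := by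
  ext τ
  unfold cj
  rw [Subgroup.mem_map]
  constructor
  · rintro ⟨ρ, hρ, rfl⟩
    intro x
    have h1 := hρ (σ⁻¹ • x)
    have h2 : σ • (ρ • σ⁻¹ • x - σ⁻¹ • x) ∈ σ • P := Ideal.smul_mem_pointwise_smul σ _ P h1
    rw [smul_sub, smul_inv_smul] at h2
    simpa [MulAut.conj_apply, mul_smul] using h2
  · intro hτ
    refine ⟨σ⁻¹ * τ * σ, ?_, ?_⟩
    · intro x
      have h1 := hτ (σ • x)
      have h2 : σ⁻¹ • (τ • σ • x - σ • x) ∈ σ⁻¹ • (σ • P) := Ideal.smul_mem_pointwise_smul σ⁻¹ _ _ h1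
      rw [inv_smul_smul, smul_sub, inv_smul_smul] at h2
      simpa [mul_smul] using h2
    · simp [MulAut.conj_apply, mul_assoc]

theorem conj : S_Conj := by
  refine ⟨?_, Conj_inertia, Conj_stab⟩
  intro p σ Λ hΛ
  rcases hΛ with ⟨P, hP, hP0, rfl⟩ | ⟨P, hP, hpP, rfl⟩
  · left
    refine ⟨σ • P, Ideal.IsPrime.smul σ, ?_, Conj_inertia σ P⟩
    intro h
    apply hP0
    have h1 : σ⁻¹ • (σ • P) = σ⁻¹ • (⊥ : Ideal ZZ) := by rw [h]
    rw [inv_smul_smul] at h1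
    rw [h1]
    exact Ideal.smul_bot σ⁻¹
  · right
    refine ⟨σ • P, Ideal.IsPrime.smul σ, ?_, Conj_stab σ P⟩
    have h1 : σ • (p : ZZ) ∈ σ • P := Ideal.smul_mem_pointwise_smul σ _ P hpP
    have h2 : σ • (p : ZZ) = (p : ZZ) :=
      map_natCast (MulSemiringAction.toRingHom Gal(Om/ℚ) ZZ σ) p
    rwa [h2] at h1

end Pool.Agent.MuZ
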