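import Pool.Agent.Lib.MuZ.Spec

/-!
# The abstract criterion (module Crit)
-/

set_option autoImplicit false

open scoped Pointwise

noncomputable section

namespace Pool.Agent.MuZ

private theorem crit_mem_cj {G : Type} [Group G] (g x : G) (Λ : Subgroup G) :
    x ∈ cj g Λ ↔ g⁻¹ * x * g ∈ Λ := by
  unfold cj
  rw [Subgroup.mem_map_equiv, MulAut.conj_symm_apply]

private theorem crit_conj {G : Type} [Group G] [TopologicalSpace G] [IsTopologicalGroup G] (p : ℕ)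
    (Ls : Set (Subgroup G)) (g : G) (hg : ∀ Λ ∈ Ls, cj g Λ ∈ Ls) (W W' : Subgroup G)
    (hW : ∀ x, g * x * g⁻¹ ∈ W' ↔ x ∈ W) (f : G → ZMod p) (hf : f ∈ VV p Ls W') :
    (fun x => f (g * x * g⁻¹)) ∈ VV p Ls W := by
  obtain ⟨f1, f2, ⟨O, f3⟩, f4⟩ := hf
  have hc : Continuous (MulAut.conj g).toMonoidHom := by
    show Continuous fun x : G => g * x * g⁻¹
    fun_prop
  refine ⟨fun x hx => f1 _ (mt (hW x).1 hx), fun x hx y hy => ?_,
    ⟨O.comap (MulAut.conj g).toMonoidHom hc, fun x hx hO => f3 _ ((hW x).2 hx) hO⟩,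
    fun Λ hΛ x hx hxW => ?_⟩
  · have := f2 _ ((hW x).2 hx) _ ((hW y).2 hy)
    rw [← this]
    show f (g * (x * y) * g⁻¹) = f (g * x * g⁻¹ * (g * y * g⁻¹))
    congr 1
    group
  · refine f4 _ (hg Λ hΛ) _ ?_ ((hW x).2 hxW)
    rw [crit_mem_cj]
    have : g⁻¹ * (g * x * g⁻¹) * g = x := by group
    rwa [this]

private theorem crit_fin {G : Type} [Group G] [TopologicalSpace G] [IsTopologicalGroup G] (p : ℕ)
    (Ls : Set (Subgroup G)) (g : G) (hg : ∀ Λ ∈ Ls, cj g Λ ∈ Ls) (W W' : Subgroup G)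
    (hW : ∀ x, g * x * g⁻¹ ∈ W' ↔ x ∈ W) (hfin : Finite (VV p Ls W)) : Finite (VV p Ls W') := by
  refine Finite.of_injective
    (fun f : VV p Ls W' => (⟨fun x => f.1 (g * x * g⁻¹), crit_conj p Ls g hg W W' hW f.1 f.2⟩ : VV p Ls W)) ?_
  intro f f' h
  apply Subtype.ext
  funext x
  have h1 := congrFun (congrArg Subtype.val h) (g⁻¹ * x * g)
  have h2 : g * (g⁻¹ * x * g) * g⁻¹ = x := by group
  simp only [h2] at h1
  exact h1

theorem crit : S_Crit := by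
  intro hExt hAlg hCliff G _ _ _ _ p _ Ls K N D Hs hNK hDK hNn hDn hLs hR hHs hirr hfin
  obtain ⟨R, hRf, hRL, hRb⟩ := hR
  -- step 2
  have hUn : ∀ g ∈ K, ∀ u ∈ N ⊓ (D : Subgroup G), g * u * g⁻¹ ∈ N ⊓ (D : Subgroup G) :=
    fun g hg u hu => ⟨hNn g hg u hu.1, hDn g hg u hu.2⟩
  have hstep2 : ∀ H ∈ Hs, ∀ g ∈ K, {f ∈ VV p Ls (N ⊓ (D : Subgroup G)) |
      ∀ w ∈ N ⊓ cj g H, ∀ u ∈ N ⊓ (D : Subgroup G), f (w * u * w⁻¹) = f u}.Finite := by
    intro H hH g hg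
    have hg' : g⁻¹ ∈ K := K.inv_mem hg
    have hUW : N ⊓ (D : Subgroup G) ≤ N ⊓ cj g H := by
      intro x hx
      refine ⟨hx.1, (crit_mem_cj g x H).2 ?_⟩
      have := hDn g⁻¹ hg' x hx.2
      rw [inv_inv] at this
      exact (hHs H hH).1 this
    refine hExt G p Ls (N ⊓ (D : Subgroup G)) (N ⊓ cj g H) D hUW (fun x hx => ⟨hx.1.1, hx.2⟩)
      (fun w hw u hu => hUn w (hNK hw.1) u hu) (fun w hw Λ hΛ => hLs w (hNK hw.1) Λ hΛ)
      ⟨R, hRf, hRL, fun Λ hΛ hb => ?_⟩ ?_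
    · obtain ⟨Λ', hΛ', u, hu, e⟩ := hRb Λ hΛ (fun h => hb (fun x hx => h ⟨hx.1, hx.2.1⟩))
      exact ⟨Λ', hΛ', u, hUW hu, e⟩
    · refine crit_fin p Ls g (fun Λ hΛ => hLs g hg Λ hΛ) (N ⊓ H) (N ⊓ cj g H) (fun x => ?_) (hfin H hH)
      have e : g⁻¹ * (g * x * g⁻¹) * g = x := by group
      constructor
      · rintro ⟨h1, h2⟩
        refine ⟨?_, ?_⟩
        · have := hNn g⁻¹ hg' _ h1
          rwa [inv_inv, e] at this
        · have := (crit_mem_cj _ _ _).1 h2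
          rwa [e] at this
      · rintro ⟨h1, h2⟩
        refine ⟨hNn g hg x h1, (crit_mem_cj g _ H).2 ?_⟩
        rw [e]
        exact h2
  -- step 3
  haveI hDfin : Finite (G ⧸ (D : Subgroup G)) := Subgroup.quotient_finite_of_isOpen _ D.isOpen
  haveI hDfi : (D : Subgroup G).FiniteIndex := Subgroup.finiteIndex_of_finite_quotient
  let N' : Subgroup K := N.subgroupOf K
  let D' : Subgroup K := (D : Subgroup G).subgroupOf K
  haveI hN'n : N'.Normal := ⟨fun n hn g => by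
    rw [Subgroup.mem_subgroupOf] at hn ⊢
    exact hNn g g.2 _ hn⟩
  haveI hD'n : D'.Normal := ⟨fun n hn g => by
    rw [Subgroup.mem_subgroupOf] at hn ⊢
    exact hDn g g.2 _ hn⟩
  haveI hD'f : D'.FiniteIndex := inferInstance
  let U' : Subgroup N' := D'.subgroupOf N'
  haveI hU'n : U'.Normal := inferInstance
  haveI hU'f : U'.FiniteIndex := inferInstance
  have hinv : ∀ n : N', ((n : K) : G)⁻¹ ∈ K := fun n => K.inv_mem (n : K).2
  have hWn : ∀ (n : N') (x : G), ((n : K) : G)⁻¹ * x * (((n : K) : G)⁻¹)⁻¹ ∈ N ⊓ (D : Subgroup G) ↔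
      x ∈ N ⊓ (D : Subgroup G) := by
    intro n x
    constructor
    · intro h
      have := hUn ((n : K) : G) (n : K).2 _ h
      have e : ((n : K) : G) * (((n : K) : G)⁻¹ * x * (((n : K) : G)⁻¹)⁻¹) * ((n : K) : G)⁻¹ = x := by group
      rwa [e] at this
    · intro h
      exact hUn _ (hinv n) _ h
  let ρ : Representation (ZMod p) N' (VV p Ls (N ⊓ (D : Subgroup G))) :=
    { toFun := fun n =>
        { toFun := fun f => ⟨fun x => f.1 (((n : K) : G)⁻¹ * x * (((n : K) : G)⁻¹)⁻¹),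
            crit_conj p Ls (((n : K) : G)⁻¹) (fun Λ hΛ => hLs _ (hinv n) Λ hΛ) _ _ (hWn n) f.1 f.2⟩
          map_add' := fun f f' => by
            apply Subtype.ext
            funext x
            rfl
          map_smul' := fun c f => by
            apply Subtype.ext
            funext x
            rfl }
      map_one' := by
        ext f x
        show f.1 ((((1 : N') : K) : G)⁻¹ * x * ((((1 : N') : K) : G)⁻¹)⁻¹) = f.1 x
        simp
      map_mul' := by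
        intro m n
        ext f x
        show f.1 ((((m * n : N') : K) : G)⁻¹ * x * ((((m * n : N') : K) : G)⁻¹)⁻¹) =
          f.1 (((n : K) : G)⁻¹ * (((m : K) : G)⁻¹ * x * (((m : K) : G)⁻¹)⁻¹) * (((n : K) : G)⁻¹)⁻¹)
        congr 1
        rw [Subgroup.coe_mul, Subgroup.coe_mul]
        group }
  have hρ : ∀ (n : N') (f : VV p Ls (N ⊓ (D : Subgroup G))) (x : G),
      (ρ n f).1 x = f.1 (((n : K) : G)⁻¹ * x * (((n : K) : G)⁻¹)⁻¹) := fun n f x => rfl
  refine hAlg N' (VV p Ls (N ⊓ (D : Subgroup G))) U' p ρ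
    {H' | ∃ H ∈ Hs, ∃ g ∈ K, ∀ n : N', n ∈ H' ↔ g⁻¹ * ((n : K) : G) * g ∈ H} ?_ ?_ ?_
  · intro u hu
    have huD : ((u : K) : G) ∈ (D : Subgroup G) := by
      have := (Subgroup.mem_subgroupOf.1 hu)
      exact Subgroup.mem_subgroupOf.1 this
    have huN : ((u : K) : G) ∈ N := Subgroup.mem_subgroupOf.1 u.2
    have huU : ((u : K) : G) ∈ N ⊓ (D : Subgroup G) := ⟨huN, huD⟩
    ext f x
    rw [hρ]
    show f.1 (((u : K) : G)⁻¹ * x * (((u : K) : G)⁻¹)⁻¹) = f.1 x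
    obtain ⟨f1, f2, _, _⟩ := f.2
    by_cases hx : x ∈ N ⊓ (D : Subgroup G)
    · have huU' := (N ⊓ (D : Subgroup G)).inv_mem huU
      have e1 := f2 _ ((N ⊓ (D : Subgroup G)).mul_mem huU' hx) _ huU
      have e2 := f2 _ huU' _ hx
      have e3 := f2 _ huU' _ huU
      have e4 := f2 _ (N ⊓ (D : Subgroup G)).one_mem _ (N ⊓ (D : Subgroup G)).one_mem
      rw [mul_one] at e4
      rw [inv_mul_cancel] at e3
      rw [inv_inv, e1, e2]
      have e5 : f.1 (1 : G) = 0 := by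
        have := e4
        simpa using this
      rw [e5] at e3
      linear_combination -e3
    · rw [f1 _ (mt (hWn u x).1 hx), f1 _ hx]
  · intro S _ _ _ σ hσ hσU
    obtain ⟨S₁, _, _, _, τ, hτ, hτD, hτv⟩ := hCliff K S N' D' p σ hσ (fun n hn => hσU n (Subgroup.mem_subgroupOf.2 hn))
    obtain ⟨H, hH, v, hv, hvH⟩ := hirr S₁ τ hτ (fun g hg => hτD g (Subgroup.mem_subgroupOf.2 hg))
    obtain ⟨g, v', hv', hg⟩ := hτv (H.subgroupOf K) v hv (fun h hh => hvH h (Subgroup.mem_subgroupOf.1 hh))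
    refine ⟨((cj (g : G) H).subgroupOf K).subgroupOf N', ⟨H, hH, (g : G), g.2, fun n => ?_⟩, v', hv', ?_⟩
    · rw [Subgroup.mem_subgroupOf, Subgroup.mem_subgroupOf, crit_mem_cj]
    · intro h hh
      rw [Subgroup.mem_subgroupOf, Subgroup.mem_subgroupOf, crit_mem_cj] at hh
      exact hg h (Subgroup.mem_subgroupOf.2 hh)
  · rintro H' ⟨H, hH, g, hg, hH'⟩
    have h1 := hstep2 H hH g hg
    refine (h1.preimage (Subtype.val_injective.injOn)).subset ?_
    intro v hv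
    refine ⟨v.2, fun w hw u hu => ?_⟩
    have hwK : w ∈ K := hNK hw.1
    have hw2 := (crit_mem_cj _ _ _).1 hw.2
    let h0 : K := ⟨w⁻¹, K.inv_mem hwK⟩
    have h0N : h0 ∈ N' := Subgroup.mem_subgroupOf.2 (N.inv_mem hw.1)
    have h0H : (⟨h0, h0N⟩ : N') ∈ H' := by
      rw [hH']
      have := H.inv_mem hw2
      have e : (g⁻¹ * w * g)⁻¹ = g⁻¹ * w⁻¹ * g := by group
      rw [e] at this
      exact this
    have h2 := hv ⟨h0, h0N⟩ h0H
    have h3 := congrFun (congrArg Subtype.val h2) u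
    rw [hρ] at h3
    have e : (((⟨h0, h0N⟩ : N') : K) : G) = w⁻¹ := rfl
    rw [e, inv_inv] at h3
    exact h3

end Pool.Agent.MuZ
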