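import Pool.Agent.Lib.MuZ.Pc

/-!
# Dévissage over the irreducible representations
-/

open scoped Pointwise

noncomputable section

namespace Pool.Agent.MuZ

namespace DevAux

section Rep

variable {G : Type} [Group G] {p : ℕ} {S : Type} [AddCommGroup S] [Module (ZMod p) S]

/-- The representation on an invariant subspace. -/
def subRep (ρ : Representation (ZMod p) G S) (W : Submodule (ZMod p) S)
    (hW : ∀ g : G, ∀ w ∈ W, ρ g w ∈ W) : Representation (ZMod p) G W where
  toFun g := (ρ g).restrict (hW g)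
  map_one' := by
    apply LinearMap.ext
    intro w
    apply Subtype.ext
    change ρ 1 w = w
    rw [map_one, Module.End.one_apply]
  map_mul' g h := by
    apply LinearMap.ext
    intro w
    apply Subtype.ext
    change ρ (g * h) w = ρ g (ρ h w)
    rw [map_mul, Module.End.mul_apply]

theorem subRep_apply (ρ : Representation (ZMod p) G S) (W : Submodule (ZMod p) S)
    (hW : ∀ g : G, ∀ w ∈ W, ρ g w ∈ W) (g : G) (w : W) :
    (subRep ρ W hW g w : S) = ρ g w := rfl

/-- The representation on a quotient. -/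
def quoRep (ρ : Representation (ZMod p) G S) (W : Submodule (ZMod p) S)
    (hW : ∀ g : G, ∀ w ∈ W, ρ g w ∈ W) : Representation (ZMod p) G (S ⧸ W) where
  toFun g := Submodule.mapQ W W (ρ g) (hW g)
  map_one' := by
    apply LinearMap.ext
    intro v
    induction v using Submodule.Quotient.induction_on with
    | _ c =>
      rw [Submodule.mapQ_apply, map_one]
      rfl
  map_mul' g h := by
    apply LinearMap.ext
    intro v
    induction v using Submodule.Quotient.induction_on with
    | _ c =>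
      rw [Submodule.mapQ_apply, map_mul]
      rfl

theorem quoRep_mk (ρ : Representation (ZMod p) G S) (W : Submodule (ZMod p) S)
    (hW : ∀ g : G, ∀ w ∈ W, ρ g w ∈ W) (g : G) (v : S) :
    quoRep ρ W hW g (Submodule.Quotient.mk v) = Submodule.Quotient.mk (ρ g v) := rfl

end Rep

/-- The equivariant homomorphisms. -/
def HomS {G : Type} [Group G] [TopologicalSpace G] {p : ℕ} (Ls : Set (Subgroup G))
    (N D : Subgroup G) {S : Type} [AddCommGroup S] [Module (ZMod p) S]
    (ρ : Representation (ZMod p) G S) : Set (G → S) :=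
  {ψ : G → S | (∀ g ∉ N ⊓ D, ψ g = 0) ∧
    (∀ g ∈ N ⊓ D, ∀ h ∈ N ⊓ D, ψ (g * h) = ψ g + ψ h) ∧
    (∃ O : OpenSubgroup G, ∀ g ∈ N ⊓ D, g ∈ O → ψ g = 0) ∧
    (∀ Λ ∈ Ls, ∀ g ∈ Λ, g ∈ N ⊓ D → ψ g = 0) ∧
    ∀ n ∈ N, ∀ u ∈ N ⊓ D, ψ (n * u * n⁻¹) = ρ n (ψ u)}

section Step1

variable {G : Type} [Group G] [TopologicalSpace G] {p : ℕ} [Fact p.Prime]

theorem step1 (Ls : Set (Subgroup G)) (N D : Subgroup G)
    (hirr : ∀ (S : Type) [AddCommGroup S] [Module (ZMod p) S] [Finite S]
      (ρ : Representation (ZMod p) G S), Irr ρ → (∀ g ∈ D, ρ g = 1) → (HomS Ls N D ρ).Finite) :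
    ∀ (m : ℕ) (S : Type) [AddCommGroup S] [Module (ZMod p) S] [Finite S]
      (ρ : Representation (ZMod p) G S), Nat.card S = m → (∀ g ∈ D, ρ g = 1) →
      (HomS Ls N D ρ).Finite := by
  intro m
  induction m using Nat.strong_induction_on with
  | _ m ih =>
    intro S _ _ _ ρ hm hD
    by_cases h0 : ∃ v : S, v ≠ 0
    · by_cases hI : ∀ W : Submodule (ZMod p) S, (∀ g : G, ∀ w ∈ W, ρ g w ∈ W) → W = ⊥ ∨ W = ⊤
      · exact hirr S ρ ⟨h0, hI⟩ hD
      · push Not at hI
        obtain ⟨W, hW, hW0, hW1⟩ := hI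
        haveI : Finite (S ⧸ W) := Finite.of_surjective _ (Submodule.mkQ_surjective W)
        have hmul : Nat.card S = Nat.card W * Nat.card (S ⧸ W) := by
          have := AddSubgroup.card_eq_card_quotient_mul_card_addSubgroup W.toAddSubgroup
          rw [mul_comm] at this
          exact this
        have hpos : 0 < Nat.card W := Nat.card_pos
        have hposq : 0 < Nat.card (S ⧸ W) := Nat.card_pos
        have hW2 : 1 < Nat.card W := by
          rw [Finite.one_lt_card_iff_nontrivial]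
          exact Submodule.nontrivial_iff_ne_bot.2 hW0
        have hW3 : 1 < Nat.card (S ⧸ W) := by
          rw [Finite.one_lt_card_iff_nontrivial]
          exact Submodule.Quotient.nontrivial_iff.2 hW1
        have h1 : Nat.card W < m := by
          rw [← hm, hmul]
          nlinarith
        have h2 : Nat.card (S ⧸ W) < m := by
          rw [← hm, hmul]
          nlinarith
        have hf1 := ih _ h1 W (subRep ρ W hW) rfl (fun g hg => by
          apply LinearMap.ext
          intro w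
          apply Subtype.ext
          rw [subRep_apply, hD g hg]
          rfl)
        have hf2 := ih _ h2 (S ⧸ W) (quoRep ρ W hW) rfl (fun g hg => by
          apply LinearMap.ext
          intro v
          induction v using Submodule.Quotient.induction_on with
          | _ c =>
            rw [quoRep_mk, hD g hg]
            rfl)
        refine Set.Finite.of_finite_fibers (fun ψ : G → S => fun g => (Submodule.Quotient.mk (ψ g) : S ⧸ W))
          (hf2.subset ?_) ?_
        · rintro _ ⟨ψ, ⟨a1, a2, ⟨O, a3⟩, a4, a5⟩, rfl⟩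
          refine ⟨fun g hg => ?_, fun g hg h hh => ?_, ⟨O, fun g hg hO => ?_⟩,
            fun Λ hΛ g hg hU => ?_, fun n hn u hu => ?_⟩
          · simp only [a1 g hg, Submodule.Quotient.mk_zero]
          · simp only [a2 g hg h hh, Submodule.Quotient.mk_add]
          · simp only [a3 g hg hO, Submodule.Quotient.mk_zero]
          · simp only [a4 Λ hΛ g hg hU, Submodule.Quotient.mk_zero]
          · simp only [a5 n hn u hu]
            rfl
        · rintro _ ⟨ψ, hψ, rfl⟩
          refine (hf1.image (fun χ : G → W => fun g => ψ g + (χ g : S))).subset ?_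
          rintro φ ⟨hφ, hφψ⟩
          have h3 : ∀ g, φ g - ψ g ∈ W := by
            intro g
            have h4 : (Submodule.Quotient.mk (φ g) : S ⧸ W) = Submodule.Quotient.mk (ψ g) :=
              congrFun hφψ g
            exact (Submodule.Quotient.eq W).1 h4
          refine ⟨fun g => ⟨φ g - ψ g, h3 g⟩, ?_, ?_⟩
          · obtain ⟨a1, a2, ⟨O, a3⟩, a4, a5⟩ := hψ
            obtain ⟨b1, b2, ⟨O', b3⟩, b4, b5⟩ := hφ
            refine ⟨fun g hg => ?_, fun g hg h hh => ?_, ⟨O ⊓ O', fun g hg hO => ?_⟩,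
              fun Λ hΛ g hg hU => ?_, fun n hn u hu => ?_⟩
            · apply Subtype.ext
              simp [a1 g hg, b1 g hg]
            · apply Subtype.ext
              simp only [a2 g hg h hh, b2 g hg h hh, Submodule.coe_add]
              abel
            · apply Subtype.ext
              simp [a3 g hg hO.1, b3 g hg hO.2]
            · apply Subtype.ext
              simp [a4 Λ hΛ g hg hU, b4 Λ hΛ g hg hU]
            · apply Subtype.ext
              rw [subRep_apply]
              simp only [a5 n hn u hu, b5 n hn u hu, map_sub]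
          · funext g
            simp
    · push Not at h0
      refine (Set.finite_singleton (0 : G → S)).subset ?_
      intro ψ _
      rw [Set.mem_singleton_iff]
      funext g
      exact h0 _

end Step1

section Step2

variable {G : Type} [Group G] {p : ℕ}

/-- The permutation representation on `G ⧸ D`. -/
def perRep (p : ℕ) (D : Subgroup G) : Representation (ZMod p) G (G ⧸ D → ZMod p) where
  toFun g := LinearMap.funLeft (ZMod p) (ZMod p) (fun x => g⁻¹ • x)
  map_one' := by
    apply LinearMap.ext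
    intro m
    funext x
    simp [LinearMap.funLeft_apply]
  map_mul' g h := by
    apply LinearMap.ext
    intro m
    funext x
    simp [LinearMap.funLeft_apply, mul_smul]

theorem perRep_apply (D : Subgroup G) (g : G) (m : G ⧸ D → ZMod p) (x : G ⧸ D) :
    perRep p D g m x = m (g⁻¹ • x) := rfl

theorem perRep_D (D : Subgroup G) (hD : D.Normal) (g : G) (hg : g ∈ D) : perRep p D g = 1 := by
  apply LinearMap.ext
  intro m
  funext x
  rw [perRep_apply, Module.End.one_apply]
  congr 1
  induction x using QuotientGroup.induction_on with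
  | _ y =>
    change ((g⁻¹ * y : G) : G ⧸ D) = (y : G ⧸ D)
    rw [QuotientGroup.eq]
    have h1 : (g⁻¹ * y)⁻¹ * y = y⁻¹ * g * y := by group
    rw [h1]
    have := hD.conj_mem g hg y⁻¹
    rwa [inv_inv] at this

open Classical in
/-- The homomorphism attached to a character. -/
def psi (N D : Subgroup G) (f : G → ZMod p) (u : G) (q : G ⧸ D) : ZMod p :=
  if h : u ∈ N ⊓ D ∧ ∃ n ∈ N, (n : G ⧸ D) = q then f ((h.2.choose)⁻¹ * u * h.2.choose) else 0

theorem psi_mk (N D : Subgroup G) (hN : N.Normal) (hD : D.Normal) (f : G → ZMod p)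
    (hf : ∀ g ∈ N ⊓ D, ∀ h ∈ N ⊓ D, f (g * h) = f g + f h) (u : G) (hu : u ∈ N ⊓ D) (n : G)
    (hn : n ∈ N) : psi N D f u (n : G ⧸ D) = f (n⁻¹ * u * n) := by
  have h : u ∈ N ⊓ D ∧ ∃ n' ∈ N, (n' : G ⧸ D) = (n : G ⧸ D) := ⟨hu, n, hn, rfl⟩
  unfold psi
  rw [dif_pos h]
  have hx := h.2.choose_spec
  set n' := h.2.choose with hn'
  obtain ⟨hx1, hx2⟩ := hx
  -- n' = n * v
  have hv : n⁻¹ * n' ∈ N ⊓ D := by
    refine ⟨N.mul_mem (N.inv_mem hn) hx1, ?_⟩
    exact QuotientGroup.eq.1 hx2.symm
  set v := n⁻¹ * n' with hvd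
  have hU : (N ⊓ D).Normal := inferInstance
  have h1 : n'⁻¹ * u * n' = v⁻¹ * (n⁻¹ * u * n) * v := by
    rw [hvd]
    group
  have h2 : n⁻¹ * u * n ∈ N ⊓ D := by
    have := hU.conj_mem u hu n⁻¹
    rwa [inv_inv] at this
  have hf1 : f 1 = 0 := by
    have := hf 1 (one_mem _) 1 (one_mem _)
    rw [mul_one] at this
    simpa using this
  have hfi : f v⁻¹ + f v = 0 := by
    rw [← hf _ (inv_mem hv) _ hv, inv_mul_cancel, hf1]
  rw [h1, hf _ (mul_mem (inv_mem hv) h2) _ hv, hf _ (inv_mem hv) _ h2]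
  linear_combination hfi

theorem psi_out (N D : Subgroup G) (f : G → ZMod p) (u : G) (hu : u ∉ N ⊓ D) (q : G ⧸ D) :
    psi N D f u q = 0 := by
  unfold psi
  rw [dif_neg]
  exact fun h => hu h.1

theorem psi_zero (N D : Subgroup G) (f : G → ZMod p) (u : G) (q : G ⧸ D)
    (hq : ¬ ∃ n ∈ N, (n : G ⧸ D) = q) : psi N D f u q = 0 := by
  unfold psi
  rw [dif_neg]
  exact fun h => hq h.2

variable [TopologicalSpace G] [IsTopologicalGroup G] [CompactSpace G]
  [TotallyDisconnectedSpace G] [T2Space G]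

theorem psi_mem (Ls : Set (Subgroup G)) (hL : ∀ g : G, ∀ Λ ∈ Ls, cj g Λ ∈ Ls) (N D : Subgroup G)
    (hN : N.Normal) (hD : D.Normal) (f : G → ZMod p) (hf : f ∈ VV p Ls (N ⊓ D)) :
    psi N D f ∈ HomS Ls N D (perRep p D) := by
  obtain ⟨f1, f2, ⟨O, f3⟩, f4⟩ := hf
  have hU : (N ⊓ D).Normal := inferInstance
  have hU' : ∀ (n u : G), u ∈ N ⊓ D → n⁻¹ * u * n ∈ N ⊓ D := by
    intro n u hu
    have := hU.conj_mem u hu n⁻¹
    rwa [inv_inv] at this
  refine ⟨fun g hg => ?_, fun g hg h hh => ?_, ?_, fun Λ hΛ g hg hgU => ?_,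
    fun n hn u hu => ?_⟩
  · funext q
    exact psi_out N D f g hg q
  · funext q
    by_cases hq : ∃ n ∈ N, (n : G ⧸ D) = q
    · obtain ⟨n, hn, rfl⟩ := hq
      rw [Pi.add_apply, psi_mk N D hN hD f f2 _ (mul_mem hg hh) n hn,
        psi_mk N D hN hD f f2 _ hg n hn, psi_mk N D hN hD f f2 _ hh n hn,
        ← f2 _ (hU' n g hg) _ (hU' n h hh)]
      congr 1
      group
    · rw [Pi.add_apply, psi_zero N D f _ q hq, psi_zero N D f _ q hq, psi_zero N D f _ q hq,
        add_zero]
  · obtain ⟨O', hOn, hO'⟩ := PcAux.exists_normal O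
    refine ⟨O', fun g hg hgO => ?_⟩
    funext q
    by_cases hq : ∃ n ∈ N, (n : G ⧸ D) = q
    · obtain ⟨n, hn, rfl⟩ := hq
      rw [psi_mk N D hN hD f f2 _ hg n hn]
      apply f3 _ (hU' n g hg)
      apply hO'
      have := hOn.conj_mem g hgO n⁻¹
      rwa [inv_inv] at this
    · exact psi_zero N D f _ q hq
  · funext q
    by_cases hq : ∃ n ∈ N, (n : G ⧸ D) = q
    · obtain ⟨n, hn, rfl⟩ := hq
      rw [psi_mk N D hN hD f f2 _ hgU n hn]
      apply f4 (cj n⁻¹ Λ) (hL _ _ hΛ) _ ?_ (hU' n g hgU)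
      refine ⟨g, hg, ?_⟩
      change n⁻¹ * g * n⁻¹⁻¹ = _
      rw [inv_inv]
    · exact psi_zero N D f _ q hq
  · funext q
    rw [perRep_apply]
    by_cases hq : ∃ n ∈ N, (n : G ⧸ D) = q
    · obtain ⟨m, hm, rfl⟩ := hq
      have h1 : n⁻¹ • (m : G ⧸ D) = ((n⁻¹ * m : G) : G ⧸ D) := rfl
      rw [psi_mk N D hN hD f f2 _ (hU.conj_mem u hu n) m hm, h1,
        psi_mk N D hN hD f f2 _ hu _ (mul_mem (inv_mem hn) hm)]
      congr 1
      group
    · rw [psi_zero N D f _ q hq, psi_zero]
      rintro ⟨m, hm, hmq⟩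
      apply hq
      refine ⟨n * m, mul_mem hn hm, ?_⟩
      have h1 : ((n * m : G) : G ⧸ D) = n • (m : G ⧸ D) := rfl
      rw [h1, hmq, smul_inv_smul]

end Step2

end DevAux

open DevAux in
theorem c_Dev : S_Dev := by
  intro G _ _ _ _ _ _ p _ Ls N D hN hD hDo hL hirr
  haveI : Finite (G ⧸ D) := Subgroup.quotient_finite_of_isOpen D hDo
  have hfin : (HomS Ls N D (perRep p D)).Finite :=
    step1 Ls N D hirr _ (G ⧸ D → ZMod p) (perRep p D) rfl (perRep_D D hD)
  haveI : Finite (HomS Ls N D (perRep p D)) := hfin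
  apply Finite.of_injective (fun f : VV p Ls (N ⊓ D) =>
    (⟨psi N D f.1, psi_mem Ls hL N D hN hD f.1 f.2⟩ : HomS Ls N D (perRep p D)))
  intro f f' hff'
  apply Subtype.ext
  funext u
  by_cases hu : u ∈ N ⊓ D
  · have h1 : psi N D f.1 u ((1 : G) : G ⧸ D) = psi N D f'.1 u ((1 : G) : G ⧸ D) :=
      congrFun (congrFun (congrArg Subtype.val hff') u) _
    rw [psi_mk N D hN hD f.1 f.2.2.1 u hu 1 (one_mem _),
      psi_mk N D hN hD f'.1 f'.2.2.1 u hu 1 (one_mem _)] at h1
    simpa using h1
  · rw [f.2.1 u hu, f'.2.1 u hu]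

end Pool.Agent.MuZ
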