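import Pool.Agent.Lib.MuZ.CSpec

/-!
# The dimension formula

`c_Dim`: the space of the cocycles on a layer has dimension `dim ker U + dim S`.
-/

open scoped Pointwise

noncomputable section

namespace Pool.Agent.MuZ

namespace DimAux

variable {G : Type} [Group G] [TopologicalSpace G] {p : ℕ} {S : Type} [AddCommGroup S]
  [Module (ZMod p) S] {Ls : Set (Subgroup G)} {ρ : Representation (ZMod p) G S}
  {Y N M : Subgroup G} {c : G → S}

theorem coc_drop (h : c ∈ Coc Ls ρ Y M) : c ∈ Coc ∅ ρ Y Y :=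
  ⟨h.1, h.2.1, h.2.2.1, fun Λ hΛ => (Set.notMem_empty _ hΛ).elim⟩

theorem cob_apply (s : S) {x : G} (hx : x ∈ Y) : cob ρ Y s x = ρ x s - s := by
  classical
  change (if x ∈ Y then ρ x s - s else 0) = _
  rw [if_pos hx]

theorem cob_apply_not (s : S) {x : G} (hx : x ∉ Y) : cob ρ Y s x = 0 := by
  classical
  change (if x ∈ Y then ρ x s - s else 0) = _
  rw [if_neg hx]

theorem cob_mem (hM : M ≤ Y) (hρ : ∃ O : OpenSubgroup G, ∀ g ∈ O, ρ g = 1) (s : S) :
    cob ρ Y s ∈ Coc Ls ρ Y M := by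
  obtain ⟨O, hO⟩ := hρ
  refine ⟨fun g hg => cob_apply_not s hg, fun g hg h hh => ?_, ⟨O, fun g hg hgO => ?_⟩,
    fun Λ _ => ⟨s, fun g _ hgM => cob_apply s (hM hgM)⟩⟩
  · rw [cob_apply s (mul_mem hg hh), cob_apply s hg, cob_apply s hh, map_mul, map_sub,
      Module.End.mul_apply]
    abel
  · rw [cob_apply s hg, hO g hgO]
    simp

/-- Restriction to `N`. -/
def rst (N : Subgroup G) : (G → S) →ₗ[ZMod p] (G → S) where
  toFun c := by
    classical
    exact fun x => if x ∈ N then c x else 0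
  map_add' := by
    intro a b
    ext x
    by_cases h : x ∈ N <;> simp [h]
  map_smul' := by
    intro r a
    ext x
    by_cases h : x ∈ N <;> simp [h]

theorem rst_apply (c : G → S) {x : G} (hx : x ∈ N) : rst (p := p) N c x = c x := by
  classical
  change (if x ∈ N then c x else 0) = _
  rw [if_pos hx]

theorem rst_apply_not (c : G → S) {x : G} (hx : x ∉ N) : rst (p := p) N c x = 0 := by
  classical
  change (if x ∈ N then c x else 0) = _
  rw [if_neg hx]

theorem rst_mem (hN : N ≤ Y) (h : c ∈ Coc Ls ρ Y N) : rst (p := p) N c ∈ Coc Ls ρ N N := by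
  obtain ⟨-, h2, ⟨O, h3⟩, h4⟩ := h
  refine ⟨fun g hg => rst_apply_not c hg, fun g hg h hh => ?_, ⟨O, fun g hg hgO => ?_⟩,
    fun Λ hΛ => ?_⟩
  · rw [rst_apply c (mul_mem hg hh), rst_apply c hg, rst_apply c hh, h2 g (hN hg) h (hN hh)]
  · rw [rst_apply c hg, h3 g (hN hg) hgO]
  · obtain ⟨s, hs⟩ := h4 Λ hΛ
    exact ⟨s, fun g hg hgN => by rw [rst_apply c hgN, hs g hg hgN]⟩

theorem act_mem [IsTopologicalGroup G] {Γ : G} (hΓ : Γ ∈ Y)
    (hnrm : ∀ y ∈ Y, ∀ n ∈ N, y * n * y⁻¹ ∈ N) (hLs : ∀ y ∈ Y, ∀ Λ ∈ Ls, cj y Λ ∈ Ls)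
    (h : c ∈ Coc Ls ρ N N) : act ρ Γ c ∈ Coc Ls ρ N N := by
  obtain ⟨h1, h2, ⟨O, h3⟩, h4⟩ := h
  have hin : ∀ x ∈ N, Γ⁻¹ * x * Γ ∈ N := fun x hx => by
    have := hnrm Γ⁻¹ (inv_mem hΓ) x hx
    rwa [inv_inv] at this
  have happ : ∀ x, act ρ Γ c x = ρ Γ (c (Γ⁻¹ * x * Γ)) := fun x => rfl
  refine ⟨fun g hg => ?_, fun g hg h hh => ?_,
    ⟨O.comap (MulAut.conj Γ⁻¹).toMonoidHom ?_, fun g hg hgO => ?_⟩, fun Λ hΛ => ?_⟩
  · rw [happ, h1, map_zero]
    intro hx
    apply hg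
    have := hnrm Γ hΓ _ hx
    have e : Γ * (Γ⁻¹ * g * Γ) * Γ⁻¹ = g := by group
    rwa [e] at this
  · rw [happ, happ, happ]
    have e : Γ⁻¹ * (g * h) * Γ = (Γ⁻¹ * g * Γ) * (Γ⁻¹ * h * Γ) := by group
    rw [e, h2 _ (hin g hg) _ (hin h hh), map_add]
    congr 1
    rw [← Module.End.mul_apply, ← Module.End.mul_apply, ← map_mul, ← map_mul]
    congr 2
    group
  · have : Continuous fun x : G => Γ⁻¹ * x * Γ⁻¹⁻¹ := IsTopologicalGroup.continuous_conj Γ⁻¹
    exact this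
  · rw [happ, h3 _ (hin g hg), map_zero]
    have : Γ⁻¹ * g * Γ⁻¹⁻¹ ∈ O := hgO
    rwa [inv_inv] at this
  · obtain ⟨s, hs⟩ := h4 (cj Γ⁻¹ Λ) (hLs Γ⁻¹ (inv_mem hΓ) Λ hΛ)
    refine ⟨ρ Γ s, fun g hg hgN => ?_⟩
    rw [happ, hs (Γ⁻¹ * g * Γ) ?_ (hin g hgN), map_sub]
    · congr 1
      rw [← Module.End.mul_apply, ← Module.End.mul_apply, ← map_mul, ← map_mul]
      congr 2
      group
    · refine ⟨g, hg, ?_⟩
      change Γ⁻¹ * g * Γ⁻¹⁻¹ = _
      rw [inv_inv]

end DimAux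

open DimAux

theorem c_Dim : S_Dim := by
  intro hCocX hUni hSemi hVal G _ _ _ _ _ _ p _ Ls Y N Γ hZ hLs S _ _ _ ρ hρ U hU
  have hΓ : Γ ∈ Y := hZ.mem
  have hin : ∀ x ∈ N, Γ⁻¹ * x * Γ ∈ N := fun x hx => by
    have := hZ.nrm Γ⁻¹ (inv_mem hΓ) x hx
    rwa [inv_inv] at this
  have hout : ∀ x, Γ⁻¹ * x * Γ ∈ N → x ∈ N := fun x hx => by
    have := hZ.nrm Γ hΓ _ hx
    have e : Γ * (Γ⁻¹ * x * Γ) * Γ⁻¹ = x := by group
    rwa [e] at this
  have hext := hCocX hSemi hVal G p Y N Γ hZ S ρ hρ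
  -- the maps
  let r : Coc Ls ρ Y N →ₗ[ZMod p] Coc Ls ρ N N :=
    LinearMap.codRestrict _ ((rst (p := p) N).comp (Coc Ls ρ Y N).subtype)
      (fun c => rst_mem hZ.le c.2)
  have hr : ∀ c : Coc Ls ρ Y N, (r c : G → S) = rst (p := p) N (c : G → S) := fun c => rfl
  let B : Submodule (ZMod p) (Coc Ls ρ N N) :=
    (LinearMap.range (cob ρ N)).comap (Coc Ls ρ N N).subtype
  let q : Coc Ls ρ Y N →ₗ[ZMod p] HN Ls ρ N := B.mkQ.comp r
  have hq : ∀ c, q c = Submodule.Quotient.mk (r c) := fun c => rfl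
  have hkey : ∀ c : G → S, c ∈ Coc Ls ρ Y N → ∀ x ∈ N,
      c Γ + ρ Γ (c (Γ⁻¹ * x * Γ)) = c x + ρ x (c Γ) := by
    intro c hc x hx
    rw [← hc.2.1 Γ hΓ _ (hZ.le (hin x hx)), ← hc.2.1 x (hZ.le hx) Γ hΓ]
    congr 1
    group
  -- the range
  have hrange : LinearMap.range q = LinearMap.ker U := by
    ext v
    constructor
    · rintro ⟨c, rfl⟩
      rw [LinearMap.mem_ker, hq, hU (r c) ⟨act ρ Γ (r c), act_mem hΓ hZ.nrm hLs (r c).2⟩ rfl,
        ← Submodule.Quotient.mk_sub, Submodule.Quotient.mk_eq_zero]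
      refine ⟨(c : G → S) Γ, ?_⟩
      change cob ρ N ((c : G → S) Γ) = act ρ Γ (rst (p := p) N (c : G → S)) -
        rst (p := p) N (c : G → S)
      ext x
      rw [Pi.sub_apply]
      change _ = ρ Γ (rst (p := p) N (c : G → S) (Γ⁻¹ * x * Γ)) - _
      by_cases hx : x ∈ N
      · rw [cob_apply _ hx, rst_apply _ hx, rst_apply _ (hin x hx)]
        have := hkey c c.2 x hx
        rw [sub_eq_sub_iff_add_eq_add, add_comm (ρ x _), ← this, add_comm]
      · rw [cob_apply_not _ hx, rst_apply_not _ hx, rst_apply_not _ (fun h => hx (hout x h))]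
        simp
    · intro hv
      obtain ⟨c, rfl⟩ := Submodule.Quotient.mk_surjective _ v
      rw [LinearMap.mem_ker, hU c ⟨act ρ Γ c, act_mem hΓ hZ.nrm hLs c.2⟩ rfl,
        ← Submodule.Quotient.mk_sub, Submodule.Quotient.mk_eq_zero] at hv
      obtain ⟨t, ht⟩ := hv
      have ht' : cob ρ N t = act ρ Γ (c : G → S) - (c : G → S) := ht
      obtain ⟨c', hc', hcN, hcΓ⟩ := hext c (coc_drop c.2) t (by
        intro x hx
        have hx' : Γ * x * Γ⁻¹ ∈ N := hZ.nrm Γ hΓ x hx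
        have := congrFun ht' (Γ * x * Γ⁻¹)
        rw [cob_apply _ hx', Pi.sub_apply] at this
        change _ = ρ Γ ((c : G → S) (Γ⁻¹ * (Γ * x * Γ⁻¹) * Γ)) - _ at this
        have e : Γ⁻¹ * (Γ * x * Γ⁻¹) * Γ = x := by group
        rw [e] at this
        rw [add_sub_assoc, eq_comm, ← sub_eq_zero]
        rw [← sub_eq_zero] at this
        rw [← neg_eq_zero, ← this]
        abel)
      have hmem : c' ∈ Coc Ls ρ Y N := by
        refine ⟨hc'.1, hc'.2.1, hc'.2.2.1, fun Λ hΛ => ?_⟩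
        obtain ⟨s, hs⟩ := c.2.2.2.2 Λ hΛ
        exact ⟨s, fun g hg hgN => by rw [hcN g hgN, hs g hg hgN]⟩
      refine ⟨⟨c', hmem⟩, ?_⟩
      rw [hq]
      congr 1
      apply Subtype.ext
      rw [hr]
      ext x
      by_cases hx : x ∈ N
      · rw [rst_apply _ hx]
        exact hcN x hx
      · rw [rst_apply_not _ hx]
        exact (c.2.1 x hx).symm
  -- the kernel
  have hker : ∀ c : Coc Ls ρ Y N, c ∈ LinearMap.ker q ↔
      rst (p := p) N (c : G → S) ∈ LinearMap.range (cob ρ N) := by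
    intro c
    rw [LinearMap.mem_ker, hq, Submodule.Quotient.mk_eq_zero]
    rfl
  let fK : LinearMap.ker q →ₗ[ZMod p] (G → S) :=
    ((rst (p := p) N).comp (Coc Ls ρ Y N).subtype).comp (LinearMap.ker q).subtype
  have hfK : ∀ c : LinearMap.ker q, fK c = rst (p := p) N ((c : Coc Ls ρ Y N) : G → S) :=
    fun c => rfl
  have hrfK : LinearMap.range fK = LinearMap.range (cob ρ N) := by
    apply le_antisymm
    · rintro _ ⟨c, rfl⟩
      rw [hfK]
      exact (hker c).1 c.2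
    · rintro _ ⟨s, rfl⟩
      have e : rst (p := p) N (cob ρ Y s) = cob ρ N s := by
        ext x
        by_cases hx : x ∈ N
        · rw [rst_apply _ hx, cob_apply _ hx, cob_apply _ (hZ.le hx)]
        · rw [rst_apply_not _ hx, cob_apply_not _ hx]
      have hm : cob ρ Y s ∈ Coc Ls ρ Y N := cob_mem hZ.le hρ s
      refine ⟨⟨⟨cob ρ Y s, hm⟩, (hker _).2 ?_⟩, ?_⟩
      · exact ⟨s, e.symm⟩
      · rw [hfK]
        exact e
  have hkf : ∀ c : LinearMap.ker fK, ∀ x ∈ N, (((c : LinearMap.ker q) : Coc Ls ρ Y N) : G → S) x = 0 := by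
    intro c x hx
    have := congrFun (LinearMap.mem_ker.1 c.2) x
    rw [hfK, rst_apply _ hx] at this
    exact this
  have hev : ∀ c : LinearMap.ker fK,
      (((c : LinearMap.ker q) : Coc Ls ρ Y N) : G → S) Γ ∈ LinearMap.ker (cob ρ N) := by
    intro c
    rw [LinearMap.mem_ker]
    ext x
    by_cases hx : x ∈ N
    · rw [cob_apply _ hx]
      have := hkey _ ((c : LinearMap.ker q) : Coc Ls ρ Y N).2 x hx
      rw [hkf c x hx, hkf c _ (hin x hx), map_zero, add_zero, zero_add] at this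
      rw [← this, sub_self]
      rfl
    · rw [cob_apply_not _ hx]
      rfl
  let ev : LinearMap.ker fK →ₗ[ZMod p] LinearMap.ker (cob ρ N) :=
    { toFun := fun c => ⟨_, hev c⟩
      map_add' := fun a b => rfl
      map_smul' := fun a b => rfl }
  have hevb : Function.Bijective ev := by
    constructor
    · rw [injective_iff_map_eq_zero]
      intro c hc
      have h0 : (((c : LinearMap.ker q) : Coc Ls ρ Y N) : G → S) Γ = 0 :=
        congrArg (Subtype.val) hc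
      have := hUni G p Y N Γ hZ.le hΓ hZ.gen S ρ _ (coc_drop ((c : LinearMap.ker q) : Coc Ls ρ Y N).2)
        (hkf c) h0
      apply Subtype.ext
      apply Subtype.ext
      apply Subtype.ext
      exact this
    · rintro ⟨t, ht⟩
      rw [LinearMap.mem_ker] at ht
      have ht' : ∀ x ∈ N, ρ x t = t := by
        intro x hx
        have := congrFun ht x
        rw [cob_apply _ hx] at this
        exact sub_eq_zero.1 this
      obtain ⟨c', hc', hcN, hcΓ⟩ := hext 0 (Submodule.zero_mem _) t (by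
        intro x hx
        rw [ht' _ (hZ.nrm Γ hΓ x hx)]
        simp)
      have hmem : c' ∈ Coc Ls ρ Y N :=
        ⟨hc'.1, hc'.2.1, hc'.2.2.1, fun Λ hΛ => ⟨0, fun g _ hgN => by
          rw [hcN g hgN]
          simp⟩⟩
      have hr0 : rst (p := p) N c' = 0 := by
        ext x
        by_cases hx : x ∈ N
        · rw [rst_apply _ hx]
          exact hcN x hx
        · rw [rst_apply_not _ hx]
          rfl
      refine ⟨⟨⟨⟨c', hmem⟩, (hker _).2 ?_⟩, ?_⟩, Subtype.ext hcΓ⟩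
      · change rst (p := p) N c' ∈ _
        rw [hr0]
        exact Submodule.zero_mem _
      · rw [LinearMap.mem_ker, hfK]
        exact hr0
  have hrk : Module.rank (ZMod p) (LinearMap.ker q) = Module.rank (ZMod p) S := by
    rw [← LinearMap.rank_range_add_rank_ker fK, ← LinearMap.rank_range_add_rank_ker (cob ρ N),
      hrfK, (LinearEquiv.ofBijective ev hevb).rank_eq]
  rw [← LinearMap.rank_range_add_rank_ker q, hrange, hrk]

end Pool.Agent.MuZ
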