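import Pool.Agent.Lib.MuZ.CSpec

/-!
# MP_d0239a_nt: the space of equivariant functions is bounded
-/

noncomputable section

namespace Pool.Agent.MuZ

theorem c_EB : S_EB := by
  rintro G _ p hp X _ N ⟨R, hR, hcov⟩ S _ _ _ ρ
  have hRf : Finite R := hR
  refine ⟨Module.finrank (ZMod p) (R → S), fun Y hNY => ?_⟩
  rw [Module.finrank_eq_rank]
  let f : EqF (X := X) ρ Y →ₗ[ZMod p] (R → S) :=
    { toFun := fun φ r => φ.1 r.1
      map_add' := fun _ _ => rfl
      map_smul' := fun _ _ => rfl }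
  refine LinearMap.rank_le_of_injective f ?_
  intro φ ψ h
  apply Subtype.ext
  funext x
  obtain ⟨r, hr, n, hn, rfl⟩ := hcov x
  have h1 : φ.1 r = ψ.1 r := congrFun h ⟨r, hr⟩
  rw [φ.2 n (hNY hn) r, ψ.2 n (hNY hn) r, h1]

end Pool.Agent.MuZ
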