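import Pool.Agent.Lib.MuZ.Spec

/-!
# Extension of invariant characters
-/

open scoped Pointwise

noncomputable section

namespace Pool.Agent.MuZ

/-- A subgroup is finite if a map to a finite type has finite fibres up to translation. -/
private lemma Ext_fin {M T : Type} [AddCommGroup M] [Finite T] (A : Set M) (φ : M → T) (B : Set M) (hB : B.Finite)
    (h : ∀ a ∈ A, ∀ b ∈ A, φ a = φ b → a - b ∈ B) : A.Finite := by
  classical
  let r : T → M := fun t => if h : ∃ a ∈ A, φ a = t then h.choose else 0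
  have h1 : A ⊆ ⋃ t : T, (fun b => b + r t) '' B := by
    intro a ha
    rw [Set.mem_iUnion]
    have h2 : ∃ b ∈ A, φ b = φ a := ⟨a, ha, rfl⟩
    have h3 : r (φ a) = h2.choose := dif_pos h2
    refine ⟨φ a, a - r (φ a), ?_, sub_add_cancel _ _⟩
    rw [h3]
    exact h a ha _ h2.choose_spec.1 h2.choose_spec.2.symm
  exact (Set.finite_iUnion fun t => hB.image _).subset h1

section

variable {G : Type} [Group G]

/-- The representative of the right coset of `U`, equal to `1` for `U`. -/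
private def Ext_s (U : Subgroup G) (g : G) : G :=
  (Quotient.mk (QuotientGroup.rightRel U) 1).out⁻¹ * (Quotient.mk (QuotientGroup.rightRel U) g).out

private lemma Ext_out (U : Subgroup G) (g : G) :
    g * ((Quotient.mk (QuotientGroup.rightRel U) g).out)⁻¹ ∈ U := by
  have h : (QuotientGroup.rightRel U) ((Quotient.mk (QuotientGroup.rightRel U) g).out) g := Quotient.mk_out g
  rwa [QuotientGroup.rightRel_apply] at h

private lemma Ext_s_mem (U : Subgroup G) (g : G) : g * (Ext_s U g)⁻¹ ∈ U := by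
  unfold Ext_s
  have h1 := Ext_out U g
  have h2 := Ext_out U 1
  rw [one_mul] at h2
  rw [mul_inv_rev, inv_inv, ← mul_assoc]
  exact U.mul_mem h1 (by simpa using U.inv_mem h2)

private lemma Ext_s_congr (U : Subgroup G) {g h : G} (hgh : h * g⁻¹ ∈ U) : Ext_s U g = Ext_s U h := by
  unfold Ext_s
  have : (Quotient.mk (QuotientGroup.rightRel U) g) = (Quotient.mk (QuotientGroup.rightRel U) h) := by
    apply Quotient.sound
    change (QuotientGroup.rightRel U) g h
    rw [QuotientGroup.rightRel_apply]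
    exact hgh
  rw [this]

private lemma Ext_s_U (U : Subgroup G) {g : G} (hg : g ∈ U) : Ext_s U g = 1 := by
  rw [Ext_s_congr U (g := g) (h := 1) (by simpa using U.inv_mem hg)]
  unfold Ext_s
  exact inv_mul_cancel _

private lemma Ext_s_W {U W : Subgroup G} (hUW : U ≤ W) {g : G} (hg : g ∈ W) : Ext_s U g ∈ W := by
  have h1 := hUW (Ext_s_mem U g)
  have h2 := W.mul_mem (W.inv_mem h1) hg
  have h3 : (g * (Ext_s U g)⁻¹)⁻¹ * g = Ext_s U g := by group
  rwa [h3] at h2

private lemma Ext_Tr [TopologicalSpace G] [IsTopologicalGroup G] [CompactSpace G] {U W : Subgroup G}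
    (O : OpenSubgroup G) (hO : W ⊓ (O : Subgroup G) ≤ U) : (Ext_s U '' (W : Set G)).Finite := by
  classical
  have : Finite (G ⧸ (O : Subgroup G)) := Subgroup.quotient_finite_of_isOpen _ O.isOpen
  let k : G → G ⧸ (O : Subgroup G) := fun g => (QuotientGroup.mk g⁻¹)
  let r : G ⧸ (O : Subgroup G) → G := fun c =>
    if h : ∃ w ∈ W, k w = c then Ext_s U h.choose else 1
  refine (Set.finite_range r).subset ?_
  rintro _ ⟨w, hw, rfl⟩
  have h2 : ∃ w' ∈ W, k w' = k w := ⟨w, hw, rfl⟩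
  refine ⟨k w, ?_⟩
  have h3 : r (k w) = Ext_s U h2.choose := dif_pos h2
  rw [h3]
  refine Ext_s_congr U ?_
  have h4 : k h2.choose = k w := h2.choose_spec.2
  have h5 : (w⁻¹)⁻¹ * (h2.choose)⁻¹ ∈ (O : Subgroup G) := QuotientGroup.eq.1 h4.symm
  rw [inv_inv] at h5
  exact hO ⟨W.mul_mem hw (W.inv_mem h2.choose_spec.1), h5⟩

end

theorem ext : S_Ext := by
  classical
  intro G _ _ _ _ p _ Ls U W O hUW hO hN hLs hR hfin
  obtain ⟨R, hRf, hRL, hR⟩ := hR
  have hTr := Ext_Tr O hO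
  set s := Ext_s U with hs
  let Tr : Set G := s '' (W : Set G)
  have i1 : Finite Tr := hTr.to_subtype
  have i2 : Finite R := hRf.to_subtype
  let X : Subgroup G → G → G := fun Λ t =>
    if h : ∃ x, x ∈ Λ ∧ x ∈ W ∧ s x = t then h.choose else 1
  have hX : ∀ (Λ : Subgroup G) (y : G), y ∈ Λ → y ∈ W → X Λ (s y) ∈ Λ ∧ X Λ (s y) ∈ W ∧
      s (X Λ (s y)) = s y := by
    intro Λ y hy hyW
    have h : ∃ x, x ∈ Λ ∧ x ∈ W ∧ s x = s y := ⟨y, hy, hyW, rfl⟩
    have h1 : X Λ (s y) = h.choose := dif_pos h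
    rw [h1]
    exact h.choose_spec
  let φ : (G → ZMod p) → ((Tr × Tr → ZMod p) × (R × Tr → ZMod p)) := fun f =>
    (fun t => f (t.1.1 * t.2.1 * (s (t.1.1 * t.2.1))⁻¹),
      fun t => f (X t.1.1 t.2.1 * (s (X t.1.1 t.2.1))⁻¹))
  let B : Set (G → ZMod p) := {g | g ∈ VV p Ls U ∧ (∀ w ∈ W, ∀ u ∈ U, g (w * u * w⁻¹) = g u) ∧
    (∀ w ∈ W, ∀ w' ∈ W, g (s w * s w' * (s (s w * s w'))⁻¹) = 0) ∧
    ∀ Λ ∈ R, ∀ y ∈ W, g (X Λ (s y) * (s (X Λ (s y)))⁻¹) = 0}
  have hB : B.Finite := by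
    let E : (G → ZMod p) → (G → ZMod p) := fun g w => if w ∈ W then g (w * (s w)⁻¹) else 0
    have hEU : ∀ g : G → ZMod p, ∀ u ∈ U, E g u = g u := by
      intro g u hu
      have h1 : E g u = g (u * (s u)⁻¹) := if_pos (hUW hu)
      rw [h1, hs, Ext_s_U U hu, inv_one, mul_one]
    refine Set.Finite.of_injOn (f := E) (t := (VV p Ls W : Set (G → ZMod p))) ?_ ?_ (Set.toFinite _)
    · rintro g ⟨⟨g1, g2, ⟨O', g3⟩, g4⟩, g5, g6, g7⟩
      have hadd : ∀ w ∈ W, ∀ w' ∈ W, E g (w * w') = E g w + E g w' := by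
        intro w hw w' hw'
        have h1 : E g (w * w') = g (w * w' * (s (w * w'))⁻¹) := if_pos (W.mul_mem hw hw')
        have h2 : E g w = g (w * (s w)⁻¹) := if_pos hw
        have h3 : E g w' = g (w' * (s w')⁻¹) := if_pos hw'
        have hu : w * (s w)⁻¹ ∈ U := Ext_s_mem U w
        have hu' : w' * (s w')⁻¹ ∈ U := Ext_s_mem U w'
        have ht : s w ∈ W := Ext_s_W hUW hw
        have h4 : s w * (w' * (s w')⁻¹) * (s w)⁻¹ ∈ U := hN _ ht _ hu'
        have h5 : s (s w * s w') = s (w * w') := by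
          refine Ext_s_congr U ?_
          have : w * w' * (s w * s w')⁻¹ = w * (s w)⁻¹ * (s w * (w' * (s w')⁻¹) * (s w)⁻¹) := by
            group
          rw [this]
          exact U.mul_mem hu h4
        have h6 : w * w' * (s (w * w'))⁻¹ = w * (s w)⁻¹ * (s w * (w' * (s w')⁻¹) * (s w)⁻¹) *
            (s w * s w' * (s (s w * s w'))⁻¹) := by
          rw [h5]
          group
        rw [h1, h6, g2 _ (U.mul_mem hu h4) _ (Ext_s_mem U _), g2 _ hu _ h4, g5 _ ht _ hu',
          g6 w hw w' hw', h2, h3, add_zero]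
      refine ⟨fun w hw => if_neg hw, hadd, ⟨O ⊓ O', fun w hw hwO => ?_⟩, fun Λ hΛ y hy hyW => ?_⟩
      · have hwU : w ∈ U := hO ⟨hw, hwO.1⟩
        rw [hEU g w hwU]
        exact g3 w hwU hwO.2
      · by_cases hb : Λ ⊓ W ≤ U
        · have hyU : y ∈ U := hb ⟨hy, hyW⟩
          rw [hEU g y hyU]
          exact g4 Λ hΛ y hy hyU
        · obtain ⟨Λ', hΛ', w, hw, rfl⟩ := hR Λ hΛ hb
          obtain ⟨y', hy', rfl⟩ := hy
          have hy1 : (MulAut.conj w).toMonoidHom y' = w * y' * w⁻¹ := rfl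
          rw [hy1] at hyW ⊢
          have hy'W : y' ∈ W := by
            have h := W.mul_mem (W.mul_mem (W.inv_mem hw) hyW) hw
            have h2 : w⁻¹ * (w * y' * w⁻¹) * w = y' := by group
            rwa [h2] at h
          have h1 : E g 1 = 0 := by
            have h := hadd 1 W.one_mem 1 W.one_mem
            rw [mul_one] at h
            exact left_eq_add.1 h
          have h2 : E g w + E g w⁻¹ = 0 := by
            rw [← hadd w hw _ (W.inv_mem hw), mul_inv_cancel, h1]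
          have h3 : E g (w * y' * w⁻¹) = E g y' := by
            rw [hadd _ (W.mul_mem hw hy'W) _ (W.inv_mem hw), hadd _ hw _ hy'W]
            calc E g w + E g y' + E g w⁻¹ = E g y' + (E g w + E g w⁻¹) := by ring
              _ = E g y' := by rw [h2, add_zero]
          rw [h3]
          obtain ⟨x1, x2, x3⟩ := hX Λ' y' hy' hy'W
          set x := X Λ' (s y') with hx
          have h4 : y' * x⁻¹ ∈ U := by
            have e1 : y' * (s y')⁻¹ ∈ U := Ext_s_mem U y'
            have e2 : x * (s x)⁻¹ ∈ U := Ext_s_mem U x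
            rw [x3] at e2
            have e3 := U.mul_mem e1 (U.inv_mem e2)
            have e4 : y' * (s y')⁻¹ * (x * (s y')⁻¹)⁻¹ = y' * x⁻¹ := by group
            rwa [e4] at e3
          have h5 : y' = y' * x⁻¹ * x := by group
          have h6 : E g x = g (x * (s x)⁻¹) := if_pos x2
          rw [h5, hadd _ (hUW h4) _ x2, hEU g _ h4, h6, g7 Λ' hΛ' y' hy'W, add_zero]
          exact g4 Λ' (hRL hΛ') _ (Λ'.mul_mem hy' (Λ'.inv_mem x1)) h4
    · intro g hg g' hg' hgg
      funext x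
      by_cases hx : x ∈ U
      · have h := congrFun hgg x
        rwa [hEU g x hx, hEU g' x hx] at h
      · rw [hg.1.1 x hx, hg'.1.1 x hx]
  refine Ext_fin _ φ B hB ?_
  rintro a ⟨ha, ha'⟩ b ⟨hb, hb'⟩ hab
  refine ⟨(VV p Ls U).sub_mem ha hb, fun w hw u hu => ?_, fun w hw w' hw' => ?_,
    fun Λ hΛ y hy => ?_⟩
  · simp only [Pi.sub_apply, ha' w hw u hu, hb' w hw u hu]
  · have h := congrFun (congrArg Prod.fst hab) (⟨s w, w, hw, rfl⟩, ⟨s w', w', hw', rfl⟩)
    exact sub_eq_zero.2 h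
  · have h := congrFun (congrArg Prod.snd hab) (⟨Λ, hΛ⟩, ⟨s y, y, hy, rfl⟩)
    exact sub_eq_zero.2 h

end Pool.Agent.MuZ
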