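import Pool.Agent.Lib.MuZ.CSpec

/-!
# MP_d0239a, MuZ: extension of equivariant homomorphisms to cocycles (`S_ExtC`)
-/

open scoped Pointwise

noncomputable section

namespace Pool.Agent.MuZ

namespace ExtCAux

/-- A subgroup is finite if a map to a finite type has finite fibres up to translation. -/
theorem Ext_fin {M T : Type} [AddCommGroup M] [Finite T] (A : Set M) (φ : M → T) (B : Set M) (hB : B.Finite)
    (h : ∀ a ∈ A, ∀ b ∈ A, φ a = φ b → a - b ∈ B) : A.Finite := by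
  classical
  let r : T → M := fun t => if h : ∃ a ∈ A, φ a = t then h.choose else 0
  have h1 : A ⊆ ⋃ t : T, (fun b => b + r t) '' B := by
    intro a ha
    rw [Set.mem_iUnion]
    have h2 : ∃ b ∈ A, φ b = φ a := ⟨a, ha, rfl⟩
    have h3 : r (φ a) = h2.choose := dif_pos h2
    refine ⟨φ a, a - r (φ a), ?_, sub_add_cancel _ _⟩
    rw [h3]
    exact h a ha _ h2.choose_spec.1 h2.choose_spec.2.symm
  exact (Set.finite_iUnion fun t => hB.image _).subset h1

section

variable {G : Type} [Group G]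

/-- The representative of the right coset of `U`, equal to `1` for `U`. -/
def Ext_s (U : Subgroup G) (g : G) : G :=
  (Quotient.mk (QuotientGroup.rightRel U) 1).out⁻¹ * (Quotient.mk (QuotientGroup.rightRel U) g).out

theorem Ext_out (U : Subgroup G) (g : G) :
    g * ((Quotient.mk (QuotientGroup.rightRel U) g).out)⁻¹ ∈ U := by
  have h : (QuotientGroup.rightRel U) ((Quotient.mk (QuotientGroup.rightRel U) g).out) g := Quotient.mk_out g
  rwa [QuotientGroup.rightRel_apply] at h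

theorem Ext_s_mem (U : Subgroup G) (g : G) : g * (Ext_s U g)⁻¹ ∈ U := by
  unfold Ext_s
  have h1 := Ext_out U g
  have h2 := Ext_out U 1
  rw [one_mul] at h2
  rw [mul_inv_rev, inv_inv, ← mul_assoc]
  exact U.mul_mem h1 (by simpa using U.inv_mem h2)

theorem Ext_s_congr (U : Subgroup G) {g h : G} (hgh : h * g⁻¹ ∈ U) : Ext_s U g = Ext_s U h := by
  unfold Ext_s
  have : (Quotient.mk (QuotientGroup.rightRel U) g) = (Quotient.mk (QuotientGroup.rightRel U) h) := by
    apply Quotient.sound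
    change (QuotientGroup.rightRel U) g h
    rw [QuotientGroup.rightRel_apply]
    exact hgh
  rw [this]

theorem Ext_s_U (U : Subgroup G) {g : G} (hg : g ∈ U) : Ext_s U g = 1 := by
  rw [Ext_s_congr U (g := g) (h := 1) (by simpa using U.inv_mem hg)]
  unfold Ext_s
  exact inv_mul_cancel _

theorem Ext_s_W {U W : Subgroup G} (hUW : U ≤ W) {g : G} (hg : g ∈ W) : Ext_s U g ∈ W := by
  have h1 := hUW (Ext_s_mem U g)
  have h2 := W.mul_mem (W.inv_mem h1) hg
  have h3 : (g * (Ext_s U g)⁻¹)⁻¹ * g = Ext_s U g := by group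
  rwa [h3] at h2

theorem Ext_Tr [TopologicalSpace G] [IsTopologicalGroup G] [CompactSpace G] {U W : Subgroup G}
    (O : OpenSubgroup G) (hO : W ⊓ (O : Subgroup G) ≤ U) : (Ext_s U '' (W : Set G)).Finite := by
  classical
  have : Finite (G ⧸ (O : Subgroup G)) := Subgroup.quotient_finite_of_isOpen _ O.isOpen
  let k : G → G ⧸ (O : Subgroup G) := fun g => (QuotientGroup.mk g⁻¹)
  let r : G ⧸ (O : Subgroup G) → G := fun c =>
    if h : ∃ w ∈ W, k w = c then Ext_s U h.choose else 1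
  refine (Set.finite_range r).subset ?_
  rintro _ ⟨w, hw, rfl⟩
  have h2 : ∃ w' ∈ W, k w' = k w := ⟨w, hw, rfl⟩
  refine ⟨k w, ?_⟩
  have h3 : r (k w) = Ext_s U h2.choose := dif_pos h2
  rw [h3]
  refine Ext_s_congr U ?_
  have h4 : k h2.choose = k w := h2.choose_spec.2
  have h5 : (w⁻¹)⁻¹ * (h2.choose)⁻¹ ∈ (O : Subgroup G) := QuotientGroup.eq.1 h4.symm
  rw [inv_inv] at h5
  exact hO ⟨W.mul_mem hw (W.inv_mem h2.choose_spec.1), h5⟩

end


end ExtCAux

open ExtCAux in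
theorem c_ExtC : S_ExtC := by
  classical
  intro G _ _ _ _ p _ Ls N D hNn hDn hDo hLs hR S _ _ _ ρ hρ hfin
  obtain ⟨R, hRf, hRL, hR⟩ := hR
  set U : Subgroup G := N ⊓ D with hU
  have hUW : U ≤ N := inf_le_left
  have hN : ∀ w ∈ N, ∀ u ∈ U, w * u * w⁻¹ ∈ U := fun w _ u hu =>
    ⟨hNn.conj_mem u hu.1 w, hDn.conj_mem u hu.2 w⟩
  have hO : N ⊓ ((⟨D, hDo⟩ : OpenSubgroup G) : Subgroup G) ≤ U := le_refl _
  have hTr := Ext_Tr (⟨D, hDo⟩ : OpenSubgroup G) hO
  set s := Ext_s U with hs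
  let Tr : Set G := s '' (N : Set G)
  have i1 : Finite Tr := hTr.to_subtype
  have i2 : Finite R := hRf.to_subtype
  let X : Subgroup G → G → G := fun Λ t =>
    if h : ∃ x, x ∈ Λ ∧ x ∈ N ∧ s x = t then h.choose else 1
  have hX : ∀ (Λ : Subgroup G) (y : G), y ∈ Λ → y ∈ N → X Λ (s y) ∈ Λ ∧ X Λ (s y) ∈ N ∧
      s (X Λ (s y)) = s y := by
    intro Λ y hy hyW
    have h : ∃ x, x ∈ Λ ∧ x ∈ N ∧ s x = s y := ⟨y, hy, hyW, rfl⟩
    have h1 : X Λ (s y) = h.choose := dif_pos h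
    rw [h1]
    exact h.choose_spec
  let φ : (G → S) → ((Tr × Tr → S) × (R × Tr → S)) := fun f =>
    (fun t => f (t.1.1 * t.2.1 * (s (t.1.1 * t.2.1))⁻¹),
      fun t => f (X t.1.1 t.2.1 * (s (X t.1.1 t.2.1))⁻¹))
  let B : Set (G → S) := {ψ | ((∀ g ∉ U, ψ g = 0) ∧
        (∀ g ∈ U, ∀ h ∈ U, ψ (g * h) = ψ g + ψ h) ∧
        (∃ O : OpenSubgroup G, ∀ g ∈ U, g ∈ O → ψ g = 0) ∧
        (∀ Λ ∈ Ls, ∀ g ∈ Λ, g ∈ U → ψ g = 0) ∧
        ∀ n ∈ N, ∀ u ∈ U, ψ (n * u * n⁻¹) = ρ n (ψ u)) ∧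
    (∀ w ∈ N, ∀ w' ∈ N, ψ (s w * s w' * (s (s w * s w'))⁻¹) = 0) ∧
    ∀ Λ ∈ R, ∀ y ∈ N, ψ (X Λ (s y) * (s (X Λ (s y)))⁻¹) = 0}
  have hB : B.Finite := by
    let E : (G → S) → (G → S) := fun g w => if w ∈ N then g (w * (s w)⁻¹) else 0
    have hEU : ∀ g : G → S, ∀ u ∈ U, E g u = g u := by
      intro g u hu
      have h1 : E g u = g (u * (s u)⁻¹) := if_pos (hUW hu)
      rw [h1, hs, Ext_s_U U hu, inv_one, mul_one]
    refine Set.Finite.of_injOn (f := E) (t := (Coc Ls ρ N N : Set (G → S))) ?_ ?_ (Set.toFinite _)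
    · rintro g ⟨⟨g1, g2, ⟨O', g3⟩, g4, g5⟩, g6, g7⟩
      have hadd : ∀ w ∈ N, ∀ w' ∈ N, E g (w * w') = E g w + ρ w (E g w') := by
        intro w hw w' hw'
        have h1 : E g (w * w') = g (w * w' * (s (w * w'))⁻¹) := if_pos (N.mul_mem hw hw')
        have h2 : E g w = g (w * (s w)⁻¹) := if_pos hw
        have h3 : E g w' = g (w' * (s w')⁻¹) := if_pos hw'
        have hu : w * (s w)⁻¹ ∈ U := Ext_s_mem U w
        have hu' : w' * (s w')⁻¹ ∈ U := Ext_s_mem U w'
        have ht : s w ∈ N := Ext_s_W hUW hw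
        have h4 : s w * (w' * (s w')⁻¹) * (s w)⁻¹ ∈ U := hN _ ht _ hu'
        have h5 : s (s w * s w') = s (w * w') := by
          refine Ext_s_congr U ?_
          have : w * w' * (s w * s w')⁻¹ = w * (s w)⁻¹ * (s w * (w' * (s w')⁻¹) * (s w)⁻¹) := by
            group
          rw [this]
          exact U.mul_mem hu h4
        have h6 : w * w' * (s (w * w'))⁻¹ = w * (s w)⁻¹ * (s w * (w' * (s w')⁻¹) * (s w)⁻¹) *
            (s w * s w' * (s (s w * s w'))⁻¹) := by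
          rw [h5]
          group
        have h7 : ρ w = ρ (s w) := by
          have e1 : w = (w * (s w)⁻¹) * s w := by group
          have e2 : ρ (w * (s w)⁻¹) = 1 := hρ _ hu.2
          conv_lhs => rw [e1, map_mul, e2, one_mul]
        rw [h1, h6, g2 _ (U.mul_mem hu h4) _ (Ext_s_mem U _), g2 _ hu _ h4, g5 _ ht _ hu',
          g6 w hw w' hw', h2, h3, add_zero, h7]
      have h10 : E g 1 = 0 := by
        have h := hadd 1 N.one_mem 1 N.one_mem
        rw [mul_one, map_one, Module.End.one_apply] at h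
        exact left_eq_add.1 h
      refine ⟨fun w hw => if_neg hw, hadd, ⟨(⟨D, hDo⟩ : OpenSubgroup G) ⊓ O',
        fun w hw hwO => ?_⟩, fun Λ hΛ => ?_⟩
      · have hwU : w ∈ U := hO ⟨hw, hwO.1⟩
        rw [hEU g w hwU]
        exact g3 w hwU hwO.2
      · by_cases hb : Λ ⊓ N ≤ U
        · refine ⟨0, fun y hy hyW => ?_⟩
          have hyU : y ∈ U := hb ⟨hy, hyW⟩
          rw [hEU g y hyU, map_zero, sub_zero]
          exact g4 Λ hΛ y hy hyU
        · obtain ⟨Λ', hΛ', w, hw, rfl⟩ := hR Λ hΛ hb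
          refine ⟨- E g w, ?_⟩
          rintro y hy hyW
          obtain ⟨y', hy', rfl⟩ := hy
          have hy1 : (MulAut.conj w).toMonoidHom y' = w * y' * w⁻¹ := rfl
          rw [hy1] at hyW ⊢
          have hy'W : y' ∈ N := by
            have h := N.mul_mem (N.mul_mem (N.inv_mem hw) hyW) hw
            have h2 : w⁻¹ * (w * y' * w⁻¹) * w = y' := by group
            rwa [h2] at h
          have h2 : E g w⁻¹ = - ρ w⁻¹ (E g w) := by
            have h := hadd w⁻¹ (N.inv_mem hw) w hw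
            rw [inv_mul_cancel, h10] at h
            exact eq_neg_of_add_eq_zero_left h.symm
          have h0 : E g y' = 0 := by
            obtain ⟨x1, x2, x3⟩ := hX Λ' y' hy' hy'W
            set x := X Λ' (s y') with hx
            have h4 : y' * x⁻¹ ∈ U := by
              have e1 : y' * (s y')⁻¹ ∈ U := Ext_s_mem U y'
              have e2 : x * (s x)⁻¹ ∈ U := Ext_s_mem U x
              rw [x3] at e2
              have e3 := U.mul_mem e1 (U.inv_mem e2)
              have e4 : y' * (s y')⁻¹ * (x * (s y')⁻¹)⁻¹ = y' * x⁻¹ := by group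
              rwa [e4] at e3
            have h5 : y' = y' * x⁻¹ * x := by group
            have h6 : E g x = g (x * (s x)⁻¹) := if_pos x2
            rw [h5, hadd _ (hUW h4) _ x2, hEU g _ h4, h6, g7 Λ' hΛ' y' hy'W, map_zero, add_zero]
            exact g4 Λ' (hRL hΛ') _ (Λ'.mul_mem hy' (Λ'.inv_mem x1)) h4
          rw [hadd _ (N.mul_mem hw hy'W) _ (N.inv_mem hw), hadd _ hw _ hy'W, h0, map_zero,
            add_zero, h2, map_neg, map_neg, sub_neg_eq_add, ← Module.End.mul_apply, ← map_mul,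
            add_comm]
    · intro g hg g' hg' hgg
      funext x
      by_cases hx : x ∈ U
      · have h := congrFun hgg x
        rwa [hEU g x hx, hEU g' x hx] at h
      · rw [hg.1.1 x hx, hg'.1.1 x hx]
  refine Ext_fin _ φ B hB ?_
  rintro a ⟨a1, a2, ⟨O1, a3⟩, a4, a5⟩ b ⟨b1, b2, ⟨O2, b3⟩, b4, b5⟩ hab
  refine ⟨⟨fun g hg => ?_, fun g hg h hh => ?_, ⟨O1 ⊓ O2, fun g hg hgO => ?_⟩,
    fun Λ hΛ g hg hgU => ?_, fun n hn u hu => ?_⟩, fun w hw w' hw' => ?_, fun Λ hΛ y hy => ?_⟩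
  · simp only [Pi.sub_apply, a1 g hg, b1 g hg, sub_zero]
  · simp only [Pi.sub_apply, a2 g hg h hh, b2 g hg h hh]
    abel
  · simp only [Pi.sub_apply, a3 g hg hgO.1, b3 g hg hgO.2, sub_zero]
  · simp only [Pi.sub_apply, a4 Λ hΛ g hg hgU, b4 Λ hΛ g hg hgU, sub_zero]
  · simp only [Pi.sub_apply, a5 n hn u hu, b5 n hn u hu, map_sub]
  · have h := congrFun (congrArg Prod.fst hab) (⟨s w, w, hw, rfl⟩, ⟨s w', w', hw', rfl⟩)
    exact sub_eq_zero.2 h
  · have h := congrFun (congrArg Prod.snd hab) (⟨Λ, hΛ⟩, ⟨s y, y, hy, rfl⟩)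
    exact sub_eq_zero.2 h

end Pool.Agent.MuZ
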