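import Pool.Agent.Lib.MuZ.Spec

/-!
# The field of a character (`S_Fld`)
-/

open scoped Pointwise

noncomputable section

namespace Pool.Agent.MuZ

/-- The extension `Ω/ℚ` is Galois (for the default algebra structure). -/
private theorem Fld_isGalois : IsGalois ℚ Om := by
  have h : @IsGalois ℚ _ Om _ (AlgebraicClosure.instAlgebra ℚ) :=
    @IsAlgClosure.isGalois ℚ Om _ _ (AlgebraicClosure.instAlgebra ℚ) _ _
  have hA : (DivisionRing.toRatAlgebra : Algebra ℚ Om) = AlgebraicClosure.instAlgebra ℚ :=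
    Subsingleton.elim _ _
  rw [hA]
  exact h

theorem fld : S_Fld := by
  intro p hp L f hf
  have hGal : IsGalois ℚ Om := Fld_isGalois
  obtain ⟨-, h1, ⟨O, hO⟩, h4⟩ := hf
  have f1 : f 1 = 0 := by
    have h := h1 1 (one_mem _) 1 (one_mem _)
    rw [mul_one] at h
    simpa using h
  have finv : ∀ g ∈ L.fixingSubgroup, f g⁻¹ = - f g := by
    intro g hg
    have h := h1 g hg g⁻¹ (inv_mem hg)
    rw [mul_inv_cancel, f1] at h
    exact (neg_eq_of_add_eq_zero_right h.symm).symm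
  have fpow : ∀ g ∈ L.fixingSubgroup, ∀ n : ℕ, f (g ^ n) = (n : ZMod p) * f g := by
    intro g hg n
    induction n with
    | zero => simp [f1]
    | succ n ih =>
      rw [pow_succ, h1 _ (pow_mem hg n) _ hg, ih]
      push_cast
      ring
  obtain ⟨W, hW⟩ : ∃ W : Subgroup Gal(Om/ℚ), ∀ σ, σ ∈ W ↔ σ ∈ L.fixingSubgroup ∧ f σ = 0 := by
    refine ⟨{ carrier := {σ | σ ∈ L.fixingSubgroup ∧ f σ = 0}, mul_mem' := ?_, one_mem' := ?_, inv_mem' := ?_ },
      fun σ => Iff.rfl⟩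
    · rintro a b ⟨a1, a2⟩ ⟨b1, b2⟩
      exact ⟨mul_mem a1 b1, by rw [h1 a a1 b b1, a2, b2, add_zero]⟩
    · exact ⟨one_mem _, f1⟩
    · rintro a ⟨a1, a2⟩
      exact ⟨inv_mem a1, by rw [finv a a1, a2, neg_zero]⟩
  have hclosed : IsClosed (W : Set Gal(Om/ℚ)) := by
    rw [← isOpen_compl_iff, isOpen_iff_mem_nhds]
    intro σ hσ
    by_cases hL : σ ∈ L.fixingSubgroup
    · have hnhds : (fun x => σ⁻¹ * x) ⁻¹' (O : Set Gal(Om/ℚ)) ∈ nhds σ := by
        refine (continuous_const_mul σ⁻¹).continuousAt.preimage_mem_nhds ?_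
        rw [inv_mul_cancel]
        exact O.mem_nhds_one
      refine Filter.mem_of_superset hnhds ?_
      intro x hx hxW
      have hxO : σ⁻¹ * x ∈ O := hx
      obtain ⟨x1, x2⟩ := (hW x).1 hxW
      have h5 : f (σ⁻¹ * x) = 0 := hO _ (mul_mem (inv_mem hL) x1) hxO
      rw [h1 _ (inv_mem hL) _ x1, x2, add_zero, finv σ hL] at h5
      exact hσ ((hW σ).2 ⟨hL, neg_eq_zero.1 h5⟩)
    · have hcl : IsClosed (L.fixingSubgroup : Set Gal(Om/ℚ)) :=
        InfiniteGalois.fixingSubgroup_isClosed L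
      refine Filter.mem_of_superset (hcl.isOpen_compl.mem_nhds hL) ?_
      intro x hx hxW
      exact hx ((hW x).1 hxW).1
  have hM : (IntermediateField.fixedField W).fixingSubgroup = W :=
    InfiniteGalois.fixingSubgroup_fixedField (k := ℚ) (K := Om) ⟨W, hclosed⟩
  have hfix : ∀ σ ∈ W, ∀ x ∈ IntermediateField.fixedField W, σ x = x := by
    intro σ hσ x hx
    exact (IntermediateField.mem_fixedField_iff W x).1 hx σ hσ
  refine ⟨IntermediateField.fixedField W, ?_, fun σ => by rw [hM, hW]⟩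
  constructor
  · intro x hx
    rw [IntermediateField.mem_fixedField_iff]
    intro σ hσ
    exact (IntermediateField.mem_fixingSubgroup_iff L σ).1 ((hW σ).1 hσ).1 x hx
  · obtain ⟨E, hE, hEO⟩ := (krullTopology_mem_nhds_one_iff ℚ Om (O : Set Gal(Om/ℚ))).1 O.mem_nhds_one
    refine ⟨E, hE, ?_⟩
    intro x hx
    rw [← InfiniteGalois.fixedField_fixingSubgroup (L ⊔ E), IntermediateField.mem_fixedField_iff]
    intro σ hσ
    have e1 : σ ∈ L.fixingSubgroup := IntermediateField.fixingSubgroup_antitone (le_sup_left : L ≤ L ⊔ E) hσ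
    have e2 : σ ∈ E.fixingSubgroup := IntermediateField.fixingSubgroup_antitone (le_sup_right : E ≤ L ⊔ E) hσ
    exact hfix σ ((hW σ).2 ⟨e1, hO σ e1 (hEO e2)⟩) x hx
  · intro σ hσ x hx
    rw [IntermediateField.mem_fixedField_iff]
    intro τ hτ
    obtain ⟨t1, t2⟩ := (hW τ).1 hτ
    have hmem : σ⁻¹ * τ * σ ∈ W := by
      refine (hW _).2 ⟨mul_mem (mul_mem (inv_mem hσ) t1) hσ, ?_⟩
      rw [h1 _ (mul_mem (inv_mem hσ) t1) _ hσ, h1 _ (inv_mem hσ) _ t1, t2, finv σ hσ]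
      ring
    have h5 := hfix _ hmem x hx
    have h6 : τ (σ x) = σ ((σ⁻¹ * τ * σ) x) := by
      rw [← AlgEquiv.mul_apply, ← AlgEquiv.mul_apply]
      congr 1
      group
    rw [h6, h5]
  · intro σ hσ τ hτ x hx
    have hmem : τ⁻¹ * σ⁻¹ * τ * σ ∈ W := by
      refine (hW _).2 ⟨mul_mem (mul_mem (mul_mem (inv_mem hτ) (inv_mem hσ)) hτ) hσ, ?_⟩
      rw [h1 _ (mul_mem (mul_mem (inv_mem hτ) (inv_mem hσ)) hτ) _ hσ, h1 _ (mul_mem (inv_mem hτ) (inv_mem hσ)) _ hτ,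
        h1 _ (inv_mem hτ) _ (inv_mem hσ), finv σ hσ, finv τ hτ]
      ring
    have h5 := hfix _ hmem x hx
    have h6 : τ (σ x) = σ (τ ((τ⁻¹ * σ⁻¹ * τ * σ) x)) := by
      rw [← AlgEquiv.mul_apply, ← AlgEquiv.mul_apply, ← AlgEquiv.mul_apply]
      congr 1
      group
    rw [h6, h5]
  · refine ⟨1, fun σ hσ x hx => ?_⟩
    rw [pow_one]
    refine hfix _ ((hW _).2 ⟨pow_mem hσ p, ?_⟩) x hx
    rw [fpow σ hσ, CharP.cast_eq_zero, zero_mul]
  · intro P hP hP0 σ hσ hL x hx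
    exact hfix σ ((hW σ).2 ⟨hL, h4 _ (Or.inl ⟨P, hP, hP0, rfl⟩) σ hσ hL⟩) x hx
  · intro P hP hP0 σ hσ hL x hx
    exact hfix σ ((hW σ).2 ⟨hL, h4 _ (Or.inr ⟨P, hP, hP0, rfl⟩) σ hσ hL⟩) x hx

end Pool.Agent.MuZ
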