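import Pool.Agent.Lib.MuZ.Spec

/-!
# Frobenius elements
-/

open scoped Pointwise

noncomputable section

namespace Pool.Agent.MuZ

private lemma Frob_alg : Algebra.IsAlgebraic ℚ Om := by
  have h : @Algebra.IsAlgebraic ℚ Om _ _ (AlgebraicClosure.instAlgebra ℚ) :=
    AlgebraicClosure.isAlgebraic ℚ
  have e : (AlgebraicClosure.instAlgebra ℚ : Algebra ℚ Om) = DivisionRing.toRatAlgebra :=
    Subsingleton.elim _ _
  rw [e] at h
  exact h

private lemma Frob_gal : IsGalois ℚ Om := by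
  have : IsAlgClosure ℚ Om := ⟨inferInstance, Frob_alg⟩
  infer_instance

private lemma Frob_inv : Algebra.IsInvariant ℤ ZZ Gal(Om/ℚ) := by
  have := Frob_gal
  refine ⟨fun b hb => ?_⟩
  have h1 : (b : Om) ∈ Set.range (algebraMap ℚ Om) := by
    rw [InfiniteGalois.mem_range_algebraMap_iff_fixed]
    intro f
    have h := congrArg (Subtype.val) (hb f)
    exact h
  obtain ⟨q, hq⟩ := h1
  have h2 : IsIntegral ℤ q := by
    have h3 : IsIntegral ℤ (algebraMap ℚ Om q) := by
      rw [hq]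
      exact b.2
    exact (isIntegral_algebraMap_iff (algebraMap ℚ Om).injective).1 h3
  obtain ⟨a, ha⟩ := IsIntegrallyClosed.isIntegral_iff.1 h2
  refine ⟨a, Subtype.ext ?_⟩
  rw [← hq, ← ha]
  exact IsScalarTower.algebraMap_apply ℤ ℚ Om a

private lemma Frob_root (l : ℕ) (hl : 0 < l) (x : ZZ) : ∃ y : ZZ, y ^ l = x := by
  obtain ⟨y, hy⟩ := IsAlgClosed.exists_pow_nat_eq (x : Om) hl
  have h1 : IsIntegral ℤ y := by
    have h2 : IsIntegral ℤ (y ^ l) := by
      rw [hy]
      exact x.2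
    exact IsIntegral.of_pow hl h2
  exact ⟨⟨y, h1⟩, Subtype.ext hy⟩

private lemma Frob_fermat (l : ℕ) (hl : l.Prime) (z : ℤ) : (l : ℤ) ∣ z ^ l - z := by
  have : Fact l.Prime := ⟨hl⟩
  rw [← ZMod.intCast_zmod_eq_zero_iff_dvd]
  push_cast
  rw [ZMod.pow_card, sub_self]

theorem frob : S_Frob := by
  intro p l hp hl hpl P hP hlP
  have hlF : Fact l.Prime := ⟨hl⟩
  have hgal := Frob_gal
  have halg := Frob_alg
  let _ : TopologicalSpace ZZ := ⊥
  have : DiscreteTopology ZZ := ⟨rfl⟩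
  have : Algebra.IsInvariant ℤ ZZ Gal(Om/ℚ) := Frob_inv
  have : ContinuousSMul Gal(Om/ℚ) ZZ := by
    rw [continuousSMul_iff_stabilizer_isOpen]
    intro x
    have h1 := stabilizer_isOpen_of_isIntegral (K := ℚ) (x : Om)
    have h2 : (MulAction.stabilizer Gal(Om/ℚ) x : Set Gal(Om/ℚ)) =
        (MulAction.stabilizer Gal(Om/ℚ) (x : Om) : Set Gal(Om/ℚ)) := by
      ext g
      rw [SetLike.mem_coe, SetLike.mem_coe, MulAction.mem_stabilizer_iff,
        MulAction.mem_stabilizer_iff]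
      exact Subtype.ext_iff
    rw [h2]
    exact h1
  have : P.LiesOver (P.under ℤ) := ⟨rfl⟩
  have hchar : CharP (ZZ ⧸ P) l := by
    have h1 : ((l : ℕ) : ZZ ⧸ P) = 0 := by
      rw [← map_natCast (Ideal.Quotient.mk P), Ideal.Quotient.eq_zero_iff_mem]
      exact hlP
    exact (CharP.charP_iff_prime_eq_zero hl).2 h1
  -- the Frobenius automorphism of the residue ring
  let φ : (ZZ ⧸ P) →ₐ[ℤ ⧸ P.under ℤ] (ZZ ⧸ P) :=
    { frobenius (ZZ ⧸ P) l with
      commutes' := by
        intro r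
        obtain ⟨z, rfl⟩ := Ideal.Quotient.mk_surjective r
        change (algebraMap (ℤ ⧸ P.under ℤ) (ZZ ⧸ P) (Ideal.Quotient.mk _ z)) ^ l = _
        rw [← map_pow, ← map_pow, ← sub_eq_zero, ← map_sub, ← map_sub]
        have h1 : z ^ l - z ∈ P.under ℤ := by
          obtain ⟨w, hw⟩ := Frob_fermat l hl z
          rw [hw]
          refine Ideal.mul_mem_right _ _ ?_
          rw [Ideal.under_def, Ideal.mem_comap]
          simpa using hlP
        rw [Ideal.Quotient.eq_zero_iff_mem.2 h1, map_zero] }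
  have hφ : ∀ x, φ x = x ^ l := fun x => rfl
  have hbij : Function.Bijective φ := by
    constructor
    · intro x y hxy
      rw [hφ, hφ, ← sub_eq_zero, ← sub_pow_char] at hxy
      exact sub_eq_zero.1 (pow_eq_zero_iff hl.pos.ne' |>.1 hxy)
    · intro x
      obtain ⟨z, rfl⟩ := Ideal.Quotient.mk_surjective x
      obtain ⟨y, hy⟩ := Frob_root l hl.pos z
      exact ⟨Ideal.Quotient.mk P y, by rw [hφ, ← map_pow, hy]⟩
  obtain ⟨σ, hσ⟩ := Ideal.Quotient.stabilizerHom_surjective_of_profinite (G := Gal(Om/ℚ))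
    (P.under ℤ) P (AlgEquiv.ofBijective φ hbij)
  have hσ' : ∀ x : ZZ, (σ : Gal(Om/ℚ)) • x - x ^ l ∈ P := by
    intro x
    rw [← Ideal.Quotient.eq, map_pow]
    exact DFunLike.congr_fun hσ (Ideal.Quotient.mk P x)
  have hcard : Nat.card (ℤ ⧸ P.under ℤ) = l := by
    have h1 : P.under ℤ = Ideal.span {(l : ℤ)} := by
      have h2 : (Ideal.span {(l : ℤ)}).IsMaximal :=
        PrincipalIdealRing.isMaximal_of_irreducible (Nat.prime_iff_prime_int.1 hl).irreducible
      refine (h2.eq_of_le ?_ ?_).symm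
      · exact (Ideal.IsPrime.under ℤ P).ne_top
      · rw [Ideal.span_singleton_le_iff_mem, Ideal.under_def, Ideal.mem_comap]
        simpa using hlP
    rw [h1, Nat.card_congr (Int.quotientSpanNatEquivZMod l).toEquiv, Nat.card_zmod]
  have hfrob : IsArithFrobAt ℤ (σ : Gal(Om/ℚ)) P := by
    intro x
    rw [hcard]
    exact hσ' x
  refine ⟨σ, σ.2, fun z n hz => ?_⟩
  have hz0 : IsIntegral ℤ z := by
    refine IsIntegral.of_pow (pow_pos hp.pos n) ?_
    rw [hz]
    exact isIntegral_one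
  have hmem : ((p ^ n : ℕ) : ZZ) ∉ P := by
    intro h
    push_cast at h
    have h1 : (p : ZZ) ∈ P := hP.mem_of_pow_mem _ h
    have h2 : IsCoprime (p : ℤ) (l : ℤ) :=
      Nat.isCoprime_iff_coprime.2 ((Nat.coprime_primes hp hl).2 hpl)
    obtain ⟨a, b, hab⟩ := h2
    have h3 : ((a * p + b * l : ℤ) : ZZ) ∈ P := by
      push_cast
      exact P.add_mem (P.mul_mem_left _ h1) (P.mul_mem_left _ hlP)
    rw [hab, Int.cast_one] at h3
    exact hP.ne_top ((Ideal.eq_top_iff_one P).2 h3)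
  have hζ : (⟨z, hz0⟩ : ZZ) ^ (p ^ n) = 1 := Subtype.ext hz
  have hfin := AlgHom.IsArithFrobAt.apply_of_pow_eq_one hfrob hζ hmem
  rw [hcard] at hfin
  exact congrArg Subtype.val hfin

end Pool.Agent.MuZ
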