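import Pool.Agent.Lib.MuZ.Spec

/-!
# Finitely generated implies finitely many characters (`S_Fwd`)
-/

open scoped Pointwise

noncomputable section

namespace Pool.Agent.MuZ

/-- The extension `Ω/ℚ` is Galois (for the default algebra structure). -/
private theorem Fwd_isGalois : IsGalois ℚ Om := by
  have h : @IsGalois ℚ _ Om _ (AlgebraicClosure.instAlgebra ℚ) :=
    @IsAlgClosure.isGalois ℚ Om _ _ (AlgebraicClosure.instAlgebra ℚ) _ _
  have hA : (DivisionRing.toRatAlgebra : Algebra ℚ Om) = AlgebraicClosure.instAlgebra ℚ :=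
    Subsingleton.elim _ _
  rw [hA]
  exact h

/-- A character which vanishes on the generators is zero on `Gal(Ω/L)`. -/
private theorem Fwd_zero (hF : S_Fld) (p : ℕ) [Fact p.Prime] (L : IntermediateField ℚ Om)
    (T : Finset Gal(Om/ℚ)) (hT : ∀ τ ∈ T, τ ∈ L.fixingSubgroup)
    (hgen : ∀ E : IntermediateField ℚ Om, FiniteDimensional ℚ E → E ≤ KK p L →
      ∀ σ ∈ L.fixingSubgroup, ∃ τ ∈ Subgroup.closure (T : Set Gal(Om/ℚ)), ∀ x ∈ E, τ x = σ x)
    (h : Gal(Om/ℚ) → ZMod p) (hV : h ∈ VV p (Loc p) L.fixingSubgroup) (hhT : ∀ τ ∈ T, h τ = 0) :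
    ∀ σ ∈ L.fixingSubgroup, h σ = 0 := by
  have hGal : IsGalois ℚ Om := Fwd_isGalois
  obtain ⟨M, hM, hMh⟩ := hF p L h hV
  obtain ⟨-, h1, ⟨O, hO⟩, -⟩ := hV
  have f1 : h 1 = 0 := by
    have h5 := h1 1 (one_mem _) 1 (one_mem _)
    rw [mul_one] at h5
    simpa using h5
  have finv : ∀ g ∈ L.fixingSubgroup, h g⁻¹ = - h g := by
    intro g hg
    have h5 := h1 g hg g⁻¹ (inv_mem hg)
    rw [mul_inv_cancel, f1] at h5
    exact (neg_eq_of_add_eq_zero_right h5.symm).symm
  have hcl : ∀ τ ∈ Subgroup.closure (T : Set Gal(Om/ℚ)), τ ∈ L.fixingSubgroup ∧ h τ = 0 := by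
    intro τ hτ
    induction hτ using Subgroup.closure_induction with
    | mem x hx => exact ⟨hT x hx, hhT x hx⟩
    | one => exact ⟨one_mem _, f1⟩
    | mul x y _ _ hx hy => exact ⟨mul_mem hx.1 hy.1, by rw [h1 x hx.1 y hy.1, hx.2, hy.2, add_zero]⟩
    | inv x _ hx => exact ⟨inv_mem hx.1, by rw [finv x hx.1, hx.2, neg_zero]⟩
  intro σ hσ
  by_contra hne
  have hSclosed : IsClosed {ρ : Gal(Om/ℚ) | ρ ∈ L.fixingSubgroup ∧ h ρ = - h σ} := by
    rw [← isOpen_compl_iff, isOpen_iff_mem_nhds]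
    intro ρ hρ
    by_cases hL : ρ ∈ L.fixingSubgroup
    · have hnhds : (fun x => ρ⁻¹ * x) ⁻¹' (O : Set Gal(Om/ℚ)) ∈ nhds ρ := by
        refine (continuous_const_mul ρ⁻¹).continuousAt.preimage_mem_nhds ?_
        rw [inv_mul_cancel]
        exact O.mem_nhds_one
      refine Filter.mem_of_superset hnhds ?_
      rintro x hx ⟨x1, x2⟩
      have hxO : ρ⁻¹ * x ∈ O := hx
      have h5 : h (ρ⁻¹ * x) = 0 := hO _ (mul_mem (inv_mem hL) x1) hxO
      rw [h1 _ (inv_mem hL) _ x1, x2, finv ρ hL] at h5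
      refine hρ ⟨hL, ?_⟩
      linear_combination -h5
    · refine Filter.mem_of_superset ((InfiniteGalois.fixingSubgroup_isClosed L).isOpen_compl.mem_nhds hL) ?_
      rintro x hx ⟨x1, -⟩
      exact hx x1
  have hcompact : IsCompact {ρ : Gal(Om/ℚ) | ρ ∈ L.fixingSubgroup ∧ h ρ = - h σ} := hSclosed.isCompact
  obtain ⟨ρ, ⟨r1, r2⟩, r3⟩ := hcompact.inter_iInter_nonempty
    (fun x : M => ((IntermediateField.adjoin ℚ {(x : Om)}).fixingSubgroup : Set Gal(Om/ℚ)))
    (fun x => InfiniteGalois.fixingSubgroup_isClosed _) (by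
      intro u
      obtain ⟨E, hE⟩ : ∃ E : IntermediateField ℚ Om,
          E = IntermediateField.adjoin ℚ ((fun x : M => (x : Om)) '' (u : Set M)) := ⟨_, rfl⟩
      have hfinE : FiniteDimensional ℚ E := by
        rw [hE]
        have : Finite ((fun x : M => (x : Om)) '' (u : Set M)) := (u.finite_toSet.image _)
        exact IntermediateField.finiteDimensional_adjoin (fun x _ => (Algebra.IsAlgebraic.isAlgebraic x).isIntegral)
      have hEM : E ≤ M := by
        rw [hE, IntermediateField.adjoin_le_iff]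
        rintro _ ⟨x, -, rfl⟩
        exact x.2
      have hEK : E ≤ KK p L := hEM.trans (le_iSup (fun M : {M : IntermediateField ℚ Om // Adm p L M} => M.1) ⟨M, hM⟩)
      obtain ⟨τ, hτ, hτE⟩ := hgen E hfinE hEK σ hσ
      obtain ⟨t1, t2⟩ := hcl τ hτ
      refine ⟨σ⁻¹ * τ, ⟨mul_mem (inv_mem hσ) t1, ?_⟩, ?_⟩
      · rw [h1 _ (inv_mem hσ) _ t1, t2, add_zero, finv σ hσ]
      · rw [Set.mem_iInter₂]
        intro x hx
        rw [SetLike.mem_coe, IntermediateField.mem_fixingSubgroup_iff]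
        intro y hy
        have hyE : y ∈ E := by
          have hle : IntermediateField.adjoin ℚ {(x : Om)} ≤ E := by
            rw [IntermediateField.adjoin_le_iff, Set.singleton_subset_iff, SetLike.mem_coe, hE]
            exact IntermediateField.subset_adjoin _ _ ⟨x, hx, rfl⟩
          exact hle hy
        rw [AlgEquiv.mul_apply, hτE y hyE]
        exact σ.symm_apply_apply y)
  have hρM : ρ ∈ M.fixingSubgroup := by
    rw [IntermediateField.mem_fixingSubgroup_iff]
    intro x hx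
    have h5 := Set.mem_iInter.1 r3 ⟨x, hx⟩
    exact (IntermediateField.mem_fixingSubgroup_iff _ ρ).1 h5 x (IntermediateField.mem_adjoin_simple_self ℚ x)
  have h6 := ((hMh ρ).1 hρM).2
  rw [r2] at h6
  exact hne (neg_eq_zero.1 h6)

theorem fwd : S_Fwd := by
  intro hF p _ L hL
  obtain ⟨T, hT, hgen⟩ := hL
  refine Finite.of_injective (fun (f : VV p (Loc p) L.fixingSubgroup) (t : T) => f.1 t.1) ?_
  intro f g hfg
  have hV : (f.1 - g.1) ∈ VV p (Loc p) L.fixingSubgroup := sub_mem f.2 g.2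
  have h0 := Fwd_zero hF p L T hT hgen (f.1 - g.1) hV (by
    intro τ hτ
    have := congrFun hfg ⟨τ, hτ⟩
    simpa [sub_eq_zero] using this)
  apply Subtype.ext
  funext σ
  by_cases hσ : σ ∈ L.fixingSubgroup
  · have := h0 σ hσ
    simpa [sub_eq_zero] using this
  · rw [f.2.1 σ hσ, g.2.1 σ hσ]

end Pool.Agent.MuZ
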