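import Pool.Agent.Lib.MuZ.CSpec

/-!
# S_InT: `Qcyc p` is unramified outside `p`
-/

open scoped Pointwise

noncomputable section

namespace Pool.Agent.MuZ

namespace InTAux

/-- a root of unity of `p`-power order which is `1` modulo `P` is `1` -/
theorem root_one {R : Type*} [CommRing R] [IsDomain R] {P : Ideal R} (hP : P.IsPrime) {p : ℕ}
    (hp : (p : R) ∉ P) {n : ℕ} {y : R} (h1 : y ^ p ^ n = 1) (h2 : y - 1 ∈ P) : y = 1 := by
  by_contra hne
  have e1 : (∑ i ∈ Finset.range (p ^ n), y ^ i) * (y - 1) = 0 := by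
    rw [geom_sum_mul, h1, sub_self]
  have e2 : (∑ i ∈ Finset.range (p ^ n), y ^ i) = 0 := by
    rcases mul_eq_zero.1 e1 with h | h
    · exact h
    · exact absurd (sub_eq_zero.1 h) hne
  have e3 : (∑ i ∈ Finset.range (p ^ n), (y ^ i - 1)) ∈ P := by
    refine Ideal.sum_mem P (fun i _ => ?_)
    have hd : y - 1 ∣ y ^ i - 1 := by
      have := sub_dvd_pow_sub_pow y 1 i
      rwa [one_pow] at this
    exact Ideal.mem_of_dvd P hd h2
  rw [Finset.sum_sub_distrib, e2, Finset.sum_const, Finset.card_range, zero_sub,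
    Ideal.neg_mem_iff, nsmul_eq_mul, mul_one] at e3
  have e4 : ((p : R)) ^ n ∈ P := by
    have : ((p ^ n : ℕ) : R) = (p : R) ^ n := by push_cast; rfl
    rwa [this] at e3
  exact hp (hP.mem_of_pow_mem n e4)

end InTAux

theorem c_InT : S_InT := by
  intro p hpp P hP hp σ hσ
  have key : ∀ z : Om, (∃ n : ℕ, z ^ p ^ n = 1) → (σ ^ 1) z = z := by
    rintro z ⟨n, hz⟩
    rw [pow_one]
    have hpos : 0 < p ^ n := Nat.pow_pos hpp.pos
    have hint : IsIntegral ℤ z := by
      refine IsIntegral.of_pow hpos ?_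
      rw [hz]
      exact isIntegral_one
    set x : ZZ := ⟨z, hint⟩ with hx
    have hx1 : x ^ p ^ n = 1 := Subtype.ext hz
    have hxx : x * x ^ (p ^ n - 1) = 1 := by
      rw [← pow_succ', Nat.sub_add_cancel hpos, hx1]
    have hs : σ • x - x ∈ P := hσ x
    have hs1 : (σ • x) ^ p ^ n = 1 := by
      rw [← smul_pow', hx1, smul_one]
    have h1 : (σ • x * x ^ (p ^ n - 1)) ^ p ^ n = 1 := by
      rw [mul_pow, hs1, one_mul, ← pow_mul, mul_comm (p ^ n - 1), pow_mul, hx1, one_pow]
    have h2 : σ • x * x ^ (p ^ n - 1) - 1 ∈ P := by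
      have e : σ • x * x ^ (p ^ n - 1) - 1 = (σ • x - x) * x ^ (p ^ n - 1) := by
        rw [sub_mul, hxx]
      rw [e]
      exact P.mul_mem_right _ hs
    have h3 : σ • x * x ^ (p ^ n - 1) = 1 := InTAux.root_one hP hp h1 h2
    have h4 : σ • x = x := by
      calc σ • x = σ • x * (x * x ^ (p ^ n - 1)) := by rw [hxx, mul_one]
        _ = (σ • x * x ^ (p ^ n - 1)) * x := by ring
        _ = x := by rw [h3, one_mul]
    have h5 := congrArg Subtype.val h4
    exact h5
  rw [IntermediateField.mem_fixingSubgroup_iff]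
  intro y hy
  exact hy σ ⟨1, Nat.one_pos, key⟩

end Pool.Agent.MuZ
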