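import Pool.Agent.Lib.MuZ.CSpec
import Pool.Agent.Lib.MuZ.AsmA
import Pool.Agent.Lib.MuZ.Orb

/-!
# Local groups in `Gal(Om/k)`
-/

open scoped Pointwise

noncomputable section

namespace Pool.Agent.MuZ

namespace LK

theorem mem_cj {G : Type} [Group G] (u g : G) (Λ : Subgroup G) :
    g ∈ cj u Λ ↔ u⁻¹ * g * u ∈ Λ := by
  unfold cj
  rw [Subgroup.mem_map]
  constructor
  · rintro ⟨x, hx, rfl⟩
    simpa [MulAut.conj_apply, mul_assoc] using hx
  · intro h
    exact ⟨u⁻¹ * g * u, h, by simp [MulAut.conj_apply, mul_assoc]⟩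

theorem cj_subgroupOf {G : Type} [Group G] (K : Subgroup G) (u : K) (Λ : Subgroup G) :
    cj u (Λ.subgroupOf K) = (cj (u : G) Λ).subgroupOf K := by
  ext g
  rw [mem_cj, Subgroup.mem_subgroupOf, Subgroup.mem_subgroupOf, mem_cj]
  simp

theorem stab_eq (p : ℕ) (k : IntermediateField ℚ Om) (x : PX p) :
    MulAction.stabilizer k.fixingSubgroup x =
      (MulAction.stabilizer Gal(Om/ℚ) x.1).subgroupOf k.fixingSubgroup := by
  ext g
  rw [Subgroup.mem_subgroupOf, MulAction.mem_stabilizer_iff, MulAction.mem_stabilizer_iff]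
  exact Subtype.ext_iff

end LK

open LK in
theorem c_LK : S_LK := by
  intro hConj hInT hRam hOrb p _ k hk
  have hp : p.Prime := Fact.out
  have hk' : FiniteDimensional ℚ k := hk
  refine ⟨fun x => ?_, fun x => ?_, ?_, ?_, ?_⟩
  · rw [stab_eq]
    have h1 := Orb.stab_closed x.1
    exact h1.preimage continuous_subtype_val
  · rw [stab_eq]
    exact ⟨_, Or.inr ⟨x.1, x.2.1, x.2.2, rfl⟩, rfl⟩
  · rintro Λ ⟨Λ0, hΛ0, rfl⟩
    rcases hΛ0 with ⟨P, hP, hPne, rfl⟩ | ⟨P, hP, hpP, rfl⟩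
    · by_cases hpP : (p : ZZ) ∈ P
      · right
        refine ⟨⟨P, hP, hpP⟩, ?_⟩
        rw [stab_eq]
        intro g hg
        rw [Subgroup.mem_subgroupOf] at hg ⊢
        exact Ideal.inertia_le_stabilizer P hg
      · left
        intro g hg
        rw [Subgroup.mem_subgroupOf] at hg ⊢
        rw [fix_cyc]
        exact ⟨g.2, hInT p hp P hP hpP hg⟩
    · right
      refine ⟨⟨P, hP, hpP⟩, ?_⟩
      rw [stab_eq]
  · obtain ⟨R, hR, hRp, hRorb⟩ := hOrb p p hp hp k hk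
    refine ⟨{x : PX p | x.1 ∈ R}, ?_, ?_⟩
    · exact hR.preimage (Set.injOn_of_injective Subtype.val_injective)
    · intro x
      obtain ⟨P', hP', w, hw, hx⟩ := hRorb x.1 x.2.1 x.2.2
      refine ⟨⟨P', hRp P' hP'⟩, hP', ⟨w, ?_⟩, hw, ?_⟩
      · rw [fix_cyc] at hw
        exact hw.1
      · exact Subtype.ext hx
  · intro L hL hkL
    have hL' : FiniteDimensional ℚ L := hL
    obtain ⟨R, hR1, hR2, hR3⟩ := bad hRam hConj hOrb p L (cyc p k).fixingSubgroup
    refine ⟨(fun Λ => Λ.subgroupOf k.fixingSubgroup) '' R, hR1.image _, Set.image_mono hR2, ?_⟩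
    rintro Λ ⟨Λ0, hΛ0, rfl⟩ hbad
    have hbad' : ¬ (Λ0 ⊓ (cyc p k).fixingSubgroup ≤
        (cyc p k).fixingSubgroup ⊓ L.fixingSubgroup) := by
      intro hcon
      apply hbad
      intro g hg
      exact hcon hg
    obtain ⟨Λ', hΛ', u, hu, rfl⟩ := hR3 Λ0 hΛ0 hbad'
    have huk : u ∈ (cyc p k).fixingSubgroup := by
      rw [fix_cyc] at hu ⊢
      exact ⟨IntermediateField.fixingSubgroup_le hkL hu.1, hu.2⟩
    have huK : u ∈ k.fixingSubgroup := by
      rw [fix_cyc] at huk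
      exact huk.1
    refine ⟨_, ⟨Λ', hΛ', rfl⟩, ⟨u, huK⟩, huk, ?_⟩
    exact (cj_subgroupOf k.fixingSubgroup ⟨u, huK⟩ Λ').symm

end Pool.Agent.MuZ
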