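import Pool.Agent.Lib.MuZ.CSpec

/-!
# Layers as subgroups
-/

open scoped Pointwise

noncomputable section

namespace Pool.Agent.MuZ

private theorem Lay_gal (i : Algebra ℚ Om) : @IsGalois ℚ _ Om _ i := by
  have e : i = AlgebraicClosure.instAlgebra ℚ := Subsingleton.elim _ _
  subst e
  let j : Algebra ℚ Om := AlgebraicClosure.instAlgebra (R := ℚ) ℚ
  have h1 : @IsAlgClosure ℚ Om _ _ j _ :=
    inferInstanceAs (@IsAlgClosure ℚ (AlgebraicClosure ℚ) _ _ (AlgebraicClosure.instAlgebra (R := ℚ) ℚ) _)
  have h2 : @Normal ℚ Om _ _ j := @IsAlgClosure.normal ℚ Om _ _ j h1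
  have h3 : @Algebra.IsAlgebraic ℚ Om _ _ j := h1.isAlgebraic
  have h4 : @Algebra.IsSeparable ℚ Om _ _ j := inferInstance
  exact @IsGalois.mk _ _ _ _ j h4 h2

theorem c_Lay : S_Lay := by
  intro p _ k hk
  have hGal : IsGalois ℚ Om := Lay_gal _
  have hp : p.Prime := Fact.out
  have hpos : 0 < Module.finrank ℚ k := Module.finrank_pos
  refine ⟨?_, ?_⟩
  · rintro n F ⟨hkF, hFc, hdeg⟩
    have hFpos : 0 < Module.finrank ℚ F := by
      rw [hdeg]
      exact Nat.mul_pos (pow_pos hp.pos n) hpos
    have hF : FiniteDimensional ℚ F := Module.finite_of_finrank_pos hFpos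
    refine ⟨?_, ?_, ?_⟩
    · exact (IntermediateField.fixingSubgroup_isOpen F).preimage continuous_subtype_val
    · exact Subgroup.comap_mono (IntermediateField.fixingSubgroup_le hFc)
    · have hle : F.fixingSubgroup ≤ k.fixingSubgroup := IntermediateField.fixingSubgroup_le hkF
      have h1 := Subgroup.relIndex_mul_index hle
      rw [← IntermediateField.finrank_eq_fixingSubgroup_index, ← IntermediateField.finrank_eq_fixingSubgroup_index,
        hdeg] at h1
      exact Nat.eq_of_mul_eq_mul_right hpos h1
  · intro n Y hY hcY hYn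
    have hcl : k.fixingSubgroup ≤ ⊤ := le_top
    have hopen : IsOpen ((Y.map k.fixingSubgroup.subtype : Subgroup Gal(Om/ℚ)) : Set Gal(Om/ℚ)) := by
      have h1 := (IntermediateField.fixingSubgroup_isOpen k).isOpenMap_subtype_val (Y : Set k.fixingSubgroup) hY
      exact h1
    have hclosed := Subgroup.isClosed_of_isOpen _ hopen
    have hF : (IntermediateField.fixedField (Y.map k.fixingSubgroup.subtype)).fixingSubgroup =
        Y.map k.fixingSubgroup.subtype :=
      InfiniteGalois.fixingSubgroup_fixedField (⟨Y.map k.fixingSubgroup.subtype, hclosed⟩ :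
        ClosedSubgroup Gal(Om/ℚ))
    have hcle : (cyc p k).fixingSubgroup ≤ Y.map k.fixingSubgroup.subtype := by
      intro g hg
      have hgk : g ∈ k.fixingSubgroup := IntermediateField.fixingSubgroup_le (le_sup_left : k ≤ k ⊔ Qcyc p) hg
      exact ⟨⟨g, hgk⟩, hcY (Subgroup.mem_subgroupOf.2 hg), rfl⟩
    refine ⟨IntermediateField.fixedField (Y.map k.fixingSubgroup.subtype), ⟨?_, ?_, ?_⟩, ?_⟩
    · exact (IntermediateField.le_iff_le _ k).2 (Subgroup.map_subtype_le Y)
    · have h1 : IntermediateField.fixedField (Y.map k.fixingSubgroup.subtype) ≤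
          IntermediateField.fixedField (cyc p k).fixingSubgroup :=
        (IntermediateField.le_iff_le _ _).2 (by rw [hF]; exact hcle)
      rwa [InfiniteGalois.fixedField_fixingSubgroup] at h1
    · rw [IntermediateField.finrank_eq_fixingSubgroup_index, IntermediateField.finrank_eq_fixingSubgroup_index,
        hF, Subgroup.index_map_subtype, hYn]
    · rw [hF]
      exact Subgroup.comap_map_eq_self_of_injective k.fixingSubgroup.subtype_injective Y

end Pool.Agent.MuZ
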