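import Pool.Agent.Lib.MuZ.CSpec

/-!
# Layers
-/

open scoped Pointwise

noncomputable section

namespace Pool.Agent.MuZ

namespace Lev

variable {G : Type} [Group G] [TopologicalSpace G] [IsTopologicalGroup G] [CompactSpace G]
  [TotallyDisconnectedSpace G] [T2Space G]

/-- An open subgroup contains an open normal subgroup. -/
theorem small (O : OpenSubgroup G) : ∃ O' : OpenSubgroup G,
    (O' : Subgroup G).Normal ∧ ∀ x ∈ O', x ∈ O := by
  obtain ⟨H, hH⟩ := ProfiniteGrp.exist_openNormalSubgroup_sub_open_nhds_of_one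
    (U := (O : Set G)) O.isOpen (one_mem O)
  exact ⟨H.toOpenSubgroup, H.isNormal', fun x hx => hH hx⟩

theorem normal_N {p : ℕ} {N : Subgroup G} {γ : G} (h : Zq p ⊤ N γ) : N.Normal :=
  ⟨fun n hn g => h.nrm g (Subgroup.mem_top g) n hn⟩

/-- Modulo an open normal subgroup which contains `N` everything is a power of `γ`. -/
theorem pow_gen {p : ℕ} {N : Subgroup G} {γ : G} (h : Zq p ⊤ N γ) (L : Subgroup G)
    [hL : L.Normal] (hNL : N ≤ L) (hLo : IsOpen (L : Set G)) (q : G ⧸ L) :
    ∃ j : ℕ, (QuotientGroup.mk γ : G ⧸ L) ^ j = q := by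
  induction q using QuotientGroup.induction_on with
  | H y =>
    obtain ⟨j, t, ht, hj⟩ := h.gen y (Subgroup.mem_top y) ⟨L, hLo⟩
    refine ⟨j, ?_⟩
    have h1 : y⁻¹ * γ ^ j * t ∈ L := hj
    have h2 : y⁻¹ * γ ^ j ∈ L := by
      have := L.mul_mem h1 (L.inv_mem (hNL ht))
      simpa [mul_assoc] using this
    rw [← QuotientGroup.mk_pow]
    exact (QuotientGroup.eq.2 h2).symm

/-- The order of the image of `γ` is the index. -/
theorem order_eq {p : ℕ} {N : Subgroup G} {γ : G} (h : Zq p ⊤ N γ) (L : Subgroup G)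
    [hL : L.Normal] (hNL : N ≤ L) (hLo : IsOpen (L : Set G)) :
    orderOf (QuotientGroup.mk γ : G ⧸ L) = L.index := by
  have hgen : ∀ q : G ⧸ L, q ∈ Subgroup.zpowers (QuotientGroup.mk γ : G ⧸ L) := by
    intro q
    obtain ⟨j, hj⟩ := pow_gen h L hNL hLo q
    exact ⟨j, by simpa using hj⟩
  rw [orderOf_eq_card_of_forall_mem_zpowers hgen]
  rfl

end Lev

open Lev in
theorem c_Lev : S_Lev := by
  intro hVal G _ _ _ _ _ _ p _ N γ h
  have hp : p.Prime := Fact.out
  have hN : N.Normal := normal_N h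
  constructor
  · intro n
    obtain ⟨O, hO⟩ := hVal G p ⊤ N γ h n
    obtain ⟨O', hO'n, hO'O⟩ := small O
    let L : Subgroup G := N ⊔ (O' : Subgroup G)
    have hLn : L.Normal := Subgroup.sup_normal N (O' : Subgroup G)
    have hNL : N ≤ L := le_sup_left
    have hLo : IsOpen (L : Set G) := Subgroup.isOpen_mono le_sup_right O'.isOpen
    have hfin : Finite (G ⧸ L) := Subgroup.quotient_finite_of_isOpen L hLo
    have hcard := order_eq h L hNL hLo
    -- the order is a power of `p`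
    obtain ⟨a, ha⟩ := h.pro O'
    have h1 : (QuotientGroup.mk γ : G ⧸ L) ^ p ^ a = 1 := by
      rw [← QuotientGroup.mk_pow, QuotientGroup.eq_one_iff]
      exact (le_sup_right : (O' : Subgroup G) ≤ L) ha
    obtain ⟨e, -, he⟩ := (Nat.dvd_prime_pow hp).1 (orderOf_dvd_of_pow_eq_one h1)
    have h2 : p ^ n ∣ p ^ e := by
      have h3 : γ ^ p ^ e ∈ L := by
        rw [← QuotientGroup.eq_one_iff, QuotientGroup.mk_pow, ← he]
        exact pow_orderOf_eq_one _
      have h4 : γ ^ p ^ e ∈ ((O' : Subgroup G) : Set G) * (N : Set G) := by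
        rw [← Subgroup.normal_mul, sup_comm]
        exact h3
      obtain ⟨o, ho, t, ht, hot⟩ := h4
      refine hO (p ^ e) t⁻¹ (N.inv_mem ht) (hO'O _ ?_)
      have hot' : o * t = γ ^ p ^ e := hot
      rw [← hot', mul_inv_cancel_right]
      exact ho
    let Z : Subgroup (G ⧸ L) := Subgroup.zpowers ((QuotientGroup.mk γ : G ⧸ L) ^ p ^ n)
    have hZ : Nat.card Z = p ^ e / p ^ n := by
      rw [Nat.card_zpowers, orderOf_pow, he, Nat.gcd_eq_right h2]
    have hZi : Z.index = p ^ n := by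
      have h5 : Nat.card Z * Z.index = Nat.card (G ⧸ L) := Z.card_mul_index
      have h6 : Nat.card (G ⧸ L) = p ^ e := by
        rw [← he, hcard]
        rfl
      rw [hZ, h6] at h5
      have h7 : 0 < p ^ e / p ^ n :=
        Nat.div_pos (Nat.le_of_dvd (pow_pos hp.pos e) h2) (pow_pos hp.pos n)
      have h8 : p ^ e / p ^ n * p ^ n = p ^ e := Nat.div_mul_cancel h2
      exact Nat.eq_of_mul_eq_mul_left h7 (h5.trans h8.symm)
    refine ⟨Z.comap (QuotientGroup.mk' L), ?_, ?_, ?_⟩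
    · refine Subgroup.isOpen_mono (H₁ := L) ?_ hLo
      intro x hx
      rw [Subgroup.mem_comap, QuotientGroup.mk'_apply, (QuotientGroup.eq_one_iff x).2 hx]
      exact one_mem Z
    · intro x hx
      rw [Subgroup.mem_comap, QuotientGroup.mk'_apply, (QuotientGroup.eq_one_iff x).2 (hNL hx)]
      exact one_mem Z
    · rw [Subgroup.index_comap_of_surjective _ (QuotientGroup.mk'_surjective L)]
      exact hZi
  · intro n Y hY hNY hind
    obtain ⟨O', hO'n, hO'Y⟩ := small ⟨Y, hY⟩
    let L : Subgroup G := N ⊔ (O' : Subgroup G)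
    have hLn : L.Normal := Subgroup.sup_normal N (O' : Subgroup G)
    have hNL : N ≤ L := le_sup_left
    have hLo : IsOpen (L : Set G) := Subgroup.isOpen_mono le_sup_right O'.isOpen
    have hLY : L ≤ Y := sup_le hNY hO'Y
    have hYn : Y.Normal := by
      refine ⟨fun y hy g => ?_⟩
      obtain ⟨i, hi⟩ := pow_gen h L hNL hLo (QuotientGroup.mk y)
      obtain ⟨j, hj⟩ := pow_gen h L hNL hLo (QuotientGroup.mk g)
      have h1 : (QuotientGroup.mk (g * y * g⁻¹) : G ⧸ L) = QuotientGroup.mk y := by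
        rw [QuotientGroup.mk_mul, QuotientGroup.mk_mul, QuotientGroup.mk_inv, ← hi, ← hj,
          ← pow_add, add_comm, pow_add, mul_inv_cancel_right]
      have h2 : y⁻¹ * (g * y * g⁻¹) ∈ L := QuotientGroup.eq.1 h1.symm
      have h3 := Y.mul_mem hy (hLY h2)
      rwa [mul_inv_cancel_left] at h3
    have hord : orderOf (QuotientGroup.mk γ : G ⧸ Y) = p ^ n := by
      rw [order_eq h Y hNY hY, hind]
    have hmem : ∀ m : ℕ, γ ^ m ∈ Y ↔ p ^ n ∣ m := by
      intro m
      rw [← hord, orderOf_dvd_iff_pow_eq_one, ← QuotientGroup.mk_pow, QuotientGroup.eq_one_iff]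
    refine ⟨hYn, ⟨?_, ?_⟩⟩
    · refine ⟨(hmem _).2 dvd_rfl, hNY, fun y _ x hx => h.nrm y (Subgroup.mem_top y) x hx,
        Subgroup.isClosed_of_isOpen Y hY, h.cloN, ?_, ?_, ?_⟩
      · intro y hy O
        obtain ⟨j, t, ht, hj⟩ := h.gen y (Subgroup.mem_top y) (O ⊓ ⟨Y, hY⟩)
        have h1 : y⁻¹ * γ ^ j * t ∈ O := hj.1
        have h2 : y⁻¹ * γ ^ j * t ∈ Y := hj.2
        have h3 : γ ^ j ∈ Y := by
          have h4 := Y.mul_mem (Y.mul_mem hy h2) (Y.inv_mem (hNY ht))
          simpa [mul_assoc] using h4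
        obtain ⟨i, rfl⟩ := (hmem j).1 h3
        exact ⟨i, t, ht, by rwa [← pow_mul]⟩
      · intro y _ O
        exact h.quo y (Subgroup.mem_top y) O
      · intro m hm
        rw [← pow_mul]
        exact h.inf _ (Nat.mul_pos (pow_pos hp.pos n) hm)
    · intro O
      obtain ⟨a, ha⟩ := h.pro O
      refine ⟨a, ?_⟩
      rw [← pow_mul, mul_comm, pow_mul]
      exact pow_mem ha _

end Pool.Agent.MuZ
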