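import Pool.Agent.Lib.MuZ.CSpec

/-!
MP_d0239a_nt, Lib/MuZ, module Lin: a locally nilpotent operator with slowly growing kernels lives on a finite
dimensional space.
-/

namespace Pool.Agent.MuZ

private theorem Lin_ker_mono {p : ℕ} {V : Type} [AddCommGroup V] [Module (ZMod p) V]
    (T : V →ₗ[ZMod p] V) {i j : ℕ} (h : i ≤ j) : LinearMap.ker (T ^ i) ≤ LinearMap.ker (T ^ j) := by
  intro v hv
  rw [LinearMap.mem_ker] at hv ⊢
  obtain ⟨k, rfl⟩ := Nat.exists_eq_add_of_le h
  rw [add_comm, pow_add, Module.End.mul_apply, hv, map_zero]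

/-- Linear algebra. -/
theorem c_Lin : S_Lin := by
  intro p _ V _ _ T hT q q' hq hrank
  have hle : LinearMap.ker (T ^ q) ≤ LinearMap.ker (T ^ q') := Lin_ker_mono T hq.le
  have hfin : Module.rank (ZMod p) (LinearMap.ker (T ^ q')) < Cardinal.aleph0 := by
    by_contra hcon
    push Not at hcon
    rw [Cardinal.add_eq_left hcon ((Cardinal.natCast_lt_aleph0).le.trans hcon)] at hrank
    have hle' := Submodule.rank_mono hle
    rcases lt_or_ge (Module.rank (ZMod p) (LinearMap.ker (T ^ q))) Cardinal.aleph0 with h | h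
    · have h2 := Cardinal.add_lt_aleph0 h (Cardinal.natCast_lt_aleph0 (n := q'))
      exact absurd (hcon.trans_lt (hrank.trans h2)) (lt_irrefl _)
    · rw [Cardinal.add_eq_left h ((Cardinal.natCast_lt_aleph0).le.trans h)] at hrank
      exact absurd (hle'.trans_lt hrank) (lt_irrefl _)
  have hF : Module.Finite (ZMod p) (LinearMap.ker (T ^ q')) := Module.rank_lt_aleph0_iff.mp hfin
  have hF' : ∀ i ≤ q', Module.Finite (ZMod p) (LinearMap.ker (T ^ i)) := fun i hi =>
    Submodule.finiteDimensional_of_le (Lin_ker_mono T hi)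
  set d : ℕ → ℕ := fun i => Module.finrank (ZMod p) (LinearMap.ker (T ^ i)) with hd
  have hdq : d q' + q < d q + q' := by
    have := hF' q hq.le
    rw [← Module.finrank_eq_rank, ← Module.finrank_eq_rank] at hrank
    exact_mod_cast hrank
  obtain ⟨i, hi1, hi2, hi3⟩ : ∃ i, q ≤ i ∧ i < q' ∧ d (i + 1) ≤ d i := by
    by_contra hcon
    push Not at hcon
    have key : ∀ k, q + k ≤ q' → d q + k ≤ d (q + k) := by
      intro k
      induction k with
      | zero =>
        intro _
        exact le_rfl
      | succ k ih =>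
        intro hk
        have h1 := ih (by omega)
        have h2 := hcon (q + k) (by omega) (by omega)
        have h3 : q + (k + 1) = q + k + 1 := by ring
        rw [h3]
        omega
    have h1 := key (q' - q) (by omega)
    have h2 : q + (q' - q) = q' := by omega
    rw [h2] at h1
    omega
  have hker : LinearMap.ker (T ^ i) = LinearMap.ker (T ^ i.succ) := by
    have := hF' (i + 1) hi2
    exact Submodule.eq_of_le_of_finrank_le (Lin_ker_mono T (Nat.le_succ i)) hi3
  have htop : LinearMap.ker (T ^ i) = ⊤ := by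
    rw [eq_top_iff]
    intro v _
    obtain ⟨n, hn⟩ := hT v
    have h1 : v ∈ LinearMap.ker (T ^ (i + n)) :=
      Lin_ker_mono T (Nat.le_add_left n i) (LinearMap.mem_ker.mpr hn)
    rw [Module.End.ker_pow_constant hker n]
    exact h1
  have hfin2 : Module.Finite (ZMod p) V := by
    have h1 := hF' i hi2.le
    rw [htop] at h1
    exact Module.finite_def.mpr ((Submodule.fg_top _).mp (Module.finite_def.mp h1))
  exact Module.finite_of_finite (ZMod p)

end Pool.Agent.MuZ
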