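import Pool.Agent.Lib.MuZ.CSpec

/-!
# The local map (`S_LocD`)
-/

noncomputable section

namespace Pool.Agent.MuZ

namespace LocD

variable {G : Type} [Group G] [TopologicalSpace G] {p : ℕ} {S : Type} [AddCommGroup S] [Module (ZMod p) S]

open Classical in
/-- `c - (ρ . s - s)`, cut to `Λ`. -/
def cut (ρ : Representation (ZMod p) G S) (Λ : Subgroup G) (c : G → S) (s : S) : G → S :=
  fun g => if g ∈ Λ then c g - (ρ g s - s) else 0

theorem cut_mem [IsTopologicalGroup G] (ρ : Representation (ZMod p) G S) (hρ : ∃ O : OpenSubgroup G, ∀ g ∈ O, ρ g = 1)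
    {Ls : Set (Subgroup G)} {Y N Λ : Subgroup G} (hΛ : Λ ≤ Y) {c : G → S} (hc : c ∈ Coc Ls ρ Y N) (s : S) :
    cut ρ Λ c s ∈ Coc ∅ ρ Λ Λ := by
  obtain ⟨h1, h2, ⟨E, h3⟩, h4⟩ := hc
  obtain ⟨O, hO⟩ := hρ
  refine ⟨fun g hg => if_neg hg, fun g hg h hh => ?_, ⟨E ⊓ O, fun g hg hgO => ?_⟩, fun Λ' h => absurd h (by simp)⟩
  · rw [cut, if_pos (Λ.mul_mem hg hh), cut, if_pos hg, cut, if_pos hh, h2 g (hΛ hg) h (hΛ hh), map_mul]
    simp only [Module.End.mul_apply, map_sub]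
    abel
  · rw [cut, if_pos hg, h3 g (hΛ hg) hgO.1, hO g hgO.2]
    simp

theorem zero_mem' (ρ : Representation (ZMod p) G S) (Y : Subgroup G) : (0 : G → S) ∈ Coc ∅ ρ Y Y :=
  (Coc ∅ ρ Y Y).zero_mem

/-- The main construction. -/
theorem main (hU : S_Uni) [IsTopologicalGroup G] [Fact p.Prime] (Y N Λ : Subgroup G) (δ : G) (hΛ : Λ ≤ Y)
    (hN : ∀ y ∈ Y, ∀ n ∈ N, y * n * y⁻¹ ∈ N) (hδ : δ ∈ Λ)
    (hgen : ∀ y ∈ Λ, ∀ O : OpenSubgroup G, ∃ j : ℕ, ∃ t ∈ Λ ⊓ N, y⁻¹ * δ ^ j * t ∈ O) [Finite S]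
    (ρ : Representation (ZMod p) G S) (hρ : ∃ O : OpenSubgroup G, ∀ g ∈ O, ρ g = 1)
    (Fix : Submodule (ZMod p) S) (hFix : ∀ s, s ∈ Fix ↔ ∀ x ∈ Λ, ρ x s = s) :
    ∃ ℓ : Coc {Λ} ρ Y N →ₗ[ZMod p] (Fin (Module.finrank (ZMod p) Fix) → ZMod p),
      ∀ c : Coc {Λ} ρ Y N, ℓ c = 0 → ∃ s : S, ∀ g ∈ Λ, (c : G → S) g = ρ g s - s := by
  classical
  have uni : ∀ c : G → S, c ∈ Coc ∅ ρ Λ Λ → (∀ x ∈ Λ ⊓ N, c x = 0) → c δ = 0 → c = 0 := fun c h1 h2 h3 =>
    hU G p Λ (Λ ⊓ N) δ inf_le_left hδ hgen S ρ c h1 h2 h3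
  -- the fixed space of M
  let W : Submodule (ZMod p) S :=
    { carrier := {s | ∀ x ∈ Λ ⊓ N, ρ x s = s}
      add_mem' := by
        intro a b ha hb x hx
        rw [map_add, ha x hx, hb x hx]
      zero_mem' := by
        intro x _
        rw [map_zero]
      smul_mem' := by
        intro r a ha x hx
        rw [map_smul, ha x hx] }
  have hW : ∀ s, s ∈ W ↔ ∀ x ∈ Λ ⊓ N, ρ x s = s := fun s => Iff.rfl
  have hconj : ∀ x ∈ Λ ⊓ N, δ⁻¹ * x * δ ∈ Λ ⊓ N := by
    intro x hx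
    refine ⟨Λ.mul_mem (Λ.mul_mem (Λ.inv_mem hδ) hx.1) hδ, ?_⟩
    have := hN δ⁻¹ (hΛ (Λ.inv_mem hδ)) x hx.2
    rwa [inv_inv] at this
  -- the operator on W
  have hDW : ∀ s ∈ W, ρ δ s - s ∈ W := by
    intro s hs x hx
    have h1 : ρ x (ρ δ s) = ρ δ s := by
      have h2 : x * δ = δ * (δ⁻¹ * x * δ) := by group
      rw [← Module.End.mul_apply, ← map_mul, h2, map_mul, Module.End.mul_apply, hs _ (hconj x hx)]
    rw [map_sub, h1, hs x hx]
  let D : W →ₗ[ZMod p] W := (((ρ δ - 1 : Module.End (ZMod p) S)).comp W.subtype).codRestrict W (by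
    intro s
    exact hDW s s.2)
  have hD : ∀ s : W, (D s : S) = ρ δ s - s := fun s => rfl
  -- restriction to M
  have hcobM : ∀ s : S, ∀ x ∈ Λ ⊓ N, cob ρ (Λ ⊓ N) s x = ρ x s - s := by
    intro s x hx
    change (if x ∈ Λ ⊓ N then ρ x s - s else 0) = _
    rw [if_pos hx]
  let res : Coc {Λ} ρ Y N →ₗ[ZMod p] (G → S) :=
    { toFun := fun c x => if x ∈ Λ ⊓ N then (c : G → S) x else 0
      map_add' := by
        intro a b
        ext x
        by_cases h : x ∈ Λ ⊓ N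
        · simp only [h, if_true, Submodule.coe_add, Pi.add_apply]
        · simp only [h, if_false, Pi.add_apply, add_zero]
      map_smul' := by
        intro r a
        ext x
        by_cases h : x ∈ Λ ⊓ N
        · simp only [h, if_true, Submodule.coe_smul, Pi.smul_apply, RingHom.id_apply]
        · simp only [h, if_false, Pi.smul_apply, smul_zero, RingHom.id_apply] }
  have hres : ∀ (c : Coc {Λ} ρ Y N), ∀ x ∈ Λ ⊓ N, res c x = (c : G → S) x := by
    intro c x hx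
    change (if x ∈ Λ ⊓ N then (c : G → S) x else 0) = _
    rw [if_pos hx]
  have hrange : ∀ c : Coc {Λ} ρ Y N, res c ∈ LinearMap.range (cob ρ (Λ ⊓ N)) := by
    intro c
    obtain ⟨s, hs⟩ := c.2.2.2.2 Λ rfl
    refine ⟨s, ?_⟩
    funext x
    change (if x ∈ Λ ⊓ N then ρ x s - s else 0) = if x ∈ Λ ⊓ N then (c : G → S) x else 0
    by_cases h : x ∈ Λ ⊓ N
    · rw [if_pos h, if_pos h, hs x h.1 h.2]
    · rw [if_neg h, if_neg h]
  obtain ⟨σ, hσ⟩ := LinearMap.exists_rightInverse_of_surjective (cob ρ (Λ ⊓ N)).rangeRestrict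
    (LinearMap.range_eq_top.2 (LinearMap.surjective_rangeRestrict _))
  let sc : Coc {Λ} ρ Y N →ₗ[ZMod p] S := σ.comp (res.codRestrict _ hrange)
  have hsc : ∀ (c : Coc {Λ} ρ Y N), ∀ x ∈ Λ ⊓ N, (c : G → S) x = ρ x (sc c) - sc c := by
    intro c x hx
    have h1 : (cob ρ (Λ ⊓ N)).rangeRestrict (sc c) = res.codRestrict _ hrange c := by
      have := LinearMap.congr_fun hσ (res.codRestrict _ hrange c)
      exact this
    have h2 : cob ρ (Λ ⊓ N) (sc c) = res c := congrArg Subtype.val h1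
    rw [← hres c x hx, ← h2, hcobM _ x hx]
  -- the value at δ
  let ev : Coc {Λ} ρ Y N →ₗ[ZMod p] S := (LinearMap.proj δ).comp (Coc {Λ} ρ Y N).subtype
  let w0 : Coc {Λ} ρ Y N →ₗ[ZMod p] S := ev - (ρ δ - 1 : Module.End (ZMod p) S).comp sc
  have hw0 : ∀ c, w0 c = (c : G → S) δ - (ρ δ (sc c) - sc c) := fun c => rfl
  have hcutδ : ∀ (c : Coc {Λ} ρ Y N) (s : S), cut ρ Λ c s δ = (c : G → S) δ - (ρ δ s - s) := by
    intro c s
    rw [cut, if_pos hδ]
  have hw0W : ∀ c, w0 c ∈ W := by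
    intro c x hx
    have hm := cut_mem ρ hρ hΛ c.2 (sc c)
    have h0 : ∀ y ∈ Λ ⊓ N, cut ρ Λ c (sc c) y = 0 := by
      intro y hy
      rw [cut, if_pos (show y ∈ Λ from hy.1), hsc c y hy, sub_self]
    have e1 := hm.2.1 x hx.1 δ hδ
    rw [h0 x hx, zero_add] at e1
    have e2 := hm.2.1 δ hδ (δ⁻¹ * x * δ) (hconj x hx).1
    rw [h0 _ (hconj x hx), map_zero, add_zero] at e2
    have e3 : x * δ = δ * (δ⁻¹ * x * δ) := by group
    rw [e3, e2] at e1
    rw [hw0, ← hcutδ]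
    exact e1.symm
  let w : Coc {Λ} ρ Y N →ₗ[ZMod p] W := w0.codRestrict W hw0W
  -- dimensions
  have hfin : Module.Finite (ZMod p) S := Module.Finite.of_finite
  have hdim : Module.finrank (ZMod p) (W ⧸ LinearMap.range D) = Module.finrank (ZMod p) Fix := by
    have h1 := LinearMap.finrank_range_add_finrank_ker D
    have h2 := Submodule.finrank_quotient_add_finrank (LinearMap.range D)
    have h3 : Module.finrank (ZMod p) (LinearMap.ker D) = Module.finrank (ZMod p) Fix := by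
      have h4 : (LinearMap.ker D).map W.subtype = Fix := by
        ext s
        rw [hFix]
        constructor
        · rintro ⟨t, ht, rfl⟩ x hx
          have ht' : D t = 0 := ht
          have ht2 : ρ δ (t : S) - t = 0 := by rw [← hD, ht']; rfl
          have hz : cut ρ Λ (0 : G → S) (t : S) = 0 := by
            refine uni _ (cut_mem (Ls := ∅) (N := Y) ρ hρ hΛ (Coc ∅ ρ Y Y).zero_mem t) ?_ ?_
            · intro y hy
              rw [cut, if_pos (show y ∈ Λ from hy.1), (hW _).1 t.2 y hy]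
              simp
            · rw [cut, if_pos hδ, ht2]
              simp
          have := congrFun hz x
          rw [cut, if_pos hx] at this
          simp only [Pi.zero_apply, zero_sub, neg_eq_zero] at this
          exact sub_eq_zero.1 this
        · intro hs
          refine ⟨⟨s, fun x hx => hs x hx.1⟩, ?_, rfl⟩
          change D _ = 0
          apply Subtype.ext
          rw [hD]
          change ρ δ s - s = 0
          rw [hs δ hδ, sub_self]
      rw [← h4]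
      exact (LinearEquiv.finrank_eq (Submodule.equivMapOfInjective W.subtype W.injective_subtype _))
    omega
  have e : (W ⧸ LinearMap.range D) ≃ₗ[ZMod p] (Fin (Module.finrank (ZMod p) Fix) → ZMod p) :=
    LinearEquiv.ofFinrankEq _ _ (by rw [hdim, Module.finrank_fin_fun])
  refine ⟨e.toLinearMap.comp ((LinearMap.range D).mkQ.comp w), fun c hc => ?_⟩
  have h1 : (LinearMap.range D).mkQ (w c) = 0 := e.map_eq_zero_iff.1 hc
  rw [Submodule.mkQ_apply, Submodule.Quotient.mk_eq_zero] at h1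
  obtain ⟨t, ht⟩ := h1
  have h2 : ρ δ (t : S) - t = (c : G → S) δ - (ρ δ (sc c) - sc c) := by
    rw [← hD, ht]
    rfl
  refine ⟨sc c + t, fun g hg => ?_⟩
  have hz : cut ρ Λ c (sc c + t) = 0 := by
    refine uni _ (cut_mem ρ hρ hΛ c.2 _) ?_ ?_
    · intro y hy
      rw [cut, if_pos (show y ∈ Λ from hy.1), hsc c y hy, map_add, (hW _).1 t.2 y hy]
      abel
    · rw [hcutδ, map_add]
      have : (c : G → S) δ - (ρ δ (sc c) + ρ δ (t : S) - (sc c + t)) =
          ((c : G → S) δ - (ρ δ (sc c) - sc c)) - (ρ δ (t : S) - t) := by abel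
      rw [this, h2, sub_self]
  have := congrFun hz g
  rw [cut, if_pos hg] at this
  exact sub_eq_zero.1 this

end LocD

theorem c_LocD : S_LocD := by
  intro hU G _ _ _ p _ Y N Λ δ hΛ hN hδ hgen S _ _ _ ρ hρ Fix hFix
  exact LocD.main hU Y N Λ δ hΛ hN hδ hgen ρ hρ Fix hFix

end Pool.Agent.MuZ
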