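import Pool.Agent.Lib.MuZ.CSpec

/-!
# All local maps together: `S_LocE`
-/

open scoped Pointwise

noncomputable section

namespace Pool.Agent.MuZ

namespace LocEAux

section

variable {G : Type} [Group G] {p : ℕ} {X : Type} [MulAction G X]
  {S : Type} [AddCommGroup S] [Module (ZMod p) S]

/-- The orbits of `Y`. -/
abbrev Om' (Y : Subgroup G) (X : Type) [MulAction G X] : Type := MulAction.orbitRel.Quotient Y X

/-- The chosen point of an orbit. -/
def rp (Y : Subgroup G) (ω : Om' Y X) : X := Quotient.out ω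

/-- The class of a point. -/
def cl (Y : Subgroup G) (x : X) : Om' Y X := Quotient.mk _ x

theorem cl_rp (Y : Subgroup G) (ω : Om' Y X) : cl Y (rp Y ω) = ω := Quotient.out_eq ω

theorem cl_smul (Y : Subgroup G) {y : G} (hy : y ∈ Y) (x : X) : cl Y (y • x) = cl Y x := by
  apply Quotient.sound
  exact ⟨⟨y, hy⟩, rfl⟩

theorem ex_tr (Y : Subgroup G) (x : X) : ∃ y ∈ Y, y • rp Y (cl Y x) = x := by
  have h : cl Y (rp Y (cl Y x)) = cl Y x := cl_rp Y _
  have h2 : (MulAction.orbitRel Y X).r x (rp Y (cl Y x)) := Quotient.exact h.symm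
  obtain ⟨⟨y, hy⟩, h3⟩ := h2
  exact ⟨y, hy, h3⟩

/-- The stabiliser in `Y` of the chosen point. -/
def Lam (Y : Subgroup G) (ω : Om' Y X) : Subgroup G := MulAction.stabilizer G (rp Y ω) ⊓ Y

/-- The invariants. -/
def Fx (ρ : Representation (ZMod p) G S) (Y : Subgroup G) (ω : Om' Y X) :
    Submodule (ZMod p) S where
  carrier := {s | ∀ g ∈ Lam Y ω, ρ g s = s}
  add_mem' := by
    intro a b ha hb g hg
    rw [map_add, ha g hg, hb g hg]
  zero_mem' := by
    intro g _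
    simp
  smul_mem' := by
    intro r a ha g hg
    rw [map_smul, ha g hg]

/-- From families of invariants to equivariant functions. -/
def Ph (ρ : Representation (ZMod p) G S) (Y : Subgroup G) (a : X → G) (ha : ∀ x, a x ∈ Y)
    (ha2 : ∀ x, a x • rp Y (cl Y x) = x) :
    ((ω : Om' Y X) → Fx ρ Y ω) →ₗ[ZMod p] EqF (X := X) ρ Y where
  toFun s := ⟨fun z => ρ (a z) (s (cl Y z) : S), by
    intro y hy z
    have h1 : cl Y (y • z) = cl Y z := cl_smul Y hy z
    have h2 : a (y • z) • rp Y (cl Y z) = y • z := by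
      have := ha2 (y • z)
      rwa [h1] at this
    have h3 : (y * a z)⁻¹ * a (y • z) ∈ Lam Y (cl Y z) := by
      refine ⟨?_, Y.mul_mem (Y.inv_mem (Y.mul_mem hy (ha z))) (ha _)⟩
      show ((y * a z)⁻¹ * a (y • z)) • rp Y (cl Y z) = rp Y (cl Y z)
      rw [mul_smul, h2, inv_smul_eq_iff, mul_smul, ha2 z]
    have h4 := (s (cl Y z)).2 _ h3
    show ρ (a (y • z)) (s (cl Y (y • z)) : S) = ρ y (ρ (a z) (s (cl Y z) : S))
    rw [h1]
    have h5 : a (y • z) = (y * a z) * ((y * a z)⁻¹ * a (y • z)) := by group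
    rw [h5, map_mul]
    show ρ (y * a z) (ρ ((y * a z)⁻¹ * a (y • z)) (s (cl Y z) : S)) = _
    rw [h4, map_mul]
    rfl⟩
  map_add' s t := by
    apply Subtype.ext
    funext z
    show ρ (a z) (((s + t) (cl Y z) : Fx ρ Y _) : S) = ρ (a z) (s (cl Y z) : S) + ρ (a z) (t (cl Y z) : S)
    rw [← map_add]
    rfl
  map_smul' r s := by
    apply Subtype.ext
    funext z
    show ρ (a z) (((r • s) (cl Y z) : Fx ρ Y _) : S) = r • ρ (a z) (s (cl Y z) : S)
    rw [← map_smul]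
    rfl

theorem rho_inj (ρ : Representation (ZMod p) G S) (g : G) {s : S} (h : ρ g s = 0) : s = 0 := by
  have h1 : ρ g⁻¹ (ρ g s) = s := by
    have : (ρ g⁻¹ * ρ g) s = s := by
      rw [← map_mul, inv_mul_cancel, map_one]
      rfl
    exact this
  rw [← h1, h, map_zero]

theorem Ph_inj (ρ : Representation (ZMod p) G S) (Y : Subgroup G) (a : X → G)
    (ha : ∀ x, a x ∈ Y) (ha2 : ∀ x, a x • rp Y (cl Y x) = x) :
    Function.Injective (Ph ρ Y a ha ha2) := by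
  rw [injective_iff_map_eq_zero]
  intro s hs
  funext ω
  apply Subtype.ext
  have h1 : ρ (a (rp Y ω)) (s (cl Y (rp Y ω)) : S) = 0 := by
    have := congrFun (congrArg Subtype.val hs) (rp Y ω)
    exact this
  have h2 := rho_inj ρ _ h1
  rw [cl_rp] at h2
  exact h2

end

end LocEAux

open LocEAux in
theorem c_LocE : S_LocE := by
  intro hD hPc hUni G _ _ _ _ _ _ p _ X _ Ls Y N γ hγ hNY hYo hst hLs hcov _ S _ _ _ ρ hρ
  have hYc : IsClosed (Y : Set G) := Y.isClosed_of_isOpen hYo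
  have hLc : ∀ ω : Om' Y X, IsClosed (Lam Y ω : Set G) := fun ω => (hst _).inter hYc
  have h1 : ∀ ω : Om' Y X, ∃ δ ∈ Lam Y ω, ∀ y ∈ Lam Y ω, ∀ O : OpenSubgroup G,
      ∃ j : ℕ, ∃ t ∈ Lam Y ω ⊓ N, y⁻¹ * δ ^ j * t ∈ O := fun ω =>
    hPc G p ⊤ N γ hγ (Lam Y ω) le_top (hLc ω)
  have hnr : ∀ y ∈ Y, ∀ n ∈ N, y * n * y⁻¹ ∈ N := fun y _ n hn =>
    hγ.nrm y (Subgroup.mem_top y) n hn
  have h2 : ∀ ω : Om' Y X, ∃ ℓ : Coc {Lam Y ω} ρ Y N →ₗ[ZMod p]
      (Fin (Module.finrank (ZMod p) (Fx ρ Y ω)) → ZMod p),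
      ∀ c : Coc {Lam Y ω} ρ Y N, ℓ c = 0 → ∃ s : S, ∀ g ∈ Lam Y ω, (c : G → S) g = ρ g s - s := by
    intro ω
    obtain ⟨δ, hδ, hgen⟩ := h1 ω
    exact hD hUni G p Y N (Lam Y ω) δ inf_le_right hnr hδ hgen S ρ hρ (Fx ρ Y ω)
      (fun s => Iff.rfl)
  choose ℓ hℓ using h2
  have hle : ∀ ω : Om' Y X, Coc Ls ρ Y N ≤ Coc {Lam Y ω} ρ Y N := by
    rintro ω c ⟨c1, c2, c3, c4⟩
    refine ⟨c1, c2, c3, ?_⟩
    intro Λ hΛ
    obtain ⟨s, hs⟩ := c4 _ (hLs (rp Y ω))
    refine ⟨s, fun g hg hgN => hs g ?_ hgN⟩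
    have : Λ = Lam Y ω := hΛ
    rw [this] at hg
    exact hg.1
  have h3 : ∀ x : X, ∃ y ∈ Y, y • rp Y (cl Y x) = x := ex_tr Y
  choose a ha ha2 using h3
  let L : Coc Ls ρ Y N →ₗ[ZMod p]
      ((ω : Om' Y X) → (Fin (Module.finrank (ZMod p) (Fx ρ Y ω)) → ZMod p)) :=
    LinearMap.pi (fun ω => (ℓ ω).comp (Submodule.inclusion (hle ω)))
  -- the kernel
  have hker : ∀ c ∈ LinearMap.ker L, (c : G → S) ∈ Coc Ls ρ Y Y := by
    intro c hc
    obtain ⟨c1, c2, c3, c4⟩ := c.2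
    refine ⟨c1, c2, c3, ?_⟩
    intro Λ hΛ
    rcases hcov Λ hΛ with hN | ⟨x, hx⟩
    · obtain ⟨s, hs⟩ := c4 Λ hΛ
      exact ⟨s, fun g hg _ => hs g hg (hN hg)⟩
    · have h5 : ℓ (cl Y x) (Submodule.inclusion (hle (cl Y x)) c) = 0 := by
        have := congrFun (LinearMap.mem_ker.1 hc) (cl Y x)
        exact this
      obtain ⟨s, hs⟩ := hℓ _ _ h5
      have hs' : ∀ g ∈ Lam Y (cl Y x), (c : G → S) g = ρ g s - s := hs
      refine ⟨ρ (a x) s - (c : G → S) (a x), fun g hg hgY => ?_⟩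
      have hgx : g • x = x := hx hg
      have hg' : (a x)⁻¹ * g * a x ∈ Lam Y (cl Y x) := by
        refine ⟨?_, Y.mul_mem (Y.mul_mem (Y.inv_mem (ha x)) hgY) (ha x)⟩
        show ((a x)⁻¹ * g * a x) • rp Y (cl Y x) = rp Y (cl Y x)
        rw [mul_smul, ha2 x, mul_smul, hgx, inv_smul_eq_iff, ha2 x]
      have e1 := hs' _ hg'
      have e2 := c2 g hgY (a x) (ha x)
      have e3 := c2 (a x) (ha x) ((a x)⁻¹ * g * a x) hg'.2
      have e4 : a x * ((a x)⁻¹ * g * a x) = g * a x := by group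
      rw [e4, e2, e1, map_sub] at e3
      have e5 : ρ (a x) (ρ ((a x)⁻¹ * g * a x) s) = ρ g (ρ (a x) s) := by
        have e6 : (ρ (a x) * ρ ((a x)⁻¹ * g * a x)) s = (ρ g * ρ (a x)) s := by
          rw [← map_mul, ← map_mul, e4]
        exact e6
      rw [e5] at e3
      rw [map_sub]
      have e7 : (c : G → S) g = (c : G → S) (a x) + (ρ g (ρ (a x) s) - ρ (a x) s) -
          ρ g ((c : G → S) (a x)) := by
        rw [← e3]
        abel
      rw [e7]
      abel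
  have hK : Module.rank (ZMod p) (LinearMap.ker L) ≤ Module.rank (ZMod p) (Coc Ls ρ Y Y) := by
    let f : LinearMap.ker L →ₗ[ZMod p] Coc Ls ρ Y Y :=
      LinearMap.codRestrict (Coc Ls ρ Y Y)
        ((Coc Ls ρ Y N).subtype.comp (LinearMap.ker L).subtype) (fun c => hker c.1 c.2)
    apply LinearMap.rank_le_of_injective f
    intro c d hcd
    apply Subtype.ext
    apply Subtype.ext
    have h := congrArg (fun v : Coc Ls ρ Y Y => (v : G → S)) hcd
    exact h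
  have hR : Module.rank (ZMod p) (LinearMap.range L) ≤
      Module.rank (ZMod p) (EqF (X := X) ρ Y) := by
    let E : ((ω : Om' Y X) → (Fin (Module.finrank (ZMod p) (Fx ρ Y ω)) → ZMod p)) ≃ₗ[ZMod p]
        ((ω : Om' Y X) → Fx ρ Y ω) :=
      LinearEquiv.piCongrRight (fun ω => (Module.finBasis (ZMod p) (Fx ρ Y ω)).equivFun.symm)
    let f : LinearMap.range L →ₗ[ZMod p] EqF (X := X) ρ Y :=
      (Ph ρ Y a ha ha2).comp (E.toLinearMap.comp (LinearMap.range L).subtype)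
    apply LinearMap.rank_le_of_injective f
    intro c d hcd
    apply Subtype.ext
    exact E.injective (Ph_inj ρ Y a ha ha2 hcd)
  have hrn := LinearMap.rank_range_add_rank_ker L
  rw [← hrn, add_comm]
  exact add_le_add hK hR

end Pool.Agent.MuZ
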