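import Pool.Agent.Lib.MuZ.CSpec

/-!
# MuZ, NF: number fields
-/

open scoped Pointwise

namespace Pool.Agent.MuZ

namespace NFaux

/-- transfer to an open subgroup -/
theorem transfer {G : Type} [Group G] [TopologicalSpace G] [IsTopologicalGroup G] (p : ℕ)
    (K T : Subgroup G) (hK : IsOpen (K : Set G)) (γ : G) (h : Zq p K (K ⊓ T) γ) :
    Zq p (⊤ : Subgroup K) ((K ⊓ T).subgroupOf K) (⟨γ, h.mem⟩ : K) := by
  have hop : ∀ O : OpenSubgroup K, ∃ O' : OpenSubgroup G, ∀ x : K, (x : G) ∈ O' → x ∈ O := by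
    intro O
    refine ⟨⟨(O : Subgroup K).map K.subtype, ?_⟩, ?_⟩
    · have h1 : IsOpenMap (fun x : K => (x : G)) := hK.isOpenMap_subtype_val
      exact h1 _ O.isOpen
    · intro x hx
      obtain ⟨y, hy, hyx⟩ := hx
      have : y = x := Subtype.ext hyx
      rw [← this]
      exact hy
  refine
    { mem := Subgroup.mem_top _
      le := le_top
      nrm := ?_
      cloY := ?_
      cloN := ?_
      gen := ?_
      quo := ?_
      inf := ?_
      pro := ?_ }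
  · intro y _ n hn
    rw [Subgroup.mem_subgroupOf] at hn ⊢
    exact h.nrm y y.2 n hn
  · exact isClosed_univ
  · exact h.cloN.preimage continuous_subtype_val
  · intro y _ O
    obtain ⟨O', hO'⟩ := hop O
    obtain ⟨j, t, ht, hj⟩ := h.gen y y.2 O'
    refine ⟨j, ⟨t, ht.1⟩, ?_, ?_⟩
    · rw [Subgroup.mem_subgroupOf]
      exact ht
    · exact hO' _ hj
  · intro y _ O
    obtain ⟨O', hO'⟩ := hop O
    obtain ⟨a, t, ht, ha⟩ := h.quo y y.2 O'
    refine ⟨a, ⟨t, ht.1⟩, ?_, ?_⟩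
    · rw [Subgroup.mem_subgroupOf]
      exact ht
    · exact hO' _ ha
  · intro m hm hmem
    rw [Subgroup.mem_subgroupOf] at hmem
    exact h.inf m hm hmem
  · intro O
    obtain ⟨O', hO'⟩ := hop O
    obtain ⟨a, ha⟩ := h.pro O'
    exact ⟨a, hO' _ ha⟩

end NFaux

theorem c_NF : S_NF := by
  intro hQZ hSub hPL hPc hTF p _ k hk
  obtain ⟨δ, hδ⟩ := hQZ hTF p
  have hKo : IsOpen (k.fixingSubgroup : Set Gal(Om/ℚ)) := k.fixingSubgroup_isOpen
  have hKc : IsClosed (k.fixingSubgroup : Set Gal(Om/ℚ)) := k.fixingSubgroup_isClosed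
  have hM : ∃ M : ℕ, 0 < M ∧ δ ^ M ∈ k.fixingSubgroup := by
    have h1 := Subgroup.quotient_finite_of_isOpen k.fixingSubgroup hKo
    have h3 : (k.fixingSubgroup).FiniteIndex := Subgroup.finiteIndex_of_finite_quotient
    have h2 : (k.fixingSubgroup).index ≠ 0 := h3.index_ne_zero
    obtain ⟨n, hn, _, hm⟩ := Subgroup.exists_pow_mem_of_index_ne_zero h2 δ
    exact ⟨n, hn, hm⟩
  obtain ⟨δ', hδ'⟩ := hSub hPc Gal(Om/ℚ) p ⊤ (Qcyc p).fixingSubgroup δ hδ k.fixingSubgroup le_top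
    hKc hM
  obtain ⟨γ, hγ⟩ := hPL Gal(Om/ℚ) p k.fixingSubgroup _ δ' hδ'
  have := NFaux.transfer p k.fixingSubgroup (Qcyc p).fixingSubgroup hKo γ hγ
  refine ⟨⟨γ, hγ.mem⟩, ?_⟩
  rw [cyc, IntermediateField.fixingSubgroup_sup]
  exact this

end Pool.Agent.MuZ
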