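import Pool.Agent.Lib.MuZ.Pc

/-!
# The operator `γ - 1` on the cohomology of `N`
-/

open scoped Pointwise

noncomputable section

namespace Pool.Agent.MuZ

namespace OpAux

section

variable {G : Type} [Group G] {p : ℕ} {S : Type} [AddCommGroup S] [Module (ZMod p) S]

theorem act_apply (ρ : Representation (ZMod p) G S) (g : G) (c : G → S) (x : G) :
    act ρ g c x = ρ g (c (g⁻¹ * x * g)) := rfl

theorem act_mul (ρ : Representation (ZMod p) G S) (g h : G) (c : G → S) :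
    act ρ (g * h) c = act ρ g (act ρ h c) := by
  funext x
  rw [act_apply, act_apply, act_apply, map_mul, Module.End.mul_apply]
  congr 3
  group

theorem act_one (ρ : Representation (ZMod p) G S) (c : G → S) : act ρ 1 c = c := by
  funext x
  rw [act_apply, map_one, Module.End.one_apply]
  congr 1
  group

open Classical in
theorem cob_apply (ρ : Representation (ZMod p) G S) (Y : Subgroup G) (s : S) (x : G) :
    cob ρ Y s x = if x ∈ Y then ρ x s - s else 0 := rfl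

theorem act_cob (ρ : Representation (ZMod p) G S) (N : Subgroup G) (g : G)
    (hN : ∀ g : G, ∀ n ∈ N, g * n * g⁻¹ ∈ N) (s : S) :
    act ρ g (cob ρ N s) = cob ρ N (ρ g s) := by
  classical
  funext x
  rw [act_apply, cob_apply, cob_apply]
  have h1 : g⁻¹ * x * g ∈ N ↔ x ∈ N := by
    constructor
    · intro h
      have := hN g _ h
      have h2 : g * (g⁻¹ * x * g) * g⁻¹ = x := by group
      rwa [h2] at this
    · intro h
      have := hN g⁻¹ _ h
      rwa [inv_inv] at this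
  by_cases h : x ∈ N
  · rw [if_pos h, if_pos (h1.2 h), map_sub]
    congr 1
    rw [← Module.End.mul_apply, ← map_mul, ← Module.End.mul_apply, ← map_mul]
    congr 2
    group
  · rw [if_neg h, if_neg (fun h3 => h (h1.1 h3)), map_zero]

end

section

variable {G : Type} [Group G] [TopologicalSpace G] [IsTopologicalGroup G] {p : ℕ} {S : Type}
  [AddCommGroup S] [Module (ZMod p) S]

theorem act_mem (Ls : Set (Subgroup G)) (ρ : Representation (ZMod p) G S) (N : Subgroup G)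
    (hN : ∀ g : G, ∀ n ∈ N, g * n * g⁻¹ ∈ N) (hL : ∀ g : G, ∀ Λ ∈ Ls, cj g Λ ∈ Ls) (g : G)
    (c : G → S) (hc : c ∈ Coc Ls ρ N N) : act ρ g c ∈ Coc Ls ρ N N := by
  obtain ⟨c1, c2, ⟨O, c3⟩, c4⟩ := hc
  have hN' : ∀ n ∈ N, g⁻¹ * n * g ∈ N := by
    intro n hn
    have := hN g⁻¹ n hn
    rwa [inv_inv] at this
  refine ⟨?_, ?_, ?_, ?_⟩
  · intro x hx
    rw [act_apply, c1, map_zero]
    intro h
    apply hx
    have h3 := hN g _ h
    have h2 : g * (g⁻¹ * x * g) * g⁻¹ = x := by group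
    rwa [h2] at h3
  · intro x hx y hy
    rw [act_apply, act_apply, act_apply]
    have h1 : g⁻¹ * (x * y) * g = (g⁻¹ * x * g) * (g⁻¹ * y * g) := by group
    rw [h1, c2 _ (hN' x hx) _ (hN' y hy), map_add]
    congr 1
    rw [← Module.End.mul_apply, ← map_mul, ← Module.End.mul_apply, ← map_mul]
    congr 2
    group
  · refine ⟨O.comap (MulAut.conj g⁻¹).toMonoidHom ?_, ?_⟩
    · change Continuous (fun x => g⁻¹ * x * g⁻¹⁻¹)
      fun_prop
    · intro x hx hxO
      rw [act_apply]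
      have h1 : g⁻¹ * x * g ∈ O := by
        have h2 : (MulAut.conj g⁻¹).toMonoidHom x ∈ O := hxO
        have h3 : (MulAut.conj g⁻¹).toMonoidHom x = g⁻¹ * x * g := by
          change g⁻¹ * x * g⁻¹⁻¹ = _
          rw [inv_inv]
        rwa [h3] at h2
      rw [c3 _ (hN' x hx) h1, map_zero]
  · intro Λ hΛ
    obtain ⟨s, hs⟩ := c4 (cj g⁻¹ Λ) (hL _ _ hΛ)
    refine ⟨ρ g s, fun x hx hxN => ?_⟩
    rw [act_apply, hs (g⁻¹ * x * g) ⟨x, hx, ?_⟩ (hN' x hxN), map_sub]
    · congr 1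
      rw [← Module.End.mul_apply, ← map_mul, ← Module.End.mul_apply, ← map_mul]
      congr 2
      group
    · change g⁻¹ * x * g⁻¹⁻¹ = _
      rw [inv_inv]

/-- The operator induced by `act ρ g` on cocycles. -/
def opC (Ls : Set (Subgroup G)) (ρ : Representation (ZMod p) G S) (N : Subgroup G)
    (hN : ∀ g : G, ∀ n ∈ N, g * n * g⁻¹ ∈ N) (hL : ∀ g : G, ∀ Λ ∈ Ls, cj g Λ ∈ Ls) (g : G) :
    Coc Ls ρ N N →ₗ[ZMod p] Coc Ls ρ N N :=
  (act ρ g).restrict (act_mem Ls ρ N hN hL g)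

theorem opC_le (Ls : Set (Subgroup G)) (ρ : Representation (ZMod p) G S) (N : Subgroup G)
    (hN : ∀ g : G, ∀ n ∈ N, g * n * g⁻¹ ∈ N) (hL : ∀ g : G, ∀ Λ ∈ Ls, cj g Λ ∈ Ls) (g : G) :
    (LinearMap.range (cob ρ N)).comap (Coc Ls ρ N N).subtype ≤
      ((LinearMap.range (cob ρ N)).comap (Coc Ls ρ N N).subtype).comap
        (opC Ls ρ N hN hL g) := by
  rintro c ⟨s, hs⟩
  refine ⟨ρ g s, ?_⟩
  rw [← act_cob ρ N g hN s, hs]
  rfl

/-- The operator induced by `act ρ g` on the cohomology. -/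
def opH (Ls : Set (Subgroup G)) (ρ : Representation (ZMod p) G S) (N : Subgroup G)
    (hN : ∀ g : G, ∀ n ∈ N, g * n * g⁻¹ ∈ N) (hL : ∀ g : G, ∀ Λ ∈ Ls, cj g Λ ∈ Ls) (g : G) :
    HN Ls ρ N →ₗ[ZMod p] HN Ls ρ N :=
  Submodule.mapQ _ _ (opC Ls ρ N hN hL g) (opC_le Ls ρ N hN hL g)

theorem opH_mk (Ls : Set (Subgroup G)) (ρ : Representation (ZMod p) G S) (N : Subgroup G)
    (hN : ∀ g : G, ∀ n ∈ N, g * n * g⁻¹ ∈ N) (hL : ∀ g : G, ∀ Λ ∈ Ls, cj g Λ ∈ Ls) (g : G)
    (c c' : Coc Ls ρ N N) (h : (c' : G → S) = act ρ g c) :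
    opH Ls ρ N hN hL g (Submodule.Quotient.mk c) = Submodule.Quotient.mk c' := by
  have h1 : c' = opC Ls ρ N hN hL g c := Subtype.ext h
  rw [h1]
  rfl

theorem opH_mul (Ls : Set (Subgroup G)) (ρ : Representation (ZMod p) G S) (N : Subgroup G)
    (hN : ∀ g : G, ∀ n ∈ N, g * n * g⁻¹ ∈ N) (hL : ∀ g : G, ∀ Λ ∈ Ls, cj g Λ ∈ Ls) (g h : G) :
    opH Ls ρ N hN hL (g * h) = opH Ls ρ N hN hL g * opH Ls ρ N hN hL h := by
  apply LinearMap.ext
  intro v
  induction v using Submodule.Quotient.induction_on with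
  | _ c =>
    rw [Module.End.mul_apply,
      opH_mk Ls ρ N hN hL h c (opC Ls ρ N hN hL h c) rfl,
      opH_mk Ls ρ N hN hL g _ (opC Ls ρ N hN hL g (opC Ls ρ N hN hL h c)) rfl,
      opH_mk Ls ρ N hN hL (g * h) c (opC Ls ρ N hN hL g (opC Ls ρ N hN hL h c))]
    exact (act_mul ρ g h c).symm

theorem opH_one (Ls : Set (Subgroup G)) (ρ : Representation (ZMod p) G S) (N : Subgroup G)
    (hN : ∀ g : G, ∀ n ∈ N, g * n * g⁻¹ ∈ N) (hL : ∀ g : G, ∀ Λ ∈ Ls, cj g Λ ∈ Ls) :
    opH Ls ρ N hN hL 1 = 1 := by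
  apply LinearMap.ext
  intro v
  induction v using Submodule.Quotient.induction_on with
  | _ c =>
    rw [opH_mk Ls ρ N hN hL 1 c c (act_one ρ c).symm]
    rfl

theorem opH_pow (Ls : Set (Subgroup G)) (ρ : Representation (ZMod p) G S) (N : Subgroup G)
    (hN : ∀ g : G, ∀ n ∈ N, g * n * g⁻¹ ∈ N) (hL : ∀ g : G, ∀ Λ ∈ Ls, cj g Λ ∈ Ls) (g : G)
    (m : ℕ) : opH Ls ρ N hN hL (g ^ m) = (opH Ls ρ N hN hL g) ^ m := by
  induction m with
  | zero => rw [pow_zero, pow_zero, opH_one]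
  | succ m ih => rw [pow_succ, pow_succ, opH_mul, ih]

theorem sub_one_pow (p : ℕ) [Fact p.Prime] (V : Type) [AddCommGroup V] [Module (ZMod p) V]
    (A : Module.End (ZMod p) V) (n : ℕ) : (A - 1) ^ p ^ n = A ^ p ^ n - 1 := by
  rcases subsingleton_or_nontrivial V with h | h
  · apply LinearMap.ext
    intro v
    exact Subsingleton.elim _ _
  · haveI : CharP (Module.End (ZMod p) V) p :=
      charP_of_injective_algebraMap (algebraMap (ZMod p) (Module.End (ZMod p) V)).injective p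
    rw [sub_pow_char_pow_of_commute _ _ (Commute.one_right A), one_pow]

end

end OpAux

open OpAux in
theorem c_Op : S_Op := by
  intro G _ _ _ _ _ _ p _ Ls N γ hZ hL S _ _ ρ hρ
  have hN : ∀ g : G, ∀ n ∈ N, g * n * g⁻¹ ∈ N := fun g n hn => hZ.nrm g trivial n hn
  have hT : ∀ n : ℕ, (opH Ls ρ N hN hL γ - 1) ^ p ^ n = opH Ls ρ N hN hL (γ ^ p ^ n) - 1 := by
    intro n
    rw [sub_one_pow, opH_pow]
  refine ⟨opH Ls ρ N hN hL γ - 1, ?_, ?_⟩
  · intro v
    induction v using Submodule.Quotient.induction_on with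
    | _ c =>
      obtain ⟨c1, c2, ⟨O1, c3⟩, c4⟩ := c.2
      obtain ⟨O2, hO2⟩ := hρ
      obtain ⟨O, hOn, hO⟩ := PcAux.exists_normal (O1 ⊓ O2)
      obtain ⟨n, hn⟩ := hZ.pro O
      refine ⟨n, ?_⟩
      rw [hT, LinearMap.sub_apply, opH_mk Ls ρ N hN hL (γ ^ p ^ n) c c]
      · rw [Module.End.one_apply, sub_self]
      · symm
        funext x
        rw [act_apply]
        set u := γ ^ p ^ n with hu
        have hu2 : ρ u = 1 := hO2 u (hO hn).2
        rw [hu2, Module.End.one_apply]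
        by_cases hx : x ∈ N
        · have h1 : u⁻¹ * x * u = x * (x⁻¹ * u⁻¹ * x * u) := by group
          have h2 : x⁻¹ * u⁻¹ * x * u ∈ O := by
            have h3 : x⁻¹ * u⁻¹ * x ∈ O := by
              have := hOn.conj_mem u⁻¹ (inv_mem hn) x⁻¹
              rwa [inv_inv] at this
            exact mul_mem h3 hn
          have h4 : x⁻¹ * u⁻¹ * x * u ∈ N := by
            have h5 : u⁻¹ * x * u ∈ N := by
              have := hN u⁻¹ x hx
              rwa [inv_inv] at this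
            have h6 : x⁻¹ * u⁻¹ * x * u = x⁻¹ * (u⁻¹ * x * u) := by group
            rw [h6]
            exact mul_mem (inv_mem hx) h5
          rw [h1, c2 x hx _ h4, c3 _ h4 (hO h2).1, map_zero, add_zero]
        · rw [c1 x hx, c1]
          intro h
          apply hx
          have h3 := hN u _ h
          have h2 : u * (u⁻¹ * x * u) * u⁻¹ = x := by group
          rwa [h2] at h3
  · intro n c c' hcc'
    rw [hT, LinearMap.sub_apply, opH_mk Ls ρ N hN hL (γ ^ p ^ n) c c' hcc']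
    rfl

end Pool.Agent.MuZ
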