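import Pool.Agent.Lib.MuZ.CSpec

/-!
# MuZ, module PL: the pro-`p` lift of the generator
-/

open scoped Pointwise

noncomputable section

namespace Pool.Agent.MuZ

namespace PLAux

variable {G : Type} [Group G] [TopologicalSpace G] [IsTopologicalGroup G]

/-- a set saturated by an open subgroup is closed -/
theorem closed_of_sat (O : OpenNormalSubgroup G) (A : Set G)
    (h : ∀ x ∈ A, ∀ y, x⁻¹ * y ∈ O.toSubgroup → y ∈ A) : IsClosed A := by
  rw [← isOpen_compl_iff, isOpen_iff_mem_nhds]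
  intro x hx
  have hO : IsOpen {y : G | x⁻¹ * y ∈ O.toSubgroup} :=
    O.isOpen'.preimage (continuous_const_mul x⁻¹)
  refine Filter.mem_of_superset (hO.mem_nhds (by simp)) ?_
  intro y hy hyA
  apply hx
  refine h y hyA x ?_
  have h1 := O.toSubgroup.inv_mem hy
  rwa [mul_inv_rev, inv_inv] at h1

omit [IsTopologicalGroup G] in
/-- powers modulo an open normal subgroup -/
theorem pow_sat (O : OpenNormalSubgroup G) {x y : G} (h : x⁻¹ * y ∈ O.toSubgroup) (n : ℕ)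
    (hx : x ^ n ∈ O.toSubgroup) : y ^ n ∈ O.toSubgroup := by
  have h1 : (x : G ⧸ O.toSubgroup) = (y : G ⧸ O.toSubgroup) := QuotientGroup.eq.2 h
  have h2 : ((x ^ n : G) : G ⧸ O.toSubgroup) = 1 := (QuotientGroup.eq_one_iff _).2 hx
  have h3 : ((y ^ n : G) : G ⧸ O.toSubgroup) = 1 := by
    rw [QuotientGroup.mk_pow, ← h1, ← QuotientGroup.mk_pow, h2]
  exact (QuotientGroup.eq_one_iff _).1 h3

theorem exists_nrm [CompactSpace G] [TotallyDisconnectedSpace G] (O : OpenSubgroup G) :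
    ∃ H : OpenNormalSubgroup G, ∀ x ∈ H.toSubgroup, x ∈ O := by
  obtain ⟨H, hH⟩ := ProfiniteGrp.exist_openNormalSubgroup_sub_open_nhds_of_one
    (U := (O : Set G)) O.isOpen' O.toSubgroup.one_mem
  exact ⟨H, fun x hx => hH hx⟩

/-- the intersection of the `N O` is `N` -/
theorem mem_of_forall [CompactSpace G] [TotallyDisconnectedSpace G] (N : Subgroup G)
    (hN : IsClosed (N : Set G)) (x : G)
    (h : ∀ O : OpenNormalSubgroup G, ∃ n ∈ N, n⁻¹ * x ∈ O.toSubgroup) : x ∈ N := by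
  by_contra hx
  have hU : IsOpen {y : G | x * y ∈ (N : Set G)ᶜ} := hN.isOpen_compl.preimage (continuous_const_mul x)
  obtain ⟨H, hH⟩ := ProfiniteGrp.exist_openNormalSubgroup_sub_open_nhds_of_one hU (by
    show x * 1 ∈ (N : Set G)ᶜ
    rw [mul_one]
    exact hx)
  obtain ⟨n, hn, hnx⟩ := h H
  have h1 := hH (H.toSubgroup.inv_mem hnx)
  have h2 : x * (n⁻¹ * x)⁻¹ ∈ (N : Set G)ᶜ := h1
  apply h2
  have h3 : x * (n⁻¹ * x)⁻¹ = n := by group
  rw [h3]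
  exact hn

/-- the arithmetic of the exponent -/
theorem exp_arith (p : ℕ) (hp : p.Prime) (o b : ℕ) (ho : 0 < o) :
    ∃ a s : ℕ, o ∣ (1 + p ^ b * s) * p ^ a := by
  obtain ⟨a, m, hm, hom⟩ := Nat.exists_eq_pow_mul_and_not_dvd ho.ne' p hp.ne_one
  have hm0 : 0 < m := by
    rcases Nat.eq_zero_or_pos m with h | h
    · rw [h] at hm
      exact absurd (dvd_zero p) hm
    · exact h
  have hcop : Nat.Coprime m (p ^ b) :=
    Nat.Prime.coprime_pow_of_not_dvd hp hm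
  have h1 := Nat.ModEq.pow_totient hcop
  have h2 : 1 ≤ m ^ (p ^ b).totient := Nat.one_le_pow _ _ hm0
  have h3 : p ^ b ∣ m ^ (p ^ b).totient - 1 := (Nat.modEq_iff_dvd' h2).1 h1.symm
  obtain ⟨s, hs⟩ := h3
  refine ⟨a, s, ?_⟩
  have h4 : 1 + p ^ b * s = m ^ (p ^ b).totient := by omega
  rw [h4, hom, mul_comm]
  have h5 : (p ^ b).totient ≠ 0 := by
    have := Nat.totient_pos.2 (pow_pos hp.pos b)
    omega
  exact Nat.mul_dvd_mul_right (dvd_pow_self m h5) (p ^ a)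

end PLAux

open PLAux

theorem c_PL : S_PL := by
  intro G _ _ _ _ _ _ p hpf Y N δ hq
  have hp : p.Prime := hpf.out
  -- the closed sets
  let C : OpenNormalSubgroup G → Set G := fun O =>
    {x | x ∈ Y ∧ (∃ a : ℕ, x ^ p ^ a ∈ O.toSubgroup) ∧ ∃ n ∈ N, n⁻¹ * (x * δ⁻¹) ∈ O.toSubgroup}
  have hclosed : ∀ O, IsClosed (C O) := by
    intro O
    have h1 : C O = (Y : Set G) ∩ {x | (∃ a : ℕ, x ^ p ^ a ∈ O.toSubgroup) ∧
        ∃ n ∈ N, n⁻¹ * (x * δ⁻¹) ∈ O.toSubgroup} := rfl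
    rw [h1]
    refine hq.cloY.inter (closed_of_sat O _ ?_)
    rintro x ⟨⟨a, ha⟩, n, hn, hnx⟩ y hxy
    refine ⟨⟨a, pow_sat O hxy _ ha⟩, n, hn, ?_⟩
    have h2 : n⁻¹ * (y * δ⁻¹) = (n⁻¹ * (x * δ⁻¹)) * (δ * (x⁻¹ * y) * δ⁻¹) := by group
    rw [h2]
    exact O.toSubgroup.mul_mem hnx (O.isNormal'.conj_mem _ hxy δ)
  have hmono : ∀ O O' : OpenNormalSubgroup G, O'.toSubgroup ≤ O.toSubgroup → C O' ⊆ C O := by
    rintro O O' hle x ⟨h1, ⟨a, h2⟩, n, hn, h3⟩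
    exact ⟨h1, ⟨a, hle h2⟩, n, hn, hle h3⟩
  have hdir : Directed (· ⊇ ·) C := by
    intro O O'
    refine ⟨O ⊓ O', hmono _ _ ?_, hmono _ _ ?_⟩
    · intro x hx
      exact (Subgroup.mem_inf.1 hx).1
    · intro x hx
      exact (Subgroup.mem_inf.1 hx).2
  have hne : ∀ O, (C O).Nonempty := by
    intro O
    obtain ⟨b, t, htN, htO⟩ := hq.quo δ hq.mem O.toOpenSubgroup
    have hfin : Finite (G ⧸ O.toSubgroup) := O.toSubgroup.quotient_finite_of_isOpen O.isOpen'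
    obtain ⟨a, s, has⟩ := exp_arith p hp (orderOf (δ : G ⧸ O.toSubgroup)) b (orderOf_pos _)
    refine ⟨δ ^ (1 + p ^ b * s), Y.pow_mem hq.mem _, ⟨a, ?_⟩, (t⁻¹) ^ s, N.pow_mem (N.inv_mem htN) _, ?_⟩
    · rw [← pow_mul, ← QuotientGroup.eq_one_iff, QuotientGroup.mk_pow]
      exact orderOf_dvd_iff_pow_eq_one.1 has
    · have h1 : δ ^ (1 + p ^ b * s) * δ⁻¹ = (δ ^ p ^ b) ^ s := by
        rw [← pow_mul, pow_add, pow_one]
        have h2 : δ * δ ^ (p ^ b * s) = δ ^ (p ^ b * s) * δ := by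
          rw [← pow_succ, ← pow_succ']
        rw [h2, mul_inv_cancel_right]
      rw [h1]
      have h3 : ((δ ^ p ^ b : G) : G ⧸ O.toSubgroup) = ((t⁻¹ : G) : G ⧸ O.toSubgroup) := by
        have h4 : ((δ ^ p ^ b * t : G) : G ⧸ O.toSubgroup) = 1 := (QuotientGroup.eq_one_iff _).2 htO
        rw [QuotientGroup.mk_mul] at h4
        rw [QuotientGroup.mk_inv]
        exact eq_inv_of_mul_eq_one_left h4
      have h5 : (((t⁻¹) ^ s : G) : G ⧸ O.toSubgroup) = (((δ ^ p ^ b) ^ s : G) : G ⧸ O.toSubgroup) := by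
        rw [QuotientGroup.mk_pow, QuotientGroup.mk_pow, h3]
      exact QuotientGroup.eq.1 h5
  have : Nonempty (OpenNormalSubgroup G) := by
    obtain ⟨H, _⟩ := exists_nrm (⊤ : OpenSubgroup G)
    exact ⟨H⟩
  obtain ⟨γ, hγ⟩ := IsCompact.nonempty_iInter_of_directed_nonempty_isCompact_isClosed C hdir hne
    (fun O => (hclosed O).isCompact) hclosed
  rw [Set.mem_iInter] at hγ
  have hγY : γ ∈ Y := (hγ this.some).1
  have hn0 : γ * δ⁻¹ ∈ N := mem_of_forall N hq.cloN _ fun O => (hγ O).2.2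
  -- γ ^ j and δ ^ j agree modulo N
  have hpow : ∀ j : ℕ, (γ ^ j)⁻¹ * δ ^ j ∈ N := by
    intro j
    induction j with
    | zero => simp
    | succ j ih =>
      have h1 : (γ ^ (j + 1))⁻¹ * δ ^ (j + 1) =
          (γ⁻¹ * ((γ ^ j)⁻¹ * δ ^ j) * γ⁻¹⁻¹) * (γ⁻¹ * (γ * δ⁻¹)⁻¹ * γ⁻¹⁻¹) := by
        rw [pow_succ, pow_succ]
        group
      rw [h1]
      exact N.mul_mem (hq.nrm _ (Y.inv_mem hγY) _ ih) (hq.nrm _ (Y.inv_mem hγY) _ (N.inv_mem hn0))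
  refine ⟨γ, ⟨⟨hγY, hq.le, hq.nrm, hq.cloY, hq.cloN, ?_, hq.quo, ?_⟩, ?_⟩⟩
  · intro y hy O
    obtain ⟨j, t, ht, hO⟩ := hq.gen y hy O
    refine ⟨j, ((γ ^ j)⁻¹ * δ ^ j) * t, N.mul_mem (hpow j) ht, ?_⟩
    have h1 : y⁻¹ * γ ^ j * (((γ ^ j)⁻¹ * δ ^ j) * t) = y⁻¹ * δ ^ j * t := by group
    rw [h1]
    exact hO
  · intro m hm hγm
    apply hq.inf m hm
    have h1 : δ ^ m = γ ^ m * ((γ ^ m)⁻¹ * δ ^ m) := by group
    rw [h1]
    exact N.mul_mem hγm (hpow m)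
  · intro O
    obtain ⟨H, hH⟩ := exists_nrm O
    obtain ⟨a, ha⟩ := (hγ H).2.1
    exact ⟨a, hH _ ha⟩

end Pool.Agent.MuZ
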