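import Pool.Agent.Lib.MuZ.CSpec

set_option autoImplicit false

namespace Pool.Agent.MuZ

namespace PcAux

variable {G : Type} [Group G] [TopologicalSpace G] [IsTopologicalGroup G]

theorem isOpen_of_sat (O : OpenSubgroup G) (S : Set G) (h : ∀ x ∈ S, ∀ o ∈ O, x * o ∈ S) :
    IsOpen S := by
  rw [isOpen_iff_mem_nhds]
  intro x hx
  have h1 : IsOpen ((fun g => x⁻¹ * g) ⁻¹' (O : Set G)) :=
    O.isOpen.preimage (continuous_const_mul x⁻¹)
  refine Filter.mem_of_superset (h1.mem_nhds ?_) ?_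
  · change x⁻¹ * x ∈ (O : Set G)
    rw [inv_mul_cancel]
    exact O.one_mem
  · intro g hg
    have : x * (x⁻¹ * g) ∈ S := h x hx _ hg
    rwa [mul_inv_cancel_left] at this

theorem isClosed_of_sat (O : OpenSubgroup G) (S : Set G) (h : ∀ x ∈ S, ∀ o ∈ O, x * o ∈ S) :
    IsClosed S := by
  rw [← isOpen_compl_iff]
  refine isOpen_of_sat O _ fun x hx o ho hxo => hx ?_
  have := h _ hxo o⁻¹ (O.inv_mem ho)
  rwa [mul_inv_cancel_right] at this

theorem exists_normal [CompactSpace G] [TotallyDisconnectedSpace G] [T2Space G]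
    (O : OpenSubgroup G) : ∃ O' : OpenSubgroup G, (O' : Subgroup G).Normal ∧ O' ≤ O := by
  obtain ⟨H, hH⟩ := IsTopologicalGroup.exist_openNormalSubgroup_sub_clopen_nhds_of_one
    (W := (O : Set G)) O.isClopen O.one_mem
  exact ⟨H.toOpenSubgroup, H.isNormal', hH⟩

theorem inter_nonempty [CompactSpace G] (C : OpenSubgroup G → Set G)
    (hcl : ∀ O : OpenSubgroup G, (O : Subgroup G).Normal → IsClosed (C O))
    (hne : ∀ O : OpenSubgroup G, (O : Subgroup G).Normal → (C O).Nonempty)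
    (hmono : ∀ O O' : OpenSubgroup G, O ≤ O' → C O ⊆ C O') :
    ∃ x, ∀ O : OpenSubgroup G, (O : Subgroup G).Normal → x ∈ C O := by
  haveI : Nonempty {O : OpenSubgroup G // (O : Subgroup G).Normal} :=
    ⟨⟨⊤, by
      rw [OpenSubgroup.toSubgroup_top]
      infer_instance⟩⟩
  have h := IsCompact.nonempty_iInter_of_directed_nonempty_isCompact_isClosed
    (fun O : {O : OpenSubgroup G // (O : Subgroup G).Normal} => C O.1)
    (fun O1 O2 => ⟨⟨O1.1 ⊓ O2.1, by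
        haveI := O1.2
        haveI := O2.2
        rw [OpenSubgroup.toSubgroup_inf]
        infer_instance⟩,
      hmono _ _ inf_le_left, hmono _ _ inf_le_right⟩)
    (fun O => hne O.1 O.2) (fun O => (hcl O.1 O.2).isCompact) (fun O => hcl O.1 O.2)
  obtain ⟨x, hx⟩ := h
  exact ⟨x, fun O hO => Set.mem_iInter.1 hx ⟨O, hO⟩⟩

/-- `⋂ N O = N` -/
theorem mem_of_forall [CompactSpace G] [TotallyDisconnectedSpace G] [T2Space G]
    (N : Subgroup G) (hN : IsClosed (N : Set G)) (x : G)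
    (h : ∀ O : OpenSubgroup G, (O : Subgroup G).Normal → ∃ n ∈ N, n⁻¹ * x ∈ O) : x ∈ N := by
  by_contra hx
  have h2 : IsOpen ((fun g => x * g) ⁻¹' ((N : Set G)ᶜ)) :=
    hN.isOpen_compl.preimage (continuous_const_mul x)
  have h3 : (1 : G) ∈ (fun g => x * g) ⁻¹' ((N : Set G)ᶜ) := by
    change x * 1 ∈ (N : Set G)ᶜ
    rw [mul_one]
    exact hx
  obtain ⟨H, hH⟩ := ProfiniteGrp.exist_openNormalSubgroup_sub_open_nhds_of_one h2 h3
  obtain ⟨n, hn, hnO⟩ := h H.toOpenSubgroup H.isNormal'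
  have h4 : (n⁻¹ * x)⁻¹ ∈ (H.toOpenSubgroup : Set G) := H.toOpenSubgroup.inv_mem hnO
  have h5 := hH h4
  apply h5
  have : x * (n⁻¹ * x)⁻¹ = n := by group
  change x * (n⁻¹ * x)⁻¹ ∈ (N : Set G)
  rw [this]
  exact hn

theorem pow_coset (O : Subgroup G) (hO : O.Normal) (x o : G) (ho : o ∈ O) (j : ℕ) :
    ∃ o' ∈ O, (x * o) ^ j = x ^ j * o' := by
  induction j with
  | zero => exact ⟨1, O.one_mem, by simp⟩
  | succ j ih =>
    obtain ⟨o', ho', he⟩ := ih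
    refine ⟨x⁻¹ * o' * x * o, O.mul_mem ?_ ho, ?_⟩
    · have := hO.conj_mem o' ho' x⁻¹
      rwa [inv_inv] at this
    · rw [pow_succ, he, pow_succ]
      group

theorem nonempty [CompactSpace G] (p : ℕ) (Y N : Subgroup G) (δ : G) (hG : Gq p Y N δ)
    (Λ : Subgroup G) (hΛ : Λ ≤ Y) (O : OpenSubgroup G) (hO : (O : Subgroup G).Normal) :
    ∃ x ∈ Λ, ∀ y ∈ Λ, ∃ j : ℕ, ∃ t ∈ N, y⁻¹ * x ^ j * t ∈ O := by
  haveI := hO
  -- the subgroup `N O` of `Y`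
  let H : Subgroup Y := (N ⊔ (O : Subgroup G)).subgroupOf Y
  have hmem : ∀ g : G, g ∈ N ⊔ (O : Subgroup G) ↔ ∃ t ∈ N, g * t ∈ O := by
    intro g
    rw [Subgroup.mem_sup_of_normal_right]
    constructor
    · rintro ⟨n, hn, o, ho, rfl⟩
      refine ⟨n⁻¹, N.inv_mem hn, ?_⟩
      exact hO.conj_mem o ho n
    · rintro ⟨t, ht, hgt⟩
      refine ⟨t⁻¹, N.inv_mem ht, t * g, ?_, by group⟩
      have := hO.conj_mem _ hgt t
      have h2 : t * (g * t) * t⁻¹ = t * g := by group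
      rw [h2] at this
      exact this
  haveI hHn : H.Normal := by
    constructor
    intro n hn g
    rw [Subgroup.mem_subgroupOf] at hn ⊢
    rw [hmem] at hn ⊢
    obtain ⟨t, ht, hnt⟩ := hn
    refine ⟨g * t * g⁻¹, hG.nrm _ g.2 t ht, ?_⟩
    have := hO.conj_mem _ hnt g
    have h2 : ((g * n * g⁻¹ : Y) : G) * (g * t * g⁻¹) = g * (n * t) * g⁻¹ := by
      push_cast
      group
    rw [h2]
    exact this
  haveI hfin : Finite (Y ⧸ H) := by
    have h1 : Finite (G ⧸ (O : Subgroup G)) :=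
      Subgroup.quotient_finite_of_isOpen _ O.isOpen
    have h2 : (O : Subgroup G).FiniteIndex := Subgroup.finiteIndex_of_finite_quotient
    have h3 : (N ⊔ (O : Subgroup G)).FiniteIndex := Subgroup.finiteIndex_of_le le_sup_right
    haveI h4 : H.FiniteIndex := by
      change ((N ⊔ (O : Subgroup G)).subgroupOf Y).FiniteIndex
      infer_instance
    exact Subgroup.finite_quotient_of_finiteIndex
  haveI hcyc : IsCyclic (Y ⧸ H) := by
    refine ⟨⟨(QuotientGroup.mk (⟨δ, hG.mem⟩ : Y) : Y ⧸ H), ?_⟩⟩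
    intro q
    obtain ⟨y, rfl⟩ := QuotientGroup.mk_surjective q
    obtain ⟨j, t, ht, h⟩ := hG.gen y y.2 O
    refine ⟨(j : ℤ), ?_⟩
    change (QuotientGroup.mk (⟨δ, hG.mem⟩ : Y) : Y ⧸ H) ^ (j : ℤ) = QuotientGroup.mk y
    rw [zpow_natCast, ← QuotientGroup.mk_pow]
    symm
    rw [QuotientGroup.eq, Subgroup.mem_subgroupOf, hmem]
    exact ⟨t, ht, by simpa using h⟩
  let L : Subgroup (Y ⧸ H) := (Λ.subgroupOf Y).map (QuotientGroup.mk' H)
  haveI hL : IsCyclic L := inferInstance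
  obtain ⟨⟨g, hg⟩, hgen⟩ := hL.exists_generator
  obtain ⟨x, hx, rfl⟩ := hg
  rw [SetLike.mem_coe, Subgroup.mem_subgroupOf] at hx
  refine ⟨x, hx, fun y hy => ?_⟩
  have hyL : QuotientGroup.mk' H ⟨y, hΛ hy⟩ ∈ L :=
    ⟨⟨y, hΛ hy⟩, by rw [SetLike.mem_coe, Subgroup.mem_subgroupOf]; exact hy, rfl⟩
  have h1 := hgen ⟨_, hyL⟩
  rw [← mem_powers_iff_mem_zpowers] at h1
  obtain ⟨j, hj⟩ := h1
  have h2 : (QuotientGroup.mk' H x) ^ j = QuotientGroup.mk' H ⟨y, hΛ hy⟩ := by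
    have := congrArg Subtype.val hj
    simpa using this
  refine ⟨j, ?_⟩
  rw [← hmem]
  rw [← map_pow] at h2
  have h3 := (QuotientGroup.eq (s := H)).1 h2.symm
  rw [Subgroup.mem_subgroupOf] at h3
  simpa using h3

end PcAux

open PcAux in
theorem c_Pc : S_Pc := by
  intro G _ _ _ _ _ _ p Y N δ hG Λ hΛ hΛc
  -- first compactness argument
  obtain ⟨δ', hδ'⟩ := inter_nonempty
    (fun O => {x | x ∈ Λ ∧ ∀ y ∈ Λ, ∃ j : ℕ, ∃ t ∈ N, y⁻¹ * x ^ j * t ∈ O})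
    (fun O hO => by
      refine hΛc.inter (isClosed_of_sat O _ ?_)
      intro x hx o ho y hy
      obtain ⟨j, t, ht, h⟩ := hx y hy
      obtain ⟨o', ho', he⟩ := pow_coset (O : Subgroup G) hO x o ho j
      refine ⟨j, t, ht, ?_⟩
      rw [he]
      have h2 : y⁻¹ * (x ^ j * o') * t = (y⁻¹ * x ^ j * t) * (t⁻¹ * o' * t) := by group
      rw [h2]
      refine O.mul_mem h ?_
      have := hO.conj_mem o' ho' t⁻¹
      rwa [inv_inv] at this)
    (fun O hO => by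
      obtain ⟨x, hx, h⟩ := PcAux.nonempty p Y N δ hG Λ hΛ O hO
      exact ⟨x, hx, h⟩)
    (fun O O' hOO x hx => ⟨hx.1, fun y hy => by
      obtain ⟨j, t, ht, h⟩ := hx.2 y hy
      exact ⟨j, t, ht, hOO h⟩⟩)
  have hδΛ : δ' ∈ Λ := (hδ' ⊤ (by
    rw [OpenSubgroup.toSubgroup_top]
    infer_instance)).1
  refine ⟨δ', hδΛ, fun y hy O₀ => ?_⟩
  obtain ⟨O, hO, hOO⟩ := exists_normal O₀
  -- second compactness argument
  obtain ⟨x, hx⟩ := inter_nonempty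
    (fun O' => {x | x ∈ Λ ∧ (∃ n ∈ N, n⁻¹ * x ∈ O') ∧ ∃ j : ℕ, (y⁻¹ * δ' ^ j)⁻¹ * x ∈ O})
    (fun O' hO' => by
      refine hΛc.inter (IsClosed.inter (isClosed_of_sat O' _ ?_) (isClosed_of_sat O _ ?_))
      · rintro x ⟨n, hn, h⟩ o ho
        exact ⟨n, hn, by rw [← mul_assoc]; exact O'.mul_mem h ho⟩
      · rintro x ⟨j, h⟩ o ho
        exact ⟨j, by rw [← mul_assoc]; exact O.mul_mem h ho⟩)
    (fun O' hO' => by
      obtain ⟨j, t, ht, h⟩ := (hδ' O' hO').2 y hy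
      refine ⟨y⁻¹ * δ' ^ j, Λ.mul_mem (Λ.inv_mem hy) (Λ.pow_mem hδΛ j), ⟨t⁻¹, N.inv_mem ht, ?_⟩,
        j, ?_⟩
      · have := hO'.conj_mem _ h t
        have h2 : t * (y⁻¹ * δ' ^ j * t) * t⁻¹ = t⁻¹⁻¹ * (y⁻¹ * δ' ^ j) := by group
        rw [h2] at this
        exact this
      · rw [inv_mul_cancel]
        exact O.one_mem)
    (fun O1 O2 h12 x hx => ⟨hx.1, by
      obtain ⟨n, hn, h⟩ := hx.2.1
      exact ⟨n, hn, h12 h⟩, hx.2.2⟩)
  have hxN : x ∈ N := mem_of_forall N hG.cloN x fun O' hO' => (hx O' hO').2.1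
  obtain ⟨hxΛ, -, j, hj⟩ := hx O hO
  refine ⟨j, x⁻¹, ⟨Λ.inv_mem hxΛ, N.inv_mem hxN⟩, hOO ?_⟩
  have h1 := hO.conj_mem _ (O.inv_mem hj) x
  have h2 : x * ((y⁻¹ * δ' ^ j)⁻¹ * x)⁻¹ * x⁻¹ = y⁻¹ * δ' ^ j * x⁻¹ := by group
  rw [h2] at h1
  exact h1

end Pool.Agent.MuZ
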