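import Pool.Agent.Lib.MuZ.Spec

/-!
# Restriction of characters (S_Res)
-/

open scoped Pointwise

noncomputable section

namespace Pool.Agent.MuZ

theorem res : S_Res := by
  classical
  intro G _ _ _ _ p _ Ls U W O hUW hO hfin
  have hq : Finite (G ⧸ (O : Subgroup G)) := Subgroup.quotient_finite_of_isOpen _ O.isOpen
  have hz : Finite (ZMod p) := inferInstance
  have hs : ∀ q : G ⧸ (O : Subgroup G), ∃ t : G, (∃ w ∈ W, (QuotientGroup.mk w : G ⧸ (O : Subgroup G)) = q) →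
      t ∈ W ∧ (QuotientGroup.mk t : G ⧸ (O : Subgroup G)) = q := by
    intro q
    by_cases h : ∃ w ∈ W, (QuotientGroup.mk w : G ⧸ (O : Subgroup G)) = q
    · obtain ⟨w, hw⟩ := h
      exact ⟨w, fun _ => hw⟩
    · exact ⟨1, fun h' => absurd h' h⟩
  choose s hs using hs
  have hr : ∀ f ∈ VV p Ls W, (fun g => if g ∈ U then f g else 0) ∈ VV p Ls U := by
    rintro f ⟨f1, f2, ⟨O', f3⟩, f4⟩
    refine ⟨fun g hg => if_neg hg, fun g hg h hh => ?_, ⟨O', fun g hg hgO => ?_⟩, fun Λ hΛ g hg hgU => ?_⟩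
    · simp only [if_pos hg, if_pos hh, if_pos (U.mul_mem hg hh)]
      exact f2 g (hUW hg) h (hUW hh)
    · simp only [if_pos hg]
      exact f3 g (hUW hg) hgO
    · simp only [if_pos hgU]
      exact f4 Λ hΛ g hg (hUW hgU)
  let Φ : VV p Ls W → VV p Ls U × (G ⧸ (O : Subgroup G) → ZMod p) :=
    fun f => (⟨_, hr f.1 f.2⟩, fun q => f.1 (s q))
  refine Finite.of_injective Φ ?_
  rintro ⟨f, hf⟩ ⟨f', hf'⟩ h
  have h1 : (fun g => if g ∈ U then f g else 0) = fun g => if g ∈ U then f' g else 0 :=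
    congrArg (fun x => (x.1 : VV p Ls U).1) h
  have h2 : (fun q => f (s q)) = fun q => f' (s q) := congrArg (fun x => x.2) h
  apply Subtype.ext
  funext g
  change f g = f' g
  by_cases hg : g ∈ W
  · obtain ⟨ht, htq⟩ := hs (QuotientGroup.mk g) ⟨g, hg, rfl⟩
    set t := s (QuotientGroup.mk g) with htdef
    have h3 : t⁻¹ * g ∈ (O : Subgroup G) := QuotientGroup.eq.1 htq
    have h4 : t⁻¹ * g ∈ W := W.mul_mem (W.inv_mem ht) hg
    have h5 : t⁻¹ * g ∈ U := hO ⟨h4, h3⟩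
    have h6 : f (t⁻¹ * g) = f' (t⁻¹ * g) := by
      have := congrFun h1 (t⁻¹ * g)
      simpa only [if_pos h5] using this
    have h7 : f t = f' t := congrFun h2 (QuotientGroup.mk g)
    have h8 : g = t * (t⁻¹ * g) := by group
    rw [h8, hf.2.1 t ht _ h4, hf'.2.1 t ht _ h4, h6, h7]
  · rw [hf.1 g hg, hf'.1 g hg]

end Pool.Agent.MuZ
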