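import Pool.Agent.Lib.MuZ.CSpec

/-!
# S_Semi: extension of homomorphisms
-/

open scoped Pointwise

noncomputable section

namespace Pool.Agent.MuZ

namespace SemiAux

variable {G : Type} [Group G] {A : Type} [Group A]

/-- the data of the abstract part: `N` is normalised by the powers of `γ` -/
structure Dat (N : Subgroup G) (γ : G) (h : G → A) (a : A) : Prop where
  nr : ∀ x ∈ N, γ * x * γ⁻¹ ∈ N
  nr' : ∀ x ∈ N, γ⁻¹ * x * γ ∈ N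
  mul : ∀ x ∈ N, ∀ y ∈ N, h (x * y) = h x * h y
  conj : ∀ x ∈ N, h (γ * x * γ⁻¹) = a * h x * a⁻¹

variable {N : Subgroup G} {γ : G} {h : G → A} {a : A}

theorem Dat.one (D : Dat N γ h a) : h 1 = 1 := by
  have e := D.mul 1 N.one_mem 1 N.one_mem
  rw [mul_one] at e
  exact left_eq_mul.1 e

theorem Dat.inv (D : Dat N γ h a) {x : G} (hx : x ∈ N) : h x⁻¹ = (h x)⁻¹ := by
  have e := D.mul x⁻¹ (N.inv_mem hx) x hx
  rw [inv_mul_cancel, D.one] at e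
  exact eq_inv_of_mul_eq_one_left e.symm

theorem Dat.pmem (D : Dat N γ h a) (m : ℕ) {x : G} (hx : x ∈ N) : γ ^ m * x * (γ ^ m)⁻¹ ∈ N := by
  induction m with
  | zero => simpa using hx
  | succ m ih =>
    have e : γ ^ (m + 1) * x * (γ ^ (m + 1))⁻¹ = γ * (γ ^ m * x * (γ ^ m)⁻¹) * γ⁻¹ := by
      rw [pow_succ']
      group
    rw [e]
    exact D.nr _ ih

theorem Dat.pmem' (D : Dat N γ h a) (m : ℕ) {x : G} (hx : x ∈ N) : (γ ^ m)⁻¹ * x * γ ^ m ∈ N := by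
  induction m with
  | zero => simpa using hx
  | succ m ih =>
    have e : (γ ^ (m + 1))⁻¹ * x * γ ^ (m + 1) = γ⁻¹ * ((γ ^ m)⁻¹ * x * γ ^ m) * γ := by
      rw [pow_succ]
      group
    rw [e]
    exact D.nr' _ ih

theorem Dat.pconj (D : Dat N γ h a) (m : ℕ) {x : G} (hx : x ∈ N) :
    h (γ ^ m * x * (γ ^ m)⁻¹) = a ^ m * h x * (a ^ m)⁻¹ := by
  induction m with
  | zero => simp
  | succ m ih =>
    have e : γ ^ (m + 1) * x * (γ ^ (m + 1))⁻¹ = γ * (γ ^ m * x * (γ ^ m)⁻¹) * γ⁻¹ := by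
      rw [pow_succ']
      group
    rw [e, D.conj _ (D.pmem m hx), ih, pow_succ']
    group

theorem Dat.pconj' (D : Dat N γ h a) (m : ℕ) {x : G} (hx : x ∈ N) :
    h ((γ ^ m)⁻¹ * x * γ ^ m) = (a ^ m)⁻¹ * h x * a ^ m := by
  have e := D.pconj m (D.pmem' m hx)
  have e2 : γ ^ m * ((γ ^ m)⁻¹ * x * γ ^ m) * (γ ^ m)⁻¹ = x := by group
  rw [e2] at e
  rw [e]
  group

/-- well defined, one direction -/
theorem Dat.wd1 (D : Dat N γ h a) {O : Subgroup G}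
    (key : ∀ m : ℕ, ∀ x ∈ N, γ ^ m * x ∈ O → a ^ m * h x = 1) {y : G} {m d : ℕ} {x x' : G}
    (hx : x ∈ N) (hx' : x' ∈ N) (ho : y⁻¹ * γ ^ m * x ∈ O) (ho' : y⁻¹ * γ ^ (m + d) * x' ∈ O) :
    a ^ m * h x = a ^ (m + d) * h x' := by
  have h1 : (y⁻¹ * γ ^ m * x)⁻¹ * (y⁻¹ * γ ^ (m + d) * x') ∈ O := O.mul_mem (O.inv_mem ho) ho'
  have e1 : (y⁻¹ * γ ^ m * x)⁻¹ * (y⁻¹ * γ ^ (m + d) * x') =
      γ ^ d * ((γ ^ d)⁻¹ * x⁻¹ * γ ^ d * x') := by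
    rw [pow_add]
    group
  rw [e1] at h1
  have hxi : x⁻¹ ∈ N := N.inv_mem hx
  have k := key d _ (N.mul_mem (D.pmem' d hxi) hx') h1
  rw [D.mul _ (D.pmem' d hxi) _ hx', D.pconj' d hxi, D.inv hx] at k
  have e2 : (h x)⁻¹ * (a ^ d * h x') = 1 := by
    rw [← k]
    group
  have e3 : h x = a ^ d * h x' := (inv_mul_eq_one.1 e2)
  rw [e3, pow_add]
  group

theorem Dat.wd (D : Dat N γ h a) {O : Subgroup G}
    (key : ∀ m : ℕ, ∀ x ∈ N, γ ^ m * x ∈ O → a ^ m * h x = 1) {y : G} {m m' : ℕ} {x x' : G}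
    (hx : x ∈ N) (hx' : x' ∈ N) (ho : y⁻¹ * γ ^ m * x ∈ O) (ho' : y⁻¹ * γ ^ m' * x' ∈ O) :
    a ^ m * h x = a ^ m' * h x' := by
  rcases Nat.le_total m m' with hm | hm
  · obtain ⟨d, rfl⟩ := Nat.exists_eq_add_of_le hm
    exact D.wd1 key hx hx' ho ho'
  · obtain ⟨d, rfl⟩ := Nat.exists_eq_add_of_le hm
    exact (D.wd1 key hx' hx ho' ho).symm

/-- the extension -/
def ex (N : Subgroup G) (γ : G) (h : G → A) (a : A) (O : Subgroup G) (y : G) : A := by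
  classical
  exact if hy : ∃ q : ℕ × G, q.2 ∈ N ∧ y⁻¹ * γ ^ q.1 * q.2 ∈ O then
    a ^ (Classical.choose hy).1 * h (Classical.choose hy).2 else 1

theorem Dat.ex_eq (D : Dat N γ h a) {O : Subgroup G}
    (key : ∀ m : ℕ, ∀ x ∈ N, γ ^ m * x ∈ O → a ^ m * h x = 1) {y : G} {m : ℕ} {x : G}
    (hx : x ∈ N) (ho : y⁻¹ * γ ^ m * x ∈ O) : ex N γ h a O y = a ^ m * h x := by
  classical
  have hy : ∃ q : ℕ × G, q.2 ∈ N ∧ y⁻¹ * γ ^ q.1 * q.2 ∈ O := ⟨(m, x), hx, ho⟩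
  unfold ex
  rw [dif_pos hy]
  exact D.wd key (Classical.choose_spec hy).1 hx (Classical.choose_spec hy).2 ho

theorem Dat.ex_mul (D : Dat N γ h a) {O : Subgroup G} (hO : ∀ o ∈ O, ∀ g : G, g * o * g⁻¹ ∈ O)
    (key : ∀ m : ℕ, ∀ x ∈ N, γ ^ m * x ∈ O → a ^ m * h x = 1) {y y' : G} {m m' : ℕ} {x x' : G}
    (hx : x ∈ N) (hx' : x' ∈ N) (ho : y⁻¹ * γ ^ m * x ∈ O) (ho' : y'⁻¹ * γ ^ m' * x' ∈ O) :
    ex N γ h a O (y * y') = ex N γ h a O y * ex N γ h a O y' := by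
  have hx2 : (γ ^ m')⁻¹ * x * γ ^ m' * x' ∈ N := N.mul_mem (D.pmem' m' hx) hx'
  have ho2 : (y * y')⁻¹ * γ ^ (m + m') * ((γ ^ m')⁻¹ * x * γ ^ m' * x') ∈ O := by
    have h1 : y'⁻¹ * (y⁻¹ * γ ^ m * x) * y'⁻¹⁻¹ ∈ O := hO _ ho y'⁻¹
    have h2 := O.mul_mem h1 ho'
    have e : (y * y')⁻¹ * γ ^ (m + m') * ((γ ^ m')⁻¹ * x * γ ^ m' * x') =
        y'⁻¹ * (y⁻¹ * γ ^ m * x) * y'⁻¹⁻¹ * (y'⁻¹ * γ ^ m' * x') := by
      rw [pow_add]
      group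
    rw [e]
    exact h2
  rw [D.ex_eq key hx2 ho2, D.ex_eq key hx ho, D.ex_eq key hx' ho', D.mul _ (D.pmem' m' hx) _ hx',
    D.pconj' m' hx, pow_add]
  group

end SemiAux

theorem c_Semi : S_Semi := by
  intro hVal G _ _ _ _ _ _ p _ Y N γ Z A _ h a hmul ⟨O₀, hO₀⟩ ⟨e, he⟩ hconj
  have hγ : γ ∈ Y := Z.mem
  have D : SemiAux.Dat N γ h a := by
    refine ⟨fun x hx => Z.nrm γ hγ x hx, fun x hx => ?_, hmul, hconj⟩
    have := Z.nrm γ⁻¹ (Y.inv_mem hγ) x hx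
    rwa [inv_inv] at this
  -- the open normal subgroup on which `h` is trivial
  obtain ⟨O1, hO1⟩ := ProfiniteGrp.exist_openNormalSubgroup_sub_open_nhds_of_one
    O₀.isOpen' (show (1 : G) ∈ (O₀ : Set G) from O₀.one_mem)
  obtain ⟨a0, ha0⟩ := Z.pro O1.toOpenSubgroup
  set w := max e a0 with hw
  have hγw : γ ^ p ^ w ∈ O1.toOpenSubgroup := by
    obtain ⟨d, hd⟩ := Nat.exists_eq_add_of_le (le_max_right e a0)
    rw [← hw] at hd
    rw [hd, pow_add, pow_mul]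
    exact O1.toOpenSubgroup.toSubgroup.pow_mem ha0 _
  have haw : a ^ p ^ w = 1 := by
    obtain ⟨d, hd⟩ := Nat.exists_eq_add_of_le (le_max_left e a0)
    rw [← hw] at hd
    rw [hd, pow_add, pow_mul, he, one_pow]
  obtain ⟨O2, hO2⟩ := hVal G p Y N γ Z w
  obtain ⟨O, hO⟩ := ProfiniteGrp.exist_openNormalSubgroup_sub_open_nhds_of_one
    (U := ((O1.toOpenSubgroup ⊓ O2 : OpenSubgroup G) : Set G))
    (O1.toOpenSubgroup ⊓ O2 : OpenSubgroup G).isOpen'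
    (show (1 : G) ∈ ((O1.toOpenSubgroup ⊓ O2 : OpenSubgroup G) : Set G) from
      (O1.toOpenSubgroup ⊓ O2 : OpenSubgroup G).one_mem)
  have hOn : ∀ o ∈ O.toOpenSubgroup.toSubgroup, ∀ g : G, g * o * g⁻¹ ∈ O.toOpenSubgroup.toSubgroup :=
    fun o ho g => O.isNormal'.conj_mem o ho g
  have hOO1 : ∀ o ∈ O.toOpenSubgroup.toSubgroup, o ∈ O1.toOpenSubgroup.toSubgroup := fun o ho =>
    (hO (show o ∈ (O : Set G) from ho)).1
  have hOO2 : ∀ o ∈ O.toOpenSubgroup.toSubgroup, o ∈ O2 := fun o ho =>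
    (hO (show o ∈ (O : Set G) from ho)).2
  have key : ∀ m : ℕ, ∀ x ∈ N, γ ^ m * x ∈ O.toOpenSubgroup.toSubgroup → a ^ m * h x = 1 := by
    intro m x hx hmx
    obtain ⟨i, rfl⟩ := hO2 m x hx (hOO2 _ hmx)
    have h1 : γ ^ (p ^ w * i) ∈ O1.toOpenSubgroup.toSubgroup := by
      rw [pow_mul]
      exact O1.toOpenSubgroup.toSubgroup.pow_mem hγw i
    have h2 : x ∈ O1.toOpenSubgroup.toSubgroup :=
      (Subgroup.mul_mem_cancel_left _ h1).1 (hOO1 _ hmx)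
    rw [pow_mul, haw, one_pow, one_mul]
    exact hO₀ x hx (hO1 (show x ∈ (O1 : Set G) from h2))
  refine ⟨SemiAux.ex N γ h a O.toOpenSubgroup.toSubgroup, ?_, ⟨O.toOpenSubgroup, ?_⟩, ?_, ?_⟩
  · intro x hx y hy
    obtain ⟨m, t, ht, ho⟩ := Z.gen x hx O.toOpenSubgroup
    obtain ⟨m', t', ht', ho'⟩ := Z.gen y hy O.toOpenSubgroup
    exact D.ex_mul hOn key ht ht' ho ho'
  · intro x _ hxO
    rw [D.ex_eq key (m := 0) (x := 1) N.one_mem (by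
      rw [pow_zero, mul_one, mul_one]
      exact O.toOpenSubgroup.toSubgroup.inv_mem hxO), pow_zero, one_mul, D.one]
  · intro x hx
    rw [D.ex_eq key (m := 0) (x := x) hx (by
      rw [pow_zero, mul_one, inv_mul_cancel]
      exact O.toOpenSubgroup.toSubgroup.one_mem), pow_zero, one_mul]
  · rw [D.ex_eq key (m := 1) (x := 1) N.one_mem (by
      rw [pow_one, mul_one, inv_mul_cancel]
      exact O.toOpenSubgroup.toSubgroup.one_mem), pow_one, D.one, mul_one]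

end Pool.Agent.MuZ
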