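import Pool.Agent.Lib.MuZ.Spec

/-!
# Composita of admissible extensions
-/

open scoped Pointwise

noncomputable section

namespace Pool.Agent.MuZ

/-- The elements on which two automorphisms agree. -/
private def Sup_eq (f g : Gal(Om/ℚ)) : IntermediateField ℚ Om where
  carrier := {x | f x = g x}
  mul_mem' := by
    intro a b ha hb
    change f (a * b) = g (a * b)
    rw [map_mul, map_mul, show f a = g a from ha, show f b = g b from hb]
  one_mem' := by
    change f 1 = g 1
    rw [map_one, map_one]
  add_mem' := by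
    intro a b ha hb
    change f (a + b) = g (a + b)
    rw [map_add, map_add, show f a = g a from ha, show f b = g b from hb]
  zero_mem' := by
    change f 0 = g 0
    rw [map_zero, map_zero]
  algebraMap_mem' := by
    intro r
    change f _ = g _
    rw [f.commutes, g.commutes]
  inv_mem' := by
    intro a ha
    change f a⁻¹ = g a⁻¹
    rw [map_inv₀, map_inv₀, show f a = g a from ha]

/-- The elements which `f` maps into `N`. -/
private def Sup_co (f : Gal(Om/ℚ)) (N : IntermediateField ℚ Om) : IntermediateField ℚ Om where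
  carrier := {x | f x ∈ N}
  mul_mem' := by
    intro a b ha hb
    change f (a * b) ∈ N
    rw [map_mul]
    exact N.mul_mem ha hb
  one_mem' := by
    change f 1 ∈ N
    rw [map_one]
    exact N.one_mem
  add_mem' := by
    intro a b ha hb
    change f (a + b) ∈ N
    rw [map_add]
    exact N.add_mem ha hb
  zero_mem' := by
    change f 0 ∈ N
    rw [map_zero]
    exact N.zero_mem
  algebraMap_mem' := by
    intro r
    change f _ ∈ N
    rw [f.commutes]
    exact N.algebraMap_mem r
  inv_mem' := by
    intro a ha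
    change f a⁻¹ ∈ N
    rw [map_inv₀]
    exact N.inv_mem ha

private lemma Sup_agree {f g : Gal(Om/ℚ)} {M M' : IntermediateField ℚ Om} (h : ∀ x ∈ M, f x = g x)
    (h' : ∀ x ∈ M', f x = g x) : ∀ x ∈ M ⊔ M', f x = g x := by
  have h1 : M ⊔ M' ≤ Sup_eq f g := sup_le (fun x hx => h x hx) (fun x hx => h' x hx)
  exact fun x hx => h1 hx

private lemma Sup_pow {σ : Gal(Om/ℚ)} {x : Om} (h : σ x = x) (c : ℕ) : (σ ^ c) x = x := by
  induction c with
  | zero => rfl
  | succ c ih =>
    rw [pow_succ]
    change (σ ^ c) (σ x) = x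
    rw [h, ih]

private lemma Sup_self (p : ℕ) (L : IntermediateField ℚ Om) : Adm p L L where
  le := le_rfl
  fin := ⟨⊥, inferInstance, le_sup_left⟩
  galois := by
    intro σ hσ x hx
    rw [(IntermediateField.mem_fixingSubgroup_iff _ _).1 hσ x hx]
    exact hx
  abelian := by
    intro σ hσ τ hτ x hx
    rw [(IntermediateField.mem_fixingSubgroup_iff _ _).1 hσ x hx,
      (IntermediateField.mem_fixingSubgroup_iff _ _).1 hτ x hx,
      (IntermediateField.mem_fixingSubgroup_iff _ _).1 hσ x hx]
  pgroup := by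
    refine ⟨0, fun σ hσ x hx => ?_⟩
    exact Sup_pow ((IntermediateField.mem_fixingSubgroup_iff _ _).1 hσ x hx) _
  unramified := by
    intro P _ _ σ _ hσ x hx
    exact (IntermediateField.mem_fixingSubgroup_iff _ _).1 hσ x hx
  split := by
    intro P _ _ σ _ hσ x hx
    exact (IntermediateField.mem_fixingSubgroup_iff _ _).1 hσ x hx

private lemma Sup_sup (p : ℕ) (L M M' : IntermediateField ℚ Om) (h : Adm p L M) (h' : Adm p L M') :
    Adm p L (M ⊔ M') where
  le := h.le.trans le_sup_left
  fin := by
    obtain ⟨E, hE, hM⟩ := h.fin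
    obtain ⟨E', hE', hM'⟩ := h'.fin
    have := hE
    have := hE'
    refine ⟨E ⊔ E', inferInstance, sup_le (hM.trans ?_) (hM'.trans ?_)⟩
    · exact sup_le_sup_left le_sup_left L
    · exact sup_le_sup_left le_sup_right L
  galois := by
    intro σ hσ x hx
    have h1 : M ⊔ M' ≤ Sup_co σ (M ⊔ M') := by
      refine sup_le (fun y hy => ?_) (fun y hy => ?_)
      · exact (le_sup_left : M ≤ M ⊔ M') (h.galois σ hσ y hy)
      · exact (le_sup_right : M' ≤ M ⊔ M') (h'.galois σ hσ y hy)
    exact h1 hx
  abelian := by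
    intro σ hσ τ hτ
    exact Sup_agree (f := σ * τ) (g := τ * σ) (h.abelian σ hσ τ hτ) (h'.abelian σ hσ τ hτ)
  pgroup := by
    obtain ⟨a, ha⟩ := h.pgroup
    obtain ⟨b, hb⟩ := h'.pgroup
    refine ⟨a + b, fun σ hσ => ?_⟩
    refine Sup_agree (f := σ ^ p ^ (a + b)) (g := 1) (fun x hx => ?_) (fun x hx => ?_)
    · rw [pow_add, pow_mul]
      exact Sup_pow (ha σ hσ x hx) _
    · rw [pow_add, mul_comm, pow_mul]
      exact Sup_pow (hb σ hσ x hx) _
  unramified := by
    intro P hP hP0 σ hσ hσL
    exact Sup_agree (f := σ) (g := 1) (h.unramified P hP hP0 σ hσ hσL)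
      (h'.unramified P hP hP0 σ hσ hσL)
  split := by
    intro P hP hP0 σ hσ hσL
    exact Sup_agree (f := σ) (g := 1) (h.split P hP hP0 σ hσ hσL)
      (h'.split P hP hP0 σ hσ hσL)

private lemma Sup_fin (p : ℕ) (L : IntermediateField ℚ Om)
    (s : Finset {M : IntermediateField ℚ Om // Adm p L M}) :
    ∃ M : IntermediateField ℚ Om, Adm p L M ∧ ∀ i ∈ s, i.1 ≤ M := by
  classical
  induction s using Finset.induction_on with
  | empty => exact ⟨L, Sup_self p L, fun i hi => absurd hi (Finset.notMem_empty i)⟩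
  | insert i s _ ih =>
    obtain ⟨M, hM, hs⟩ := ih
    refine ⟨i.1 ⊔ M, Sup_sup p L _ _ i.2 hM, fun j hj => ?_⟩
    rcases Finset.mem_insert.1 hj with rfl | hj
    · exact le_sup_left
    · exact (hs j hj).trans le_sup_right

theorem sup : S_Sup := by
  intro p L _
  refine ⟨Sup_self p L, Sup_sup p L, fun E hE hle => ?_⟩
  have := hE
  have hfg : E.FG := IntermediateField.essFiniteType_iff.1 inferInstance
  have hc : IsCompactElement E := by
    obtain ⟨s, rfl⟩ := hfg
    exact IntermediateField.adjoin_finset_isCompactElement s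
  obtain ⟨s, hs⟩ :=
    CompleteLattice.IsCompactElement.exists_finset_of_le_iSup (IntermediateField ℚ Om) hc _ hle
  obtain ⟨M, hM, hsM⟩ := Sup_fin p L s
  exact ⟨M, hM, hs.trans (iSup₂_le hsM)⟩

end Pool.Agent.MuZ
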