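import Pool.Agent.Lib.MuZ.CSpec

/-!
# The fixing subgroup of `Qcyc p`
-/

open scoped Pointwise

noncomputable section

namespace Pool.Agent.MuZ

namespace TFixAux

section Tors

variable (p : ℕ) [hp : Fact p.Prime]

/-- Torsion elements of `1 + p ℤ_p` are trivial, prime exponent. -/
theorem tors_prime (v : ℤ_[p]) (l : ℕ) (hl : l.Prime) (hv : v ^ l = 1)
    (h1 : (p : ℤ_[p]) ∣ v - 1) (h2 : p = 2 → (4 : ℤ_[p]) ∣ v - 1) : v = 1 := by
  by_contra hne
  have hne' : v - 1 ≠ 0 := sub_ne_zero.2 hne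
  have hsum : ∑ i ∈ Finset.range l, v ^ i = 0 := by
    have h3 := geom_sum_mul v l
    rw [hv, sub_self] at h3
    exact (mul_eq_zero.1 h3).resolve_right hne'
  have hpp : Prime (p : ℤ_[p]) := PadicInt.prime_p
  -- l = p
  have hpl : l = p := by
    have h3 : ∑ i ∈ Finset.range l, v ^ i * (1 : ℤ_[p]) ^ (l - 1 - i) = 0 := by
      simpa using hsum
    have h4 := (dvd_geom_sum₂_iff_of_dvd_sub (n := l) h1).1 (h3 ▸ dvd_zero _)
    rw [one_pow, mul_one] at h4
    have h5 : ((p ^ 1 : ℕ) : ℤ) ∣ (l : ℤ) := by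
      have h6 := (PadicInt.pow_p_dvd_int_iff (p := p) 1 (l : ℤ)).1
        (by rw [pow_one]; exact_mod_cast h4)
      exact_mod_cast h6
    rw [pow_one] at h5
    have h6 : p ∣ l := by exact_mod_cast h5
    exact ((Nat.prime_dvd_prime_iff_eq hp.out hl).1 h6).symm
  subst hpl
  rcases hp.out.eq_two_or_odd' with h3 | h3
  · subst h3
    have h4 : v = -1 := by
      rw [Finset.sum_range_succ, Finset.sum_range_one, pow_zero, pow_one] at hsum
      linear_combination hsum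
    obtain ⟨b, hb⟩ := h2 rfl
    rw [h4] at hb
    have h5 : (2 : ℤ_[2]) * (1 + 2 * b) = 0 := by linear_combination -hb
    have h6 : (2 : ℤ_[2]) ≠ 0 := two_ne_zero
    have h7 : (1 : ℤ_[2]) + 2 * b = 0 := (mul_eq_zero.1 h5).resolve_left h6
    have h8 : ((2 : ℕ) : ℤ_[2]) ∣ 1 := ⟨-b, by push_cast; linear_combination h7⟩
    exact hpp.not_isUnit (isUnit_of_dvd_one h8)
  · obtain ⟨b, hb⟩ := h1
    have h4 := odd_sq_dvd_geom_sum₂_sub (R := ℤ_[l]) (1 : ℤ_[l]) b h3
    have h5 : (1 : ℤ_[l]) + l * b = v := by linear_combination -hb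
    rw [h5] at h4
    have h6 : ∑ i ∈ Finset.range l, v ^ i * (1 : ℤ_[l]) ^ (l - 1 - i) = 0 := by
      simpa using hsum
    rw [h6, one_pow, mul_one, zero_sub, dvd_neg, pow_two] at h4
    obtain ⟨c, hc⟩ := h4
    have h7 : (l : ℤ_[l]) * (1 - l * c) = 0 := by linear_combination hc
    have h8 := (mul_eq_zero.1 h7).resolve_left hpp.ne_zero
    have h9 : (l : ℤ_[l]) ∣ 1 := ⟨c, by linear_combination h8⟩
    exact hpp.not_isUnit (isUnit_of_dvd_one h9)

theorem tors_gen (v : ℤ_[p]) (m : ℕ) (hm : 0 < m) (hv : v ^ m = 1)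
    (h1 : (p : ℤ_[p]) ∣ v - 1) (h2 : p = 2 → (4 : ℤ_[p]) ∣ v - 1) : v = 1 := by
  induction m using Nat.strong_induction_on generalizing v with
  | _ m ih =>
    rcases Nat.eq_or_lt_of_le (show 1 ≤ m from hm) with h | h
    · rw [← h, pow_one] at hv
      exact hv
    · obtain ⟨l, hl, k, rfl⟩ := Nat.exists_prime_and_dvd (show m ≠ 1 by omega)
      have hk : 0 < k := Nat.pos_of_mul_pos_left hm
      have h3 : v ^ k = 1 := by
        apply tors_prime p (v ^ k) l hl
        · rw [← pow_mul, mul_comm k l]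
          exact hv
        · have := sub_dvd_pow_sub_pow v 1 k
          rw [one_pow] at this
          exact h1.trans this
        · intro hp2
          have := sub_dvd_pow_sub_pow v 1 k
          rw [one_pow] at this
          exact (h2 hp2).trans this
      exact ih k (by nlinarith [hl.two_le]) v hk h3 h1 h2

/-- Torsion units of `ℤ_p` have exponent `2 (p - 1)`. -/
theorem tors_unit (u : ℤ_[p]ˣ) (m : ℕ) (hm : 0 < m) (hu : u ^ m = 1) : u ^ (2 * (p - 1)) = 1 := by
  apply Units.ext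
  rw [Units.val_pow_eq_pow_val, Units.val_one]
  have hum : (u : ℤ_[p]) ^ m = 1 := by
    rw [← Units.val_pow_eq_pow_val, hu, Units.val_one]
  have hf : (p : ℤ_[p]) ∣ (u : ℤ_[p]) ^ (p - 1) - 1 := by
    have h1 : PadicInt.toZMod ((u : ℤ_[p]) ^ (p - 1) - 1) = 0 := by
      rw [map_sub, map_pow, map_one]
      have h2 : PadicInt.toZMod (u : ℤ_[p]) ≠ 0 := (u.isUnit.map PadicInt.toZMod).ne_zero
      rw [ZMod.pow_card_sub_one_eq_one h2, sub_self]
    have h3 : (u : ℤ_[p]) ^ (p - 1) - 1 ∈ RingHom.ker (PadicInt.toZMod (p := p)) := h1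
    rw [PadicInt.ker_toZMod, PadicInt.maximalIdeal_eq_span_p, Ideal.mem_span_singleton] at h3
    exact h3
  have hs : (u : ℤ_[p]) ^ (2 * (p - 1)) - 1 =
      ((u : ℤ_[p]) ^ (p - 1) - 1) * ((u : ℤ_[p]) ^ (p - 1) + 1) := by
    rw [two_mul, pow_add]
    ring
  apply tors_gen p _ m hm
  · rw [← pow_mul, mul_comm, pow_mul, hum, one_pow]
  · rw [hs]
    exact hf.mul_right _
  · intro hp2
    subst hp2
    rw [hs]
    obtain ⟨b, hb⟩ := hf
    refine ⟨b * (1 + b), ?_⟩
    have hb' : (u : ℤ_[2]) ^ (2 - 1) = 1 + 2 * b := by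
      push_cast at hb
      linear_combination hb
    rw [hb']
    ring

end Tors

section Char

variable (p : ℕ) [hp : Fact p.Prime]

instance instEnough (i : ℕ) : HasEnoughRootsOfUnity Om (p ^ i) := by
  haveI : NeZero ((p : ℕ) : Om) := ⟨by exact_mod_cast hp.out.ne_zero⟩
  infer_instance

/-- The cyclotomic character of `Gal(Om/ℚ)`. -/
def chi : Gal(Om/ℚ) →* ℤ_[p]ˣ :=
  (cyclotomicCharacter Om p).comp (MulSemiringAction.toRingAut Gal(Om/ℚ) Om)

theorem chi_spec (g : Gal(Om/ℚ)) (n : ℕ) (t : Om) (ht : t ^ p ^ n = 1) :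
    g t = t ^ ((chi p g).val.toZModPow n).val :=
  cyclotomicCharacter.spec p (MulSemiringAction.toRingAut Gal(Om/ℚ) Om g) t ht

theorem fix_of_chi (g : Gal(Om/ℚ)) (h : chi p g = 1) (t : Om) (ht : ∃ n : ℕ, t ^ p ^ n = 1) :
    g t = t := by
  obtain ⟨n, hn⟩ := ht
  have h1 := chi_spec p g (n + 1) t (by rw [pow_succ, pow_mul, hn, one_pow])
  rw [h, Units.val_one, map_one] at h1
  haveI : Fact (1 < p ^ (n + 1)) := ⟨Nat.one_lt_pow (by omega) hp.out.one_lt⟩
  rw [ZMod.val_one, pow_one] at h1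
  exact h1

theorem chi_of_fix (g : Gal(Om/ℚ)) (h : ∀ t : Om, (∃ n : ℕ, t ^ p ^ n = 1) → g t = t) :
    chi p g = 1 := by
  apply Units.ext
  rw [Units.val_one]
  apply PadicInt.ext_of_toZModPow.1
  intro n
  rw [map_one]
  obtain ⟨ζ, hζ⟩ := HasEnoughRootsOfUnity.exists_primitiveRoot Om (p ^ n)
  have h1 := chi_spec p g n ζ hζ.pow_eq_one
  rw [h ζ ⟨n, hζ.pow_eq_one⟩] at h1
  haveI : NeZero (p ^ n) := ⟨pow_ne_zero _ hp.out.ne_zero⟩
  set c := (chi p g).val.toZModPow n with hc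
  have h2 : ζ ^ c.val = ζ ^ (1 : ℕ) := by rw [pow_one]; exact h1.symm
  have h3 : c.val ≡ 1 [MOD p ^ n] := by
    have hn0 : p ^ n ≠ 0 := pow_ne_zero _ hp.out.ne_zero
    have hu := hζ.isUnit_unit hn0
    have h5 : (hζ.isUnit hn0).unit ^ c.val = (hζ.isUnit hn0).unit ^ (1 : ℕ) := by
      apply Units.ext
      rw [Units.val_pow_eq_pow_val, Units.val_pow_eq_pow_val]
      exact h2
    have := pow_eq_pow_iff_modEq.1 h5
    rwa [← hu.eq_orderOf] at this
  have h4 : ((c.val : ℕ) : ZMod (p ^ n)) = ((1 : ℕ) : ZMod (p ^ n)) :=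
    (ZMod.natCast_eq_natCast_iff _ _ _).2 h3
  rw [ZMod.natCast_zmod_val, Nat.cast_one] at h4
  exact h4

theorem fix_torsion (σ : Gal(Om/ℚ)) (m : ℕ) (hm : 0 < m)
    (h : ∀ t : Om, (∃ n : ℕ, t ^ p ^ n = 1) → (σ ^ m) t = t) (z : Om)
    (hz : ∃ n : ℕ, z ^ p ^ n = 1) : (σ ^ (2 * (p - 1))) z = z := by
  apply fix_of_chi p _ _ z hz
  rw [map_pow]
  apply tors_unit p _ m hm
  rw [← map_pow]
  exact chi_of_fix p _ h

/-- The closed subgroup of the elements of exponent `2 (p - 1)` on the `p`-power roots of unity. -/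
def TT : Subgroup Gal(Om/ℚ) := (powMonoidHom (2 * (p - 1)) : ℤ_[p]ˣ →* ℤ_[p]ˣ).ker.comap (chi p)

theorem mem_TT (σ : Gal(Om/ℚ)) : σ ∈ TT p ↔ chi p σ ^ (2 * (p - 1)) = 1 := Iff.rfl

theorem mem_TT' (σ : Gal(Om/ℚ)) :
    σ ∈ TT p ↔ ∀ z : Om, (∃ n : ℕ, z ^ p ^ n = 1) → (σ ^ (2 * (p - 1))) z = z := by
  rw [mem_TT, ← map_pow]
  exact ⟨fun h => fix_of_chi p _ h, fun h => chi_of_fix p _ h⟩

theorem stab_closed (z : Om) : IsClosed {σ : Gal(Om/ℚ) | σ z = z} := by
  haveI : FiniteDimensional ℚ (IntermediateField.adjoin ℚ {z}) :=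
    IntermediateField.adjoin.finiteDimensional (Algebra.IsIntegral.isIntegral z)
  have h := IntermediateField.fixingSubgroup_isClosed (IntermediateField.adjoin ℚ {z})
  have h2 : {σ : Gal(Om/ℚ) | σ z = z} =
      ((IntermediateField.adjoin ℚ {z}).fixingSubgroup : Set Gal(Om/ℚ)) := by
    ext σ
    rw [SetLike.mem_coe, IntermediateField.mem_fixingSubgroup_iff]
    constructor
    · intro hσ x hx
      have h3 : IntermediateField.adjoin ℚ {z} ≤
          IntermediateField.fixedField (Subgroup.zpowers σ) := by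
        rw [IntermediateField.adjoin_simple_le_iff, IntermediateField.mem_fixedField_iff]
        intro f hf
        have h4 : Subgroup.zpowers σ ≤ MulAction.stabilizer Gal(Om/ℚ) z := by
          rw [Subgroup.zpowers_le]
          exact hσ
        exact h4 hf
      have h5 := (IntermediateField.mem_fixedField_iff _ x).1 (h3 hx)
      exact h5 σ (Subgroup.mem_zpowers σ)
    · intro h3
      exact h3 z (IntermediateField.mem_adjoin_simple_self ℚ z)
  rw [h2]
  exact h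

theorem TT_closed : IsClosed (TT p : Set Gal(Om/ℚ)) := by
  have h : (TT p : Set Gal(Om/ℚ)) = ⋂ z : {z : Om // ∃ n : ℕ, z ^ p ^ n = 1},
      (fun σ : Gal(Om/ℚ) => σ ^ (2 * (p - 1))) ⁻¹' {σ : Gal(Om/ℚ) | σ z.1 = z.1} := by
    ext σ
    rw [SetLike.mem_coe, mem_TT', Set.mem_iInter]
    exact ⟨fun h z => h z.1 z.2, fun h z hz => h ⟨z, hz⟩⟩
  rw [h]
  apply isClosed_iInter
  intro z
  exact (stab_closed z.1).preimage (continuous_pow _)

end Char

end TFixAux

open TFixAux in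
theorem c_TFix : S_TFix := by
  intro p hp σ hσ
  haveI : Fact p.Prime := ⟨hp⟩
  rw [← mem_TT' p]
  have h1 := InfiniteGalois.fixingSubgroup_fixedField (k := ℚ) (K := Om)
    ⟨TT p, TT_closed p⟩
  have h2 : IntermediateField.fixedField (TT p) ≤ Qcyc p := by
    intro x hx τ ⟨m, hm, hτ⟩
    rw [IntermediateField.mem_fixedField_iff] at hx
    apply hx τ
    rw [mem_TT' p]
    exact fix_torsion p τ m hm hτ
  have h3 : (Qcyc p).fixingSubgroup ≤ (IntermediateField.fixedField (TT p)).fixingSubgroup :=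
    IntermediateField.fixingSubgroup_le h2
  have h4 := h3 hσ
  rwa [show (IntermediateField.fixedField (TT p)).fixingSubgroup = TT p from h1] at h4

end Pool.Agent.MuZ
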