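import Pool.Agent.Lib.MuZ.CSpec

/-!
# S_Uni: uniqueness of cocycles
-/

open scoped Pointwise

noncomputable section

namespace Pool.Agent.MuZ

namespace UniAux

variable {G : Type} [Group G] {p : ℕ} {S : Type} [AddCommGroup S] [Module (ZMod p) S]

theorem one_eq {ρ : Representation (ZMod p) G S} {Y : Subgroup G} {c : G → S}
    (hc : ∀ g ∈ Y, ∀ h ∈ Y, c (g * h) = c g + ρ g (c h)) : c 1 = 0 := by
  have h := hc 1 Y.one_mem 1 Y.one_mem
  rw [mul_one, map_one, Module.End.one_apply] at h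
  exact left_eq_add.1 h

theorem pow_eq {ρ : Representation (ZMod p) G S} {Y : Subgroup G} {c : G → S}
    (hc : ∀ g ∈ Y, ∀ h ∈ Y, c (g * h) = c g + ρ g (c h)) {δ : G} (hδ : δ ∈ Y) (h0 : c δ = 0) :
    ∀ j : ℕ, c (δ ^ j) = 0 := by
  intro j
  induction j with
  | zero => rw [pow_zero]; exact one_eq hc
  | succ j ih => rw [pow_succ, hc _ (Y.pow_mem hδ j) _ hδ, ih, h0, map_zero, add_zero]

end UniAux

theorem c_Uni : S_Uni := by
  intro G _ _ p Y N δ hNY hδ hgen S _ _ ρ c hc hN h0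
  obtain ⟨c1, c2, ⟨O, c3⟩, -⟩ := hc
  funext y
  by_cases hy : y ∈ Y
  · obtain ⟨j, t, ht, ho⟩ := hgen y hy O
    have htY : t ∈ Y := hNY ht
    have hoY : y⁻¹ * δ ^ j * t ∈ Y := Y.mul_mem (Y.mul_mem (Y.inv_mem hy) (Y.pow_mem hδ j)) htY
    have e1 : c (δ ^ j * t) = 0 := by
      rw [c2 _ (Y.pow_mem hδ j) _ htY, UniAux.pow_eq c2 hδ h0 j, hN t ht, map_zero, add_zero]
    have e2 : c (y * (y⁻¹ * δ ^ j * t)) = c y := by
      rw [c2 _ hy _ hoY, c3 _ hoY ho, map_zero, add_zero]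
    have e3 : y * (y⁻¹ * δ ^ j * t) = δ ^ j * t := by group
    rw [← e2, e3, e1]
    rfl
  · exact c1 y hy

end Pool.Agent.MuZ
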