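import Pool.Agent.Lib.MuZ.CSpec

/-!
# MP_d0239a_nt: divisibility of the exponents of a generator
-/

open scoped Pointwise

noncomputable section

namespace Pool.Agent.MuZ

theorem c_Val : S_Val := by
  intro G _ _ _ _ _ _ p hp Y N γ hZ v
  by_contra hcon
  push Not at hcon
  have hv : v ≠ 0 := by
    rintro rfl
    obtain ⟨m, t, _, _, h⟩ := hcon ⊤
    exact h (by simp)
  have hx : γ ^ p ^ (v - 1) ∉ N := hZ.inf _ (pow_pos hp.out.pos _)
  have hop : IsOpen {o : G | (γ ^ p ^ (v - 1))⁻¹ * o ∉ N} := by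
    have h1 : IsClosed {o : G | (γ ^ p ^ (v - 1))⁻¹ * o ∈ N} :=
      hZ.cloN.preimage (continuous_const.mul continuous_id)
    exact h1.isOpen_compl
  have hone : (1 : G) ∈ {o : G | (γ ^ p ^ (v - 1))⁻¹ * o ∉ N} := by
    show (γ ^ p ^ (v - 1))⁻¹ * 1 ∉ N
    rw [mul_one, inv_mem_iff]
    exact hx
  obtain ⟨O, hO⟩ := ProfiniteGrp.exist_openNormalSubgroup_sub_open_nhds_of_one hop hone
  obtain ⟨m, t, ht, hmt, hm⟩ := hcon O.toOpenSubgroup
  obtain ⟨a, ha⟩ := hZ.pro O.toOpenSubgroup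
  have hmt' : γ ^ m * t ∈ (O.toSubgroup : Subgroup G) := hmt
  have ha' : γ ^ p ^ a ∈ (O.toSubgroup : Subgroup G) := ha
  have hON : (O.toSubgroup : Subgroup G).Normal := O.isNormal'
  -- the subgroup generated by `N` and `O`
  have hL1 : γ ^ m ∈ N ⊔ (O.toSubgroup : Subgroup G) := by
    have h2 : γ ^ m = (γ ^ m * t) * t⁻¹ := by group
    rw [h2]
    exact mul_mem (Subgroup.mem_sup_right hmt') (Subgroup.mem_sup_left (inv_mem ht))
  have hL2 : γ ^ p ^ (a + v) ∈ N ⊔ (O.toSubgroup : Subgroup G) := by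
    rw [pow_add, pow_mul]
    exact pow_mem (Subgroup.mem_sup_right ha') _
  obtain ⟨w, hw, hg⟩ := (Nat.dvd_prime_pow hp.out).1 (Nat.gcd_dvd_right m (p ^ (a + v)))
  have hwv : w ≤ v - 1 := by
    by_contra hwv
    push Not at hwv
    have h3 : p ^ v ∣ p ^ w := pow_dvd_pow p (by omega)
    rw [← hg] at h3
    exact hm (h3.trans (Nat.gcd_dvd_left _ _))
  have hL3 : γ ^ p ^ w ∈ N ⊔ (O.toSubgroup : Subgroup G) := by
    rw [← hg, ← zpow_natCast, Nat.gcd_eq_gcd_ab, zpow_add, zpow_mul, zpow_mul, zpow_natCast,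
      zpow_natCast]
    exact mul_mem (zpow_mem hL1 _) (zpow_mem hL2 _)
  have hL4 : γ ^ p ^ (v - 1) ∈ N ⊔ (O.toSubgroup : Subgroup G) := by
    obtain ⟨c, hc⟩ := pow_dvd_pow p hwv
    rw [hc, pow_mul]
    exact pow_mem hL3 _
  rw [Subgroup.mem_sup_of_normal_right] at hL4
  obtain ⟨n, hn, o, ho, hno⟩ := hL4
  have h5 : γ ^ p ^ (v - 1) * n⁻¹ ∈ (O.toSubgroup : Subgroup G) := by
    rw [← hno]
    exact hON.conj_mem o ho n
  have h6 : γ ^ p ^ (v - 1) * n⁻¹ ∈ {o : G | (γ ^ p ^ (v - 1))⁻¹ * o ∉ N} := hO h5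
  apply h6
  rw [inv_mul_cancel_left]
  exact inv_mem hn

end Pool.Agent.MuZ
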