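import Pool.Agent.Lib.MuZ.Spec

/-!
# Only finitely many prime numbers ramify in a number field (in terms of inertia groups)
-/

open scoped Pointwise

namespace Pool.Agent.MuZ

private theorem ram_alg : Algebra.IsAlgebraic ℚ Om := by
  have h := AlgebraicClosure.isAlgebraic ℚ
  have e : (DivisionRing.toRatAlgebra : Algebra ℚ Om) = AlgebraicClosure.instAlgebra ℚ := Subsingleton.elim _ _
  rw [e]
  exact h

private theorem ram_smul_coe (σ : Gal(Om/ℚ)) (a : ZZ) : ((σ • a : ZZ) : Om) = σ (a : Om) := rfl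

/-- Every nonzero algebraic integer divides a positive integer. -/
private theorem ram_dvd (u : ZZ) (hu : u ≠ 0) : ∃ r : ℕ, 0 < r ∧ u ∣ (r : ZZ) := by
  have h1 : IsAlgebraic ℤ u := (Algebra.IsIntegral.isIntegral (R := ℤ) u).isAlgebraic
  obtain ⟨r, hr, h⟩ := h1.exists_nonzero_dvd (mem_nonZeroDivisors_of_ne_zero hu)
  refine ⟨r.natAbs, Int.natAbs_pos.2 hr, ?_⟩
  have h2 : ((r.natAbs : ℕ) : ZZ) = (((r.natAbs : ℕ) : ℤ) : ZZ) := (Int.cast_natCast _).symm
  rw [h2]
  rcases Int.natAbs_eq r with h3 | h3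
  · rw [← h3]
    simpa using h
  · have h4 : ((r.natAbs : ℕ) : ℤ) = -r := by omega
    rw [h4, Int.cast_neg]
    exact (by simpa using h : u ∣ ((r : ℤ) : ZZ)).neg_right

/-- One algebraic integer. -/
private theorem ram_one (a : ZZ) : ∃ B : ℕ, 0 < B ∧
    ∀ P : Ideal ZZ, P.IsPrime → (B : ZZ) ∉ P → ∀ σ ∈ P.inertia Gal(Om/ℚ), σ (a : Om) = a := by
  classical
  have h1 : ∀ y : Om, ∃ r : ℕ, 0 < r ∧ ∀ b : ZZ, (b : Om) = y → b ≠ a → b - a ∣ (r : ZZ) := by
    intro y
    by_cases hy : ∃ b : ZZ, (b : Om) = y ∧ b ≠ a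
    · obtain ⟨b, hb, hba⟩ := hy
      obtain ⟨r, hr, hd⟩ := ram_dvd (b - a) (sub_ne_zero.2 hba)
      refine ⟨r, hr, fun b' hb' _ => ?_⟩
      have h2 : b' = b := Subtype.ext (hb'.trans hb.symm)
      rw [h2]
      exact hd
    · exact ⟨1, one_pos, fun b hb hba => absurd ⟨b, hb, hba⟩ hy⟩
  choose r hr hd using h1
  have hint : IsIntegral ℚ (a : Om) := (ram_alg.isAlgebraic (a : Om)).isIntegral
  set f := minpoly ℚ (a : Om) with hf
  set T : Finset Om := (f.aroots Om).toFinset with hT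
  refine ⟨∏ y ∈ T, r y, Finset.prod_pos fun y _ => hr y, ?_⟩
  intro P hP hB σ hσ
  by_contra hne
  have h2 : σ • a ≠ a := by
    intro h
    exact hne (by rw [← ram_smul_coe, h])
  have h3 : σ (a : Om) ∈ T := by
    rw [hT, Multiset.mem_toFinset, Polynomial.mem_aroots]
    refine ⟨minpoly.ne_zero hint, ?_⟩
    have h4 : Polynomial.aeval (σ (a : Om)) f = σ (Polynomial.aeval (a : Om) f) := by
      rw [Polynomial.aeval_algHom_apply]
    rw [h4, hf, minpoly.aeval, map_zero]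
  have h5 := hd (σ (a : Om)) (σ • a) (ram_smul_coe σ a) h2
  have h6 : σ • a - a ∈ P := hσ a
  have h7 : (r (σ (a : Om)) : ZZ) ∣ ((∏ y ∈ T, r y : ℕ) : ZZ) := by
    rw [Nat.cast_prod]
    exact Finset.dvd_prod_of_mem _ h3
  exact hB (P.mem_of_dvd (h5.trans h7) h6)

theorem ram : S_Ram := by
  intro L hL
  obtain ⟨α, hα⟩ := @Field.exists_primitive_element ℚ L _ _ L.algebra' _ _
  have hLα : L = IntermediateField.adjoin ℚ {(α : Om)} := by
    have h0 := IntermediateField.lift_adjoin_simple ℚ L α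
    rw [hα, IntermediateField.lift_top] at h0
    exact h0
  have halg : IsAlgebraic ℤ (α : Om) :=
    (IsFractionRing.isAlgebraic_iff ℤ ℚ Om).2 (ram_alg.isAlgebraic (α : Om))
  obtain ⟨n, hn, hint⟩ := halg.exists_integral_multiple
  set a : ZZ := ⟨n • (α : Om), hint⟩ with ha
  obtain ⟨B, hB, h⟩ := ram_one a
  refine ⟨B, hB, fun P hP hBP σ hσ => ?_⟩
  have h1 : σ (a : Om) = a := h P hP hBP σ hσ
  have h2 : σ (α : Om) = α := by
    have h3 : (a : Om) = (n : Om) * (α : Om) := by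
      rw [ha]
      change n • (α : Om) = _
      rw [zsmul_eq_mul]
    rw [h3, map_mul, map_intCast] at h1
    exact mul_left_cancel₀ (Int.cast_ne_zero.2 hn) h1
  have h3 : Subgroup.zpowers σ ≤ L.fixingSubgroup := by
    rw [← IntermediateField.le_iff_le, hLα, IntermediateField.adjoin_simple_le_iff,
      IntermediateField.mem_fixedField_iff]
    intro τ hτ
    have h4 : Subgroup.zpowers σ ≤ MulAction.stabilizer Gal(Om/ℚ) (α : Om) := by
      rw [Subgroup.zpowers_le, MulAction.mem_stabilizer_iff]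
      exact h2
    exact h4 hτ
  exact h3 (Subgroup.mem_zpowers σ)

end Pool.Agent.MuZ
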