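import Mathlib

/-!
# The definitions used in the hand-ins of MP_d0239a_nt

`Ω` is an algebraic closure of `ℚ`, `Γ = Gal(Ω/ℚ)`, all fields are subfields of `Ω`. The primes are the
nonzero prime ideals of the ring of all algebraic integers of `Ω`; the decomposition group of such a
prime `P` is its stabiliser in `Γ`, the inertia group is the subgroup acting trivially modulo `P`.
-/

noncomputable section

namespace Pool.Agent.MuP

/-- An algebraic closure `Ω` of `ℚ`. -/
def Omega : Type := AlgebraicClosure ℚ

instance : Field Omega := (inferInstance : Field (AlgebraicClosure ℚ))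

/-- The absolute Galois group `Γ = Gal(Ω/ℚ)`. -/
def Gam : Type := Gal(AlgebraicClosure ℚ/ℚ)

instance : Group Gam := (inferInstance : Group Gal(AlgebraicClosure ℚ/ℚ))

/-- The value of `σ ∈ Γ` at `x ∈ Ω`. -/
def app (σ : Gam) (x : Omega) : Omega := (show Gal(AlgebraicClosure ℚ/ℚ) from σ) x

/-- The subfields of `Ω`. -/
def Fd : Type := IntermediateField ℚ (AlgebraicClosure ℚ)

/-- `x` is an element of the field `L`. -/
def Mem (x : Omega) (L : Fd) : Prop :=
  (show AlgebraicClosure ℚ from x) ∈ (show IntermediateField ℚ (AlgebraicClosure ℚ) from L)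

instance : LE Fd := ⟨fun L M => ∀ x : Omega, Mem x L → Mem x M⟩

/-- The compositum of two fields. -/
def comp (L M : Fd) : Fd :=
  Max.max (α := IntermediateField ℚ (AlgebraicClosure ℚ)) L M

/-- The compositum of all fields with a property. -/
def compAll (Q : Fd → Prop) : Fd :=
  iSup (α := IntermediateField ℚ (AlgebraicClosure ℚ)) fun M : {M : Fd // Q M} => M.1

/-- `L` is a number field. -/
def IsNF (L : Fd) : Prop :=
  FiniteDimensional ℚ (show IntermediateField ℚ (AlgebraicClosure ℚ) from L)

/-- The degree `[L : ℚ]` of a number field. -/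
def deg (L : Fd) : ℕ :=
  Module.finrank ℚ (show IntermediateField ℚ (AlgebraicClosure ℚ) from L)

/-- The Galois group `Gal(Ω/L)`, a subgroup of `Γ`. -/
def gal (L : Fd) : Subgroup Gam :=
  (show IntermediateField ℚ (AlgebraicClosure ℚ) from L).fixingSubgroup

/-- The ring of all algebraic integers of `Ω`. -/
def AlgInt : Type := integralClosure ℤ (AlgebraicClosure ℚ)

instance : CommRing AlgInt := (inferInstance : CommRing (integralClosure ℤ (AlgebraicClosure ℚ)))

/-- An algebraic integer as an element of `Ω`. -/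
def AlgInt.val (y : AlgInt) : Omega := Subtype.val y

/-- The primes of `Ω`: the nonzero prime ideals of the ring of all algebraic integers. -/
def Pr : Type := {P : Ideal AlgInt // P.IsPrime ∧ P ≠ ⊥}

/-- `x` is an element of the prime ideal `P`. -/
def InPr (P : Pr) (x : Omega) : Prop := ∃ y ∈ P.1, AlgInt.val y = x

/-- `P` lies above `p`. -/
def Above (p : ℕ) (P : Pr) : Prop := InPr P (p : Omega)

/-- `σ` is in the inertia group of `P`: it acts trivially on the algebraic integers modulo `P`. -/
def Inert (P : Pr) (σ : Gam) : Prop := ∀ y : AlgInt, InPr P (app σ y.val - y.val)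

/-- `σ` is in the decomposition group of `P`: it maps `P` onto itself. -/
def Decomp (P : Pr) (σ : Gam) : Prop := ∀ x : Omega, InPr P x ↔ InPr P (app σ x)

/-- `σ` acts on the `p`-power roots of unity as an automorphism of finite order. -/
def FinOrd (p : ℕ) (σ : Gam) : Prop :=
  ∃ m : ℕ, 0 < m ∧ ∀ z : Omega, (∃ n : ℕ, z ^ p ^ n = 1) → app (σ ^ m) z = z

/-- The elements of `Ω` which are fixed by all `σ` with the property `Q` form a field. -/
def fixedBy (Q : Gam → Prop) : Fd :=
  iSup (α := IntermediateField ℚ (AlgebraicClosure ℚ))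
    fun M : {M : Fd // ∀ σ : Gam, Q σ → ∀ x : Omega, Mem x M → app σ x = x} => M.1

/-- The cyclotomic `ℤ_p`-extension of `ℚ`: the largest subfield of `Ω` whose elements are fixed by all
`σ` which act on the `p`-power roots of unity as an automorphism of finite order (the fixed field of the
torsion subgroup of `Gal(ℚ(μ_{p^∞})/ℚ)`). -/
def Qcyc (p : ℕ) : Fd := fixedBy (FinOrd p)

/-- The cyclotomic `ℤ_p`-extension `F^cyc` of `F`. -/
def cyc (p : ℕ) (F : Fd) : Fd := comp F (Qcyc p)

/-- `M` is finite over `L`. -/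
def FinOver (L M : Fd) : Prop := ∃ E : Fd, IsNF E ∧ M ≤ comp L E

/-- `M` is mapped to itself by `Gal(Ω/L)`; if `L ≤ M` then `M` is Galois over `L`. -/
def GalOver (L M : Fd) : Prop := ∀ σ ∈ gal L, ∀ x : Omega, Mem x M → Mem (app σ x) M

/-- `σ` fixes the elements of `M`. -/
def Fixes (σ : Gam) (M : Fd) : Prop := ∀ x : Omega, Mem x M → app σ x = x

/-- `M` is a finite abelian `p`-extension of `L` (any algebraic extension of `ℚ`) which is unramified
at every (finite) prime and in which every prime above `p` splits completely. -/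
structure Adm (p : ℕ) (L M : Fd) : Prop where
  /-- `M` contains `L`. -/
  le : L ≤ M
  /-- `M` is finite over `L`. -/
  fin : FinOver L M
  /-- `M` is Galois over `L`. -/
  galois : GalOver L M
  /-- `Gal(M/L)` is abelian. -/
  abelian : ∀ σ ∈ gal L, ∀ τ ∈ gal L, ∀ x : Omega, Mem x M → app σ (app τ x) = app τ (app σ x)
  /-- `Gal(M/L)` is a `p`-group. -/
  pgroup : ∃ a : ℕ, ∀ σ ∈ gal L, Fixes (σ ^ p ^ a) M
  /-- `M/L` is unramified at every prime. -/
  unramified : ∀ P : Pr, ∀ σ ∈ gal L, Inert P σ → Fixes σ M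
  /-- Every prime of `L` above `p` splits completely in `M`. -/
  split : ∀ P : Pr, Above p P → ∀ σ ∈ gal L, Decomp P σ → Fixes σ M

/-- `K(L)`, the maximal abelian pro-`p` extension of `L` which is unramified at every prime and in
which every prime of `L` above `p` splits completely. -/
def KK (p : ℕ) (L : Fd) : Fd := compAll (Adm p L)

/-- `σ` and `τ` agree on `E`. -/
def Agree (σ τ : Gam) (E : Fd) : Prop := ∀ x : Omega, Mem x E → app τ x = app σ x

/-- `X(L) = Gal(K(L)/L)` is a finitely generated `ℤ_p`-module, that is, topologically finitely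
generated: there are finitely many elements of `Gal(Ω/L)` such that every `σ` in `Gal(Ω/L)` agrees on
every finite subextension of `K(L)` with an element of the subgroup which they generate. -/
def XFinGen (p : ℕ) (L : Fd) : Prop :=
  ∃ T : Finset Gam, (∀ τ ∈ T, τ ∈ gal L) ∧
    ∀ E : Fd, IsNF E → E ≤ KK p L → ∀ σ ∈ gal L, ∃ τ ∈ Subgroup.closure (T : Set Gam),
      Agree σ τ E

/-- The linear representations of `Gal(Ω/k)` on the `F_p`-vector space `S`. -/
def Rep (p : ℕ) (k : Fd) (S : Type) [AddCommGroup S] [Module (ZMod p) S] : Type :=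
  Representation (ZMod p) (gal k) S

section

variable {p : ℕ} {k : Fd} {S : Type} [AddCommGroup S] [Module (ZMod p) S]

/-- The action of `g ∈ Gal(Ω/k)` on `v ∈ S`. -/
def ac (ρ : Rep p k S) (g : gal k) (v : S) : S := (show Representation (ZMod p) (gal k) S from ρ) g v

/-- `ρ` is irreducible: `S ≠ 0` and there are no invariant subspaces except `0` and `S`. -/
def Irr (ρ : Rep p k S) : Prop :=
  (∃ v : S, v ≠ 0) ∧ ∀ W : Submodule (ZMod p) S, (∀ g : gal k, ∀ w ∈ W, ac ρ g w ∈ W) →
    W = ⊥ ∨ W = ⊤

/-- `v` is fixed by the elements of `Gal(Ω/F)` in `Gal(Ω/k)`. -/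
def FixedBy (ρ : Rep p k S) (F : Fd) (v : S) : Prop :=
  ∀ g : gal k, (g : Gam) ∈ gal F → ac ρ g v = v

/-- `Gal(Ω/F)` is the stabiliser of `v`. -/
def IsStab (ρ : Rep p k S) (F : Fd) (v : S) : Prop :=
  ∀ g : Gam, g ∈ gal F ↔ ∃ h : g ∈ gal k, ac ρ ⟨g, h⟩ v = v

end

/-- `F` is a vector field over `k` (at `p`): `Gal(Ω/F)` is the stabiliser of a nonzero vector in an
irreducible `F_p`-representation of `Gal(Ω/k)`. -/
def VectorField (p : ℕ) (k F : Fd) : Prop :=
  ∃ (S : Type) (_ : AddCommGroup S) (_ : Module (ZMod p) S) (ρ : Rep p k S),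
    Irr ρ ∧ ∃ v : S, v ≠ 0 ∧ IsStab ρ F v

end Pool.Agent.MuP
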