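import Pool.Agent.Lib.MuZ.Spec
import Pool.Agent.Lib.MuZ.PDefs

/-!
# Comparison of the public definitions with `Defs.lean`
-/

open scoped Pointwise

noncomputable section

namespace Pool.Agent.MuP

theorem mem_Qcyc' (p : ℕ) (x : AlgebraicClosure ℚ) :
    x ∈ MuZ.Qcyc p ↔ ∀ σ : Gam, FinOrd p σ → app σ x = x := Iff.rfl

theorem Qcyc_eq (p : ℕ) : Qcyc p = MuZ.Qcyc p := by
  apply le_antisymm (α := IntermediateField ℚ (AlgebraicClosure ℚ))
  · refine iSup_le (α := IntermediateField ℚ (AlgebraicClosure ℚ)) ?_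
    rintro ⟨M, hM⟩ x hx
    exact (mem_Qcyc' p x).2 fun σ hσ => hM σ hσ x hx
  · exact le_iSup (α := IntermediateField ℚ (AlgebraicClosure ℚ))
      (fun M : {M : Fd // ∀ σ : Gam, FinOrd p σ → ∀ x : Omega, Mem x M → app σ x = x} => M.1)
      ⟨MuZ.Qcyc p, fun σ hσ x hx => (mem_Qcyc' p x).1 hx σ hσ⟩

theorem cyc_eq (p : ℕ) (F : Fd) : cyc p F = MuZ.cyc p F := by
  unfold cyc
  rw [Qcyc_eq]
  rfl

theorem smul_val (σ : Gal(AlgebraicClosure ℚ/ℚ)) (x : MuZ.ZZ) :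
    ((σ • x : MuZ.ZZ) : AlgebraicClosure ℚ) = σ (x : AlgebraicClosure ℚ) := rfl

theorem isInt_app (σ : Gal(AlgebraicClosure ℚ/ℚ)) (x : AlgebraicClosure ℚ)
    (h : IsIntegral ℤ x) : IsIntegral ℤ (σ x) := (σ • (⟨x, h⟩ : MuZ.ZZ)).2

/-- The ideal of a prime. -/
def idl (P : Pr) : Ideal MuZ.ZZ := P.1

theorem inPr_iff (P : Pr) (x : MuZ.ZZ) : InPr P (x : AlgebraicClosure ℚ) ↔ x ∈ idl P :=
  ⟨fun ⟨y, hy, h⟩ => by
    have h1 : (show MuZ.ZZ from y) = x := Subtype.ext h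
    rw [← h1]
    exact hy, fun h => ⟨x, h, rfl⟩⟩

theorem inPr_int (P : Pr) (x : AlgebraicClosure ℚ) (h : InPr P x) : IsIntegral ℤ x := by
  obtain ⟨y, _, hy⟩ := h
  rw [← hy]
  exact Subtype.prop y

theorem above_iff (p : ℕ) (P : Pr) : Above p P ↔ (p : MuZ.ZZ) ∈ idl P := by
  rw [← inPr_iff]
  exact Iff.rfl

theorem inert_iff (P : Pr) (σ : Gal(AlgebraicClosure ℚ/ℚ)) :
    Inert P σ ↔ σ ∈ (idl P).inertia Gal(AlgebraicClosure ℚ/ℚ) := by
  constructor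
  · intro h x
    exact (inPr_iff P (σ • x - x)).1 (h x)
  · intro h x
    let x' : MuZ.ZZ := x
    exact (inPr_iff P (σ • x' - x')).2 (h x')

theorem decomp_iff (P : Pr) (σ : Gal(AlgebraicClosure ℚ/ℚ)) :
    Decomp P σ ↔ σ ∈ MulAction.stabilizer Gal(AlgebraicClosure ℚ/ℚ) (idl P) := by
  have hsm : ∀ (τ : Gal(AlgebraicClosure ℚ/ℚ)) (x : MuZ.ZZ), x ∈ idl P ↔ τ • x ∈ τ • idl P :=
    fun τ x => (Ideal.smul_mem_pointwise_smul_iff).symm
  constructor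
  · intro h
    rw [MulAction.mem_stabilizer_iff]
    ext x
    have h1 := h ((σ⁻¹ • x : MuZ.ZZ) : AlgebraicClosure ℚ)
    have h2 : app σ ((σ⁻¹ • x : MuZ.ZZ) : AlgebraicClosure ℚ) =
        ((x : MuZ.ZZ) : AlgebraicClosure ℚ) := by
      change ((σ • (σ⁻¹ • x : MuZ.ZZ) : MuZ.ZZ) : AlgebraicClosure ℚ) = _
      rw [smul_inv_smul]
    rw [h2] at h1
    have h4 : σ⁻¹ • x ∈ idl P ↔ x ∈ idl P :=
      (inPr_iff P (σ⁻¹ • x)).symm.trans (h1.trans (inPr_iff P x))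
    have h3 := hsm σ (σ⁻¹ • x)
    rw [smul_inv_smul] at h3
    exact h3.symm.trans h4
  · intro h x
    rw [MulAction.mem_stabilizer_iff] at h
    constructor
    · intro hx0
      have hx : IsIntegral ℤ (show AlgebraicClosure ℚ from x) := inPr_int P x hx0
      have hxP : (⟨x, hx⟩ : MuZ.ZZ) ∈ idl P := (inPr_iff P ⟨x, hx⟩).1 hx0
      refine (inPr_iff P ⟨σ x, isInt_app σ x hx⟩).2 ?_
      have h1 := (hsm σ ⟨x, hx⟩).1 hxP
      rw [h] at h1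
      exact h1
    · intro hx0
      have hx : IsIntegral ℤ (σ (show AlgebraicClosure ℚ from x)) := inPr_int P _ hx0
      have hx' : IsIntegral ℤ (show AlgebraicClosure ℚ from x) := by
        have h4 := isInt_app σ⁻¹ _ hx
        have h5 : σ⁻¹ (σ (show AlgebraicClosure ℚ from x)) = (show AlgebraicClosure ℚ from x) := by
          change (σ⁻¹ * σ) (show AlgebraicClosure ℚ from x) = _
          rw [inv_mul_cancel]
          rfl
        rw [h5] at h4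
        exact h4
      have hxP : (⟨σ x, hx⟩ : MuZ.ZZ) ∈ idl P := (inPr_iff P ⟨σ x, hx⟩).1 hx0
      refine (inPr_iff P ⟨x, hx'⟩).2 ?_
      rw [hsm σ ⟨x, hx'⟩, h]
      exact hxP

theorem adm_iff (p : ℕ) [Fact p.Prime] (L M : Fd) : Adm p L M ↔ MuZ.Adm p L M := by
  constructor
  · rintro ⟨h1, h2, h3, h4, h5, h6, h7⟩
    refine ⟨h1, h2, h3, h4, h5, ?_, ?_⟩
    · intro P hP hne σ hσ hL
      exact h6 ⟨P, hP, hne⟩ σ hL ((inert_iff ⟨P, hP, hne⟩ σ).2 hσ)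
    · intro P hP hpP σ hσ hL
      have hne : P ≠ ⊥ := by
        rintro rfl
        have h2 : (p : MuZ.ZZ) = 0 := by simpa using hpP
        have h3 : p = 0 := by exact_mod_cast h2
        exact (Fact.out : p.Prime).ne_zero h3
      exact h7 ⟨P, hP, hne⟩ ((above_iff p ⟨P, hP, hne⟩).2 hpP) σ hL
        ((decomp_iff ⟨P, hP, hne⟩ σ).2 hσ)
  · rintro ⟨h1, h2, h3, h4, h5, h6, h7⟩
    exact ⟨h1, h2, h3, h4, h5,
      fun P σ hL hσ => h6 P.1 P.2.1 P.2.2 σ ((inert_iff P σ).1 hσ) hL,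
      fun P hP σ hL hσ => h7 P.1 P.2.1 ((above_iff p P).1 hP) σ ((decomp_iff P σ).1 hσ) hL⟩

theorem KK_eq (p : ℕ) [Fact p.Prime] (L : Fd) : KK p L = MuZ.KK p L := by
  have h : Adm p L = MuZ.Adm p L := by
    funext M
    exact propext (adm_iff p L M)
  unfold KK
  rw [h]
  rfl

theorem XFinGen_iff (p : ℕ) [Fact p.Prime] (L : Fd) : XFinGen p L ↔ MuZ.XFinGen p L := by
  unfold XFinGen
  rw [KK_eq]
  exact Iff.rfl

theorem XFinGen_cyc_iff (p : ℕ) [Fact p.Prime] (L : Fd) :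
    XFinGen p (cyc p L) ↔ MuZ.XFinGen p (MuZ.cyc p L) := by
  rw [XFinGen_iff, cyc_eq]

theorem vectorField_iff (p : ℕ) (k F : Fd) : VectorField p k F ↔ MuZ.VectorField p k F := Iff.rfl

end Pool.Agent.MuP
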