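import Pool.Agent.Lib.MuZ.ESpec
import Mathlib.Topology.Algebra.ClopenNhdofOne

open scoped Pointwise

namespace Pool.Agent.MuZ

namespace FixVAux

/-- the conjugation operator on functions -/
def opA (p : ℕ) {G : Type} [Group G] (γ : G) : (G → ZMod p) →ₗ[ZMod p] (G → ZMod p) where
  toFun f := fun x => f (γ⁻¹ * x * γ)
  map_add' := by
    intro a b
    ext x
    simp
  map_smul' := by
    intro r a
    ext x
    simp

theorem opA_pow (p : ℕ) {G : Type} [Group G] (γ : G) (n : ℕ) (f : G → ZMod p) (x : G) :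
    ((opA p γ) ^ n) f x = f ((γ ^ n)⁻¹ * x * γ ^ n) := by
  induction n generalizing f with
  | zero => simp
  | succ n ih =>
    rw [pow_succ, Module.End.mul_apply, ih]
    show f (γ⁻¹ * ((γ ^ n)⁻¹ * x * γ ^ n) * γ) = _
    congr 1
    rw [pow_succ]
    group

theorem opA_sub_pow (p : ℕ) [Fact p.Prime] {G : Type} [Group G] (γ : G) (a : ℕ) :
    (opA p γ - 1) ^ p ^ a = (opA p γ) ^ p ^ a - 1 := by
  have h1 : ((Polynomial.X : Polynomial (ZMod p)) - 1) ^ p ^ a = Polynomial.X ^ p ^ a - 1 := by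
    rw [sub_pow_char_pow, one_pow]
  have h2 := congrArg (Polynomial.aeval (opA p γ)) h1
  simpa using h2

theorem exists_normal {G : Type} [Group G] [TopologicalSpace G] [IsTopologicalGroup G] [CompactSpace G]
    [TotallyDisconnectedSpace G] [T2Space G] (O : OpenSubgroup G) :
    ∃ O' : OpenSubgroup G, (O' : Subgroup G).Normal ∧ ∀ x ∈ O', x ∈ O := by
  obtain ⟨H, hH⟩ := ProfiniteGrp.exist_openNormalSubgroup_sub_open_nhds_of_one
    (U := (O : Set G)) O.isOpen O.one_mem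
  exact ⟨H.toOpenSubgroup, H.isNormal', fun x hx => hH hx⟩

theorem one_of_add {G : Type} [Group G] {p : ℕ} {N : Subgroup G} {f : G → ZMod p}
    (h : ∀ g ∈ N, ∀ h ∈ N, f (g * h) = f g + f h) : f 1 = 0 := by
  have h1 := h 1 N.one_mem 1 N.one_mem
  rw [mul_one] at h1
  simpa using h1

/-- conjugation by an element of an open normal subgroup on which `f` vanishes -/
theorem conj_small {G : Type} [Group G] {p : ℕ} {Y N O : Subgroup G} (hO : O.Normal) {f : G → ZMod p}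
    (h : ∀ g ∈ N, ∀ h ∈ N, f (g * h) = f g + f h) (h0 : ∀ g ∈ N, g ∈ O → f g = 0)
    (hn : ∀ y ∈ Y, ∀ n ∈ N, y * n * y⁻¹ ∈ N) {u : G} (hu : u ∈ Y) (huO : u ∈ O) {x : G} (hx : x ∈ N) :
    f (u⁻¹ * x * u) = f x := by
  have h1 : u⁻¹ * x * u ∈ N := by
    have := hn u⁻¹ (Y.inv_mem hu) x hx
    rwa [inv_inv] at this
  have h2 : x⁻¹ * (u⁻¹ * x * u) ∈ N := N.mul_mem (N.inv_mem hx) h1
  have h3 : x⁻¹ * (u⁻¹ * x * u) ∈ O := by
    have h4 : x⁻¹ * u⁻¹ * x⁻¹⁻¹ ∈ O := hO.conj_mem _ (O.inv_mem huO) x⁻¹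
    have h5 : x⁻¹ * (u⁻¹ * x * u) = (x⁻¹ * u⁻¹ * x⁻¹⁻¹) * u := by group
    rw [h5]
    exact O.mul_mem h4 huO
  have h6 : u⁻¹ * x * u = x * (x⁻¹ * (u⁻¹ * x * u)) := by group
  rw [h6, h x hx _ h2, h0 _ h2 h3, add_zero]

end FixVAux

open FixVAux in
theorem e_FixV : S_FixV := by
  intro G _ _ _ _ _ _ p _ Y N γ hZ M hM hst hne
  obtain ⟨f, hf, hf0⟩ := hne
  have hYγ : γ ∈ Y := hZ.mem
  -- T maps M to M
  have hT : ∀ g ∈ M, (opA p γ - 1) g ∈ M := by
    intro g hg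
    have h1 : (opA p γ - 1) g = (fun x => g (γ⁻¹ * x * γ)) - g := rfl
    rw [h1]
    exact M.sub_mem (hst g hg) hg
  have hTn : ∀ n : ℕ, ∀ g ∈ M, ((opA p γ - 1) ^ n) g ∈ M := by
    intro n
    induction n with
    | zero =>
      intro g hg
      simpa using hg
    | succ n ih =>
      intro g hg
      rw [pow_succ, Module.End.mul_apply]
      exact ih _ (hT g hg)
  -- a power kills f
  have hkill : ∃ n : ℕ, ((opA p γ - 1) ^ n) f = 0 := by
    obtain ⟨f1, f2, ⟨O0, f3⟩, _⟩ := hM hf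
    obtain ⟨O, hOn, hO⟩ := exists_normal O0
    obtain ⟨a, ha⟩ := hZ.pro O
    refine ⟨p ^ a, ?_⟩
    rw [opA_sub_pow, LinearMap.sub_apply, Module.End.one_apply, sub_eq_zero]
    ext x
    rw [opA_pow]
    by_cases hx : x ∈ N
    · exact conj_small hOn f2 (fun g hg hgO => f3 g hg (hO g hgO)) hZ.nrm (Y.pow_mem hYγ _) ha hx
    · have h1 : (γ ^ p ^ a)⁻¹ * x * γ ^ p ^ a ∉ N := by
        intro h2
        apply hx
        have h3 := hZ.nrm (γ ^ p ^ a) (Y.pow_mem hYγ _) _ h2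
        have h4 : γ ^ p ^ a * ((γ ^ p ^ a)⁻¹ * x * γ ^ p ^ a) * (γ ^ p ^ a)⁻¹ = x := by group
        rwa [h4] at h3
      rw [f1 x hx, f1 _ h1]
  classical
  obtain ⟨g, hg, hg0, hTg⟩ : ∃ g ∈ M, g ≠ 0 ∧ (opA p γ - 1) g = 0 := by
    have h1 : Nat.find hkill ≠ 0 := by
      intro h2
      have h3 := Nat.find_spec hkill
      rw [h2, pow_zero, Module.End.one_apply] at h3
      exact hf0 h3
    obtain ⟨n, hn⟩ : ∃ n, Nat.find hkill = n + 1 := Nat.exists_eq_succ_of_ne_zero h1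
    refine ⟨((opA p γ - 1) ^ n) f, hTn n f hf, ?_, ?_⟩
    · exact Nat.find_min hkill (by omega)
    · have h3 := Nat.find_spec hkill
      rw [hn, pow_succ', Module.End.mul_apply] at h3
      exact h3
  have hinv : ∀ x, g (γ⁻¹ * x * γ) = g x := by
    intro x
    have h1 := congrFun hTg x
    have h2 : (opA p γ - 1) g x = g (γ⁻¹ * x * γ) - g x := rfl
    rw [h2] at h1
    exact sub_eq_zero.1 h1
  have hinvj : ∀ (j : ℕ) (x : G), g (γ ^ j * x * (γ ^ j)⁻¹) = g x := by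
    intro j
    induction j with
    | zero =>
      intro x
      simp
    | succ j ih =>
      intro x
      rw [← ih x, ← hinv (γ ^ (j + 1) * x * (γ ^ (j + 1))⁻¹)]
      congr 1
      rw [pow_succ']
      group
  refine ⟨g, hg, hg0, ?_⟩
  obtain ⟨_, g2, ⟨O0, g3⟩, _⟩ := hM hg
  obtain ⟨O, hOn, hO⟩ := exists_normal O0
  intro y hy x hx
  obtain ⟨j, t, ht, hj⟩ := hZ.gen y hy O
  set o := y⁻¹ * γ ^ j * t with ho
  have hoY : o ∈ Y := Y.mul_mem (Y.mul_mem (Y.inv_mem hy) (Y.pow_mem hYγ _)) (hZ.le ht)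
  have hw : o⁻¹ * x * o ∈ N := by
    have := hZ.nrm o⁻¹ (Y.inv_mem hoY) x hx
    rwa [inv_inv] at this
  have e1 : y * x * y⁻¹ = γ ^ j * (t * (o⁻¹ * x * o) * t⁻¹) * (γ ^ j)⁻¹ := by
    rw [ho]
    group
  rw [e1, hinvj, g2 _ (N.mul_mem ht hw) _ (N.inv_mem ht), g2 _ ht _ hw]
  have e2 : g t + g t⁻¹ = 0 := by
    rw [← g2 t ht _ (N.inv_mem ht), mul_inv_cancel]
    exact one_of_add g2
  have e3 : g (o⁻¹ * x * o) = g x :=
    conj_small hOn g2 (fun z hz hzO => g3 z hz (hO z hzO)) hZ.nrm hoY hj hx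
  rw [e3]
  calc g t + g x + g t⁻¹ = (g t + g t⁻¹) + g x := by ring
    _ = g x := by rw [e2, zero_add]

end Pool.Agent.MuZ
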