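import Pool.Agent.Lib.MuZ.CSpec

/-!
# Specification: extensions in which the primes above `p` do not split

Theorem E: if `F / k` has degree prime to `p`, every prime of `k` above `p` has only one prime of `F` above
it and `K(F) ⊆ F K(k)`, then `K(F^cyc) = F K(k^cyc)`; in particular `X(F^cyc)` is finitely generated iff
`X(k^cyc)` is. Every `S_...` below is a statement with a complete proof in its docstring, to be proved in
its own module; no statement needs another one unless it is named as a hypothesis. `Gq`, `Zq` and the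
general remarks on compactness are in `CSpec.lean`.
-/

open scoped Pointwise

noncomputable section

namespace Pool.Agent.MuZ

/-! ## Transfer -/

/-- The transfer from `F ∩ H` to `H` of a function `f` (additive on `F ∩ H`): for `n ∈ H`
`cr F H f n = ∑ over the left cosets x of F ∩ H in H of f (s(n x)⁻¹ n s(x))` where `s` chooses
representatives; `0` outside `H`. -/
def cr {G A : Type} [Group G] [AddCommGroup A] (F H : Subgroup G) (f : G → A) : G → A := by
  classical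
  exact fun n => if h : n ∈ H then
    ∑ᶠ x : ↥H ⧸ F.subgroupOf H,
      f (((((⟨n, h⟩ : H) • x).out : H) : G)⁻¹ * n * ((x.out : H) : G)) else 0

/-- `f` is additive on the subgroup `H`. -/
def AddOn {G A : Type} [Group G] [AddCommGroup A] (H : Subgroup G) (f : G → A) : Prop :=
  ∀ x ∈ H, ∀ y ∈ H, f (x * y) = f x + f y

/-- (200 lines) **Transfer, first properties.** PROOF. All sums are finite sums over the finite set
`H ⧸ F.subgroupOf H`. (1) For `n, n' ∈ H`:
`s(n n' x)⁻¹ n n' s(x) = (s(n n' x)⁻¹ n s(n' x)) (s(n' x)⁻¹ n' s(x))`, both factors are in `F ∩ H`; sum over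
`x` and substitute `y = n' x` in the first sum. (2) clear. (3) `φ` commutes with finite sums. (4) The
element `g` is in `F` and normalises `H`; conjugation by `g` induces a permutation `x ↦ g x g⁻¹` of the
left cosets of `F ∩ H` in `H`. With `f^g z = f (g⁻¹ z g)`, `n ∈ H`, `m = g⁻¹ n g`:
`f (g⁻¹ s(n x)⁻¹ n s(x) g) = f (s'(m y)⁻¹ m s'(y))`, where `y = g⁻¹ x g` and
`s'(y) = g⁻¹ s(x) g` is another choice of representatives. So the claim is that the transfer does not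
depend on the choice of representatives: if `s'(y) = s(y) u(y)` with `u(y) ∈ F ∩ H` then
`s'(m y)⁻¹ m s'(y) = u(m y)⁻¹ (s(m y)⁻¹ m s(y)) u(y)`, and the sum over `y` of `- f (u (m y)) + f (u y)` is
`0`. (One may use `MonoidHom.transfer` of `Mathlib/GroupTheory/Transfer.lean`, with values in
`Multiplicative A`.) -/
def S_CrA : Prop :=
  ∀ (G A B : Type) [Group G] [AddCommGroup A] [AddCommGroup B] (F H : Subgroup G),
    (F.subgroupOf H).FiniteIndex →
    (∀ f : G → A, AddOn (F ⊓ H) f → AddOn H (cr F H f)) ∧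
    (∀ f f' : G → A, cr F H (f + f') = cr F H f + cr F H f') ∧
    (∀ f f' : G → A, (∀ x ∈ F ⊓ H, f x = f' x) → cr F H f = cr F H f') ∧
    (∀ (φ : A →+ B) (f : G → A), cr F H (fun x => φ (f x)) = fun x => φ (cr F H f x)) ∧
    (∀ f : G → A, AddOn (F ⊓ H) f → ∀ g ∈ F, (∀ h : G, h ∈ H ↔ g * h * g⁻¹ ∈ H) →
      ∀ n ∈ H, cr F H (fun z => f (g⁻¹ * z * g)) n = cr F H f (g⁻¹ * n * g))

/-- (200 lines) **Transfer, orbit formula.** PROOF. In Mathlib:
`MonoidHom.transfer_eq_prod_quotient_orbitRel_zpowers_quot` (for the group `↥H`, its subgroup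
`F.subgroupOf H`, values in `Multiplicative A`) for the existence of the decomposition; the orbits of
`⟨n⟩` on `H ⧸ (F ∩ H)` have lengths `m_i` with sum the index, `x_i` is a representative of a point of the
orbit. Direct proof: the transfer does not depend on the choice of the representatives (see `S_CrA`); for
an orbit `y, n y, .., n^(m-1) y` choose the representatives `x, n x, ..., n^(m-1) x`: the terms of the sum
are `f 1 = 0` (`m - 1` times) and `f (x⁻¹ n ^ m x)`. -/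
def S_CrB : Prop :=
  ∀ (G : Type) [Group G] (F H : Subgroup G), (F.subgroupOf H).FiniteIndex → ∀ n ∈ H,
    ∃ (r : ℕ) (x : Fin r → G) (m : Fin r → ℕ),
      (∀ i, x i ∈ H ∧ (x i)⁻¹ * n ^ m i * x i ∈ F ⊓ H) ∧
      ∑ i, m i = (F.subgroupOf H).index ∧
      ∀ (A : Type) [AddCommGroup A] (f : G → A), AddOn (F ⊓ H) f →
        cr F H f n = ∑ i, f ((x i)⁻¹ * n ^ m i * x i)

/-- (150 lines) **Transfer and restriction.** If `H' ≤ H` and `H = H' (F ∩ H)` then the transfers agree on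
`H'`. PROOF. The inclusion induces a bijection `H' ⧸ (F ∩ H') → H ⧸ (F ∩ H)` which commutes with the action
of `H'`; representatives in `H'` are representatives in `H`, and the transfer does not depend on the
choice of the representatives (see `S_CrA`). -/
def S_CrC : Prop :=
  ∀ (G A : Type) [Group G] [AddCommGroup A] (F H H' : Subgroup G),
    (F.subgroupOf H).FiniteIndex → H' ≤ H → (∀ h ∈ H, ∃ h' ∈ H', ∃ g ∈ F ⊓ H, h = h' * g) →
    (F.subgroupOf H').FiniteIndex ∧ (F.subgroupOf H').index = (F.subgroupOf H).index ∧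
    ∀ f : G → A, AddOn (F ⊓ H) f → ∀ n ∈ H', cr F H f n = cr F H' f n

/-! ## Profinite groups -/

/-- (150 lines) **Fixed vectors.** PROOF. Let `T f = γ f - f`, `(γ f) x = f (γ⁻¹ x γ)`; it maps `M` to itself.
Every `f ∈ M` is killed by a power of `T`: let `O` be an open normal subgroup with `f = 0` on `N ∩ O`; by
`pro` `u = γ ^ p ^ a ∈ O`; for `x ∈ N`, `u⁻¹ x u = x (x⁻¹ u⁻¹ x u)` with `x⁻¹ u⁻¹ x u ∈ N ∩ O`, so
`f (u⁻¹ x u) = f x`; and `T ^ p ^ a = γ ^ p ^ a - 1` (characteristic `p`). So there is `f ≠ 0` in `M` with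
`T f = 0`. It is invariant under conjugation by `N` (additive on `N`) and by `γ`, `γ⁻¹`. Let `y ∈ Y`,
`x ∈ N`; let `O` be as above for this `f`; by `gen` `y⁻¹ γ ^ j t = o ∈ O`, `t ∈ N`; so `y = γ ^ j t o⁻¹`,
`y x y⁻¹ = γ ^ j t (o⁻¹ x o) t⁻¹ γ⁻ʲ` and `f (y x y⁻¹) = f (o⁻¹ x o) = f x`, as `o⁻¹ x o ∈ x (N ∩ O)`
(`o ∈ O ∩ Y` normalises `N`). -/
def S_FixV : Prop :=
  ∀ (G : Type) [Group G] [TopologicalSpace G] [IsTopologicalGroup G] [CompactSpace G]
    [TotallyDisconnectedSpace G] [T2Space G] (p : ℕ) [Fact p.Prime] (Y N : Subgroup G) (γ : G),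
    Zq p Y N γ → ∀ M : Submodule (ZMod p) (G → ZMod p), M ≤ VV p ∅ N →
    (∀ f ∈ M, (fun x => f (γ⁻¹ * x * γ)) ∈ M) → (∃ f ∈ M, f ≠ 0) →
    ∃ f ∈ M, f ≠ 0 ∧ ∀ y ∈ Y, ∀ x ∈ N, f (y * x * y⁻¹) = f x

/-- (100 lines) **Closed subgroups.** PROOF. Let `y ∈ Λ` and `O` open normal. For every open normal `O'` there
are `a` and `t ∈ N` with `y ^ p ^ a t ∈ O'` (`quo`), so `y ^ p ^ a ∈ N O' ∩ Λ`. The sets
`{x ∈ Λ : x ∈ N O', x ∈ y ^ p ^ a O for some a}` are closed (finite unions of cosets of open subgroups cut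
with `Λ`), not empty and decreasing in `O'`, so by compactness there is
`x ∈ Λ ∩ ⋂ N O' = Λ ∩ N` in some `y ^ p ^ a O`; `t = x⁻¹` (`O` normal). -/
def S_QuoC : Prop :=
  ∀ (G : Type) [Group G] [TopologicalSpace G] [IsTopologicalGroup G] [CompactSpace G]
    [TotallyDisconnectedSpace G] [T2Space G] (p : ℕ) (Y N : Subgroup G) (δ : G), Gq p Y N δ →
    ∀ Λ : Subgroup G, Λ ≤ Y → IsClosed (Λ : Set G) →
      ∀ y ∈ Λ, ∀ O : OpenSubgroup G, ∃ a : ℕ, ∃ t ∈ Λ ⊓ N, y ^ p ^ a * t ∈ O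

/-- (120 lines) **Decomposition.** Uses `S_QuoC`. PROOF. `B = {g n : g ∈ Λ ∩ F, n ∈ Λ ∩ N}` is a subgroup
(`Λ ∩ N` is normal in `Λ`) and it is normal in `Λ`, with abelian quotient: for `x, y ∈ Λ` and `O` open
normal, `x ∈ δ ^ i N O`, `y ∈ δ ^ j N O` (`gen`), so the commutator of `x`, `y` is in `⋂ N O = N`. `Λ / B` is
finite (`F` is open) and every element has `p`-power order: `y ^ p ^ a t ∈ F ∩ Λ`, `t ∈ Λ ∩ N`
(`S_QuoC` with `O = F`). So `[Λ : B]` is a power of `p`; it divides `[Λ : Λ ∩ F]`, so it is `1`. -/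
def S_Dec : Prop :=
  S_QuoC → ∀ (G : Type) [Group G] [TopologicalSpace G] [IsTopologicalGroup G] [CompactSpace G]
    [TotallyDisconnectedSpace G] [T2Space G] (p : ℕ) [Fact p.Prime] (Y N : Subgroup G) (δ : G),
    Gq p Y N δ → ∀ (Λ : Subgroup G) (F : OpenSubgroup G), Λ ≤ Y → IsClosed (Λ : Set G) →
      ¬ p ∣ ((F : Subgroup G).subgroupOf Λ).index →
      ∀ y ∈ Λ, ∃ g ∈ Λ ⊓ (F : Subgroup G), ∃ n ∈ Λ ⊓ N, y = g * n

/-- (250 lines) **The core.** `K` is the group of `k`, `F ≤ K` open of index `d` prime to `p`, `N ≤ K` the group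
of `k^cyc`, `W = F ∩ N`. `Ds` are the decomposition groups above `p`; `K = (D ∩ K) F` for all of them.
PROOF. Uses the named statements. Let `C₀ = {f ∈ VV p Ls W : cr F N f = 0 on N}`, a subspace; suppose it is
not `0`. (i) `S_Dec` with `Λ = K`: `K = F N`; so `K = N F` and `S_CrC` (`H = K`, `H' = N`) says
`[N : W] = d` and that the transfers `cr F K`, `cr F N` agree on `N`. (ii) `γ ^ M ∈ F` for some `M > 0` (finite
index), so `S_Sub`, `S_PL` give `Zq p F W γ'` (`W = F ⊓ N`). (iii) `C₀` is stable under conjugation by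
`γ'⁻¹` (`S_CrA` (5), `γ' ∈ F` normalises `N`; `Ls` is stable), so by `S_FixV` there is
`f ∈ C₀`, `f ≠ 0`, with `f (y x y⁻¹) = f x` for `y ∈ F`, `x ∈ W`. (iv) `S_Semi` with `A = Multiplicative (ZMod p)`,
`a = 1`: there is `f' : G → ZMod p`, additive on `F`, `0` outside `F`, locally constant, `f' = f` on `W`.
(v) Let `c = cr F K f'`; on `N` it is `cr F N f' = cr F N f = 0` ((i), `S_CrA` (3)). Replace `f'` by
`f'' = f' - d⁻¹ c` on `F`: `f'' = f` on `W`, and `cr F K f'' = c - d⁻¹ (d c) = 0` on `K`, where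
`cr F K c = d c` for `c` additive on `K` by the orbit formula `S_CrB`
(`c (x⁻¹ n ^ m x) = m c n`). `f''` is additive and locally constant (by `S_CrB`: if `f' = 0` on `F ∩ O`,
`O` open normal, then `c = 0` on `K ∩ O`, because `x⁻¹ n ^ m x ∈ O`). (vi) `f'' ∈ VV p Ls F`: let
`Λ ∈ Ls`. If `Λ ∩ K ≤ N` then `Λ ∩ F ≤ Λ ∩ W` and `f'' = f = 0` there. If `Λ ≤ D`, `D ∈ Ds`: let
`Δ = D ∩ K`, closed. By `S_CrC` (`H = K`, `H' = Δ`): `[Δ : Δ ∩ F] = d`, `cr F Δ f'' = cr F K f'' = 0` on `Δ`.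
By `S_Dec` `Δ = (Δ ∩ F) (Δ ∩ N)`. `f''` vanishes on `Δ ∩ F ∩ N ≤ D ∩ W`. So `e (g n) = f'' g`
(`g ∈ Δ ∩ F`, `n ∈ Δ ∩ N`) is a well defined additive function on `Δ`, equal to `f''` on `Δ ∩ F`, and
`0 = cr F Δ f'' = cr F Δ e = d e` (`S_CrA` (3), `S_CrB`), `e = 0`, `f'' = 0` on `Δ ∩ F`. (vii) By the hypothesis
`f'' = e'` on `F` with `e' ∈ VV p Ls K`, and `0 = cr F K f'' = cr F K e' = d e'` on `K`; so `e' = 0`,
`f'' = 0` on `F`, `f = 0` on `W`, `f = 0`: contradiction. -/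
def S_Core : Prop :=
  S_CrA → S_CrB → S_CrC → S_FixV → S_Dec → S_QuoC → S_Semi → S_Val → S_Sub → S_PL → S_Pc →
  ∀ (G : Type) [Group G] [TopologicalSpace G] [IsTopologicalGroup G] [CompactSpace G]
    [TotallyDisconnectedSpace G] [T2Space G] (p : ℕ) [Fact p.Prime] (Ls Ds : Set (Subgroup G))
    (K N : Subgroup G) (F : OpenSubgroup G) (γ : G), Gq p K N γ → (F : Subgroup G) ≤ K →
    ¬ p ∣ ((F : Subgroup G).subgroupOf K).index →
    (∀ g ∈ K, ∀ Λ ∈ Ls, cj g Λ ∈ Ls) → Ds ⊆ Ls → (∀ D ∈ Ds, IsClosed (D : Set G)) →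
    (∀ D ∈ Ds, ∀ g ∈ K, ∃ d ∈ D ⊓ K, ∃ h ∈ F, g = d * h) →
    (∀ Λ ∈ Ls, Λ ⊓ K ≤ N ∨ ∃ D ∈ Ds, Λ ≤ D) →
    (∀ f ∈ VV p Ls (F : Subgroup G), ∃ e ∈ VV p Ls K, ∀ g ∈ F, e g = f g) →
    ∀ f ∈ VV p Ls ((F : Subgroup G) ⊓ N), (∀ n ∈ N, cr (F : Subgroup G) N f n = 0) → f = 0

/-- (200 lines) **From `p` to `p ^ j`.** `hcore` is the conclusion of `S_Core`, `d = [N : F ∩ N]` is prime to
`p`. PROOF. Let `q = p ^ j`, `W = F ∩ N`. STEP 1: if `f ∈ VV q Ls W` and `cr F N f = 0` on `N` then `f = 0`.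
Otherwise let `i` be maximal with `p ^ i f ≠ 0` (`p ^ j f = 0`); `g = p ^ i f` satisfies `p g = 0`, so `g`
has values in the image of the injective homomorphism `φ : ZMod p →+ ZMod (p ^ j)`, `1 ↦ p ^ (j - 1)`
(`j ≥ 1` as `f ≠ 0`). Write `g = φ ∘ f₁`; `f₁ ∈ VV p Ls W`, `φ (cr F N f₁) = cr F N g = p ^ i cr F N f = 0`
(`S_CrA` (4)), so `f₁ = 0` by `hcore`, a contradiction. STEP 2: let `f ∈ VV q Ls W`. Then
`e₀ = cr F N f` is in `VV q Ls N`: additive by `S_CrA` (1); locally constant by `S_CrB` (`f = 0` on `W ∩ O`, `O`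
open normal, `x⁻¹ n ^ m x ∈ O`); for `n ∈ Λ ∩ N`, `x⁻¹ n ^ m x ∈ cj x⁻¹ Λ ∩ W` and `cj x⁻¹ Λ ∈ Ls`, so
`e₀ n = 0`. `d` is invertible modulo `q`; let `e = d⁻¹ e₀`. `cr F N e = d e` on `N` (`S_CrB`), so
`cr F N (f - e) = e₀ - d e = 0` on `N` and by STEP 1 `f - e` (cut to `W`) is `0` (`S_CrA` (3)). -/
def S_Tors : Prop :=
  S_CrA → S_CrB →
  ∀ (G : Type) [Group G] [TopologicalSpace G] [IsTopologicalGroup G] [CompactSpace G]
    [TotallyDisconnectedSpace G] [T2Space G] (p : ℕ) [Fact p.Prime] (Ls : Set (Subgroup G))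
    (N : Subgroup G) (F : OpenSubgroup G), (∀ g ∈ N, ∀ Λ ∈ Ls, cj g Λ ∈ Ls) →
    ¬ p ∣ ((F : Subgroup G).subgroupOf N).index →
    (∀ f ∈ VV p Ls ((F : Subgroup G) ⊓ N), (∀ n ∈ N, cr (F : Subgroup G) N f n = 0) → f = 0) →
    ∀ (j : ℕ), ∀ f ∈ VV (p ^ j) Ls ((F : Subgroup G) ⊓ N),
      ∃ e ∈ VV (p ^ j) Ls N, ∀ g ∈ (F : Subgroup G) ⊓ N, e g = f g

/-- (80 lines) **Restriction is injective.** PROOF. If `e ∈ VV p Ls N` vanishes on `F ∩ N` then
`d e = cr F N e = cr F N 0 = 0` on `N` (`S_CrB`, `S_CrA` (3)), so `e = 0`. So `VV p Ls N → VV p Ls (F ∩ N)` is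
injective, and surjective by the hypothesis. -/
def S_VIff : Prop :=
  S_CrA → S_CrB →
  ∀ (G : Type) [Group G] [TopologicalSpace G] [IsTopologicalGroup G] [CompactSpace G]
    (p : ℕ) [Fact p.Prime] (Ls : Set (Subgroup G))
    (N : Subgroup G) (F : OpenSubgroup G), ¬ p ∣ ((F : Subgroup G).subgroupOf N).index →
    (∀ f ∈ VV p Ls ((F : Subgroup G) ⊓ N), ∃ e ∈ VV p Ls N,
      ∀ g ∈ (F : Subgroup G) ⊓ N, e g = f g) →
    (Finite (VV p Ls ((F : Subgroup G) ⊓ N)) ↔ Finite (VV p Ls N))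

/-! ## Fields -/

/-- (150 lines) **Level zero.** Uses `S_Fld`, `S_Sup`. PROOF. Let `Ξ = (KK p k).fixingSubgroup`; it is normal
in `k.fixingSubgroup` (every admissible `M` is Galois over `k`). STEP 1:
`k.fixingSubgroup = F.fixingSubgroup Ξ`. Let `B` be this product, an open subgroup (it contains the open
subgroup `F.fixingSubgroup`) and let `E'` be its fixed field: `k ≤ E' ≤ F`, `E' ≤ KK p k`, finite over
`ℚ`; by `S_Sup` there is an admissible `M` over `k` with `E' ≤ M`. `B` contains `Ξ`; commutators of elements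
of `k.fixingSubgroup` act trivially on every admissible extension, so they are in `Ξ`, and `B` is normal
in `k.fixingSubgroup`; every element of `k.fixingSubgroup / B` has `p`-power order (`pgroup` for `M`). So the
index of `B` is a power of `p` and it divides `[F : k]`, which is prime to `p`: `B = k.fixingSubgroup`.
STEP 2: let `f ∈ VV p (Loc p) F.fixingSubgroup`, and `M'` from `S_Fld`; `M' ≤ KK p F ≤ F ⊔ KK p k`, so `f = 0` on
`F.fixingSubgroup ∩ Ξ`. Put `e (g ξ) = f g` for `g ∈ F.fixingSubgroup`, `ξ ∈ Ξ`, and `0` outside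
`k.fixingSubgroup`: well defined, additive (`Ξ` is normal), locally constant (`e = f` on the open
subgroup `F.fixingSubgroup`), and `e = 0` on `Ξ`, which contains `Λ ∩ k.fixingSubgroup` for all
`Λ ∈ Loc p` (`unramified`, `split` for all admissible `M`). -/
def S_H0 : Prop :=
  S_Fld → S_Sup → ∀ (p : ℕ) [Fact p.Prime] (k F : IntermediateField ℚ Om),
    FiniteDimensional ℚ F → k ≤ F → ¬ p * Module.finrank ℚ k ∣ Module.finrank ℚ F →
    KK p F ≤ F ⊔ KK p k →
    ∀ f ∈ VV p (Loc p) F.fixingSubgroup, ∃ e ∈ VV p (Loc p) k.fixingSubgroup,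
      ∀ g ∈ F.fixingSubgroup, e g = f g

/-- (100 lines) **The field of a character of order `p ^ j`.** As `S_Fld` (copy `Fld.lean`); only `pgroup`
changes: `a = j`. -/
def S_FldQ : Prop :=
  ∀ (p : ℕ) [Fact p.Prime] (j : ℕ) (L : IntermediateField ℚ Om),
    ∀ f ∈ VV (p ^ j) (Loc p) L.fixingSubgroup,
    ∃ M : IntermediateField ℚ Om, Adm p L M ∧
      ∀ σ : Gal(Om/ℚ), σ ∈ M.fixingSubgroup ↔ σ ∈ L.fixingSubgroup ∧ f σ = 0

/-- (250 lines) **Equality of fields.** Uses `S_FldQ`, `S_Sup`. PROOF. Let `L' = F ⊔ L`,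
`L'.fixingSubgroup = F.fixingSubgroup ⊓ L.fixingSubgroup`. (≥) `F ≤ L' ≤ KK p L'` (`Adm p L' L'`). Let `M` be
admissible over `L`: `F ⊔ M` is admissible over `L'`: `fin`: `M ≤ L ⊔ E` gives `F ⊔ M ≤ L' ⊔ E`; the other
properties hold for `σ` (and `τ`) in `L'.fixingSubgroup` on the generators `x ∈ F` (`σ x = x`) and `x ∈ M`, and
the elements with the required property form an intermediate field (as in `S_Sup` (b), file
`Sup.lean`). (≤) Let `M` be admissible over `L'`; we show that every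
`σ ∈ (F ⊔ KK p L).fixingSubgroup = F.fixingSubgroup ⊓ (KK p L).fixingSubgroup` fixes `M` (then
`M ≤ F ⊔ KK p L` by infinite Galois theory, `InfiniteGalois.fixedField_fixingSubgroup`). Note
`σ ∈ L'.fixingSubgroup`. `Q = L'.fixingSubgroup / M.fixingSubgroup` is a finite abelian group of exponent
dividing `p ^ a`. If `σ` does not fix `M` there is a homomorphism `χ : Q → ZMod (p ^ a)` with
`χ (class of σ) ≠ 0` (characters of a finite abelian group of exponent dividing `n` with values in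
`ℤ / n` separate points: in Mathlib `CommGroup.exists_apply_ne_one_of_hasEnoughRootsOfUnity` with values
in `ℂˣ` and the `n`-th roots of unity are `≅ ZMod n`; or decompose `Q` into cyclic groups,
`AddCommGroup.equiv_directSum_zmod_of_finite`). As in `S_Bwd` (file `Bwd.lean` when it is there)
`f τ = χ (class of τ)` on `L'.fixingSubgroup`, `0` outside, is in `VV (p ^ a) (Loc p) L'.fixingSubgroup`. By the
hypothesis `f = e` on `L'.fixingSubgroup` with `e ∈ VV (p ^ a) (Loc p) L.fixingSubgroup`. Let `M_e` be the field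
of `e` (`S_FldQ`), admissible over `L`, so `M_e ≤ KK p L` and `σ` fixes `M_e`: `e σ = 0`, `f σ = 0`:
contradiction. -/
def S_KK : Prop :=
  S_FldQ → S_Sup → ∀ (p : ℕ) [Fact p.Prime] (F L : IntermediateField ℚ Om),
    FiniteDimensional ℚ F →
    (∀ (j : ℕ), ∀ f ∈ VV (p ^ j) (Loc p) (F ⊔ L).fixingSubgroup,
      ∃ e ∈ VV (p ^ j) (Loc p) L.fixingSubgroup, ∀ g ∈ (F ⊔ L).fixingSubgroup, e g = f g) →
    KK p (F ⊔ L) = F ⊔ KK p L

/-- **Theorem E** (non-split extensions). -/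
def ThmE : Prop :=
  ∀ (p : ℕ) [Fact p.Prime] (k F : IntermediateField ℚ Om), FiniteDimensional ℚ F → k ≤ F →
    ¬ p * Module.finrank ℚ k ∣ Module.finrank ℚ F →
    (∀ P : Ideal ZZ, P.IsPrime → (p : ZZ) ∈ P → ∀ σ ∈ k.fixingSubgroup,
      ∃ τ ∈ F.fixingSubgroup, σ • P = τ • P) →
    KK p F ≤ F ⊔ KK p k →
    KK p (cyc p F) = F ⊔ KK p (cyc p k) ∧ (XFinGen p (cyc p F) ↔ XFinGen p (cyc p k))

end Pool.Agent.MuZ
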