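import Pool.Agent.Lib.MuZ.ESpec

/-!
# MP_d0239a, MuE: the core (`S_Core`)
-/

open scoped Pointwise

noncomputable section

namespace Pool.Agent.MuZ

namespace CoreAux

section Alg

variable {G A : Type} [Group G] [AddCommGroup A]

theorem one {H : Subgroup G} {c : G → A} (hc : AddOn H c) : c 1 = 0 := by
  have h := hc 1 H.one_mem 1 H.one_mem
  rw [mul_one] at h
  exact left_eq_add.1 h

theorem inv {H : Subgroup G} {c : G → A} (hc : AddOn H c) {x : G} (hx : x ∈ H) : c x⁻¹ = - c x := by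
  have h := hc x hx x⁻¹ (H.inv_mem hx)
  rw [mul_inv_cancel, one hc] at h
  exact eq_neg_of_add_eq_zero_right h.symm

theorem pow {H : Subgroup G} {c : G → A} (hc : AddOn H c) {x : G} (hx : x ∈ H) (m : ℕ) :
    c (x ^ m) = m • c x := by
  induction m with
  | zero => rw [pow_zero, one hc, zero_smul]
  | succ m ih => rw [pow_succ, hc _ (H.pow_mem hx m) _ hx, ih, succ_nsmul]

theorem cnj {H : Subgroup G} {c : G → A} (hc : AddOn H c) {x n : G} (hx : x ∈ H) (hn : n ∈ H)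
    (m : ℕ) : c (x⁻¹ * n ^ m * x) = m • c n := by
  rw [hc _ (H.mul_mem (H.inv_mem hx) (H.pow_mem hn m)) _ hx,
    hc _ (H.inv_mem hx) _ (H.pow_mem hn m), inv hc hx, pow hc hn]
  abel

end Alg

variable {p : ℕ}

theorem orb {G : Type} [Group G] (hB : S_CrB) (F H : Subgroup G)
    (hfin : (F.subgroupOf H).FiniteIndex) (c : G → ZMod p) (hc : AddOn H c) (n : G) (hn : n ∈ H) :
    cr F H c n = ((F.subgroupOf H).index : ZMod p) * c n := by
  obtain ⟨r, x, m, hx, hm, hf⟩ := hB G F H hfin n hn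
  rw [hf (ZMod p) c (fun a ha b hb => hc a ha.2 b hb.2), ← hm]
  push_cast
  rw [Finset.sum_mul]
  refine Finset.sum_congr rfl fun i _ => ?_
  rw [cnj hc (hx i).1 hn, nsmul_eq_mul]

section Top

variable {G : Type} [Group G] [TopologicalSpace G] [IsTopologicalGroup G] [CompactSpace G]
  [TotallyDisconnectedSpace G] [T2Space G]

theorem small (O : OpenSubgroup G) : ∃ O' : OpenSubgroup G,
    (O' : Subgroup G).Normal ∧ ∀ x ∈ O', x ∈ O := by
  obtain ⟨H, hH⟩ := ProfiniteGrp.exist_openNormalSubgroup_sub_open_nhds_of_one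
    (U := (O : Set G)) O.isOpen (one_mem O)
  exact ⟨H.toOpenSubgroup, H.isNormal', fun x hx => hH hx⟩

omit [IsTopologicalGroup G] [CompactSpace G] [TotallyDisconnectedSpace G] [T2Space G] in
theorem cr_zero (hA : S_CrA) (F H : Subgroup G) (hfin : (F.subgroupOf H).FiniteIndex) :
    cr F H (0 : G → ZMod p) = 0 := by
  have h := (hA G (ZMod p) (ZMod p) F H hfin).2.1 0 0
  rw [add_zero] at h
  exact left_eq_add.1 h

/-- the space of the elements with transfer zero -/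
def C0 (hA : S_CrA) (Ls : Set (Subgroup G)) (F N : Subgroup G)
    (hfin : (F.subgroupOf N).FiniteIndex) : Submodule (ZMod p) (G → ZMod p) where
  carrier := {f | f ∈ VV p Ls (F ⊓ N) ∧ ∀ n ∈ N, cr F N f n = 0}
  add_mem' := by
    rintro a b ⟨ha, ha'⟩ ⟨hb, hb'⟩
    refine ⟨Submodule.add_mem _ ha hb, fun n hn => ?_⟩
    rw [(hA G (ZMod p) (ZMod p) F N hfin).2.1 a b, Pi.add_apply, ha' n hn, hb' n hn, add_zero]
  zero_mem' := ⟨Submodule.zero_mem _, fun n _ => by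
    rw [cr_zero hA F N hfin]
    rfl⟩
  smul_mem' := by
    rintro r a ⟨ha, ha'⟩
    refine ⟨Submodule.smul_mem _ r ha, fun n hn => ?_⟩
    have h := (hA G (ZMod p) (ZMod p) F N hfin).2.2.2.1 (AddMonoidHom.mulLeft r) a
    have h1 : (r • a : G → ZMod p) = fun x => AddMonoidHom.mulLeft r (a x) := rfl
    rw [h1, h]
    simp only [AddMonoidHom.coe_mulLeft]
    rw [ha' n hn, mul_zero]

end Top

end CoreAux

open CoreAux

theorem e_Core : S_Core := by
  intro hA hB hC hFixV hDec hQuoC hSemi hVal hSub hPL hPc G _ _ _ _ _ _ p _ Ls Ds K N F γ hGq hFK hd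
    hLs hDs hDcl hDF hLoc hext f hf hcr
  by_contra hf0
  have hNK : N ≤ K := hGq.le
  have hFfin : (F : Subgroup G).FiniteIndex := by
    have := (F : Subgroup G).quotient_finite_of_isOpen F.isOpen
    exact Subgroup.finiteIndex_of_finite_quotient
  have hfinK : ((F : Subgroup G).subgroupOf K).FiniteIndex := inferInstance
  have hfinN : ((F : Subgroup G).subgroupOf N).FiniteIndex := inferInstance
  set d := ((F : Subgroup G).subgroupOf K).index with hddef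
  have hd0 : ((d : ℕ) : ZMod p) ≠ 0 := by
    rw [Ne, ZMod.natCast_eq_zero_iff]
    exact hd
  -- (i)
  have hKN : ∀ h ∈ K, ∃ h' ∈ N, ∃ g ∈ (F : Subgroup G) ⊓ K, h = h' * g := by
    intro h hh
    obtain ⟨g, hg, n, hn, he⟩ := hDec hQuoC G p K N γ hGq K F le_rfl hGq.cloY hd h⁻¹ (K.inv_mem hh)
    refine ⟨n⁻¹, N.inv_mem hn.2, g⁻¹, ⟨(F : Subgroup G).inv_mem hg.2, K.inv_mem hg.1⟩, ?_⟩
    rw [← mul_inv_rev, ← he, inv_inv]
  obtain ⟨-, -, hCN⟩ := hC G (ZMod p) (F : Subgroup G) K N hfinK hNK hKN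
  -- (ii)
  obtain ⟨M, hM0, hM⟩ : ∃ M : ℕ, 0 < M ∧ γ ^ M ∈ (F : Subgroup G) := by
    obtain ⟨M, hM, -, hM'⟩ := Subgroup.exists_pow_mem_of_index_ne_zero hFfin.index_ne_zero γ
    exact ⟨M, hM, hM'⟩
  obtain ⟨δ', hδ'⟩ := hSub hPc G p K N γ hGq (F : Subgroup G) hFK F.isClosed ⟨M, hM0, hM⟩
  obtain ⟨γ', hγ'⟩ := hPL G p (F : Subgroup G) ((F : Subgroup G) ⊓ N) δ' hδ'
  have hγF : γ' ∈ (F : Subgroup G) := hγ'.mem
  have hγK : γ' ∈ K := hFK hγF
  have hnormN : ∀ y ∈ K, ∀ n : G, n ∈ N ↔ y * n * y⁻¹ ∈ N := by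
    intro y hy n
    refine ⟨hGq.nrm y hy n, fun h => ?_⟩
    have h1 := hGq.nrm y⁻¹ (K.inv_mem hy) _ h
    have h2 : y⁻¹ * (y * n * y⁻¹) * y⁻¹⁻¹ = n := by group
    rwa [h2] at h1
  -- (iii)
  have hstab : ∀ g ∈ C0 (p := p) hA Ls (F : Subgroup G) N hfinN,
      (fun x => g (γ'⁻¹ * x * γ')) ∈ C0 (p := p) hA Ls (F : Subgroup G) N hfinN := by
    rintro g ⟨⟨g1, g2, ⟨O, g3⟩, g4⟩, g5⟩
    have hW : ∀ x : G, x ∈ (F : Subgroup G) ⊓ N ↔ γ'⁻¹ * x * γ' ∈ (F : Subgroup G) ⊓ N := by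
      intro x
      have h1 := hnormN γ' hγK (γ'⁻¹ * x * γ')
      have h2 : γ' * (γ'⁻¹ * x * γ') * γ'⁻¹ = x := by group
      rw [h2] at h1
      refine ⟨fun h => ⟨?_, h1.2 h.2⟩, fun h => ⟨?_, h1.1 h.2⟩⟩
      · exact (F : Subgroup G).mul_mem ((F : Subgroup G).mul_mem ((F : Subgroup G).inv_mem hγF) h.1) hγF
      · rw [← h2]
        exact (F : Subgroup G).mul_mem ((F : Subgroup G).mul_mem hγF h.1) ((F : Subgroup G).inv_mem hγF)
    have hmul : ∀ x y : G, γ'⁻¹ * (x * y) * γ' = (γ'⁻¹ * x * γ') * (γ'⁻¹ * y * γ') := by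
      intro x y
      group
    refine ⟨⟨fun x hx => g1 _ fun h => hx ((hW x).2 h), fun x hx y hy => ?_, ?_, ?_⟩, ?_⟩
    · simp only []
      rw [hmul]
      exact g2 _ ((hW x).1 hx) _ ((hW y).1 hy)
    · obtain ⟨O', hO'n, hO'⟩ := small O
      refine ⟨O', fun x hx hxO => g3 _ ((hW x).1 hx) (hO' _ ?_)⟩
      have h1 := hO'n.conj_mem x hxO γ'⁻¹
      rwa [inv_inv] at h1
    · intro Λ hΛ x hxΛ hx
      refine g4 (cj γ'⁻¹ Λ) (hLs _ (K.inv_mem hγK) Λ hΛ) _ ?_ ((hW x).1 hx)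
      refine ⟨x, hxΛ, ?_⟩
      simp [MulAut.conj_apply]
    · intro n hn
      have h1 := (hA G (ZMod p) (ZMod p) (F : Subgroup G) N hfinN).2.2.2.2 g g2 γ' hγF (hnormN γ' hγK) n hn
      rw [h1]
      refine g5 _ ?_
      rw [hnormN γ' hγK]
      have h2 : γ' * (γ'⁻¹ * n * γ') * γ'⁻¹ = n := by group
      rwa [h2]
  obtain ⟨f₁, ⟨hf1, hf1cr⟩, hf1ne, hf1inv⟩ := hFixV G p (F : Subgroup G) ((F : Subgroup G) ⊓ N) γ' hγ'
    (C0 (p := p) hA Ls (F : Subgroup G) N hfinN)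
    (fun g hg => ⟨hg.1.1, hg.1.2.1, hg.1.2.2.1, fun Λ hΛ => absurd hΛ (Set.notMem_empty Λ)⟩) hstab
    ⟨f, ⟨hf, hcr⟩, hf0⟩
  obtain ⟨s1, s2, ⟨O₁, s3⟩, s4⟩ := hf1
  -- (iv)
  obtain ⟨h', hh1, ⟨O₂, hh2⟩, hh3, -⟩ := hSemi hVal G p (F : Subgroup G) ((F : Subgroup G) ⊓ N) γ' hγ'
    (Multiplicative (ZMod p)) (fun g => Multiplicative.ofAdd (f₁ g)) 1
    (fun x hx y hy => by
      rw [s2 x hx y hy]
      rfl)
    ⟨O₁, fun x hx hxO => by
      rw [s3 x hx hxO]
      rfl⟩ ⟨0, by rw [one_pow]⟩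
    (fun x hx => by
      rw [one_mul, inv_one, mul_one, hf1inv γ' hγF x hx])
  classical
  set f' : G → ZMod p := fun g => if g ∈ (F : Subgroup G) then Multiplicative.toAdd (h' g) else 0
    with hf'
  have f'F : ∀ g ∈ (F : Subgroup G), f' g = Multiplicative.toAdd (h' g) := fun g hg => by
    simp only [hf']
    rw [if_pos hg]
  have f'add : AddOn (F : Subgroup G) f' := by
    intro x hx y hy
    rw [f'F _ hx, f'F _ hy, f'F _ ((F : Subgroup G).mul_mem hx hy), hh1 x hx y hy]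
    rfl
  have f'W : ∀ g ∈ (F : Subgroup G) ⊓ N, f' g = f₁ g := by
    intro g hg
    rw [f'F _ hg.1, hh3 g hg]
    rfl
  -- (v)
  set c := cr (F : Subgroup G) K f' with hc
  have f'addK : AddOn ((F : Subgroup G) ⊓ K) f' := fun x hx y hy => f'add x hx.1 y hy.1
  have cadd : AddOn K c := (hA G (ZMod p) (ZMod p) (F : Subgroup G) K hfinK).1 f' f'addK
  have cN : ∀ n ∈ N, c n = 0 := by
    intro n hn
    rw [hc, hCN f' f'addK n hn, (hA G (ZMod p) (ZMod p) (F : Subgroup G) N hfinN).2.2.1 f' f₁ f'W]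
    exact hf1cr n hn
  set f'' : G → ZMod p := fun g => if g ∈ (F : Subgroup G) then f' g - (d : ZMod p)⁻¹ * c g else 0
    with hf''
  have f''F : ∀ g ∈ (F : Subgroup G), f'' g = f' g - (d : ZMod p)⁻¹ * c g := fun g hg => by
    simp only [hf'']
    rw [if_pos hg]
  have f''add : AddOn (F : Subgroup G) f'' := by
    intro x hx y hy
    rw [f''F _ hx, f''F _ hy, f''F _ ((F : Subgroup G).mul_mem hx hy), f'add x hx y hy,
      cadd x (hFK hx) y (hFK hy)]
    ring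
  have f''W : ∀ g ∈ (F : Subgroup G) ⊓ N, f'' g = f₁ g := by
    intro g hg
    rw [f''F _ hg.1, f'W g hg, cN g hg.2, mul_zero, sub_zero]
  have f''addK : AddOn ((F : Subgroup G) ⊓ K) f'' := fun x hx y hy => f''add x hx.1 y hy.1
  have f''cr : ∀ n ∈ K, cr (F : Subgroup G) K f'' n = 0 := by
    intro n hn
    obtain ⟨r, x, m, hx, hm, hform⟩ := hB G (F : Subgroup G) K hfinK n hn
    have h1 : c n = ∑ i, f' ((x i)⁻¹ * n ^ m i * x i) := hform (ZMod p) f' f'addK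
    have h2 : ∑ i, c ((x i)⁻¹ * n ^ m i * x i) = (d : ZMod p) * c n := by
      rw [hddef, ← hm]
      push_cast
      rw [Finset.sum_mul]
      refine Finset.sum_congr rfl fun i _ => ?_
      rw [cnj cadd (hx i).1 hn, nsmul_eq_mul]
    rw [hform (ZMod p) f'' f''addK]
    have h3 : ∀ i, f'' ((x i)⁻¹ * n ^ m i * x i)
        = f' ((x i)⁻¹ * n ^ m i * x i) - (d : ZMod p)⁻¹ * c ((x i)⁻¹ * n ^ m i * x i) :=
      fun i => f''F _ (hx i).2.1
    rw [Finset.sum_congr rfl fun i _ => h3 i, Finset.sum_sub_distrib, ← Finset.mul_sum, h2, ← h1,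
      ← mul_assoc, inv_mul_cancel₀ hd0, one_mul, sub_self]
  have f''loc : ∃ O : OpenSubgroup G, ∀ g ∈ (F : Subgroup G), g ∈ O → f'' g = 0 := by
    obtain ⟨O, hOn, hO⟩ := small (O₂ ⊓ F)
    refine ⟨O, fun g hg hgO => ?_⟩
    have h0 : ∀ y ∈ O, f' y = 0 := by
      intro y hy
      rw [f'F y (hO y hy).2, hh2 y (hO y hy).2 (hO y hy).1]
      rfl
    have h1 : c g = 0 := by
      obtain ⟨r, x, m, hx, hm, hform⟩ := hB G (F : Subgroup G) K hfinK g (hFK hg)
      rw [hc, hform (ZMod p) f' f'addK]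
      refine Finset.sum_eq_zero fun i _ => h0 _ ?_
      have h2 : g ^ m i ∈ (O : Subgroup G) := (O : Subgroup G).pow_mem hgO _
      have h3 := hOn.conj_mem _ h2 (x i)⁻¹
      rwa [inv_inv] at h3
    rw [f''F g hg, h0 g hgO, h1, mul_zero, sub_zero]
  -- (vi)
  have f''V : f'' ∈ VV p Ls (F : Subgroup G) := by
    refine ⟨fun g hg => ?_, f''add, f''loc, ?_⟩
    · simp only [hf'']
      rw [if_neg hg]
    · intro Λ hΛ g hgΛ hgF
      rcases hLoc Λ hΛ with h1 | ⟨D, hD, hΛD⟩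
      · have h2 : g ∈ (F : Subgroup G) ⊓ N := ⟨hgF, h1 ⟨hgΛ, hFK hgF⟩⟩
        rw [f''W g h2]
        exact s4 Λ hΛ g hgΛ h2
      · -- the decomposition group
        set Δ := D ⊓ K with hΔ
        have hΔK : Δ ≤ K := inf_le_right
        have hΔF : ∀ h ∈ K, ∃ h' ∈ Δ, ∃ g ∈ (F : Subgroup G) ⊓ K, h = h' * g := by
          intro h hh
          obtain ⟨a, ha, b, hb, he⟩ := hDF D hD h hh
          exact ⟨a, ha, b, ⟨hb, hFK hb⟩, he⟩
        obtain ⟨hfinΔ, hind, hCΔ⟩ := hC G (ZMod p) (F : Subgroup G) K Δ hfinK hΔK hΔF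
        have hcl : IsClosed (Δ : Set G) := (hDcl D hD).inter hGq.cloY
        have hdec := hDec hQuoC G p K N γ hGq Δ F hΔK hcl (by rw [hind]; exact hd)
        have hz : ∀ y ∈ Δ, y ∈ (F : Subgroup G) → y ∈ N → f'' y = 0 := by
          intro y hy hyF hyN
          rw [f''W y ⟨hyF, hyN⟩]
          exact s4 D (hDs hD) y hy.1 ⟨hyF, hyN⟩
        have hwd : ∀ a ∈ Δ ⊓ (F : Subgroup G), ∀ b ∈ Δ ⊓ (F : Subgroup G), ∀ n ∈ Δ ⊓ N,
            ∀ n' ∈ Δ ⊓ N, a * n = b * n' → f'' a = f'' b := by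
          intro a ha b hb n hn n' hn' he
          have h1 : b⁻¹ * a = n' * n⁻¹ := by
            rw [eq_mul_inv_iff_mul_eq, mul_assoc, he, inv_mul_cancel_left]
          have h2 : f'' (b⁻¹ * a) = 0 :=
            hz _ (Δ.mul_mem (Δ.inv_mem hb.1) ha.1) ((F : Subgroup G).mul_mem ((F : Subgroup G).inv_mem hb.2) ha.2)
              (by rw [h1]; exact N.mul_mem hn'.2 (N.inv_mem hn.2))
          rw [f''add _ ((F : Subgroup G).inv_mem hb.2) _ ha.2, inv f''add hb.2] at h2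
          exact (neg_add_eq_zero.1 h2).symm
        have hchoice : ∀ y : G, ∃ g : G, y ∈ Δ → g ∈ Δ ⊓ (F : Subgroup G) ∧ ∃ n ∈ Δ ⊓ N, y = g * n := by
          intro y
          by_cases hy : y ∈ Δ
          · obtain ⟨g, hg, n, hn, he⟩ := hdec y hy
            exact ⟨g, fun _ => ⟨hg, n, hn, he⟩⟩
          · exact ⟨1, fun h => absurd h hy⟩
        choose σ hσ using hchoice
        set e : G → ZMod p := fun y => f'' (σ y) with he
        have heq : ∀ a ∈ Δ ⊓ (F : Subgroup G), ∀ n ∈ Δ ⊓ N, e (a * n) = f'' a := by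
          intro a ha n hn
          obtain ⟨h1, n', hn', h2⟩ := hσ (a * n) (Δ.mul_mem ha.1 hn.1)
          exact hwd _ h1 a ha n' hn' n hn h2.symm
        have eadd : AddOn Δ e := by
          intro x hx y hy
          obtain ⟨a, ha, n, hn, h1⟩ := hdec x hx
          obtain ⟨b, hb, n', hn', h2⟩ := hdec y hy
          have h3 : b⁻¹ * n * b ∈ Δ ⊓ N := by
            refine ⟨Δ.mul_mem (Δ.mul_mem (Δ.inv_mem hb.1) hn.1) hb.1, ?_⟩
            have h4 := hGq.nrm b⁻¹ (K.inv_mem (hΔK hb.1)) n hn.2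
            rwa [inv_inv] at h4
          have h5 : x * y = (a * b) * ((b⁻¹ * n * b) * n') := by
            rw [h1, h2]
            group
          rw [h5, heq _ (mul_mem ha hb) _ (mul_mem h3 hn'), h1, h2, heq a ha n hn, heq b hb n' hn',
            f''add a ha.2 b hb.2]
        have ef : ∀ y ∈ (F : Subgroup G) ⊓ Δ, e y = f'' y := by
          intro y hy
          have h1 := heq y ⟨hy.2, hy.1⟩ 1 ⟨Δ.one_mem, N.one_mem⟩
          rwa [mul_one] at h1
        have ez : ∀ y ∈ Δ, e y = 0 := by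
          intro y hy
          have h1 := orb hB (F : Subgroup G) Δ hfinΔ e eadd y hy
          rw [(hA G (ZMod p) (ZMod p) (F : Subgroup G) Δ hfinΔ).2.2.1 e f'' ef,
            ← hCΔ f'' f''addK y hy, f''cr y (hΔK hy), hind] at h1
          rcases mul_eq_zero.1 h1.symm with h2 | h2
          · exact absurd h2 hd0
          · exact h2
        have hgΔ : g ∈ Δ := ⟨hΛD hgΛ, hFK hgF⟩
        rw [← ef g ⟨hgF, hgΔ⟩]
        exact ez g hgΔ
  -- (vii)
  obtain ⟨e', he', hee⟩ := hext f'' f''V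
  have ez : ∀ n ∈ K, e' n = 0 := by
    intro n hn
    have h1 := orb hB (F : Subgroup G) K hfinK e' he'.2.1 n hn
    rw [(hA G (ZMod p) (ZMod p) (F : Subgroup G) K hfinK).2.2.1 e' f'' (fun x hx => hee x hx.1),
      f''cr n hn] at h1
    rcases mul_eq_zero.1 h1.symm with h2 | h2
    · exact absurd h2 hd0
    · exact h2
  apply hf1ne
  funext g
  by_cases hg : g ∈ (F : Subgroup G) ⊓ N
  · rw [← f''W g hg, ← hee g hg.1, ez g (hFK hg.1)]
    rfl
  · exact s1 g hg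

end Pool.Agent.MuZ
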