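import Pool.Agent.Lib.MuZ.ESpec

/-!
# Transfer: general lemmas (independence of the representatives, orbit decomposition)
-/

set_option autoImplicit false

noncomputable section

namespace Pool.Agent.MuZ.CrL

variable {H A : Type*} [Group H] [AddCommGroup A]

/-- The transfer for a choice `σ` of representatives. -/
def TT (K : Subgroup H) (f : H → A) (σ : H ⧸ K → H) (n : H) : A :=
  ∑ᶠ x : H ⧸ K, f ((σ (n • x))⁻¹ * n * σ x)

/-- Additivity on a subgroup. -/
def AddK (K : Subgroup H) (f : H → A) : Prop := ∀ x ∈ K, ∀ y ∈ K, f (x * y) = f x + f y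

variable {K : Subgroup H} {f : H → A}

theorem AddK.one (hf : AddK K f) : f 1 = 0 := by
  have h := hf 1 K.one_mem 1 K.one_mem
  rw [mul_one] at h
  exact left_eq_add.1 h

theorem AddK.inv (hf : AddK K f) (x : H) (hx : x ∈ K) : f x⁻¹ = -f x := by
  have h := hf x⁻¹ (K.inv_mem hx) x hx
  rw [inv_mul_cancel, hf.one] at h
  exact eq_neg_of_add_eq_zero_left h.symm

theorem mem_aux (σ : H ⧸ K → H) (hσ : ∀ x, ((σ x : H) : H ⧸ K) = x) (n : H) (x : H ⧸ K) :
    (σ (n • x))⁻¹ * n * σ x ∈ K := by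
  rw [mul_assoc]
  apply QuotientGroup.eq.1
  rw [hσ]
  conv_lhs => rw [← hσ x]
  rfl

/-- The transfer does not depend on the representatives. -/
theorem TT_indep [Finite (H ⧸ K)] (hf : AddK K f) (σ σ' : H ⧸ K → H)
    (hσ : ∀ x, ((σ x : H) : H ⧸ K) = x) (hσ' : ∀ x, ((σ' x : H) : H ⧸ K) = x) (n : H) :
    TT K f σ n = TT K f σ' n := by
  classical
  have := Fintype.ofFinite (H ⧸ K)
  unfold TT
  rw [finsum_eq_sum_of_fintype, finsum_eq_sum_of_fintype]
  have hu : ∀ x, (σ x)⁻¹ * σ' x ∈ K := fun x => by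
    apply QuotientGroup.eq.1
    rw [hσ, hσ']
  have h1 : ∀ x : H ⧸ K, f ((σ' (n • x))⁻¹ * n * σ' x) =
      (-f ((σ (n • x))⁻¹ * σ' (n • x)) + f ((σ (n • x))⁻¹ * n * σ x)) + f ((σ x)⁻¹ * σ' x) := by
    intro x
    have e : (σ' (n • x))⁻¹ * n * σ' x =
        (((σ (n • x))⁻¹ * σ' (n • x))⁻¹ * ((σ (n • x))⁻¹ * n * σ x)) * ((σ x)⁻¹ * σ' x) := by
      group
    rw [e, hf _ (K.mul_mem (K.inv_mem (hu _)) (mem_aux σ hσ n x)) _ (hu x),
      hf _ (K.inv_mem (hu _)) _ (mem_aux σ hσ n x), hf.inv _ (hu _)]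
  rw [Finset.sum_congr rfl (fun x _ => h1 x), Finset.sum_add_distrib, Finset.sum_add_distrib,
    Finset.sum_neg_distrib]
  have h2 : ∑ x : H ⧸ K, f ((σ (n • x))⁻¹ * σ' (n • x)) = ∑ x : H ⧸ K, f ((σ x)⁻¹ * σ' x) :=
    Fintype.sum_equiv (MulAction.toPerm n) _ _ (fun _ => rfl)
  rw [h2]
  abel

/-- The transfer is additive. -/
theorem TT_mul [Finite (H ⧸ K)] (hf : AddK K f) (σ : H ⧸ K → H)
    (hσ : ∀ x, ((σ x : H) : H ⧸ K) = x) (n n' : H) :
    TT K f σ (n * n') = TT K f σ n + TT K f σ n' := by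
  classical
  have := Fintype.ofFinite (H ⧸ K)
  unfold TT
  rw [finsum_eq_sum_of_fintype, finsum_eq_sum_of_fintype, finsum_eq_sum_of_fintype]
  have h1 : ∀ x : H ⧸ K, f ((σ ((n * n') • x))⁻¹ * (n * n') * σ x) =
      f ((σ (n • (n' • x)))⁻¹ * n * σ (n' • x)) + f ((σ (n' • x))⁻¹ * n' * σ x) := by
    intro x
    have e : (σ ((n * n') • x))⁻¹ * (n * n') * σ x =
        ((σ (n • (n' • x)))⁻¹ * n * σ (n' • x)) * ((σ (n' • x))⁻¹ * n' * σ x) := by
      rw [mul_smul]
      group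
    rw [e, hf _ (mem_aux σ hσ n _) _ (mem_aux σ hσ n' x)]
  rw [Finset.sum_congr rfl (fun x _ => h1 x), Finset.sum_add_distrib]
  congr 1
  exact Fintype.sum_equiv (MulAction.toPerm n') _ _ (fun _ => rfl)

/-- The values on `K` suffice. -/
theorem TT_congr {f' : H → A} (σ : H ⧸ K → H) (hσ : ∀ x, ((σ x : H) : H ⧸ K) = x)
    (h : ∀ x ∈ K, f x = f' x) (n : H) : TT K f σ n = TT K f' σ n := by
  unfold TT
  exact finsum_congr fun x => h _ (mem_aux σ hσ n x)

/-- Transport by an automorphism `c` of `H` which preserves `K`. -/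
theorem TT_conj [Finite (H ⧸ K)] (hf : AddK K f) (c : H ≃* H) (hc : ∀ h, h ∈ K ↔ c h ∈ K)
    (σ : H ⧸ K → H) (hσ : ∀ x, ((σ x : H) : H ⧸ K) = x) (n : H) :
    TT K (fun h => f (c h)) σ n = TT K f σ (c n) := by
  classical
  have := Fintype.ofFinite (H ⧸ K)
  let e : H ⧸ K ≃ H ⧸ K := Quotient.congr c.toEquiv (by
    intro a b
    rw [QuotientGroup.leftRel_apply, QuotientGroup.leftRel_apply, hc, map_mul, map_inv]
    rfl)
  have he : ∀ h : H, e ((h : H) : H ⧸ K) = ((c h : H) : H ⧸ K) := fun h => rfl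
  have hes : ∀ x : H ⧸ K, e (n • x) = c n • e x := by
    intro x
    obtain ⟨h, rfl⟩ := QuotientGroup.mk_surjective x
    show ((c (n * h) : H) : H ⧸ K) = ((c n * c h : H) : H ⧸ K)
    rw [map_mul]
  have hσ' : ∀ y, ((c (σ (e.symm y)) : H) : H ⧸ K) = y := by
    intro y
    rw [← he, hσ, Equiv.apply_symm_apply]
  rw [TT_indep hf σ (fun y => c (σ (e.symm y))) hσ hσ' (c n)]
  unfold TT
  rw [finsum_eq_sum_of_fintype, finsum_eq_sum_of_fintype]
  refine Fintype.sum_equiv e _ _ (fun x => ?_)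
  rw [← hes]
  simp only [Equiv.symm_apply_apply, map_mul, map_inv]

/-- Orbit formula. -/
theorem TT_orbit [K.FiniteIndex] (hf : AddK K f) (σ : H ⧸ K → H)
    (hσ : ∀ x, ((σ x : H) : H ⧸ K) = x) (n : H)
    [Fintype (Quotient (MulAction.orbitRel (Subgroup.zpowers n) (H ⧸ K)))] :
    TT K f σ n = ∑ q : Quotient (MulAction.orbitRel (Subgroup.zpowers n) (H ⧸ K)),
      f (q.out.out⁻¹ * n ^ Function.minimalPeriod (n • ·) q.out * q.out.out) := by
  classical
  let := K.fintypeQuotientOfFiniteIndex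
  rw [TT_indep hf σ (Subgroup.transferFunction K n) hσ (Subgroup.coe_transferFunction n) n]
  unfold TT
  rw [finsum_eq_sum_of_fintype]
  have h0 : ∑ x : H ⧸ K, f ((Subgroup.transferFunction K n (n • x))⁻¹ * n * Subgroup.transferFunction K n x) =
      ∑ y : H ⧸ K, f (((((Subgroup.transferTransversal K n).2.leftQuotientEquiv y : _) : H))⁻¹ *
        (((n • Subgroup.transferTransversal K n).2.leftQuotientEquiv y : _) : H)) := by
    refine Fintype.sum_equiv (MulAction.toPerm n) _ _ (fun x => ?_)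
    rw [MulAction.toPerm_apply, Subgroup.smul_apply_eq_smul_apply_inv_smul, inv_smul_smul,
      Subgroup.transferTransversal_apply, Subgroup.transferTransversal_apply, smul_eq_mul, mul_assoc]
  rw [h0]
  calc _ = ∑ s, _ := ((Subgroup.quotientEquivSigmaZMod K n).symm.sum_comp _).symm
    _ = _ := Finset.sum_sigma _ _ _
    _ = _ := by
      refine Fintype.sum_congr _ _ (fun q => ?_)
      simp only [Subgroup.quotientEquivSigmaZMod_symm_apply, Subgroup.transferTransversal_apply',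
        Subgroup.transferTransversal_apply'']
      rw [Fintype.sum_eq_single (0 : ZMod (Function.minimalPeriod (n • ·) q.out)) _]
      · simp only [if_pos, ZMod.cast_zero, zpow_zero, one_mul, mul_assoc]
      · intro k hk
        simp only [if_neg hk, inv_mul_cancel]
        exact hf.one

end Pool.Agent.MuZ.CrL
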