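import Pool.Agent.Lib.MuZ.ESpec
import Pool.Agent.Lib.MuZ.CrL

/-!
# Transfer, first properties
-/

set_option autoImplicit false

noncomputable section

namespace Pool.Agent.MuZ

namespace CrL

theorem cr_eq {G A : Type} [Group G] [AddCommGroup A] (F H : Subgroup G) (f : G → A) (n : G)
    (h : n ∈ H) : cr F H f n = TT (F.subgroupOf H) (fun y : H => f (y : G)) Quotient.out ⟨n, h⟩ := by
  unfold cr TT
  rw [dif_pos h]
  rfl

theorem cr_not {G A : Type} [Group G] [AddCommGroup A] (F H : Subgroup G) (f : G → A) (n : G)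
    (h : n ∉ H) : cr F H f n = 0 := by
  unfold cr
  rw [dif_neg h]

theorem addK {G A : Type} [Group G] [AddCommGroup A] {F H : Subgroup G} {f : G → A}
    (hf : AddOn (F ⊓ H) f) : AddK (F.subgroupOf H) (fun y : H => f (y : G)) := by
  intro x hx y hy
  exact hf x ⟨hx, x.2⟩ y ⟨hy, y.2⟩

theorem out_eq {H : Type*} [Group H] (K : Subgroup H) (x : H ⧸ K) :
    ((Quotient.out x : H) : H ⧸ K) = x := Quotient.out_eq' x

end CrL

open CrL in
theorem e_CrA : S_CrA := by
  intro G A B _ _ _ F H hfin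
  have hfq : Finite (↥H ⧸ F.subgroupOf H) := inferInstance
  refine ⟨?_, ?_, ?_, ?_, ?_⟩
  · intro f hf x hx y hy
    rw [cr_eq F H f _ (H.mul_mem hx hy), cr_eq F H f _ hx, cr_eq F H f _ hy]
    exact TT_mul (addK hf) Quotient.out (out_eq _) ⟨x, hx⟩ ⟨y, hy⟩
  · intro f f'
    funext n
    rw [Pi.add_apply]
    by_cases h : n ∈ H
    · rw [cr_eq F H _ _ h, cr_eq F H _ _ h, cr_eq F H _ _ h]
      unfold TT
      rw [← finsum_add_distrib (Set.toFinite _) (Set.toFinite _)]
      rfl
    · rw [cr_not F H _ _ h, cr_not F H _ _ h, cr_not F H _ _ h, add_zero]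
  · intro f f' hff
    funext n
    by_cases h : n ∈ H
    · rw [cr_eq F H _ _ h, cr_eq F H _ _ h]
      exact TT_congr (K := F.subgroupOf H) (f := fun y : H => f (y : G))
        (f' := fun y : H => f' (y : G)) Quotient.out (out_eq _) (fun x hx => hff _ ⟨hx, x.2⟩) _
    · rw [cr_not F H _ _ h, cr_not F H _ _ h]
  · intro φ f
    funext n
    by_cases h : n ∈ H
    · rw [cr_eq F H _ _ h, cr_eq F H _ _ h]
      unfold TT
      rw [AddMonoidHom.map_finsum φ (Set.toFinite _)]
    · rw [cr_not F H _ _ h, cr_not F H _ _ h, map_zero]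
  · intro f hf g hg hnorm n hn
    have hm : ∀ z ∈ H, g⁻¹ * z * g ∈ H := by
      intro z hz
      rw [hnorm]
      have e : g * (g⁻¹ * z * g) * g⁻¹ = z := by group
      rw [e]
      exact hz
    let c : H ≃* H :=
      { toFun := fun z => ⟨g⁻¹ * z * g, hm z z.2⟩
        invFun := fun z => ⟨g * z * g⁻¹, (hnorm z).1 z.2⟩
        left_inv := fun z => Subtype.ext (by
          show g * (g⁻¹ * (z : G) * g) * g⁻¹ = z
          group)
        right_inv := fun z => Subtype.ext (by
          show g⁻¹ * (g * (z : G) * g⁻¹) * g = z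
          group)
        map_mul' := fun z w => Subtype.ext (by
          show g⁻¹ * ((z : G) * w) * g = (g⁻¹ * z * g) * (g⁻¹ * w * g)
          group) }
    have hc : ∀ h : H, h ∈ F.subgroupOf H ↔ c h ∈ F.subgroupOf H := by
      intro h
      rw [Subgroup.mem_subgroupOf, Subgroup.mem_subgroupOf]
      show (h : G) ∈ F ↔ g⁻¹ * (h : G) * g ∈ F
      rw [F.mul_mem_cancel_right hg, F.mul_mem_cancel_left (F.inv_mem hg)]
    rw [cr_eq F H _ _ hn, cr_eq F H _ _ (hm n hn)]
    exact TT_conj (addK hf) c hc Quotient.out (out_eq _) ⟨n, hn⟩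

end Pool.Agent.MuZ
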