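import Pool.Agent.Lib.MuZ.ESpec
import Pool.Agent.Lib.MuZ.CrA

/-!
# Transfer and restriction
-/

set_option autoImplicit false

noncomputable section

namespace Pool.Agent.MuZ

open CrL in
theorem e_CrC : S_CrC := by
  intro G A _ _ F H H' hfin hle hsurj
  have hfq : Finite (↥H ⧸ F.subgroupOf H) := inferInstance
  obtain ⟨φ, hφ⟩ : ∃ φ : (↥H' ⧸ F.subgroupOf H') ↪ (↥H ⧸ F.subgroupOf H),
      φ = Subgroup.quotientSubgroupOfEmbeddingOfLE F hle := ⟨_, rfl⟩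
  have hφm : ∀ g : H', φ (g : ↥H' ⧸ F.subgroupOf H') =
      ((Subgroup.inclusion hle g : H) : ↥H ⧸ F.subgroupOf H) := by
    intro g
    rw [hφ]
    rfl
  have hφs : Function.Surjective φ := by
    intro y
    obtain ⟨h, rfl⟩ := QuotientGroup.mk_surjective y
    obtain ⟨h', hh', g, hg, he⟩ := hsurj h h.2
    refine ⟨((⟨h', hh'⟩ : H') : ↥H' ⧸ F.subgroupOf H'), ?_⟩
    rw [hφm]
    apply QuotientGroup.eq.2
    rw [Subgroup.mem_subgroupOf]
    show (h' : G)⁻¹ * (h : G) ∈ F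
    rw [he, inv_mul_cancel_left]
    exact hg.1
  obtain ⟨e, he⟩ : ∃ e : (↥H' ⧸ F.subgroupOf H') ≃ (↥H ⧸ F.subgroupOf H), ∀ x, e x = φ x :=
    ⟨Equiv.ofBijective φ ⟨φ.injective, hφs⟩, fun _ => rfl⟩
  have hfq' : Finite (↥H' ⧸ F.subgroupOf H') := Finite.of_equiv _ e.symm
  refine ⟨Subgroup.finiteIndex_of_finite_quotient, Nat.card_congr e, fun f hf n hn => ?_⟩
  have hn' : n ∈ H := hle hn
  have hes : ∀ x : ↥H' ⧸ F.subgroupOf H',
      e ((⟨n, hn⟩ : H') • x) = (⟨n, hn'⟩ : H) • e x := by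
    intro x
    obtain ⟨h, rfl⟩ := QuotientGroup.mk_surjective x
    rw [he, he]
    show φ (((⟨n, hn⟩ * h : H') : ↥H' ⧸ F.subgroupOf H')) = _
    rw [hφm, hφm]
    rfl
  obtain ⟨σ, hσ⟩ : ∃ σ : (↥H ⧸ F.subgroupOf H) → H,
      σ = fun y => Subgroup.inclusion hle (Quotient.out (e.symm y)) := ⟨_, rfl⟩
  have hσm : ∀ y, ((σ y : H) : ↥H ⧸ F.subgroupOf H) = y := by
    intro y
    rw [hσ]
    show ((Subgroup.inclusion hle (Quotient.out (e.symm y)) : H) : ↥H ⧸ F.subgroupOf H) = y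
    rw [← hφm, out_eq, ← he, Equiv.apply_symm_apply]
  rw [cr_eq F H f n hn', cr_eq F H' f n hn,
    TT_indep (addK hf) Quotient.out σ (out_eq _) hσm ⟨n, hn'⟩]
  unfold TT
  symm
  apply finsum_eq_of_bijective e e.bijective
  intro x
  rw [← hes x]
  have h1 : ∀ x, ((σ (e x) : H) : G) = ((Quotient.out x : H') : G) := by
    intro x
    rw [hσ]
    show ((Subgroup.inclusion hle (Quotient.out (e.symm (e x))) : H) : G) = _
    rw [Equiv.symm_apply_apply]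
    rfl
  have h2 : (((σ (e ((⟨n, hn⟩ : H') • x)))⁻¹ * (⟨n, hn'⟩ : H) * σ (e x) : H) : G) =
      (((Quotient.out ((⟨n, hn⟩ : H') • x))⁻¹ * (⟨n, hn⟩ : H') * Quotient.out x : H') : G) := by
    rw [Subgroup.coe_mul, Subgroup.coe_mul, Subgroup.coe_inv, h1, h1]
    rfl
  exact (congrArg f h2).symm

end Pool.Agent.MuZ
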