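import Pool.Agent.Lib.MuZ.ESpec

/-!
# MP_d0239a, MuE: decomposition of closed subgroups (`S_Dec`)
-/

open scoped Pointwise

noncomputable section

namespace Pool.Agent.MuZ

namespace DecAux

variable {G : Type} [Group G] [TopologicalSpace G] [IsTopologicalGroup G] [CompactSpace G]
  [TotallyDisconnectedSpace G] [T2Space G]

theorem Dec_mem_closed {N : Subgroup G} (hN : IsClosed (N : Set G)) {x : G}
    (h : ∀ U : Subgroup G, IsOpen (U : Set G) → N ≤ U → x ∈ U) : x ∈ N := by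
  have h1 := ProfiniteGrp.closedSubgroup_eq_sInf_open (G := G) ⟨N, hN⟩
  have h2 : x ∈ sInf {K : Subgroup G | IsOpen (K : Set G) ∧ N ≤ K} := by
    rw [Subgroup.mem_sInf]
    rintro K ⟨hK1, hK2⟩
    exact h K hK1 hK2
  have h3 : N = sInf {K : Subgroup G | IsOpen (K : Set G) ∧ N ≤ K} := h1
  rw [h3]
  exact h2

theorem Dec_small (O : OpenSubgroup G) : ∃ O' : OpenSubgroup G,
    (O' : Subgroup G).Normal ∧ ∀ x ∈ O', x ∈ O := by
  obtain ⟨H, hH⟩ := ProfiniteGrp.exist_openNormalSubgroup_sub_open_nhds_of_one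
    (U := (O : Set G)) O.isOpen (one_mem O)
  exact ⟨H.toOpenSubgroup, H.isNormal', fun x hx => hH hx⟩

omit [TopologicalSpace G] [IsTopologicalGroup G] [CompactSpace G]
  [TotallyDisconnectedSpace G] [T2Space G] in
theorem Dec_comm_aux {Y N : Subgroup G} (hn : ∀ y ∈ Y, ∀ n ∈ N, y * n * y⁻¹ ∈ N) {δ : G}
    (hδ : δ ∈ Y) {t s : G} (ht : t ∈ N) (hs : s ∈ N) (i j : ℕ) :
    (δ ^ i * t) * (δ ^ j * s) * (δ ^ i * t)⁻¹ * (δ ^ j * s)⁻¹ ∈ N := by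
  have h1 := hn (δ ^ i) (Y.pow_mem hδ i) t ht
  have h2 := hn (δ ^ (i + j)) (Y.pow_mem hδ _) (s * t⁻¹) (N.mul_mem hs (N.inv_mem ht))
  have h3 := hn (δ ^ j) (Y.pow_mem hδ j) s⁻¹ (N.inv_mem hs)
  have h4 := N.mul_mem (N.mul_mem h1 h2) h3
  have h5 : (δ ^ i * t) * (δ ^ j * s) * (δ ^ i * t)⁻¹ * (δ ^ j * s)⁻¹ =
      δ ^ i * t * (δ ^ i)⁻¹ * (δ ^ (i + j) * (s * t⁻¹) * (δ ^ (i + j))⁻¹) *
        (δ ^ j * s⁻¹ * (δ ^ j)⁻¹) := by
    have h6 : (δ ^ (i + j))⁻¹ = (δ ^ j)⁻¹ * (δ ^ i)⁻¹ := by rw [pow_add, mul_inv_rev]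
    have h7 : δ ^ (i + j) = δ ^ j * δ ^ i := by rw [add_comm, pow_add]
    have h8 : (δ ^ (i + j))⁻¹ = (δ ^ i)⁻¹ * (δ ^ j)⁻¹ := by rw [h7, mul_inv_rev]
    rw [h8, pow_add, mul_inv_rev, mul_inv_rev]
    group
  rw [h5]
  exact h4

theorem Dec_comm {p : ℕ} {Y N : Subgroup G} {δ : G} (h : Gq p Y N δ) {x y : G} (hx : x ∈ Y)
    (hy : y ∈ Y) : x * y * x⁻¹ * y⁻¹ ∈ N := by
  refine Dec_mem_closed h.cloN fun U hU hNU => ?_
  obtain ⟨O, hOn, hOU⟩ := Dec_small (⟨U, hU⟩ : OpenSubgroup G)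
  obtain ⟨i, t, ht, hi⟩ := h.gen x hx O
  obtain ⟨j, s, hs, hj⟩ := h.gen y hy O
  have e1 : (QuotientGroup.mk x : G ⧸ (O : Subgroup G)) = QuotientGroup.mk (δ ^ i * t) := by
    refine QuotientGroup.eq.2 ?_
    rw [← mul_assoc]
    exact hi
  have e2 : (QuotientGroup.mk y : G ⧸ (O : Subgroup G)) = QuotientGroup.mk (δ ^ j * s) := by
    refine QuotientGroup.eq.2 ?_
    rw [← mul_assoc]
    exact hj
  have e3 : (QuotientGroup.mk (x * y * x⁻¹ * y⁻¹) : G ⧸ (O : Subgroup G)) =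
      QuotientGroup.mk ((δ ^ i * t) * (δ ^ j * s) * (δ ^ i * t)⁻¹ * (δ ^ j * s)⁻¹) := by
    simp only [QuotientGroup.mk_mul, QuotientGroup.mk_inv] at e1 e2 ⊢
    rw [e1, e2]
  have e4 : ((δ ^ i * t) * (δ ^ j * s) * (δ ^ i * t)⁻¹ * (δ ^ j * s)⁻¹)⁻¹ *
      (x * y * x⁻¹ * y⁻¹) ∈ (O : Subgroup G) := QuotientGroup.eq.1 e3.symm
  have e5 := hNU (Dec_comm_aux h.nrm h.mem ht hs i j)
  have e6 := U.mul_mem e5 (hOU _ e4)
  rwa [mul_inv_cancel_left] at e6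

end DecAux

open DecAux in
theorem e_Dec : S_Dec := by
  intro hQ G _ _ _ _ _ _ p _ Y N δ h Λ F hΛ hc hind y hy
  have hp : p.Prime := Fact.out
  let P : Subgroup Λ := (F : Subgroup G).subgroupOf Λ
  let M : Subgroup Λ := N.subgroupOf Λ
  have hcomm : ∀ a b : Λ, a * b * a⁻¹ * b⁻¹ ∈ M := fun a b =>
    Subgroup.mem_subgroupOf.2 (Dec_comm h (hΛ a.2) (hΛ b.2))
  have hM : M.Normal := ⟨fun n hn g =>
    Subgroup.mem_subgroupOf.2 (h.nrm g (hΛ g.2) n (Subgroup.mem_subgroupOf.1 hn))⟩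
  let B : Subgroup Λ := P ⊔ M
  have hMB : M ≤ B := le_sup_right
  have hPB : P ≤ B := le_sup_left
  have hB : B.Normal := by
    refine ⟨fun b hb g => ?_⟩
    have h1 := B.mul_mem (hMB (hcomm g b)) hb
    rwa [inv_mul_cancel_right] at h1
  have hdvd : B.index ∣ P.index := Subgroup.index_dvd_of_le hPB
  have hP0 : P.index ≠ 0 := by
    intro h0
    exact hind (h0 ▸ dvd_zero p)
  have hB0 : B.index ≠ 0 := fun h0 => hP0 (Nat.eq_zero_of_zero_dvd (h0 ▸ hdvd))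
  have hfin : Finite (Λ ⧸ B) := Nat.finite_of_card_ne_zero hB0
  have hpg : IsPGroup p (Λ ⧸ B) := by
    intro q
    induction q using QuotientGroup.induction_on with
    | H z =>
      obtain ⟨a, t, ht, hat⟩ := hQ G p Y N δ h Λ hΛ hc z z.2 F
      refine ⟨a, ?_⟩
      rw [← QuotientGroup.mk_pow, QuotientGroup.eq_one_iff]
      have h1 : z ^ p ^ a * ⟨t, ht.1⟩ ∈ P := Subgroup.mem_subgroupOf.2 hat
      have h2 : (⟨t, ht.1⟩ : Λ) ∈ M := Subgroup.mem_subgroupOf.2 ht.2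
      have h3 := B.mul_mem (hPB h1) (B.inv_mem (hMB h2))
      rwa [mul_inv_cancel_right] at h3
  obtain ⟨n, hn⟩ := IsPGroup.iff_card.1 hpg
  have hn' : B.index = p ^ n := hn
  have hn0 : n = 0 := by
    by_contra hne
    exact hind ((dvd_pow_self p hne).trans (hn' ▸ hdvd))
  have hBtop : B = ⊤ := by
    rw [← Subgroup.index_eq_one, hn', hn0, pow_zero]
  have hyB : (⟨y, hy⟩ : Λ) ∈ ((P : Set Λ) * (M : Set Λ)) := by
    rw [← Subgroup.mul_normal]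
    change (⟨y, hy⟩ : Λ) ∈ B
    rw [hBtop]
    exact Subgroup.mem_top _
  obtain ⟨g, hg, n', hn'', hgn⟩ := hyB
  refine ⟨g, ⟨g.2, Subgroup.mem_subgroupOf.1 hg⟩, n', ⟨n'.2, Subgroup.mem_subgroupOf.1 hn''⟩, ?_⟩
  exact (congrArg Subtype.val hgn).symm

end Pool.Agent.MuZ
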