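import Pool.Agent.Lib.MuZ.ESpec
import Pool.Agent.Lib.MuZ.AsmA
import Pool.Agent.Lib.MuZ.Orb

/-!
# Assembly of Theorem E
-/

open scoped Pointwise

noncomputable section

namespace Pool.Agent.MuZ

/-- **Theorem E** from the statements of the specification. -/
theorem thmE (hCrA : S_CrA) (hCrB : S_CrB) (hCrC : S_CrC) (hFixV : S_FixV) (hQuoC : S_QuoC)
    (hDec : S_Dec) (hCore : S_Core) (hTors : S_Tors) (hVIff : S_VIff) (hH0 : S_H0)
    (hFldQ : S_FldQ) (hKK : S_KK) (hSemi : S_Semi) (hVal : S_Val) (hSub : S_Sub) (hPL : S_PL)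
    (hPc : S_Pc) (hQZ : S_QZ) (hTFix : S_TFix) (hInT : S_InT) (hConj : S_Conj) (hSup : S_Sup)
    (hFld : S_Fld) (hFwd : S_Fwd) (hBwd : S_Bwd) : ThmE := by
  intro p hp0 k F hF hkF hdeg hspl hKF
  have hp : p.Prime := hp0.out
  have hk : FiniteDimensional ℚ k :=
    FiniteDimensional.of_injective (IntermediateField.inclusion hkF).toLinearMap
      (IntermediateField.inclusion hkF).injective
  have hKo : IsOpen (k.fixingSubgroup : Set Gal(Om/ℚ)) := k.fixingSubgroup_isOpen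
  have hKc : IsClosed (k.fixingSubgroup : Set Gal(Om/ℚ)) := k.fixingSubgroup_isClosed
  have hFK : F.fixingSubgroup ≤ k.fixingSubgroup := IntermediateField.fixingSubgroup_le hkF
  obtain ⟨N, hN⟩ : ∃ N : Subgroup Gal(Om/ℚ), N = (cyc p k).fixingSubgroup := ⟨_, rfl⟩
  have hNeq : N = k.fixingSubgroup ⊓ (Qcyc p).fixingSubgroup := by rw [hN, fix_cyc]
  have hNK : N ≤ k.fixingSubgroup := by rw [hNeq]; exact inf_le_left
  -- the procyclic structure
  obtain ⟨γ, hγ⟩ : ∃ γ, Gq p k.fixingSubgroup N γ := by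
    obtain ⟨δ, hδ⟩ := hQZ hTFix p
    have hM : ∃ M : ℕ, 0 < M ∧ δ ^ M ∈ k.fixingSubgroup := by
      have h1 := Subgroup.quotient_finite_of_isOpen k.fixingSubgroup hKo
      have h3 : (k.fixingSubgroup).FiniteIndex := Subgroup.finiteIndex_of_finite_quotient
      have h2 : (k.fixingSubgroup).index ≠ 0 := h3.index_ne_zero
      obtain ⟨n, hn, _, hm⟩ := Subgroup.exists_pow_mem_of_index_ne_zero h2 δ
      exact ⟨n, hn, hm⟩
    obtain ⟨δ', hδ'⟩ := hSub hPc Gal(Om/ℚ) p ⊤ (Qcyc p).fixingSubgroup δ hδ k.fixingSubgroup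
      le_top hKc hM
    rw [← hNeq] at hδ'
    exact ⟨δ', hδ'⟩
  -- the index of `F`
  have hrel : ¬ p ∣ (((opn F : OpenSubgroup Gal(Om/ℚ)) : Subgroup Gal(Om/ℚ)).subgroupOf
      k.fixingSubgroup).index := by
    change ¬ p ∣ F.fixingSubgroup.relIndex k.fixingSubgroup
    intro h
    apply hdeg
    rw [IntermediateField.finrank_eq_fixingSubgroup_index,
      IntermediateField.finrank_eq_fixingSubgroup_index, ← Subgroup.relIndex_mul_index hFK]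
    exact Nat.mul_dvd_mul_right h _
  -- the decomposition groups
  obtain ⟨Ds, hDs⟩ : ∃ Ds : Set (Subgroup Gal(Om/ℚ)), Ds = {Λ | ∃ P : Ideal ZZ, P.IsPrime ∧
      (p : ZZ) ∈ P ∧ Λ = MulAction.stabilizer Gal(Om/ℚ) P} := ⟨_, rfl⟩
  have hDsLs : Ds ⊆ Loc p := by
    rw [hDs]
    exact fun Λ hΛ => Or.inr hΛ
  have hDsc : ∀ D ∈ Ds, IsClosed (D : Set Gal(Om/ℚ)) := by
    rw [hDs]
    rintro D ⟨P, hP, hpP, rfl⟩
    exact Orb.stab_closed P
  have hDK : ∀ D ∈ Ds, ∀ g ∈ k.fixingSubgroup, ∃ d ∈ D ⊓ k.fixingSubgroup,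
      ∃ h ∈ opn F, g = d * h := by
    rw [hDs]
    rintro D ⟨P, hP, hpP, rfl⟩ g hg
    obtain ⟨τ, hτ, hgτ⟩ := hspl P hP hpP g⁻¹ (inv_mem hg)
    refine ⟨g * τ, ⟨?_, mul_mem hg (hFK hτ)⟩, τ⁻¹, ?_, ?_⟩
    · change (g * τ) • P = P
      rw [mul_smul, ← hgτ, smul_inv_smul]
    · exact F.fixingSubgroup.inv_mem hτ
    · rw [mul_inv_cancel_right]
  have hLs2 : ∀ Λ ∈ Loc p, Λ ⊓ k.fixingSubgroup ≤ N ∨ ∃ D ∈ Ds, Λ ≤ D := by
    rintro Λ (⟨P, hP, hne, rfl⟩ | ⟨P, hP, hpP, rfl⟩)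
    · by_cases hpP : (p : ZZ) ∈ P
      · refine Or.inr ⟨MulAction.stabilizer Gal(Om/ℚ) P, ?_, Ideal.inertia_le_stabilizer P⟩
        rw [hDs]
        exact ⟨P, hP, hpP, rfl⟩
      · left
        rw [hNeq]
        exact fun σ hσ => ⟨hσ.2, hInT p hp P hP hpP hσ.1⟩
    · refine Or.inr ⟨MulAction.stabilizer Gal(Om/ℚ) P, ?_, le_rfl⟩
      rw [hDs]
      exact ⟨P, hP, hpP, rfl⟩
  have hcore := hCore hCrA hCrB hCrC hFixV hDec hQuoC hSemi hVal hSub hPL hPc Gal(Om/ℚ) p (Loc p)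
    Ds k.fixingSubgroup N (opn F) γ hγ hFK hrel (fun g _ Λ hΛ => hConj.1 p g Λ hΛ) hDsLs hDsc hDK
    hLs2 (hH0 hFld hSup p k F hF hkF hdeg hKF)
  -- the index of `F ∩ N` in `N`
  have hfi : (((opn F : OpenSubgroup Gal(Om/ℚ)) : Subgroup Gal(Om/ℚ)).subgroupOf
      k.fixingSubgroup).FiniteIndex := by
    have h1 : F.fixingSubgroup.FiniteIndex := Orb.finIndex_of_isOpen _ F.fixingSubgroup_isOpen
    change (F.fixingSubgroup.subgroupOf k.fixingSubgroup).FiniteIndex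
    infer_instance
  have hrelN : ¬ p ∣ (((opn F : OpenSubgroup Gal(Om/ℚ)) : Subgroup Gal(Om/ℚ)).subgroupOf
      N).index := by
    have h1 := hDec hQuoC Gal(Om/ℚ) p k.fixingSubgroup N γ hγ k.fixingSubgroup (opn F) le_rfl hKc
      hrel
    have h2 : ∀ h ∈ k.fixingSubgroup, ∃ h' ∈ N, ∃ g ∈ ((opn F : OpenSubgroup Gal(Om/ℚ)) :
        Subgroup Gal(Om/ℚ)) ⊓ k.fixingSubgroup, h = h' * g := by
      intro h hh
      obtain ⟨g, hg, n, hn, hgn⟩ := h1 h⁻¹ (inv_mem hh)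
      refine ⟨n⁻¹, inv_mem hn.2, g⁻¹, ⟨F.fixingSubgroup.inv_mem hg.2,
        k.fixingSubgroup.inv_mem hg.1⟩, ?_⟩
      rw [← mul_inv_rev, ← hgn, inv_inv]
    have h3 := (hCrC Gal(Om/ℚ) (ZMod p) ((opn F : OpenSubgroup Gal(Om/ℚ)) :
      Subgroup Gal(Om/ℚ)) k.fixingSubgroup N hfi hNK h2).2.1
    rw [h3]
    exact hrel
  have htors := hTors hCrA hCrB Gal(Om/ℚ) p (Loc p) N (opn F)
    (fun g _ Λ hΛ => hConj.1 p g Λ hΛ) hrelN hcore
  have hsupF : F ⊔ cyc p k = cyc p F := by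
    unfold cyc
    rw [← sup_assoc, sup_eq_left.2 hkF]
  have hFN : ((opn F : OpenSubgroup Gal(Om/ℚ)) : Subgroup Gal(Om/ℚ)) ⊓ N =
      (F ⊔ cyc p k).fixingSubgroup := by
    rw [IntermediateField.fixingSubgroup_sup, hN]
    rfl
  constructor
  · have h1 := hKK hFldQ hSup p F (cyc p k) hF (by
      intro j f hf
      rw [← hFN] at hf
      obtain ⟨e, he, hef⟩ := htors j f hf
      rw [hN] at he
      refine ⟨e, he, fun g hg => ?_⟩
      rw [← hFN] at hg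
      exact hef g hg)
    rw [hsupF] at h1
    exact h1
  · have h1 := htors 1
    rw [pow_one] at h1
    have h2 := hVIff hCrA hCrB Gal(Om/ℚ) p (Loc p) N (opn F) hrelN h1
    rw [hFN, hsupF, hN] at h2
    constructor
    · intro h
      exact hBwd hSup p _ (h2.1 (hFwd hFld p _ h))
    · intro h
      exact hBwd hSup p _ (h2.2 (hFwd hFld p _ h))

end Pool.Agent.MuZ
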