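import Pool.Agent.Lib.MuZ.ESpec

/-!
# Level zero
-/

open scoped Pointwise

noncomputable section

namespace Pool.Agent.MuZ

namespace H0

/-- a subgroup of `p`-power index and of index prime to `p` -/
theorem grp {G : Type} [Group G] (p : ℕ) [hp0 : Fact p.Prime] (A B K : Subgroup G) (hAB : A ≤ B) (hBK : B ≤ K)
    (hnd : ¬ p ∣ A.relIndex K) (hc : ∀ σ ∈ K, ∀ τ ∈ K, σ * τ * σ⁻¹ * τ⁻¹ ∈ B)
    (hp : ∀ σ ∈ K, ∃ a : ℕ, σ ^ p ^ a ∈ B) : K ≤ B := by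
  have hN : (B.subgroupOf K).Normal := ⟨fun n hn g => by
    rw [Subgroup.mem_subgroupOf] at hn ⊢
    have h1 := B.mul_mem (hc g g.2 n n.2) hn
    rw [inv_mul_cancel_right] at h1
    exact h1⟩
  have hdvd : B.relIndex K ∣ A.relIndex K :=
    ⟨A.relIndex B, by rw [mul_comm]; exact (Subgroup.relIndex_mul_relIndex A B K hAB hBK).symm⟩
  have h0 : A.relIndex K ≠ 0 := fun h => hnd (h ▸ dvd_zero p)
  have hB0 : B.relIndex K ≠ 0 := fun h => by
    rw [h] at hdvd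
    exact h0 (zero_dvd_iff.1 hdvd)
  have hfi : (B.subgroupOf K).FiniteIndex := ⟨hB0⟩
  have hfin : Finite (K ⧸ B.subgroupOf K) := Subgroup.finite_quotient_of_finiteIndex
  have hpg : IsPGroup p (K ⧸ B.subgroupOf K) := by
    intro g
    obtain ⟨σ, rfl⟩ := QuotientGroup.mk_surjective g
    obtain ⟨a, ha⟩ := hp σ σ.2
    refine ⟨a, ?_⟩
    rw [← QuotientGroup.mk_pow, QuotientGroup.eq_one_iff, Subgroup.mem_subgroupOf]
    exact ha
  obtain ⟨n, hn⟩ := IsPGroup.iff_card.1 hpg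
  have hidx : B.relIndex K = p ^ n := hn
  rw [hidx] at hdvd
  rcases Nat.eq_zero_or_pos n with h | h
  · rw [h, pow_zero] at hidx
    exact Subgroup.relIndex_eq_one.1 hidx
  · exact absurd ((dvd_pow_self p (by omega)).trans hdvd) hnd

/-- the automorphisms which are trivial on all admissible extensions -/
theorem mem_Xi (p : ℕ) (k : IntermediateField ℚ Om) (σ : Gal(Om/ℚ)) :
    σ ∈ (KK p k).fixingSubgroup ↔ ∀ M : IntermediateField ℚ Om, Adm p k M → ∀ x ∈ M, σ x = x := by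
  constructor
  · intro h M hM x hx
    have hle : M ≤ KK p k := le_iSup (fun M : {M : IntermediateField ℚ Om // Adm p k M} => M.1) ⟨M, hM⟩
    exact (IntermediateField.mem_fixingSubgroup_iff _ _).1 h x (hle hx)
  · intro h
    have h1 : KK p k ≤ IntermediateField.fixedField (Subgroup.zpowers σ) := by
      refine iSup_le fun M => ?_
      rw [IntermediateField.le_iff_le, Subgroup.zpowers_le, IntermediateField.mem_fixingSubgroup_iff]
      exact h M.1 M.2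
    rw [IntermediateField.le_iff_le, Subgroup.zpowers_le] at h1
    exact h1

end H0

theorem e_H0 : S_H0 := by
  intro hFld hSup p hp0 k F hfin hkF hnd hKK f hf
  classical
  have hp : p.Prime := hp0.out
  obtain ⟨hs1, -, hs3⟩ := hSup p k hp
  obtain ⟨M', hM', hMf⟩ := hFld p F f hf
  obtain ⟨Ξ, hΞ⟩ : ∃ Ξ : Subgroup Gal(Om/ℚ), Ξ = (KK p k).fixingSubgroup := ⟨_, rfl⟩
  have hΞm : ∀ σ, σ ∈ Ξ ↔ ∀ M : IntermediateField ℚ Om, Adm p k M → ∀ x ∈ M, σ x = x := by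
    intro σ
    rw [hΞ]
    exact H0.mem_Xi p k σ
  have hΞk : ∀ σ ∈ Ξ, σ ∈ k.fixingSubgroup := by
    intro σ hσ
    rw [IntermediateField.mem_fixingSubgroup_iff]
    exact (hΞm σ).1 hσ k hs1
  have hFk : ∀ σ ∈ F.fixingSubgroup, σ ∈ k.fixingSubgroup := fun σ hσ =>
    IntermediateField.fixingSubgroup_antitone hkF hσ
  -- commutators
  have hcomm : ∀ σ ∈ k.fixingSubgroup, ∀ τ ∈ k.fixingSubgroup, σ * τ * σ⁻¹ * τ⁻¹ ∈ Ξ := by
    intro σ hσ τ hτ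
    rw [hΞm]
    intro M hM x hx
    have h1 : τ⁻¹ x ∈ M := hM.galois _ (inv_mem hτ) x hx
    have h2 := hM.abelian σ hσ τ hτ (σ⁻¹ (τ⁻¹ x)) (hM.galois _ (inv_mem hσ) _ h1)
    have h3 : (σ * τ * σ⁻¹ * τ⁻¹) x = σ (τ (σ⁻¹ (τ⁻¹ x))) := rfl
    have h4 : τ (σ (σ⁻¹ (τ⁻¹ x))) = (τ * σ * σ⁻¹ * τ⁻¹) x := rfl
    have h5 : τ * σ * σ⁻¹ * τ⁻¹ = 1 := by group
    rw [h3, h2, h4, h5]
    rfl
  have hnorm : ∀ σ ∈ k.fixingSubgroup, ∀ ξ ∈ Ξ, σ * ξ * σ⁻¹ ∈ Ξ := by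
    intro σ hσ ξ hξ
    have h1 := Ξ.mul_mem (hcomm σ hσ ξ (hΞk ξ hξ)) hξ
    rwa [inv_mul_cancel_right] at h1
  have hnorm' : ∀ σ ∈ k.fixingSubgroup, ∀ ξ ∈ Ξ, σ⁻¹ * ξ * σ ∈ Ξ := by
    intro σ hσ ξ hξ
    have h1 := hnorm σ⁻¹ (inv_mem hσ) ξ hξ
    rwa [inv_inv] at h1
  -- the product
  obtain ⟨B, hB⟩ : ∃ B : Subgroup Gal(Om/ℚ), ∀ σ, σ ∈ B ↔ ∃ g ∈ F.fixingSubgroup, ∃ ξ ∈ Ξ, σ = g * ξ := by
    refine ⟨{
      carrier := {σ | ∃ g ∈ F.fixingSubgroup, ∃ ξ ∈ Ξ, σ = g * ξ}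
      mul_mem' := ?_
      one_mem' := ?_
      inv_mem' := ?_ }, fun σ => Iff.rfl⟩
    · rintro a b ⟨g, hg, ξ, hξ, rfl⟩ ⟨g', hg', ξ', hξ', rfl⟩
      refine ⟨g * g', mul_mem hg hg', (g'⁻¹ * ξ * g') * ξ', mul_mem (hnorm' g' (hFk g' hg') ξ hξ) hξ', ?_⟩
      group
    · exact ⟨1, one_mem _, 1, one_mem _, (mul_one 1).symm⟩
    · rintro a ⟨g, hg, ξ, hξ, rfl⟩
      refine ⟨g⁻¹, inv_mem hg, g * ξ⁻¹ * g⁻¹, hnorm g (hFk g hg) _ (inv_mem hξ), ?_⟩
      group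
  have hFB : F.fixingSubgroup ≤ B := fun g hg => (hB g).2 ⟨g, hg, 1, one_mem _, (mul_one g).symm⟩
  have hΞB : Ξ ≤ B := fun ξ hξ => (hB ξ).2 ⟨1, one_mem _, ξ, hξ, (one_mul ξ).symm⟩
  have hBk : B ≤ k.fixingSubgroup := by
    intro σ hσ
    obtain ⟨g, hg, ξ, hξ, rfl⟩ := (hB σ).1 hσ
    exact mul_mem (hFk g hg) (hΞk ξ hξ)
  have hFo : IsOpen (F.fixingSubgroup : Set Gal(Om/ℚ)) := F.fixingSubgroup_isOpen
  have hBo : IsOpen (B : Set Gal(Om/ℚ)) := Subgroup.isOpen_mono hFB hFo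
  have hBc : IsClosed (B : Set Gal(Om/ℚ)) := B.isClosed_of_isOpen hBo
  have hBfix : (IntermediateField.fixedField B).fixingSubgroup = B :=
    InfiniteGalois.fixingSubgroup_fixedField (k := ℚ) (K := Om) ⟨B, hBc⟩
  have hEF : IntermediateField.fixedField B ≤ F := by
    intro x hx
    rw [← InfiniteGalois.fixedField_fixingSubgroup F, IntermediateField.mem_fixedField_iff]
    intro σ hσ
    exact (IntermediateField.mem_fixedField_iff B x).1 hx σ (hFB hσ)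
  have hEK : IntermediateField.fixedField B ≤ KK p k := by
    intro x hx
    rw [← InfiniteGalois.fixedField_fixingSubgroup (KK p k), IntermediateField.mem_fixedField_iff]
    intro σ hσ
    rw [← hΞ] at hσ
    exact (IntermediateField.mem_fixedField_iff B x).1 hx σ (hΞB hσ)
  have hEfin : FiniteDimensional ℚ (IntermediateField.fixedField B) := by
    have := hfin
    exact Module.Finite.of_injective (IntermediateField.inclusion hEF).toLinearMap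
      (IntermediateField.inclusion_injective hEF)
  obtain ⟨M, hM, hEM⟩ := hs3 _ hEfin hEK
  have hpow : ∀ σ ∈ k.fixingSubgroup, ∃ a : ℕ, σ ^ p ^ a ∈ B := by
    intro σ hσ
    obtain ⟨a, ha⟩ := hM.pgroup
    refine ⟨a, ?_⟩
    rw [← hBfix, IntermediateField.mem_fixingSubgroup_iff]
    intro x hx
    exact ha σ hσ x (hEM hx)
  have hrel : ¬ p ∣ F.fixingSubgroup.relIndex k.fixingSubgroup := by
    intro h
    apply hnd
    rw [IntermediateField.finrank_eq_fixingSubgroup_index, IntermediateField.finrank_eq_fixingSubgroup_index,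
      ← Subgroup.relIndex_mul_index (show F.fixingSubgroup ≤ k.fixingSubgroup from hFk)]
    exact Nat.mul_dvd_mul_right h _
  have hkB : k.fixingSubgroup ≤ B :=
    H0.grp p F.fixingSubgroup B k.fixingSubgroup hFB hBk hrel
      (fun σ hσ τ hτ => hΞB (hcomm σ hσ τ hτ)) hpow
  -- STEP 2
  obtain ⟨-, f2, ⟨O, f3⟩, -⟩ := hf
  have f1 : f 1 = 0 := by
    have h := f2 1 (one_mem _) 1 (one_mem _)
    rw [mul_one] at h
    simpa using h
  have finv : ∀ g ∈ F.fixingSubgroup, f g⁻¹ = - f g := by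
    intro g hg
    have h := f2 g hg g⁻¹ (inv_mem hg)
    rw [mul_inv_cancel, f1] at h
    exact (neg_eq_of_add_eq_zero_right h.symm).symm
  have hM'K : M' ≤ F ⊔ KK p k :=
    (le_iSup (fun M : {M : IntermediateField ℚ Om // Adm p F M} => M.1) ⟨M', hM'⟩).trans hKK
  have fX : ∀ σ ∈ F.fixingSubgroup, σ ∈ Ξ → f σ = 0 := by
    intro σ hσ hσΞ
    have h1 : σ ∈ (F ⊔ KK p k).fixingSubgroup := by
      rw [IntermediateField.fixingSubgroup_sup]
      rw [hΞ] at hσΞ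
      exact ⟨hσ, hσΞ⟩
    exact ((hMf σ).1 (IntermediateField.fixingSubgroup_antitone hM'K h1)).2
  choose! u hu v hv huv using fun σ (hσ : σ ∈ k.fixingSubgroup) => (hB σ).1 (hkB hσ)
  obtain ⟨e, he⟩ : ∃ e : Gal(Om/ℚ) → ZMod p, e = fun σ => if σ ∈ k.fixingSubgroup then f (u σ) else 0 := ⟨_, rfl⟩
  have hkey : ∀ g ∈ F.fixingSubgroup, ∀ ξ ∈ Ξ, e (g * ξ) = f g := by
    intro g hg ξ hξ
    have hm : g * ξ ∈ k.fixingSubgroup := mul_mem (hFk g hg) (hΞk ξ hξ)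
    rw [he]
    beta_reduce
    rw [if_pos hm]
    have h1 := huv _ hm
    have hu1 := hu _ hm
    have hv1 := hv _ hm
    generalize u (g * ξ) = u1 at *
    generalize v (g * ξ) = v1 at *
    have h2 : u1⁻¹ * g = v1 * ξ⁻¹ := by
      rw [inv_mul_eq_iff_eq_mul, ← mul_assoc, ← h1, mul_inv_cancel_right]
    have h3 : f (u1⁻¹ * g) = 0 := by
      apply fX _ (mul_mem (inv_mem hu1) hg)
      rw [h2]
      exact mul_mem hv1 (inv_mem hξ)
    rw [f2 _ (inv_mem hu1) _ hg, finv _ hu1, neg_add_eq_zero] at h3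
    exact h3
  have hkey1 : ∀ g ∈ F.fixingSubgroup, e g = f g := by
    intro g hg
    have h1 := hkey g hg 1 (one_mem _)
    rwa [mul_one] at h1
  refine ⟨e, ⟨?_, ?_, ?_, ?_⟩, hkey1⟩
  · intro g hg
    rw [he]
    beta_reduce
    rw [if_neg hg]
  · intro σ hσ τ hτ
    obtain ⟨g, hg, ξ, hξ, rfl⟩ := (hB σ).1 (hkB hσ)
    obtain ⟨g', hg', ξ', hξ', rfl⟩ := (hB τ).1 (hkB hτ)
    have h1 : g * ξ * (g' * ξ') = (g * g') * ((g'⁻¹ * ξ * g') * ξ') := by group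
    rw [h1, hkey _ (mul_mem hg hg') _ (mul_mem (hnorm' g' (hFk g' hg') ξ hξ) hξ'), hkey g hg ξ hξ,
      hkey g' hg' ξ' hξ', f2 g hg g' hg']
  · refine ⟨O ⊓ ⟨F.fixingSubgroup, hFo⟩, ?_⟩
    intro σ _ hσ
    have h1 : σ ∈ F.fixingSubgroup := hσ.2
    rw [hkey1 σ h1]
    exact f3 σ h1 hσ.1
  · intro Λ hΛ σ hσΛ hσ
    have h1 : σ ∈ Ξ := by
      rw [hΞm]
      intro N hN x hx
      rcases hΛ with ⟨P, hP, hP0, rfl⟩ | ⟨P, hP, hPp, rfl⟩
      · exact hN.unramified P hP hP0 σ hσΛ hσ x hx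
      · exact hN.split P hP hPp σ hσΛ hσ x hx
    have h2 := hkey 1 (one_mem _) σ h1
    rwa [one_mul, f1] at h2

end Pool.Agent.MuZ
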