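import Pool.Agent.Lib.MuZ.ESpec

/-!
# MP_d0239a_nt: equality of fields (`S_KK`)
-/

open scoped Pointwise

noncomputable section

namespace Pool.Agent.MuZ

/-- A nontrivial element of a finite commutative group of exponent dividing `n` is detected by a homomorphism to `ZMod n`. -/
private theorem KKE_char {Q : Type} [CommGroup Q] [Finite Q] (n : ℕ) (hn : n ≠ 0)
    (hQ : ∀ q : Q, q ^ n = 1) {v : Q} (hv : v ≠ 1) :
    ∃ χ : Q → ZMod n, (∀ x y, χ (x * y) = χ x + χ y) ∧ χ v ≠ 0 := by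
  have hn' : NeZero n := ⟨hn⟩
  have hex : NeZero (Monoid.exponent Q) := ⟨Monoid.exponent_ne_zero_of_finite⟩
  obtain ⟨φ, hφ⟩ := CommGroup.exists_apply_ne_one_of_hasEnoughRootsOfUnity Q ℂ hv
  have hζ0 : IsPrimitiveRoot (Complex.exp (2 * Real.pi * Complex.I / n)) n :=
    Complex.isPrimitiveRoot_exp n hn
  obtain ⟨ζ, hζ⟩ : ∃ ζ : ℂˣ, IsPrimitiveRoot ζ n := by
    obtain ⟨u, hu⟩ := hζ0.isUnit hn
    refine ⟨u, ?_⟩
    rw [← IsPrimitiveRoot.coe_units_iff, hu]
    exact hζ0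
  have hmem : ∀ q : Q, φ q ∈ Subgroup.zpowers ζ := by
    intro q
    rw [hζ.zpowers_eq, mem_rootsOfUnity, ← map_pow, hQ, map_one]
  let ψ : Q →* Subgroup.zpowers ζ := φ.codRestrict _ hmem
  refine ⟨fun q => hζ.zmodEquivZPowers.symm (Additive.ofMul (ψ q)), ?_, ?_⟩
  · intro x y
    change hζ.zmodEquivZPowers.symm (Additive.ofMul (ψ (x * y))) = _
    rw [map_mul, ofMul_mul, map_add]
  · intro h
    apply hφ
    have h1 : (Additive.ofMul (ψ v) : Additive (Subgroup.zpowers ζ)) = 0 :=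
      (AddEquiv.map_eq_zero_iff _).1 h
    have h2 : ψ v = 1 := h1
    have h3 := congrArg Subtype.val h2
    exact h3

/-- The elements on which two automorphisms agree. -/
private def KKE_eq (f g : Gal(Om/ℚ)) : IntermediateField ℚ Om where
  carrier := {x | f x = g x}
  mul_mem' := by
    intro a b ha hb
    change f (a * b) = g (a * b)
    rw [map_mul, map_mul, show f a = g a from ha, show f b = g b from hb]
  one_mem' := by
    change f 1 = g 1
    rw [map_one, map_one]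
  add_mem' := by
    intro a b ha hb
    change f (a + b) = g (a + b)
    rw [map_add, map_add, show f a = g a from ha, show f b = g b from hb]
  zero_mem' := by
    change f 0 = g 0
    rw [map_zero, map_zero]
  algebraMap_mem' := by
    intro r
    change f _ = g _
    rw [f.commutes, g.commutes]
  inv_mem' := by
    intro a ha
    change f a⁻¹ = g a⁻¹
    rw [map_inv₀, map_inv₀, show f a = g a from ha]

/-- The elements which `f` maps into `N`. -/
private def KKE_co (f : Gal(Om/ℚ)) (N : IntermediateField ℚ Om) : IntermediateField ℚ Om where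
  carrier := {x | f x ∈ N}
  mul_mem' := by
    intro a b ha hb
    change f (a * b) ∈ N
    rw [map_mul]
    exact N.mul_mem ha hb
  one_mem' := by
    change f 1 ∈ N
    rw [map_one]
    exact N.one_mem
  add_mem' := by
    intro a b ha hb
    change f (a + b) ∈ N
    rw [map_add]
    exact N.add_mem ha hb
  zero_mem' := by
    change f 0 ∈ N
    rw [map_zero]
    exact N.zero_mem
  algebraMap_mem' := by
    intro r
    change f _ ∈ N
    rw [f.commutes]
    exact N.algebraMap_mem r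
  inv_mem' := by
    intro a ha
    change f a⁻¹ ∈ N
    rw [map_inv₀]
    exact N.inv_mem ha

private lemma KKE_agree {f g : Gal(Om/ℚ)} {M M' : IntermediateField ℚ Om} (h : ∀ x ∈ M, f x = g x)
    (h' : ∀ x ∈ M', f x = g x) : ∀ x ∈ M ⊔ M', f x = g x := by
  have h1 : M ⊔ M' ≤ KKE_eq f g := sup_le (fun x hx => h x hx) (fun x hx => h' x hx)
  exact fun x hx => h1 hx

private lemma KKE_pow {σ : Gal(Om/ℚ)} {x : Om} (h : σ x = x) (c : ℕ) : (σ ^ c) x = x := by
  induction c with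
  | zero => rfl
  | succ c ih =>
    rw [pow_succ]
    change (σ ^ c) (σ x) = x
    rw [h, ih]

/-- Base change of admissible extensions. -/
private lemma KKE_adm (p : ℕ) (F L M : IntermediateField ℚ Om) (h : Adm p L M) :
    Adm p (F ⊔ L) (F ⊔ M) := by
  have hF : ∀ σ ∈ (F ⊔ L).fixingSubgroup, ∀ x ∈ F, σ x = x := fun σ hσ x hx =>
    (IntermediateField.mem_fixingSubgroup_iff _ _).1 hσ x ((le_sup_left : F ≤ F ⊔ L) hx)
  have hL : ∀ σ ∈ (F ⊔ L).fixingSubgroup, σ ∈ L.fixingSubgroup := by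
    intro σ hσ
    rw [IntermediateField.fixingSubgroup_sup] at hσ
    exact hσ.2
  refine ⟨sup_le_sup_left h.le F, ?_, ?_, ?_, ?_, ?_, ?_⟩
  · obtain ⟨E, hE, hM⟩ := h.fin
    refine ⟨E, hE, ?_⟩
    rw [sup_assoc]
    exact sup_le_sup_left hM F
  · intro σ hσ x hx
    have h1 : F ⊔ M ≤ KKE_co σ (F ⊔ M) := by
      refine sup_le (fun y hy => ?_) (fun y hy => ?_)
      · change σ y ∈ F ⊔ M
        rw [hF σ hσ y hy]
        exact (le_sup_left : F ≤ F ⊔ M) hy
      · exact (le_sup_right : M ≤ F ⊔ M) (h.galois σ (hL σ hσ) y hy)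
    exact h1 hx
  · intro σ hσ τ hτ
    refine KKE_agree (f := σ * τ) (g := τ * σ) (fun x hx => ?_)
      (h.abelian σ (hL σ hσ) τ (hL τ hτ))
    change σ (τ x) = τ (σ x)
    rw [hF τ hτ x hx, hF σ hσ x hx, hF τ hτ x hx]
  · obtain ⟨a, ha⟩ := h.pgroup
    refine ⟨a, fun σ hσ => ?_⟩
    exact KKE_agree (f := σ ^ p ^ a) (g := 1) (fun x hx => KKE_pow (hF σ hσ x hx) _)
      (ha σ (hL σ hσ))
  · intro P hP hP0 σ hσ hσL
    exact KKE_agree (f := σ) (g := 1) (hF σ hσL) (h.unramified P hP hP0 σ hσ (hL σ hσL))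
  · intro P hP hP0 σ hσ hσL
    exact KKE_agree (f := σ) (g := 1) (hF σ hσL) (h.split P hP hP0 σ hσ (hL σ hσL))

/-- Every admissible extension is separated by characters of order a power of `p`. -/
private lemma KKE_sep (p : ℕ) [Fact p.Prime] (L M : IntermediateField ℚ Om) (hM : Adm p L M)
    (σ : Gal(Om/ℚ)) (hσ : σ ∈ L.fixingSubgroup) (hσM : σ ∉ M.fixingSubgroup) :
    ∃ a : ℕ, ∃ f ∈ VV (p ^ a) (Loc p) L.fixingSubgroup, f σ ≠ 0 := by
  classical
  have hp : p.Prime := Fact.out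
  have hMf : ∀ g : Gal(Om/ℚ), g ∈ M.fixingSubgroup ↔ ∀ x ∈ M, g x = x := fun g =>
    IntermediateField.mem_fixingSubgroup_iff M g
  let H : Subgroup L.fixingSubgroup := M.fixingSubgroup.subgroupOf L.fixingSubgroup
  have hHm : ∀ g : L.fixingSubgroup, g ∈ H ↔ ∀ x ∈ M, (g : Gal(Om/ℚ)) x = x := fun g =>
    Subgroup.mem_subgroupOf.trans (hMf g)
  have hHn : H.Normal := by
    refine ⟨fun n hn g => ?_⟩
    rw [hHm] at hn ⊢
    intro x hx
    have h1 : (g : Gal(Om/ℚ))⁻¹ x ∈ M := hM.galois _ (inv_mem g.2) x hx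
    change (g : Gal(Om/ℚ)) ((n : Gal(Om/ℚ)) ((g : Gal(Om/ℚ))⁻¹ x)) = x
    rw [hn _ h1]
    exact (g : Gal(Om/ℚ)).apply_symm_apply x
  letI cg : CommGroup (L.fixingSubgroup ⧸ H) :=
    { QuotientGroup.Quotient.group H with
      mul_comm := by
        intro u v
        obtain ⟨a, rfl⟩ := QuotientGroup.mk_surjective (s := H) u
        obtain ⟨b, rfl⟩ := QuotientGroup.mk_surjective (s := H) v
        change ((a * b : L.fixingSubgroup) : L.fixingSubgroup ⧸ H) =
          ((b * a : L.fixingSubgroup) : L.fixingSubgroup ⧸ H)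
        rw [QuotientGroup.eq, hHm]
        intro x hx
        change ((a : Gal(Om/ℚ)) * b)⁻¹ ((b : Gal(Om/ℚ)) ((a : Gal(Om/ℚ)) x)) = x
        rw [hM.abelian b b.2 a a.2 x hx]
        exact ((a : Gal(Om/ℚ)) * b).symm_apply_apply x }
  obtain ⟨E', hE', hME⟩ := hM.fin
  have hop : IsOpen (E'.fixingSubgroup : Set Gal(Om/ℚ)) :=
    IntermediateField.fixingSubgroup_isOpen E'
  have hLE : ∀ g ∈ L.fixingSubgroup, g ∈ E'.fixingSubgroup → ∀ x ∈ M, g x = x := by
    intro g hg hgE x hx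
    have h2 : g ∈ (L ⊔ E').fixingSubgroup := by
      rw [IntermediateField.fixingSubgroup_sup]
      exact ⟨hg, hgE⟩
    exact (IntermediateField.mem_fixingSubgroup_iff _ g).1 h2 x (hME hx)
  have hE'fin : Finite (Gal(Om/ℚ) ⧸ E'.fixingSubgroup) :=
    Subgroup.quotient_finite_of_isOpen _ hop
  have hE'fi : E'.fixingSubgroup.FiniteIndex := Subgroup.finiteIndex_of_finite_quotient
  have hU'f : (E'.fixingSubgroup.subgroupOf L.fixingSubgroup).FiniteIndex := inferInstance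
  have hHf : H.FiniteIndex := by
    refine Subgroup.finiteIndex_of_le (H := E'.fixingSubgroup.subgroupOf L.fixingSubgroup) ?_
    intro g hg
    rw [hHm]
    exact hLE g g.2 (Subgroup.mem_subgroupOf.1 hg)
  have hQfin : Finite (L.fixingSubgroup ⧸ H) := Subgroup.finite_quotient_of_finiteIndex
  obtain ⟨a, ha⟩ := hM.pgroup
  obtain ⟨χ, hχ, hχσ⟩ := KKE_char (Q := L.fixingSubgroup ⧸ H) (p ^ a)
    (pow_ne_zero _ hp.ne_zero) (by
      intro q
      obtain ⟨r, rfl⟩ := QuotientGroup.mk_surjective (s := H) q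
      change ((r ^ p ^ a : L.fixingSubgroup) : L.fixingSubgroup ⧸ H) = 1
      rw [QuotientGroup.eq_one_iff, hHm]
      intro x hx
      have := ha r r.2 x hx
      simpa using this) (v := ((⟨σ, hσ⟩ : L.fixingSubgroup) : L.fixingSubgroup ⧸ H)) (by
      intro h
      rw [QuotientGroup.eq_one_iff, hHm] at h
      exact hσM ((hMf σ).2 h))
  have hχ1 : χ 1 = 0 := by
    have h2 := hχ 1 1
    rw [mul_one] at h2
    simpa using h2
  let F : Gal(Om/ℚ) → ZMod (p ^ a) := fun g => if h : g ∈ L.fixingSubgroup then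
    χ ((⟨g, h⟩ : L.fixingSubgroup) : L.fixingSubgroup ⧸ H) else 0
  have hF : ∀ (g : Gal(Om/ℚ)) (h : g ∈ L.fixingSubgroup),
      F g = χ ((⟨g, h⟩ : L.fixingSubgroup) : L.fixingSubgroup ⧸ H) := fun g h => dif_pos h
  have hFM : ∀ g ∈ L.fixingSubgroup, (∀ x ∈ M, g x = x) → F g = 0 := by
    intro g hg hgM
    rw [hF g hg]
    have h2 : ((⟨g, hg⟩ : L.fixingSubgroup) : L.fixingSubgroup ⧸ H) = 1 := by
      rw [QuotientGroup.eq_one_iff, hHm]
      exact hgM
    rw [h2, hχ1]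
  refine ⟨a, F, ⟨?_, ?_, ?_, ?_⟩, ?_⟩
  · intro g hg
    exact dif_neg hg
  · intro g hg h hh
    rw [hF g hg, hF h hh, hF (g * h) (mul_mem hg hh), ← hχ]
    rfl
  · exact ⟨⟨E'.fixingSubgroup, hop⟩, fun g hg hgO => hFM g hg (hLE g hg hgO)⟩
  · intro Λ hΛ g hgΛ hgL
    apply hFM g hgL
    intro x hx
    rcases hΛ with ⟨P, hP, hP0, rfl⟩ | ⟨P, hP, hpP, rfl⟩
    · exact hM.unramified P hP hP0 g hgΛ hgL x hx
    · exact hM.split P hP hpP g hgΛ hgL x hx
  · rw [hF σ hσ]
    exact hχσ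

theorem e_KKE : S_KK := by
  intro hFQ hS p _ F L _ hyp
  have hp : p.Prime := Fact.out
  apply le_antisymm
  · refine iSup_le ?_
    rintro ⟨M, hM⟩
    rw [← InfiniteGalois.fixedField_fixingSubgroup (F ⊔ KK p L), IntermediateField.le_iff_le]
    intro σ hσ
    by_contra hσM
    have hσ2 := hσ
    rw [IntermediateField.fixingSubgroup_sup] at hσ2
    have hLK : L ≤ KK p L :=
      le_iSup (fun M : {M : IntermediateField ℚ Om // Adm p L M} => M.1) ⟨L, (hS p L hp).1⟩
    have hσL : σ ∈ (F ⊔ L).fixingSubgroup := by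
      rw [IntermediateField.fixingSubgroup_sup]
      exact ⟨hσ2.1, IntermediateField.fixingSubgroup_antitone hLK hσ2.2⟩
    obtain ⟨a, f, hf, hfσ⟩ := KKE_sep p (F ⊔ L) M hM σ hσL hσM
    obtain ⟨e, he, hef⟩ := hyp a f hf
    obtain ⟨Me, hMe, hMe2⟩ := hFQ p a L e he
    have h1 : Me ≤ KK p L :=
      le_iSup (fun M : {M : IntermediateField ℚ Om // Adm p L M} => M.1) ⟨Me, hMe⟩
    have h2 := ((hMe2 σ).1 (IntermediateField.fixingSubgroup_antitone h1 hσ2.2)).2
    rw [hef σ hσL] at h2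
    exact hfσ h2
  · refine sup_le ?_ (iSup_le ?_)
    · exact le_sup_left.trans (le_iSup
        (fun M : {M : IntermediateField ℚ Om // Adm p (F ⊔ L) M} => M.1)
        ⟨F ⊔ L, (hS p (F ⊔ L) hp).1⟩)
    · rintro ⟨M, hM⟩
      exact (le_sup_right : M ≤ F ⊔ M).trans (le_iSup
        (fun M : {M : IntermediateField ℚ Om // Adm p (F ⊔ L) M} => M.1)
        ⟨F ⊔ M, KKE_adm p F L M hM⟩)

end Pool.Agent.MuZ
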