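import Pool.Agent.Lib.MuZ.ESpec

open scoped Pointwise

noncomputable section

namespace Pool.Agent.MuZ

namespace QuoC

variable {G : Type} [Group G] [TopologicalSpace G] [IsTopologicalGroup G]

/-- A set which is stable under right multiplication by an open subgroup is closed. -/
lemma isOpen_of_stable (U : Subgroup G) (hU : IsOpen (U : Set G)) (P : Set G)
    (h : ∀ x ∈ P, ∀ u ∈ U, x * u ∈ P) : IsOpen P := by
  rw [isOpen_iff_mem_nhds]
  intro x hx
  have h1 : (fun z => x⁻¹ * z) ⁻¹' (U : Set G) ∈ nhds x := by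
    apply (hU.preimage (by fun_prop)).mem_nhds
    simp [U.one_mem]
  refine Filter.mem_of_superset h1 ?_
  intro z hz
  have h2 := h x hx _ hz
  simpa using h2

lemma isClosed_of_stable (U : Subgroup G) (hU : IsOpen (U : Set G)) (P : Set G)
    (h : ∀ x ∈ P, ∀ u ∈ U, x * u ∈ P) : IsClosed P := by
  rw [← isOpen_compl_iff]
  apply isOpen_of_stable U hU
  intro x hx u hu hxu
  apply hx
  have h1 := h _ hxu u⁻¹ (U.inv_mem hu)
  simpa using h1

end QuoC

theorem e_QuoC : S_QuoC := by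
  intro G _ _ _ _ _ _ p Y N δ hG Λ hΛ hcl y hy O
  obtain ⟨U, hU⟩ := ProfiniteGrp.exist_openNormalSubgroup_sub_open_nhds_of_one O.isOpen O.one_mem
  let S : OpenNormalSubgroup G → Set G := fun V =>
    {x | x ∈ Λ} ∩ ({x | ∃ n ∈ N, n⁻¹ * x ∈ V} ∩ {x | ∃ a : ℕ, (y ^ p ^ a)⁻¹ * x ∈ U})
  have hclS : ∀ V, IsClosed (S V) := by
    intro V
    refine hcl.inter (IsClosed.inter ?_ ?_)
    · refine QuoC.isClosed_of_stable (V : Subgroup G) V.isOpen' _ ?_
      rintro x ⟨n, hn, hx⟩ u hu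
      refine ⟨n, hn, ?_⟩
      rw [← mul_assoc]
      exact mul_mem hx hu
    · refine QuoC.isClosed_of_stable (U : Subgroup G) U.isOpen' _ ?_
      rintro x ⟨a, hx⟩ u hu
      refine ⟨a, ?_⟩
      rw [← mul_assoc]
      exact mul_mem hx hu
  have hmono : ∀ V W : OpenNormalSubgroup G, V ≤ W → S V ⊆ S W := by
    rintro V W hVW x ⟨h1, ⟨n, hn, h2⟩, h3⟩
    exact ⟨h1, ⟨n, hn, hVW h2⟩, h3⟩
  have hdir : Directed (· ⊇ ·) S := by
    intro V W
    exact ⟨V ⊓ W, hmono _ _ inf_le_left, hmono _ _ inf_le_right⟩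
  have hne : ∀ V, (S V).Nonempty := by
    intro V
    obtain ⟨a, t, ht, hat⟩ := hG.quo y (hΛ hy) V.toOpenSubgroup
    refine ⟨y ^ p ^ a, pow_mem hy _, ⟨t⁻¹, inv_mem ht, ?_⟩, a, by simp [one_mem]⟩
    have h1 := V.isNormal'.conj_mem _ hat t
    have h2 : t * (y ^ p ^ a * t) * t⁻¹ = t⁻¹⁻¹ * y ^ p ^ a := by group
    rw [h2] at h1
    exact h1
  have : Nonempty (OpenNormalSubgroup G) := ⟨U⟩
  obtain ⟨x, hx⟩ := IsCompact.nonempty_iInter_of_directed_nonempty_isCompact_isClosed S hdir hne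
    (fun V => (hclS V).isCompact) hclS
  rw [Set.mem_iInter] at hx
  have hxΛ : x ∈ Λ := (hx U).1
  obtain ⟨a, ha⟩ := (hx U).2.2
  have hxN : x ∈ N := by
    have h1 : x ∈ closure (N : Set G) := by
      rw [mem_closure_iff_nhds]
      intro W hW
      obtain ⟨W', hW'W, hW'o, hxW'⟩ := mem_nhds_iff.mp hW
      have h2 : IsOpen ((fun z => x * z⁻¹) ⁻¹' W') := hW'o.preimage (by fun_prop)
      obtain ⟨V, hV⟩ := ProfiniteGrp.exist_openNormalSubgroup_sub_open_nhds_of_one h2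
        (by simpa using hxW')
      obtain ⟨n, hn, h3⟩ := (hx V).2.1
      refine ⟨n, hW'W ?_, hn⟩
      have h4 := hV h3
      simpa using h4
    rwa [hG.cloN.closure_eq] at h1
  refine ⟨a, x⁻¹, Subgroup.mem_inf.mpr ⟨Λ.inv_mem hxΛ, N.inv_mem hxN⟩, hU ?_⟩
  have h1 := U.isNormal'.conj_mem _ ha (y ^ p ^ a)
  have h2 : y ^ p ^ a * ((y ^ p ^ a)⁻¹ * x) * (y ^ p ^ a)⁻¹ = (y ^ p ^ a * x⁻¹)⁻¹ := by group
  rw [h2] at h1
  have h3 := U.toSubgroup.inv_mem h1
  rw [inv_inv] at h3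
  exact h3

end Pool.Agent.MuZ
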