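import Pool.Agent.Lib.MuZ.CSpec

/-!
# MP_d0239a, MuZ: subgroups of procyclic quotients (`S_Sub`)
-/

noncomputable section

namespace Pool.Agent.MuZ

namespace SubAux

variable {G : Type} [Group G] [TopologicalSpace G] [IsTopologicalGroup G] [CompactSpace G]
  [TotallyDisconnectedSpace G] [T2Space G]

theorem mem_closed {N : Subgroup G} (hN : IsClosed (N : Set G)) {x : G}
    (h : ∀ U : Subgroup G, IsOpen (U : Set G) → N ≤ U → x ∈ U) : x ∈ N := by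
  have h1 := ProfiniteGrp.closedSubgroup_eq_sInf_open (G := G) ⟨N, hN⟩
  have h2 : x ∈ sInf {K : Subgroup G | IsOpen (K : Set G) ∧ N ≤ K} := by
    rw [Subgroup.mem_sInf]
    rintro K ⟨hK1, hK2⟩
    exact h K hK1 hK2
  have h3 : N = sInf {K : Subgroup G | IsOpen (K : Set G) ∧ N ≤ K} := h1
  rw [h3]
  exact h2

omit [TopologicalSpace G] [IsTopologicalGroup G] [CompactSpace G]
  [TotallyDisconnectedSpace G] [T2Space G] in
theorem pow_mul {Y N : Subgroup G} (hn : ∀ y ∈ Y, ∀ n ∈ N, y * n * y⁻¹ ∈ N) {g t : G}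
    (hg : g ∈ Y) (ht : t ∈ N) (k : ℕ) : ∃ t' ∈ N, (g * t) ^ k = g ^ k * t' := by
  induction k with
  | zero => exact ⟨1, N.one_mem, by simp⟩
  | succ k ih =>
    obtain ⟨t', ht', h⟩ := ih
    refine ⟨g⁻¹ * t' * g * t, N.mul_mem ?_ ht, ?_⟩
    · have := hn g⁻¹ (Y.inv_mem hg) t' ht'
      rwa [inv_inv] at this
    · rw [pow_succ, h, pow_succ]
      group

theorem quo {p : ℕ} {Y N : Subgroup G} {δ : G} (h : Gq p Y N δ) {Λ : Subgroup G} (hΛ : Λ ≤ Y)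
    (hc : IsClosed (Λ : Set G)) (y : G) (hy : y ∈ Λ) (O : OpenSubgroup G) :
    ∃ a : ℕ, ∃ t ∈ Λ ⊓ N, y ^ p ^ a * t ∈ O := by
  obtain ⟨x, hx⟩ := exists_clusterPt_of_compactSpace
    (Filter.map (fun a : ℕ => y ^ p ^ a) Filter.atTop)
  have hx' : MapClusterPt x Filter.atTop (fun a : ℕ => y ^ p ^ a) := hx
  have hxΛ : x ∈ Λ := by
    refine hc.mem_of_mapClusterPt hx' ?_
    exact Filter.Eventually.of_forall fun a => Λ.pow_mem hy _
  have hfreq : ∀ U : Subgroup G, IsOpen (U : Set G) → ∃ᶠ a : ℕ in Filter.atTop,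
      y ^ p ^ a * x⁻¹ ∈ U := by
    intro U hU
    have hW : {z : G | z * x⁻¹ ∈ U} ∈ nhds x := by
      refine IsOpen.mem_nhds ?_ ?_
      · exact hU.preimage (by fun_prop : Continuous fun z : G => z * x⁻¹)
      · simp [U.one_mem]
    exact hx'.frequently hW
  have hxN : x ∈ N := by
    refine mem_closed h.cloN fun U hU hNU => ?_
    obtain ⟨a₀, t, ht, hat⟩ := h.quo y (hΛ hy) ⟨U, hU⟩
    have hat' : y ^ p ^ a₀ * t ∈ U := hat
    have h1 : y ^ p ^ a₀ ∈ U := by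
      have := U.mul_mem hat' (U.inv_mem (hNU ht))
      simpa using this
    have h2 : ∀ᶠ a : ℕ in Filter.atTop, y ^ p ^ a ∈ U := by
      filter_upwards [Filter.eventually_ge_atTop a₀] with a ha
      obtain ⟨d, rfl⟩ := Nat.exists_eq_add_of_le ha
      rw [pow_add, _root_.pow_mul]
      exact U.pow_mem h1 _
    obtain ⟨a, h3, h4⟩ := ((hfreq U hU).and_eventually h2).exists
    have h5 : x⁻¹ ∈ U := by
      have := U.mul_mem (U.inv_mem h4) h3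
      simpa [← mul_assoc] using this
    exact U.inv_mem_iff.1 h5
  obtain ⟨a, ha⟩ := (hfreq O.toSubgroup O.isOpen).exists
  exact ⟨a, x⁻¹, ⟨Λ.inv_mem hxΛ, N.inv_mem hxN⟩, ha⟩

theorem inf {p : ℕ} {Y N : Subgroup G} {δ : G} (h : Gq p Y N δ) {Λ : Subgroup G} (hΛ : Λ ≤ Y)
    {M : ℕ} (hM : 0 < M) (hδ : δ ^ M ∈ Λ) {δ' : G} (hδ' : δ' ∈ Λ)
    (hgen : ∀ y ∈ Λ, ∀ O : OpenSubgroup G, ∃ j : ℕ, ∃ t ∈ Λ ⊓ N, y⁻¹ * δ' ^ j * t ∈ O)
    (m : ℕ) (hm : 0 < m) : δ' ^ m ∉ Λ ⊓ N := by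
  intro hcon
  have hcl : IsClosed {z : G | z ^ m ∈ N} :=
    h.cloN.preimage (by fun_prop : Continuous fun z : G => z ^ m)
  have hy : δ ^ M ∈ {z : G | z ^ m ∈ N} := by
    by_contra hnot
    have hW : IsOpen {g : G | δ ^ M * g ∈ {z : G | z ^ m ∈ N}ᶜ} :=
      hcl.isOpen_compl.preimage (by fun_prop : Continuous fun g : G => δ ^ M * g)
    obtain ⟨H, hH⟩ := ProfiniteGrp.exist_openNormalSubgroup_sub_open_nhds_of_one hW
      (by simpa using hnot)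
    obtain ⟨j, t, ht, hjt⟩ := hgen (δ ^ M) hδ H.toOpenSubgroup
    have h1 : δ ^ M * ((δ ^ M)⁻¹ * δ' ^ j * t) ∈ {z : G | z ^ m ∈ N}ᶜ := hH hjt
    apply h1
    have h2 : δ ^ M * ((δ ^ M)⁻¹ * δ' ^ j * t) = δ' ^ j * t := by group
    rw [Set.mem_ofPred_eq, h2]
    obtain ⟨t', ht', h3⟩ := pow_mul h.nrm (Y.pow_mem (hΛ hδ') j) ht.2 m
    rw [h3, ← _root_.pow_mul, mul_comm j m, _root_.pow_mul]
    exact N.mul_mem (N.pow_mem hcon.2 j) ht'
  refine h.inf (M * m) (Nat.mul_pos hM hm) ?_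
  rw [_root_.pow_mul]
  exact hy

end SubAux

theorem c_Sub : S_Sub := by
  intro hPc G _ _ _ _ _ _ p Y N δ h Λ hΛ hc ⟨M, hM, hδ⟩
  obtain ⟨δ', hδ', hgen⟩ := hPc G p Y N δ h Λ hΛ hc
  refine ⟨δ', hδ', inf_le_left, ?_, hc, ?_, hgen, SubAux.quo h hΛ hc,
    SubAux.inf h hΛ hM hδ hδ' hgen⟩
  · rintro y hy n ⟨hn1, hn2⟩
    exact ⟨Λ.mul_mem (Λ.mul_mem hy hn1) (Λ.inv_mem hy), h.nrm y (hΛ hy) n hn2⟩
  · have : ((Λ ⊓ N : Subgroup G) : Set G) = (Λ : Set G) ∩ (N : Set G) := rfl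
    rw [this]
    exact hc.inter h.cloN

end Pool.Agent.MuZ
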