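import Pool.Agent.Lib.MuZ.ESpec

/-!
# From `p` to `p ^ j`
-/

open scoped Pointwise

noncomputable section

namespace Pool.Agent.MuZ

namespace Tors

variable {G : Type} [Group G]

/-- additive functions and powers -/
theorem pow_add {A : Type} [AddCommGroup A] {H : Subgroup G} {e : G → A} (he : AddOn H e) {n : G} (hn : n ∈ H)
    (m : ℕ) : e (n ^ m) = m • e n := by
  have h1 : e 1 = 0 := by
    have h := he 1 H.one_mem 1 H.one_mem
    rw [mul_one] at h
    exact left_eq_add.1 h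
  induction m with
  | zero => rw [pow_zero, zero_smul, h1]
  | succ m ih => rw [pow_succ, he _ (H.pow_mem hn m) _ hn, ih, succ_nsmul]

theorem inv_add {A : Type} [AddCommGroup A] {H : Subgroup G} {e : G → A} (he : AddOn H e) {n : G} (hn : n ∈ H) :
    e n⁻¹ = - e n := by
  have h1 : e 1 = 0 := by
    have h := he 1 H.one_mem 1 H.one_mem
    rw [mul_one] at h
    exact left_eq_add.1 h
  have h := he n⁻¹ (H.inv_mem hn) n hn
  rw [inv_mul_cancel, h1] at h
  exact eq_neg_of_add_eq_zero_left h.symm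

/-- the transfer of a function which is additive on the larger group -/
theorem cr_big (hB : S_CrB) {A : Type} [AddCommGroup A] (F H : Subgroup G) (hF : (F.subgroupOf H).FiniteIndex)
    {e : G → A} (he : AddOn H e) {n : G} (hn : n ∈ H) : cr F H e n = (F.subgroupOf H).index • e n := by
  obtain ⟨r, x, m, h1, h2, h3⟩ := hB G F H hF n hn
  rw [h3 A e (fun a ha b hb => he a ha.2 b hb.2), ← h2, Finset.sum_smul]
  apply Finset.sum_congr rfl
  intro i _
  obtain ⟨hx, -⟩ := h1 i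
  rw [he _ (H.mul_mem (H.inv_mem hx) (H.pow_mem hn _)) _ hx, he _ (H.inv_mem hx) _ (H.pow_mem hn _),
    inv_add he hx, pow_add he hn]
  abel

/-- the transfer of a character which is trivial on local groups -/
theorem cr_mem (hA : S_CrA) (hB : S_CrB) [TopologicalSpace G] [IsTopologicalGroup G] [CompactSpace G]
    [TotallyDisconnectedSpace G] [T2Space G] (q : ℕ) (Ls : Set (Subgroup G)) (N : Subgroup G) (F : Subgroup G)
    (hcj : ∀ g ∈ N, ∀ Λ ∈ Ls, cj g Λ ∈ Ls) (hF : (F.subgroupOf N).FiniteIndex) {f : G → ZMod q}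
    (hf : f ∈ VV q Ls (F ⊓ N)) : cr F N f ∈ VV q Ls N := by
  obtain ⟨f1, f2, ⟨O, f3⟩, f4⟩ := hf
  refine ⟨?_, ?_, ?_, ?_⟩
  · intro n hn
    unfold cr
    rw [dif_neg hn]
  · exact (hA G (ZMod q) (ZMod q) F N hF).1 f f2
  · obtain ⟨O', hO'⟩ := ProfiniteGrp.exist_openNormalSubgroup_sub_open_nhds_of_one (G := G)
      (U := (O : Set G)) O.isOpen' O.one_mem
    refine ⟨O'.toOpenSubgroup, ?_⟩
    intro n hn hnO
    obtain ⟨r, x, m, h1, -, h3⟩ := hB G F N hF n hn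
    rw [h3 (ZMod q) f f2]
    apply Finset.sum_eq_zero
    intro i _
    apply f3 _ (h1 i).2
    apply hO'
    have hnm : n ^ m i ∈ O'.toSubgroup := O'.toSubgroup.pow_mem hnO _
    have hnorm : O'.toSubgroup.Normal := O'.isNormal'
    have := hnorm.conj_mem _ hnm (x i)⁻¹
    rw [inv_inv] at this
    exact this
  · intro Λ hΛ n hnΛ hn
    obtain ⟨r, x, m, h1, -, h3⟩ := hB G F N hF n hn
    rw [h3 (ZMod q) f f2]
    apply Finset.sum_eq_zero
    intro i _
    apply f4 _ (hcj (x i)⁻¹ (N.inv_mem (h1 i).1) Λ hΛ) _ _ (h1 i).2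
    refine ⟨n ^ m i, Λ.pow_mem hnΛ _, ?_⟩
    simp

/-- the embedding of `ZMod p` -/
def emb (p j : ℕ) (hj : 1 ≤ j) : ZMod p →+ ZMod (p ^ j) :=
  ZMod.lift p ⟨zmultiplesHom _ ((p : ZMod (p ^ j)) ^ (j - 1)), by
    rw [zmultiplesHom_apply, natCast_zsmul, nsmul_eq_mul, ← pow_succ', Nat.sub_add_cancel hj]
    have h : ((p ^ j : ℕ) : ZMod (p ^ j)) = 0 := ZMod.natCast_self _
    push_cast at h
    exact h⟩

theorem emb_natCast (p j : ℕ) (hj : 1 ≤ j) (c : ℕ) :
    emb p j hj (c : ZMod p) = c * (p : ZMod (p ^ j)) ^ (j - 1) := by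
  have h : ((c : ℕ) : ZMod p) = (((c : ℕ) : ℤ) : ZMod p) := by push_cast; rfl
  rw [h]
  unfold emb
  rw [ZMod.lift_coe]
  simp

theorem emb_inj (p j : ℕ) (hp : p.Prime) (hj : 1 ≤ j) : Function.Injective (emb p j hj) := by
  have : Fact p.Prime := ⟨hp⟩
  rw [injective_iff_map_eq_zero]
  intro a ha
  obtain ⟨c, rfl⟩ : ∃ c : ℕ, a = c := ⟨a.val, (ZMod.natCast_zmod_val a).symm⟩
  rw [emb_natCast] at ha
  have h1 : ((c * p ^ (j - 1) : ℕ) : ZMod (p ^ j)) = 0 := by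
    push_cast
    exact ha
  rw [ZMod.natCast_eq_zero_iff] at h1
  have h2 : p ^ j = p * p ^ (j - 1) := by
    rw [← pow_succ', Nat.sub_add_cancel hj]
  rw [h2] at h1
  have h3 : p ∣ c := Nat.dvd_of_mul_dvd_mul_right (pow_pos hp.pos _) h1
  exact (ZMod.natCast_eq_zero_iff _ _).2 h3

theorem emb_range (p j : ℕ) (hp : p.Prime) (hj : 1 ≤ j) (x : ZMod (p ^ j)) (hx : (p : ZMod (p ^ j)) * x = 0) :
    ∃ a, emb p j hj a = x := by
  have : NeZero (p ^ j) := ⟨(pow_pos hp.pos _).ne'⟩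
  obtain ⟨c, rfl⟩ : ∃ c : ℕ, x = c := ⟨x.val, (ZMod.natCast_zmod_val x).symm⟩
  have h1 : ((p * c : ℕ) : ZMod (p ^ j)) = 0 := by
    push_cast
    exact hx
  rw [ZMod.natCast_eq_zero_iff] at h1
  have h2 : p ^ j = p * p ^ (j - 1) := by
    rw [← pow_succ', Nat.sub_add_cancel hj]
  rw [h2] at h1
  obtain ⟨b, rfl⟩ := Nat.dvd_of_mul_dvd_mul_left hp.pos h1
  refine ⟨(b : ZMod p), ?_⟩
  rw [emb_natCast]
  push_cast
  ring

/-- functions killed by `p` -/
theorem kill_p (hA : S_CrA) [TopologicalSpace G] (p : ℕ) (hp : p.Prime) (Ls : Set (Subgroup G))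
    (N F : Subgroup G) (hF : (F.subgroupOf N).FiniteIndex)
    (hcore : ∀ f ∈ VV p Ls (F ⊓ N), (∀ n ∈ N, cr F N f n = 0) → f = 0)
    (j : ℕ) (f : G → ZMod (p ^ j)) (hf : f ∈ VV (p ^ j) Ls (F ⊓ N)) (h0 : ∀ n ∈ N, cr F N f n = 0)
    (hpf : ∀ x, (p : ZMod (p ^ j)) * f x = 0) : f = 0 := by
  rcases Nat.eq_zero_or_pos j with hj | hj
  · subst hj
    have : Subsingleton (ZMod (p ^ 0)) := by
      rw [pow_zero]
      infer_instance
    funext x
    exact Subsingleton.elim _ _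
  have hinj := emb_inj p j hp hj
  choose f1 hf1 using fun x => emb_range p j hp hj (f x) (hpf x)
  obtain ⟨a1, a2, ⟨O, a3⟩, a4⟩ := hf
  have hz : ∀ x, f x = 0 → f1 x = 0 := by
    intro x hx
    apply hinj
    rw [hf1, hx, map_zero]
  have hm : f1 ∈ VV p Ls (F ⊓ N) := by
    refine ⟨fun g hg => hz _ (a1 g hg), ?_, ⟨O, fun g hg hO => hz _ (a3 g hg hO)⟩,
      fun Λ hΛ g hg hW => hz _ (a4 Λ hΛ g hg hW)⟩
    intro g hg h hh
    apply hinj
    rw [map_add, hf1, hf1, hf1]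
    exact a2 g hg h hh
  have hcr : ∀ n ∈ N, cr F N f1 n = 0 := by
    intro n hn
    apply hinj
    have h4 := (hA G (ZMod p) (ZMod (p ^ j)) F N hF).2.2.2.1 (emb p j hj) f1
    have h5 := congrFun h4 n
    beta_reduce at h5
    rw [← h5, map_zero]
    have h6 : (fun x => emb p j hj (f1 x)) = f := funext hf1
    rw [h6]
    exact h0 n hn
  have h7 := hcore f1 hm hcr
  funext x
  rw [← hf1 x, h7, Pi.zero_apply, map_zero, Pi.zero_apply]

/-- STEP 1 -/
theorem step1 (hA : S_CrA) [TopologicalSpace G] (p : ℕ) (hp : p.Prime) (Ls : Set (Subgroup G))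
    (N F : Subgroup G) (hF : (F.subgroupOf N).FiniteIndex)
    (hcore : ∀ f ∈ VV p Ls (F ⊓ N), (∀ n ∈ N, cr F N f n = 0) → f = 0)
    (j : ℕ) : ∀ (m : ℕ) (f : G → ZMod (p ^ j)), f ∈ VV (p ^ j) Ls (F ⊓ N) → (∀ n ∈ N, cr F N f n = 0) →
    (∀ x, (p : ZMod (p ^ j)) ^ m * f x = 0) → f = 0 := by
  intro m
  induction m with
  | zero =>
    intro f _ _ h
    funext x
    have := h x
    rwa [pow_zero, one_mul] at this
  | succ m ih =>
    intro f hf h0 h
    apply ih f hf h0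
    have hg : ((p : ZMod (p ^ j)) ^ m) • f ∈ VV (p ^ j) Ls (F ⊓ N) := Submodule.smul_mem _ _ hf
    have hcr : ∀ n ∈ N, cr F N (((p : ZMod (p ^ j)) ^ m) • f) n = 0 := by
      intro n hn
      have h4 := (hA G (ZMod (p ^ j)) (ZMod (p ^ j)) F N hF).2.2.2.1
        (AddMonoidHom.mulLeft ((p : ZMod (p ^ j)) ^ m)) f
      have h5 := congrFun h4 n
      beta_reduce at h5
      have h6 : (fun x => AddMonoidHom.mulLeft ((p : ZMod (p ^ j)) ^ m) (f x)) = ((p : ZMod (p ^ j)) ^ m) • f := rfl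
      rw [h6, h0 n hn, map_zero] at h5
      exact h5
    have h7 := kill_p hA p hp Ls N F hF hcore j _ hg hcr (by
      intro x
      have := h x
      rw [pow_succ'] at this
      rw [Pi.smul_apply, smul_eq_mul, ← mul_assoc]
      exact this)
    intro x
    have := congrFun h7 x
    exact this

end Tors

theorem e_Tors : S_Tors := by
  intro hA hB G _ _ _ _ _ _ p hpf Ls N F hcj hnd hcore j f hf
  classical
  have hp : p.Prime := hpf.out
  have hF : ((F : Subgroup G).subgroupOf N).FiniteIndex := ⟨by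
    intro h
    rw [h] at hnd
    exact hnd (dvd_zero p)⟩
  obtain ⟨d, hd⟩ : ∃ d : ℕ, d = ((F : Subgroup G).subgroupOf N).index := ⟨_, rfl⟩
  rw [← hd] at hnd
  obtain ⟨u, hu⟩ : ∃ u : ZMod (p ^ j), (d : ZMod (p ^ j)) * u = 1 := by
    refine ⟨(d : ZMod (p ^ j))⁻¹, ?_⟩
    apply ZMod.coe_mul_inv_eq_one
    exact ((Nat.Prime.coprime_iff_not_dvd hp).2 hnd).symm.pow_right j
  have he0 := Tors.cr_mem hA hB (p ^ j) Ls N (F : Subgroup G) hcj hF hf
  obtain ⟨e, he⟩ : ∃ e : G → ZMod (p ^ j), e = u • cr (F : Subgroup G) N f := ⟨_, rfl⟩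
  have hem : e ∈ VV (p ^ j) Ls N := by
    rw [he]
    exact Submodule.smul_mem _ _ he0
  refine ⟨e, hem, ?_⟩
  obtain ⟨b1, b2, ⟨O, b3⟩, b4⟩ := hem
  -- the function cut to W
  obtain ⟨g, hg⟩ : ∃ g : G → ZMod (p ^ j), g = fun x => if x ∈ (F : Subgroup G) ⊓ N then - e x else 0 := ⟨_, rfl⟩
  have hgW : ∀ x ∈ (F : Subgroup G) ⊓ N, g x = - e x := by
    intro x hx
    rw [hg]
    beta_reduce
    rw [if_pos hx]
  have hgm : g ∈ VV (p ^ j) Ls ((F : Subgroup G) ⊓ N) := by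
    refine ⟨?_, ?_, ⟨O, ?_⟩, ?_⟩
    · intro x hx
      rw [hg]
      beta_reduce
      rw [if_neg hx]
    · intro x hx y hy
      rw [hgW _ (Subgroup.mul_mem _ hx hy), hgW _ hx, hgW _ hy, b2 x hx.2 y hy.2]
      ring
    · intro x hx hO
      rw [hgW _ hx, b3 x hx.2 hO, neg_zero]
    · intro Λ hΛ x hx hW
      rw [hgW _ hW, b4 Λ hΛ x hx hW.2, neg_zero]
  have hcr : ∀ n ∈ N, cr (F : Subgroup G) N (f + g) n = 0 := by
    intro n hn
    obtain ⟨-, c2, c3, c4, -⟩ := hA G (ZMod (p ^ j)) (ZMod (p ^ j)) (F : Subgroup G) N hF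
    have h1 : cr (F : Subgroup G) N g = cr (F : Subgroup G) N (fun x => - e x) := c3 _ _ hgW
    have h2 : cr (F : Subgroup G) N (fun x => - e x) = fun x => - cr (F : Subgroup G) N e x :=
      c4 (-(AddMonoidHom.id _)) e
    rw [c2, h1, h2, Pi.add_apply]
    have h3 : cr (F : Subgroup G) N e n = cr (F : Subgroup G) N f n := by
      rw [Tors.cr_big hB (F : Subgroup G) N hF (show AddOn N e from b2) hn, ← hd, he, Pi.smul_apply, nsmul_eq_mul,
        smul_eq_mul, ← mul_assoc, hu, one_mul]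
    rw [h3, add_neg_cancel]
  have hz := Tors.step1 hA p hp Ls N (F : Subgroup G) hF hcore j j (f + g) (Submodule.add_mem _ hf hgm) hcr (by
    intro x
    have h : ((p ^ j : ℕ) : ZMod (p ^ j)) = 0 := ZMod.natCast_self _
    push_cast at h
    rw [h, zero_mul])
  intro x hx
  have h := congrFun hz x
  rw [Pi.add_apply, hgW x hx, Pi.zero_apply, ← sub_eq_add_neg, sub_eq_zero] at h
  exact h.symm

end Pool.Agent.MuZ
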