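import Pool.Agent.Lib.MuZ.ESpec

/-!
# Restriction of characters to a subgroup of index prime to `p`
-/

set_option autoImplicit false

open scoped Pointwise

noncomputable section

namespace Pool.Agent.MuZ

namespace VIffL

variable {G A : Type} [Group G] [AddCommGroup A]

theorem one {H : Subgroup G} {c : G → A} (hc : AddOn H c) : c 1 = 0 := by
  have h := hc 1 H.one_mem 1 H.one_mem
  rw [mul_one] at h
  exact left_eq_add.1 h

theorem pow {H : Subgroup G} {c : G → A} (hc : AddOn H c) {n : G} (hn : n ∈ H) (m : ℕ) :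
    c (n ^ m) = m • c n := by
  induction m with
  | zero => rw [pow_zero, zero_smul, one hc]
  | succ m ih => rw [pow_succ, hc _ (H.pow_mem hn m) _ hn, ih, succ_nsmul]

theorem cnj {H : Subgroup G} {c : G → A} (hc : AddOn H c) {x n : G} (hx : x ∈ H) (hn : n ∈ H)
    (m : ℕ) : c (x⁻¹ * n ^ m * x) = m • c n := by
  rw [hc _ (H.mul_mem (H.inv_mem hx) (H.pow_mem hn m)) _ hx,
    hc _ (H.inv_mem hx) _ (H.pow_mem hn m), pow hc hn]
  have h := hc _ (H.inv_mem hx) _ hx
  rw [inv_mul_cancel, one hc] at h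
  have h2 : c x⁻¹ + m • c n + c x = m • c n + (c x⁻¹ + c x) := by abel
  rw [h2, ← h, add_zero]

/-- An additive function on `N` with values in `ZMod p` which vanishes on `F ∩ N` vanishes on `N`, if the
index is prime to `p`. -/
theorem zero_of (hA : S_CrA) (hB : S_CrB) {p : ℕ} [Fact p.Prime] (F N : Subgroup G)
    (hp : ¬ p ∣ (F.subgroupOf N).index) (c : G → ZMod p) (hc : AddOn N c)
    (h0 : ∀ g ∈ F ⊓ N, c g = 0) : ∀ n ∈ N, c n = 0 := by
  intro n hn
  have hfin : (F.subgroupOf N).FiniteIndex := ⟨fun h => hp (h ▸ dvd_zero p)⟩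
  obtain ⟨-, hadd, hcong, -, -⟩ := hA G (ZMod p) (ZMod p) F N hfin
  have hz : cr F N (0 : G → ZMod p) = 0 := by
    have h := hadd 0 0
    rw [add_zero] at h
    exact left_eq_add.1 h
  have h1 : cr F N c = 0 := by
    rw [hcong c 0 (fun x hx => h0 x hx), hz]
  obtain ⟨r, x, m, hx, hm, hf⟩ := hB G F N hfin n hn
  have h2 : cr F N c n = ((F.subgroupOf N).index : ZMod p) * c n := by
    rw [hf (ZMod p) c (fun a ha b hb => hc a ha.2 b hb.2), ← hm]
    push_cast
    rw [Finset.sum_mul]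
    refine Finset.sum_congr rfl fun i _ => ?_
    rw [cnj hc (hx i).1 hn, nsmul_eq_mul]
  rw [h1, Pi.zero_apply] at h2
  rcases mul_eq_zero.1 h2.symm with h3 | h3
  · exact absurd ((ZMod.natCast_eq_zero_iff _ _).1 h3) hp
  · exact h3

end VIffL

theorem e_VIff : S_VIff := by
  classical
  intro hA hB G _ _ _ _ p _ Ls N F hp hsurj
  let R : VV p Ls N → VV p Ls ((F : Subgroup G) ⊓ N) := fun e =>
    ⟨fun g => if g ∈ (F : Subgroup G) ⊓ N then e.1 g else 0, by
      obtain ⟨e, e1, e2, ⟨O, e3⟩, e4⟩ := e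
      refine ⟨fun g hg => if_neg hg, fun g hg h hh => ?_, ⟨O, fun g hg hO => ?_⟩,
        fun Λ hΛ g hg hW => ?_⟩
      · show (if g * h ∈ (F : Subgroup G) ⊓ N then e (g * h) else 0) =
          (if g ∈ (F : Subgroup G) ⊓ N then e g else 0) + (if h ∈ (F : Subgroup G) ⊓ N then e h else 0)
        rw [if_pos (mul_mem hg hh), if_pos hg, if_pos hh]
        exact e2 g hg.2 h hh.2
      · show (if g ∈ (F : Subgroup G) ⊓ N then e g else 0) = 0
        rw [if_pos hg]
        exact e3 g hg.2 hO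
      · show (if g ∈ (F : Subgroup G) ⊓ N then e g else 0) = 0
        rw [if_pos hW]
        exact e4 Λ hΛ g hg hW.2⟩
  have hR : ∀ (e : VV p Ls N) (g : G), g ∈ (F : Subgroup G) ⊓ N → (R e).1 g = e.1 g :=
    fun e g hg => if_pos hg
  have hinj : Function.Injective R := by
    intro e e' h
    have h1 : ∀ g ∈ (F : Subgroup G) ⊓ N, (e.1 - e'.1) g = 0 := by
      intro g hg
      rw [Pi.sub_apply, ← hR e g hg, ← hR e' g hg, h, sub_self]
    have h2 : AddOn N (e.1 - e'.1) := by
      intro x hx y hy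
      simp only [Pi.sub_apply]
      rw [e.2.2.1 x hx y hy, e'.2.2.1 x hx y hy]
      ring
    have h3 := VIffL.zero_of hA hB (F : Subgroup G) N hp (e.1 - e'.1) h2 h1
    refine Subtype.ext (funext fun g => ?_)
    by_cases hg : g ∈ N
    · exact sub_eq_zero.1 (h3 g hg)
    · rw [e.2.1 g hg, e'.2.1 g hg]
  have hsur : Function.Surjective R := by
    intro f
    obtain ⟨e, he, hef⟩ := hsurj f.1 f.2
    refine ⟨⟨e, he⟩, Subtype.ext (funext fun g => ?_)⟩
    by_cases hg : g ∈ (F : Subgroup G) ⊓ N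
    · rw [hR _ g hg]
      exact hef g hg
    · rw [f.2.1 g hg]
      exact if_neg hg
  exact (Equiv.ofBijective R ⟨hinj, hsur⟩).finite_iff.symm

end Pool.Agent.MuZ
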