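import Pool.Agent.Lib.MuZ.AsmA

/-!
# Assembly of Theorem B
-/

open scoped Pointwise

noncomputable section

namespace Pool.Agent.MuZ

/-- **Theorem B** from Theorem A and `S_Vec`. -/
theorem thmB (hA : ThmA) (hVec : S_Vec) : ThmB := by
  intro p _ k hk
  constructor
  · intro h F hF _ _ _
    exact h F hF
  · intro h F hF
    haveI : FiniteDimensional ℚ (k ⊔ F : IntermediateField ℚ Om) :=
      IntermediateField.finiteDimensional_sup k F
    let L : IntermediateField ℚ Om := IntermediateField.normalClosure ℚ (k ⊔ F : IntermediateField ℚ Om) Om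
    have hLfin : FiniteDimensional ℚ L := normalClosure.is_finiteDimensional ℚ _ Om
    have hLn : Normal ℚ L := normalClosure.normal ℚ _ Om
    have hle : k ⊔ F ≤ L := IntermediateField.le_normalClosure _
    have hkL : k ≤ L := le_sup_left.trans hle
    have hFL : F ≤ L := le_sup_right.trans hle
    have hmap : ∀ (σ : Gal(Om/ℚ)), ∀ x ∈ L, σ x ∈ L := by
      intro σ x hx
      have h1 := (IntermediateField.normal_iff_forall_map_le.1 hLn) (σ : Om →ₐ[ℚ] Om)
      exact h1 ⟨x, hx, rfl⟩
    -- `X (L^cyc)` is finitely generated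
    have hXL : XFinGen p (cyc p L) := by
      refine (hA p k L {F' | k ≤ F' ∧ F' ≤ L ∧ VectorField p k F' ∧
        ¬ p * Module.finrank ℚ k ∣ Module.finrank ℚ F'} hLfin hkL (fun σ _ x hx => hmap σ x hx)
        (fun F' hF' => ⟨hF'.1, hF'.2.1⟩) ?_).2 ?_
      · intro S _ _ ρ hρ htriv
        obtain ⟨F', h1, h2, h3, v, hv, hst⟩ := hVec p k L hLfin hkL (fun σ _ x hx => hmap σ x hx)
          S ρ hρ htriv
        refine ⟨F', ⟨h1, h2, ⟨S, inferInstance, inferInstance, ρ, hρ, v, hv, hst⟩, h3⟩, v, hv, ?_⟩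
        intro g hg
        obtain ⟨h4, h5⟩ := (hst g).1 hg
        exact h5
      · intro F' hF'
        haveI := hLfin
        have hfin : FiniteDimensional ℚ F' :=
          FiniteDimensional.of_injective (IntermediateField.inclusion hF'.2.1).toLinearMap
            (IntermediateField.inclusion hF'.2.1).injective
        exact h F' hfin hF'.1 hF'.2.2.1 hF'.2.2.2
    -- descend to `F`
    refine (hA p F L {F' | F ≤ F' ∧ F' ≤ L} hLfin hFL (fun σ _ x hx => hmap σ x hx)
      (fun F' hF' => hF') ?_).1 hXL F ⟨le_rfl, hFL⟩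
    intro S _ _ ρ hρ htriv
    obtain ⟨v, hv⟩ := hρ.1
    refine ⟨L, ⟨hFL, le_rfl⟩, v, hv, ?_⟩
    intro g hg
    rw [htriv g hg]
    rfl

end Pool.Agent.MuZ
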