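import Pool.Agent.Lib.MuZ.Spec

/-!
# Vectors with stabiliser of index prime to `p`
-/

open scoped Pointwise

noncomputable section

namespace Pool.Agent.MuZ

private theorem vec_gal (i : Algebra ℚ Om) : @IsGalois ℚ _ Om _ i := by
  have e : i = AlgebraicClosure.instAlgebra ℚ := Subsingleton.elim _ _
  subst e
  let j : Algebra ℚ Om := AlgebraicClosure.instAlgebra (R := ℚ) ℚ
  have h1 : @IsAlgClosure ℚ Om _ _ j _ :=
    inferInstanceAs (@IsAlgClosure ℚ (AlgebraicClosure ℚ) _ _ (AlgebraicClosure.instAlgebra (R := ℚ) ℚ) _)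
  have h2 : @Normal ℚ Om _ _ j := @IsAlgClosure.normal ℚ Om _ _ j h1
  have h3 : @Algebra.IsAlgebraic ℚ Om _ _ j := h1.isAlgebraic
  have h4 : @Algebra.IsSeparable ℚ Om _ _ j := inferInstance
  exact @IsGalois.mk _ _ _ _ j h4 h2

private theorem vec_orbit {p : ℕ} [Fact p.Prime] {H S : Type} [Group H] [AddCommGroup S]
    [Module (ZMod p) S] [Finite S] (ρ : Representation (ZMod p) H S) (hne : ∃ v : S, v ≠ 0) :
    ∃ v : S, v ≠ 0 ∧ ∃ St : Subgroup H, (∀ g, g ∈ St ↔ ρ g v = v) ∧ ¬ p ∣ St.index := by
  classical
  have hinj : ∀ (g : H) (v : S), v ≠ 0 → ρ g v ≠ 0 := by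
    intro g v hv h
    apply hv
    have h1 : ρ g⁻¹ (ρ g v) = v := by
      rw [← Module.End.mul_apply, ← map_mul, inv_mul_cancel, map_one, Module.End.one_apply]
    rw [← h1, h, map_zero]
  let act : MulAction H {v : S // v ≠ 0} :=
    { smul := fun g v => ⟨ρ g v.1, hinj g v.1 v.2⟩
      one_smul := by
        intro v
        apply Subtype.ext
        show ρ 1 v.1 = v.1
        rw [map_one, Module.End.one_apply]
      mul_smul := by
        intro g h v
        apply Subtype.ext
        show ρ (g * h) v.1 = ρ g (ρ h v.1)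
        rw [map_mul, Module.End.mul_apply] }
  by_contra hcon
  push Not at hcon
  have h1 : ∀ v : {v : S // v ≠ 0}, p ∣ Nat.card (MulAction.orbit H v) := by
    intro v
    have h2 := hcon v.1 v.2 (MulAction.stabilizer H v) (by
      intro g
      rw [MulAction.mem_stabilizer_iff]
      constructor
      · intro h
        exact congrArg Subtype.val h
      · intro h
        exact Subtype.ext h)
    rwa [MulAction.index_stabilizer, ← Nat.card_coe_set_eq] at h2
  have h2 : p ∣ Nat.card {v : S // v ≠ 0} := by
    have : Fintype (MulAction.orbitRel.Quotient H {v : S // v ≠ 0}) := Fintype.ofFinite _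
    rw [Nat.card_congr (MulAction.selfEquivSigmaOrbits H {v : S // v ≠ 0}), Nat.card_sigma]
    exact Finset.dvd_sum fun ω _ => h1 _
  have h3 : Nat.card S = Nat.card {v : S // v ≠ 0} + 1 := by
    rw [← Nat.card_congr (Equiv.optionSubtypeNe (0 : S)), Finite.card_option]
  have h4 : p ∣ Nat.card S := by
    obtain ⟨v, hv⟩ := hne
    have h5 : addOrderOf v = p := by
      apply addOrderOf_eq_prime _ hv
      rw [← Nat.cast_smul_eq_nsmul (ZMod p) p v, ZMod.natCast_self, zero_smul]
    rw [← h5]
    exact addOrderOf_dvd_natCard v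
  rw [h3] at h4
  have h5 := (Nat.dvd_add_right h2).1 h4
  exact (Fact.out : p.Prime).one_lt.ne' (Nat.dvd_one.1 h5)

theorem vec : S_Vec := by
  classical
  intro p _ k L hL hkL hgal S _ _ ρ hIrr htriv
  have hGal : IsGalois ℚ Om := vec_gal _
  have hNH : L.fixingSubgroup ≤ k.fixingSubgroup := IntermediateField.fixingSubgroup_le hkL
  have hk : FiniteDimensional ℚ k := by
    let f : k →ₐ[ℚ] L := IntermediateField.inclusion hkL
    exact FiniteDimensional.of_injective f.toLinearMap f.toRingHom.injective
  have hN : L.fixingSubgroup.FiniteIndex := ⟨by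
    rw [← IntermediateField.finrank_eq_fixingSubgroup_index]
    exact Module.finrank_pos.ne'⟩
  have hN' : (L.fixingSubgroup.subgroupOf k.fixingSubgroup).FiniteIndex := inferInstance
  -- `S` is finite
  have hfinS : Finite S := by
    obtain ⟨v, hv⟩ := hIrr.1
    have hrange : (Set.range fun g : k.fixingSubgroup => ρ g v).Finite := by
      have h1 : Finite (k.fixingSubgroup ⧸ L.fixingSubgroup.subgroupOf k.fixingSubgroup) := inferInstance
      apply Set.Finite.subset (Set.finite_range fun
        q : k.fixingSubgroup ⧸ L.fixingSubgroup.subgroupOf k.fixingSubgroup => ρ q.out v)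
      rintro _ ⟨g, rfl⟩
      refine ⟨QuotientGroup.mk g, ?_⟩
      obtain ⟨n, hn⟩ := QuotientGroup.mk_out_eq_mul (L.fixingSubgroup.subgroupOf k.fixingSubgroup) g
      show ρ (Quotient.out (QuotientGroup.mk g)) v = ρ g v
      rw [hn, map_mul, htriv (n : k.fixingSubgroup) (Subgroup.mem_subgroupOf.1 n.2), mul_one]
    have hinv : ∀ g : k.fixingSubgroup, ∀ w ∈ Submodule.span (ZMod p)
        (Set.range fun g : k.fixingSubgroup => ρ g v), ρ g w ∈
        Submodule.span (ZMod p) (Set.range fun g : k.fixingSubgroup => ρ g v) := by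
      intro g w hw
      induction hw using Submodule.span_induction with
      | mem x hx =>
        obtain ⟨h, rfl⟩ := hx
        apply Submodule.subset_span
        refine ⟨g * h, ?_⟩
        show ρ (g * h) v = ρ g (ρ h v)
        rw [map_mul, Module.End.mul_apply]
      | zero =>
        rw [map_zero]
        exact Submodule.zero_mem _
      | add x y _ _ hx hy =>
        rw [map_add]
        exact Submodule.add_mem _ hx hy
      | smul a x _ hx =>
        rw [map_smul]
        exact Submodule.smul_mem _ a hx
    have htop := (hIrr.2 _ hinv).resolve_left (by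
      intro h
      apply hv
      have h1 : v ∈ Submodule.span (ZMod p) (Set.range fun g : k.fixingSubgroup => ρ g v) := by
        apply Submodule.subset_span
        refine ⟨1, ?_⟩
        show ρ 1 v = v
        rw [map_one, Module.End.one_apply]
      rw [h] at h1
      exact (Submodule.mem_bot _).1 h1)
    have hMF : Module.Finite (ZMod p) S := ⟨by
      rw [← htop]
      exact Submodule.fg_span hrange⟩
    exact Module.finite_of_finite (ZMod p)
  obtain ⟨v, hv, St, hSt, hpSt⟩ := vec_orbit ρ hIrr.1
  have hNSt : L.fixingSubgroup ≤ St.map k.fixingSubgroup.subtype := by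
    intro g hg
    refine ⟨⟨g, hNH hg⟩, (hSt _).2 ?_, rfl⟩
    rw [htriv ⟨g, hNH hg⟩ hg, Module.End.one_apply]
  have hopen : IsOpen ((St.map k.fixingSubgroup.subtype : Subgroup Gal(Om/ℚ)) : Set Gal(Om/ℚ)) :=
    Subgroup.isOpen_mono hNSt (IntermediateField.fixingSubgroup_isOpen L)
  have hclosed := Subgroup.isClosed_of_isOpen _ hopen
  have hF : (IntermediateField.fixedField (St.map k.fixingSubgroup.subtype)).fixingSubgroup =
      St.map k.fixingSubgroup.subtype :=
    InfiniteGalois.fixingSubgroup_fixedField (⟨St.map k.fixingSubgroup.subtype, hclosed⟩ :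
      ClosedSubgroup Gal(Om/ℚ))
  refine ⟨IntermediateField.fixedField (St.map k.fixingSubgroup.subtype), ?_, ?_, ?_, v, hv, ?_⟩
  · exact (IntermediateField.le_iff_le _ k).2 (Subgroup.map_subtype_le St)
  · have h1 : IntermediateField.fixedField (St.map k.fixingSubgroup.subtype) ≤
        IntermediateField.fixedField L.fixingSubgroup :=
      (IntermediateField.le_iff_le _ _).2 (by rw [hF]; exact hNSt)
    rwa [InfiniteGalois.fixedField_fixingSubgroup] at h1
  · intro h
    rw [IntermediateField.finrank_eq_fixingSubgroup_index, IntermediateField.finrank_eq_fixingSubgroup_index,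
      hF, Subgroup.index_map_subtype] at h
    have hpos : 0 < k.fixingSubgroup.index := by
      rw [← IntermediateField.finrank_eq_fixingSubgroup_index]
      exact Module.finrank_pos
    exact hpSt (Nat.dvd_of_mul_dvd_mul_right hpos h)
  · intro g
    rw [hF, Subgroup.mem_map]
    constructor
    · rintro ⟨x, hx, rfl⟩
      exact ⟨x.2, (hSt x).1 hx⟩
    · rintro ⟨h, hg⟩
      exact ⟨⟨g, h⟩, (hSt _).2 hg, rfl⟩

end Pool.Agent.MuZ
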