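import Pool.Agent.Lib.MuZ.PubC

/-!
# Comparison for the hand-in NonSplit
-/

open scoped Pointwise

noncomputable section

namespace Pool.Agent.MuP

theorem nonsplit_iff (p : ℕ) [Fact p.Prime] (k F : Fd)
    (h : ∀ P Q : Pr, Above p P → ∀ σ ∈ gal k, Maps σ P Q → ∃ τ ∈ gal F, Maps τ P Q) :
    ∀ P : Ideal MuZ.ZZ, P.IsPrime → (p : MuZ.ZZ) ∈ P →
      ∀ σ ∈ (show IntermediateField ℚ (AlgebraicClosure ℚ) from k).fixingSubgroup,
      ∃ τ ∈ (show IntermediateField ℚ (AlgebraicClosure ℚ) from F).fixingSubgroup,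
        σ • P = τ • P := by
  intro P hP hpP σ hσ
  have hne := ne_bot_of_above P hpP
  have hI' : (σ • P).IsPrime := by
    have := hP
    infer_instance
  have hp' := smul_above (p := p) σ P hpP
  have hne' : σ • P ≠ ⊥ := ne_bot_of_above _ hp'
  obtain ⟨τ, hτ, hm⟩ := h (mkPr P ⟨hP, hne⟩) (mkPr _ ⟨hI', hne'⟩)
    ((above_iff p (mkPr P ⟨hP, hne⟩)).2 hpP) σ hσ
    ((maps_iff σ (mkPr P ⟨hP, hne⟩) (mkPr _ ⟨hI', hne'⟩)).2 rfl)
  exact ⟨τ, hτ, (maps_iff τ (mkPr P ⟨hP, hne⟩) (mkPr _ ⟨hI', hne'⟩)).1 hm⟩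

end Pool.Agent.MuP
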