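import Pool.Agent.Lib.MuZ.CSpec

/-!
# Assembly of Theorem C: the abstract part
-/

open scoped Pointwise

noncomputable section

namespace Pool.Agent.MuZ

theorem finite_of_HN {p : ℕ} [Fact p.Prime] {G S : Type} [Group G] [TopologicalSpace G]
    [AddCommGroup S] [Module (ZMod p) S] [Finite S] (Ls : Set (Subgroup G))
    (ρ : Representation (ZMod p) G S) (N : Subgroup G) (h : Finite (HN Ls ρ N)) :
    Finite (Coc Ls ρ N N) := by
  let V := Coc Ls ρ N N
  let B : Submodule (ZMod p) V := (LinearMap.range (cob ρ N)).comap (Coc Ls ρ N N).subtype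
  have h0 : Finite (LinearMap.range (cob ρ N)) := by
    have : Function.Surjective (LinearMap.rangeRestrict (cob ρ N)) :=
      LinearMap.surjective_rangeRestrict _
    exact Finite.of_surjective _ this
  have h1 : Finite B := by
    let f : B → LinearMap.range (cob ρ N) := fun x => ⟨(x : V), x.2⟩
    have hf : Function.Injective f := by
      intro x y hxy
      have := congrArg Subtype.val hxy
      exact Subtype.ext (Subtype.ext this)
    exact Finite.of_injective f hf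
  have h2 : Finite (V ⧸ B) := h
  have h3 : Module.Finite (ZMod p) B := Module.Finite.of_finite
  have h4 : Module.Finite (ZMod p) (V ⧸ B) := Module.Finite.of_finite
  have h5 : Module.Finite (ZMod p) V := Module.Finite.of_submodule_quotient B
  exact Module.finite_of_finite (ZMod p)

theorem coc_mono {p : ℕ} {G S : Type} [Group G] [TopologicalSpace G]
    [AddCommGroup S] [Module (ZMod p) S] (Ls : Set (Subgroup G))
    (ρ : Representation (ZMod p) G S) (Y N : Subgroup G) (h : N ≤ Y) :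
    Coc Ls ρ Y Y ≤ Coc Ls ρ Y N := by
  rintro c ⟨h1, h2, h3, h4⟩
  refine ⟨h1, h2, h3, fun Λ hΛ => ?_⟩
  obtain ⟨s, hs⟩ := h4 Λ hΛ
  exact ⟨s, fun g hg hN => hs g hg (h hN)⟩

theorem card_one {a s : Cardinal} {z : Cardinal} {P : ℕ} (hs : s < Cardinal.aleph0)
    (h1 : a + s ≤ z) (h2 : z < (P : Cardinal) + s) : a < (P : Cardinal) := by
  have h3 : a + s < (P : Cardinal) + s := lt_of_le_of_lt h1 h2
  obtain ⟨s', rfl⟩ := Cardinal.lt_aleph0.1 hs
  have h4 : a < Cardinal.aleph0 := by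
    refine lt_of_le_of_lt (self_le_add_right a _) (lt_trans h3 ?_)
    exact_mod_cast Cardinal.natCast_lt_aleph0 (n := P + s')
  obtain ⟨a', rfl⟩ := Cardinal.lt_aleph0.1 h4
  have h5 : a' + s' < P + s' := by exact_mod_cast h3
  have h6 : a' < P := by omega
  exact_mod_cast h6

theorem card_two {a b s z z' : Cardinal} {P Q : ℕ} (hs : s < Cardinal.aleph0)
    (hba : b ≤ a) (h1 : a + s ≤ z) (h2 : z' ≤ b + s)
    (h3 : z + (Q : Cardinal) < (P : Cardinal) + z') :
    a + (Q : Cardinal) < b + (P : Cardinal) := by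
  have h4 : a + s + Q < P + (b + s) :=
    lt_of_le_of_lt (add_le_add_left h1 _) (lt_of_lt_of_le h3 (add_le_add_right h2 _))
  obtain ⟨s', rfl⟩ := Cardinal.lt_aleph0.1 hs
  have hb : b < Cardinal.aleph0 := by
    by_contra hcon
    have hb : Cardinal.aleph0 ≤ b := not_lt.1 hcon
    have h5 : (P : Cardinal) + (b + s') = b := by
      rw [add_comm, add_assoc]
      have h6 : ((s' : Cardinal) + P) < Cardinal.aleph0 := by
        exact_mod_cast Cardinal.natCast_lt_aleph0 (n := s' + P)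
      exact Cardinal.add_eq_left hb (h6.le.trans hb)
    rw [h5] at h4
    have h7 : b ≤ a + s' + Q := hba.trans ((self_le_add_right a _).trans (self_le_add_right _ _))
    exact absurd h4 (not_lt.2 h7)
  obtain ⟨b', rfl⟩ := Cardinal.lt_aleph0.1 hb
  have ha : a < Cardinal.aleph0 := by
    refine lt_of_le_of_lt ((self_le_add_right a _).trans (self_le_add_right _ _)) (lt_trans h4 ?_)
    exact_mod_cast Cardinal.natCast_lt_aleph0 (n := P + (b' + s'))
  obtain ⟨a', rfl⟩ := Cardinal.lt_aleph0.1 ha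
  have h5 : a' + s' + Q < P + (b' + s') := by exact_mod_cast h4
  have h6 : a' + Q < b' + P := by omega
  exact_mod_cast h6

/-- **The abstract form of Theorem C.** -/
theorem absC (hPc : S_Pc) (hVal : S_Val) (hLev : S_Lev) (hSemi : S_Semi) (hUni : S_Uni)
    (hCocX : S_CocX) (hOp : S_Op) (hDim : S_Dim) (hLin : S_Lin) (hLocD : S_LocD)
    (hLocE : S_LocE) (hEB : S_EB) (hDev : S_Dev) (hExtC : S_ExtC) (hFwdC : S_FwdC)
    (G : Type) [Group G] [TopologicalSpace G] [IsTopologicalGroup G] [CompactSpace G]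
    [TotallyDisconnectedSpace G] [T2Space G] (p : ℕ) [Fact p.Prime] (X : Type) [MulAction G X]
    (Ls : Set (Subgroup G)) (N D : Subgroup G) (γ : G) (hγ : Zq p ⊤ N γ) (hD : D.Normal)
    (hDo : IsOpen (D : Set G)) (hLs : ∀ g : G, ∀ Λ ∈ Ls, cj g Λ ∈ Ls)
    (hst : ∀ x : X, IsClosed (MulAction.stabilizer G x : Set G))
    (hstL : ∀ x : X, MulAction.stabilizer G x ∈ Ls)
    (hLs2 : ∀ Λ ∈ Ls, Λ ≤ N ∨ ∃ x : X, Λ ≤ MulAction.stabilizer G x)
    (hR : ∃ R : Set X, R.Finite ∧ ∀ x : X, ∃ r ∈ R, ∃ n ∈ N, x = n • r)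
    (hbad : ∃ R : Set (Subgroup G), R.Finite ∧ R ⊆ Ls ∧
      ∀ Λ ∈ Ls, ¬ (Λ ⊓ N ≤ N ⊓ D) → ∃ Λ' ∈ R, ∃ w ∈ N, Λ = cj w Λ') :
    Finite (VV p Ls (N ⊓ D)) ↔
      ∀ (S : Type) [AddCommGroup S] [Module (ZMod p) S] [Finite S]
        (ρ : Representation (ZMod p) G S), Irr ρ → (∀ g ∈ D, ρ g = 1) →
        ∃ (n : ℕ) (Y : Subgroup G), (IsOpen (Y : Set G) ∧ N ≤ Y ∧ Y.index = p ^ n) ∧
          (Module.rank (ZMod p) (Coc Ls ρ Y Y) + Module.rank (ZMod p) (EqF (X := X) ρ Y) <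
              ((p ^ n : ℕ) : Cardinal) + Module.rank (ZMod p) S ∨
            ∃ m < n, ∃ Y' : Subgroup G, (IsOpen (Y' : Set G) ∧ N ≤ Y' ∧ Y'.index = p ^ m) ∧
              Module.rank (ZMod p) (Coc Ls ρ Y Y) + Module.rank (ZMod p) (EqF (X := X) ρ Y) +
                ((p ^ m : ℕ) : Cardinal) <
              ((p ^ n : ℕ) : Cardinal) + Module.rank (ZMod p) (Coc Ls ρ Y' Y')) := by
  have hp : p.Prime := Fact.out
  have hN : N.Normal := ⟨fun n hn g => hγ.nrm g (Subgroup.mem_top g) n hn⟩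
  obtain ⟨hLev1, hLev2⟩ := hLev hVal G p N γ hγ
  have hfinS : ∀ (S : Type) [AddCommGroup S] [Module (ZMod p) S] [Finite S],
      Module.rank (ZMod p) S < Cardinal.aleph0 := by
    intro S _ _ _
    haveI : Module.Finite (ZMod p) S := Module.Finite.of_finite
    exact Module.rank_lt_aleph0 _ _
  constructor
  · intro hfin S _ _ _ ρ _ htriv
    haveI := hfin
    have hρ : ∃ O : OpenSubgroup G, ∀ g ∈ O, ρ g = 1 := ⟨⟨D, hDo⟩, fun g hg => htriv g hg⟩
    have h1 : Finite (Coc Ls ρ N N) := hFwdC G p Ls N D hDo S ρ htriv hfin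
    have h2 : Finite (HN Ls ρ N) := by
      haveI := h1
      exact Finite.of_surjective _ (Submodule.Quotient.mk_surjective _)
    obtain ⟨T, hT1, hT2⟩ := hOp G p Ls N γ hγ hLs S ρ hρ
    obtain ⟨b, hb⟩ := hEB G p X N hR S ρ
    haveI := h2
    haveI : Module.Finite (ZMod p) (HN Ls ρ N) := Module.Finite.of_finite
    have h3 : Module.rank (ZMod p) (HN Ls ρ N) < Cardinal.aleph0 := Module.rank_lt_aleph0 _ _
    obtain ⟨h, hh⟩ := Cardinal.lt_aleph0.1 h3
    obtain ⟨s, hs⟩ := Cardinal.lt_aleph0.1 (hfinS S)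
    obtain ⟨n, hn⟩ : ∃ n : ℕ, h + b < p ^ n := ⟨h + b, Nat.lt_pow_self hp.one_lt⟩
    obtain ⟨Y, hYo, hNY, hYi⟩ := hLev1 n
    obtain ⟨hYn, hYz⟩ := hLev2 n Y hYo hNY hYi
    refine ⟨n, Y, ⟨hYo, hNY, hYi⟩, Or.inl ?_⟩
    have h4 := hDim hCocX hUni hSemi hVal G p Ls Y N (γ ^ p ^ n) hYz (fun y _ => hLs y) S ρ hρ
      (T ^ p ^ n) (fun c c' hcc' => hT2 n c c' hcc')
    have h5 : Module.rank (ZMod p) (LinearMap.ker (T ^ p ^ n)) ≤ (h : Cardinal) := by
      rw [← hh]
      exact Submodule.rank_le _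
    have h6 : Module.rank (ZMod p) (Coc Ls ρ Y Y) ≤ ((h + s : ℕ) : Cardinal) := by
      calc Module.rank (ZMod p) (Coc Ls ρ Y Y) ≤ Module.rank (ZMod p) (Coc Ls ρ Y N) :=
            Submodule.rank_mono (coc_mono Ls ρ Y N hNY)
        _ ≤ _ := by
            rw [h4, hs, Nat.cast_add]
            exact add_le_add_left h5 _
    calc Module.rank (ZMod p) (Coc Ls ρ Y Y) + Module.rank (ZMod p) (EqF (X := X) ρ Y)
        ≤ ((h + s : ℕ) : Cardinal) + (b : Cardinal) := add_le_add h6 (hb Y hNY)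
      _ < _ := by
          rw [hs]
          have : h + s + b < p ^ n + s := by omega
          exact_mod_cast this
  · intro hcrit
    refine hDev G p Ls N D hN hD hDo hLs ?_
    intro S _ _ _ ρ hirr htriv
    refine hExtC G p Ls N D hN hD hDo hLs hbad S ρ htriv ?_
    have hρ : ∃ O : OpenSubgroup G, ∀ g ∈ O, ρ g = 1 := ⟨⟨D, hDo⟩, fun g hg => htriv g hg⟩
    obtain ⟨T, hT1, hT2⟩ := hOp G p Ls N γ hγ hLs S ρ hρ
    -- the comparison
    have key1 : ∀ (n : ℕ) (Y : Subgroup G), IsOpen (Y : Set G) → N ≤ Y → Y.index = p ^ n →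
        Module.rank (ZMod p) (LinearMap.ker (T ^ p ^ n)) + Module.rank (ZMod p) S ≤
          Module.rank (ZMod p) (Coc Ls ρ Y Y) + Module.rank (ZMod p) (EqF (X := X) ρ Y) := by
      intro n Y hYo hNY hYi
      obtain ⟨hYn, hYz⟩ := hLev2 n Y hYo hNY hYi
      rw [← hDim hCocX hUni hSemi hVal G p Ls Y N (γ ^ p ^ n) hYz (fun y _ => hLs y) S ρ hρ
        (T ^ p ^ n) (fun c c' hcc' => hT2 n c c' hcc')]
      exact hLocE hLocD hPc hUni G p X Ls Y N γ hγ.toGq hNY hYo hst hstL hLs2 hR S ρ hρ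
    have key2 : ∀ (n : ℕ) (Y : Subgroup G), IsOpen (Y : Set G) → N ≤ Y → Y.index = p ^ n →
        Module.rank (ZMod p) (Coc Ls ρ Y Y) ≤
        Module.rank (ZMod p) (LinearMap.ker (T ^ p ^ n)) + Module.rank (ZMod p) S := by
      intro n Y hYo hNY hYi
      obtain ⟨hYn, hYz⟩ := hLev2 n Y hYo hNY hYi
      rw [← hDim hCocX hUni hSemi hVal G p Ls Y N (γ ^ p ^ n) hYz (fun y _ => hLs y) S ρ hρ
        (T ^ p ^ n) (fun c c' hcc' => hT2 n c c' hcc')]
      exact Submodule.rank_mono (coc_mono Ls ρ Y N hNY)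
    have hloc : ∀ v, ∃ n : ℕ, (T ^ n) v = 0 := fun v => by
      obtain ⟨n, hn⟩ := hT1 v
      exact ⟨p ^ n, hn⟩
    obtain ⟨n, Y, ⟨hYo, hNY, hYi⟩, hcase⟩ := hcrit S ρ hirr htriv
    have hfin : Finite (HN Ls ρ N) := by
      rcases hcase with h1 | ⟨m, hmn, Y', ⟨hYo', hNY', hYi'⟩, h1⟩
      · refine hLin p (HN Ls ρ N) T hloc 0 (p ^ n) (pow_pos hp.pos n) ?_
        have h2 : Module.rank (ZMod p) (LinearMap.ker (T ^ 0)) = 0 := by
          have : LinearMap.ker (T ^ 0) = ⊥ := by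
            rw [pow_zero]
            exact LinearMap.ker_id
          rw [this]
          exact rank_bot _ _
        rw [h2]
        have h3 := card_one (hfinS S) (key1 n Y hYo hNY hYi) h1
        simpa using h3
      · refine hLin p (HN Ls ρ N) T hloc (p ^ m) (p ^ n)
          (Nat.pow_lt_pow_right hp.one_lt hmn) ?_
        refine card_two (hfinS S) ?_ (key1 n Y hYo hNY hYi) (key2 m Y' hYo' hNY' hYi') h1
        refine Submodule.rank_mono ?_
        intro v hv
        rw [LinearMap.mem_ker] at hv ⊢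
        obtain ⟨r, hr⟩ := Nat.exists_eq_add_of_le
          (Nat.pow_le_pow_right hp.pos hmn.le : p ^ m ≤ p ^ n)
        rw [hr, add_comm, pow_add]
        change (T ^ r) ((T ^ p ^ m) v) = 0
        rw [hv, map_zero]
    exact finite_of_HN Ls ρ N hfin

end Pool.Agent.MuZ
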