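import Pool.Agent.Lib.MuZ.Spec

/-!
# Definitions for the finite level criterion

`k` is a number field, `S` a finite `F_p`-vector space with a linear action `ρ` of `Gal(Ω/k)`.
-/

open scoped Pointwise

noncomputable section

namespace Pool.Agent.MuZ

/-- `F` is the `n`-th layer of the cyclotomic `ℤ_p`-extension of `k`. -/
def Layer (p : ℕ) (k : IntermediateField ℚ Om) (n : ℕ) (F : IntermediateField ℚ Om) : Prop :=
  k ≤ F ∧ F ≤ cyc p k ∧ Module.finrank ℚ F = p ^ n * Module.finrank ℚ k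

section

variable (p : ℕ) (k F : IntermediateField ℚ Om) {S : Type} [AddCommGroup S] [Module (ZMod p) S]
  (ρ : Representation (ZMod p) k.fixingSubgroup S)

/-- The space of the continuous cocycles `c : Gal(Ω/F) → S` (`k ≤ F`) whose restriction to every
inertia group and to every decomposition group above `p` is a coboundary; a cocycle is written as a
function on `Gal(Ω/k)` which vanishes outside `Gal(Ω/F)`. -/
def ZL : Submodule (ZMod p) (k.fixingSubgroup → S) where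
  carrier := {c | (∀ g : k.fixingSubgroup, (g : Gal(Om/ℚ)) ∉ F.fixingSubgroup → c g = 0) ∧
    (∀ g h : k.fixingSubgroup, (g : Gal(Om/ℚ)) ∈ F.fixingSubgroup →
      (h : Gal(Om/ℚ)) ∈ F.fixingSubgroup → c (g * h) = c g + ρ g (c h)) ∧
    (∃ E : IntermediateField ℚ Om, FiniteDimensional ℚ E ∧ ∀ g : k.fixingSubgroup,
      (g : Gal(Om/ℚ)) ∈ F.fixingSubgroup → (g : Gal(Om/ℚ)) ∈ E.fixingSubgroup → c g = 0) ∧
    ∀ Λ ∈ Loc p, ∃ s : S, ∀ g : k.fixingSubgroup, (g : Gal(Om/ℚ)) ∈ F.fixingSubgroup →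
      (g : Gal(Om/ℚ)) ∈ Λ → c g = ρ g s - s}
  add_mem' := by
    rintro a b ⟨a1, a2, ⟨E, hE, a3⟩, a4⟩ ⟨b1, b2, ⟨E', hE', b3⟩, b4⟩
    refine ⟨fun g hg => ?_, fun g h hg hh => ?_, ⟨E ⊔ E', ?_, fun g hg hE => ?_⟩, fun Λ hΛ => ?_⟩
    · simp [a1 g hg, b1 g hg]
    · simp only [Pi.add_apply, a2 g h hg hh, b2 g h hg hh, map_add]
      abel
    · exact IntermediateField.finiteDimensional_sup E E'
    · rw [IntermediateField.fixingSubgroup_sup] at hE
      simp [a3 g hg hE.1, b3 g hg hE.2]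
    · obtain ⟨s, hs⟩ := a4 Λ hΛ
      obtain ⟨t, ht⟩ := b4 Λ hΛ
      refine ⟨s + t, fun g hg hgΛ => ?_⟩
      simp only [Pi.add_apply, hs g hg hgΛ, ht g hg hgΛ, map_add]
      abel
  zero_mem' := ⟨fun _ _ => rfl, fun _ _ _ _ => by simp, ⟨⊥, inferInstance, fun _ _ _ => rfl⟩,
    fun _ _ => ⟨0, fun _ _ _ => by simp⟩⟩
  smul_mem' := by
    rintro r a ⟨a1, a2, ⟨E, hE, a3⟩, a4⟩
    refine ⟨fun g hg => ?_, fun g h hg hh => ?_, ⟨E, hE, fun g hg hE => ?_⟩, fun Λ hΛ => ?_⟩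
    · simp [a1 g hg]
    · simp only [Pi.smul_apply, a2 g h hg hh, map_smul, smul_add]
    · simp [a3 g hg hE]
    · obtain ⟨s, hs⟩ := a4 Λ hΛ
      refine ⟨r • s, fun g hg hgΛ => ?_⟩
      simp only [Pi.smul_apply, hs g hg hgΛ, map_smul, smul_sub]

/-- The space of the `Gal(Ω/F)`-equivariant functions from the set of the primes above `p` to `S`; it is
the direct sum, over the primes `v` of `F` above `p`, of the invariants of `S` under the decomposition
group of `v`. -/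
def EL : Submodule (ZMod p) (Ideal ZZ → S) where
  carrier := {φ | (∀ P : Ideal ZZ, ¬ (P.IsPrime ∧ (p : ZZ) ∈ P) → φ P = 0) ∧
    ∀ P : Ideal ZZ, P.IsPrime → (p : ZZ) ∈ P → ∀ g : k.fixingSubgroup,
      (g : Gal(Om/ℚ)) ∈ F.fixingSubgroup → φ ((g : Gal(Om/ℚ)) • P) = ρ g (φ P)}
  add_mem' := by
    rintro a b ⟨a1, a2⟩ ⟨b1, b2⟩
    refine ⟨fun P hP => ?_, fun P hP hp g hg => ?_⟩
    · simp [a1 P hP, b1 P hP]
    · simp [a2 P hP hp g hg, b2 P hP hp g hg]
  zero_mem' := ⟨fun _ _ => rfl, fun _ _ _ _ _ => by simp⟩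
  smul_mem' := by
    rintro r a ⟨a1, a2⟩
    refine ⟨fun P hP => ?_, fun P hP hp g hg => ?_⟩
    · simp [a1 P hP]
    · simp [a2 P hP hp g hg]

end

end Pool.Agent.MuZ
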