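import Pool.Agent.Lib.MuZ.ESpec
import Pool.Agent.Lib.MuZ.CrA

/-!
# Transfer, orbit formula
-/

set_option autoImplicit false

noncomputable section

namespace Pool.Agent.MuZ

open CrL in
theorem e_CrB : S_CrB := by
  classical
  intro G _ F H hfin n hn
  let K := F.subgroupOf H
  let n' : H := ⟨n, hn⟩
  let Q := Quotient (MulAction.orbitRel (Subgroup.zpowers n') (H ⧸ K))
  have hfq : Finite (H ⧸ K) := inferInstance
  have hQ : Fintype Q := Fintype.ofFinite _
  let e : Q ≃ Fin (Fintype.card Q) := Fintype.equivFin Q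
  refine ⟨Fintype.card Q, fun i => (((e.symm i).out.out : H) : G),
    fun i => Function.minimalPeriod (n' • ·) (e.symm i).out, ?_, ?_, ?_⟩
  · intro i
    refine ⟨((e.symm i).out.out : H).2, ?_⟩
    have h := QuotientGroup.out_conj_pow_minimalPeriod_mem K n' (e.symm i).out
    exact ⟨h, (((e.symm i).out.out)⁻¹ * n' ^ Function.minimalPeriod (n' • ·) (e.symm i).out *
      (e.symm i).out.out : H).2⟩
  · rw [Subgroup.index_eq_sum_minimalPeriod K n']
    exact Fintype.sum_equiv e.symm _ _ (fun i => rfl)
  · intro A _ f hf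
    rw [cr_eq F H _ _ hn, TT_orbit (addK hf) Quotient.out (out_eq _) ⟨n, hn⟩]
    exact Fintype.sum_equiv e _ _ (fun q => by
      simp only [Equiv.symm_apply_apply]
      rfl)

end Pool.Agent.MuZ
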