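import Mathlib

/-!
# The Galois group X(L) of Iwasawa theory, defined by inertia and decomposition groups

`Ω` is an algebraic closure of `ℚ`; all fields are subfields of `Ω`, the primes are the nonzero prime
ideals of the ring `ZZ` of all algebraic integers of `Ω`. For a prime `P` the decomposition group is
the stabiliser of `P` in `Gal(Ω/ℚ)`, the inertia group is `P.inertia Gal(Ω/ℚ)` (trivial action
modulo `P`).
-/

open scoped Pointwise

noncomputable section

namespace Pool.Agent.MuZ

/-- An algebraic closure of `ℚ`. -/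
abbrev Om : Type := AlgebraicClosure ℚ

/-- The ring of all algebraic integers of `Ω`. -/
abbrev ZZ : Type := integralClosure ℤ Om

/-- The cyclotomic `ℤ_p`-extension of `ℚ`: the elements of `Ω` which are fixed by all `σ` which act
on the `p`-power roots of unity as an automorphism of finite order (the fixed field of the torsion
subgroup of `Gal(ℚ(μ_{p^∞})/ℚ)`, which is isomorphic to the unit group of `ℤ_p`). -/
def Qcyc (p : ℕ) : IntermediateField ℚ Om where
  carrier := {x | ∀ σ : Gal(Om/ℚ),
    (∃ m : ℕ, 0 < m ∧ ∀ z : Om, (∃ n : ℕ, z ^ p ^ n = 1) → (σ ^ m) z = z) → σ x = x}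
  mul_mem' := by
    intro a b ha hb σ hσ
    rw [map_mul, ha σ hσ, hb σ hσ]
  one_mem' := by
    intro σ _
    exact map_one σ
  add_mem' := by
    intro a b ha hb σ hσ
    rw [map_add, ha σ hσ, hb σ hσ]
  zero_mem' := by
    intro σ _
    exact map_zero σ
  algebraMap_mem' := by
    intro r σ _
    exact σ.commutes r
  inv_mem' := by
    intro a ha σ hσ
    rw [map_inv₀, ha σ hσ]

/-- The cyclotomic `ℤ_p`-extension `F^cyc` of `F`. -/
def cyc (p : ℕ) (F : IntermediateField ℚ Om) : IntermediateField ℚ Om := F ⊔ Qcyc p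

/-- `M` is a finite abelian `p`-extension of `L` (any algebraic extension of `ℚ`) which is unramified
at every prime and in which every prime above `p` splits completely. -/
structure Adm (p : ℕ) (L M : IntermediateField ℚ Om) : Prop where
  /-- `M` contains `L`. -/
  le : L ≤ M
  /-- `M` is finite over `L`. -/
  fin : ∃ E : IntermediateField ℚ Om, FiniteDimensional ℚ E ∧ M ≤ L ⊔ E
  /-- `M` is Galois over `L`. -/
  galois : ∀ σ ∈ L.fixingSubgroup, ∀ x ∈ M, σ x ∈ M
  /-- `Gal(M/L)` is abelian. -/
  abelian : ∀ σ ∈ L.fixingSubgroup, ∀ τ ∈ L.fixingSubgroup, ∀ x ∈ M, σ (τ x) = τ (σ x)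
  /-- `Gal(M/L)` is a `p`-group. -/
  pgroup : ∃ a : ℕ, ∀ σ ∈ L.fixingSubgroup, ∀ x ∈ M, (σ ^ p ^ a) x = x
  /-- `M/L` is unramified at every prime. -/
  unramified : ∀ P : Ideal ZZ, P.IsPrime → P ≠ ⊥ → ∀ σ ∈ P.inertia Gal(Om/ℚ),
    σ ∈ L.fixingSubgroup → ∀ x ∈ M, σ x = x
  /-- Every prime of `L` above `p` splits completely in `M`. -/
  split : ∀ P : Ideal ZZ, P.IsPrime → (p : ZZ) ∈ P → ∀ σ ∈ MulAction.stabilizer Gal(Om/ℚ) P,
    σ ∈ L.fixingSubgroup → ∀ x ∈ M, σ x = x

/-- `K(L)`, the maximal abelian pro-`p` extension of `L` which is unramified at every prime and in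
which every prime of `L` above `p` splits completely. -/
def KK (p : ℕ) (L : IntermediateField ℚ Om) : IntermediateField ℚ Om :=
  ⨆ M : {M : IntermediateField ℚ Om // Adm p L M}, M.1

/-- `X(L) = Gal(K(L)/L)` is a finitely generated `ℤ_p`-module, that is, topologically finitely
generated: there are finitely many elements of `Gal(Ω/L)` such that every `σ` in `Gal(Ω/L)` agrees on
every finite subextension of `K(L)` with an element of the subgroup which they generate. -/
def XFinGen (p : ℕ) (L : IntermediateField ℚ Om) : Prop :=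
  ∃ T : Finset Gal(Om/ℚ), (∀ τ ∈ T, τ ∈ L.fixingSubgroup) ∧
    ∀ E : IntermediateField ℚ Om, FiniteDimensional ℚ E → E ≤ KK p L →
      ∀ σ ∈ L.fixingSubgroup, ∃ τ ∈ Subgroup.closure (T : Set Gal(Om/ℚ)), ∀ x ∈ E, τ x = σ x

end Pool.Agent.MuZ
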