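import Pool.Agent.Lib.MuZ.CSpec

/-!
# S_FwdC: restriction of cocycles
-/

open scoped Pointwise

noncomputable section

namespace Pool.Agent.MuZ

namespace FwdCAux

variable {G : Type} [Group G] {p : ℕ} {S : Type} [AddCommGroup S]
  [Module (ZMod p) S]

/-- a coordinate of the restriction of a cocycle -/
def co (N D : Subgroup G) (c : G → S) (l : Module.Dual (ZMod p) S) : G → ZMod p := by
  classical
  exact fun g => if g ∈ N ⊓ D then l (c g) else 0

theorem co_pos {N D : Subgroup G} (c : G → S) (l : Module.Dual (ZMod p) S) {g : G}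
    (hg : g ∈ N ⊓ D) : co N D c l g = l (c g) := by
  classical
  unfold co
  exact if_pos hg

theorem co_neg {N D : Subgroup G} (c : G → S) (l : Module.Dual (ZMod p) S) {g : G}
    (hg : g ∉ N ⊓ D) : co N D c l g = 0 := by
  classical
  unfold co
  exact if_neg hg

theorem co_mem [TopologicalSpace G] {Ls : Set (Subgroup G)} {N D : Subgroup G} {ρ : Representation (ZMod p) G S}
    (hD : ∀ g ∈ D, ρ g = 1) {c : G → S} (hc : c ∈ Coc Ls ρ N N) (l : Module.Dual (ZMod p) S) :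
    co N D c l ∈ VV p Ls (N ⊓ D) := by
  obtain ⟨-, c2, ⟨O, c3⟩, c4⟩ := hc
  refine ⟨fun g hg => co_neg c l hg, fun g hg h hh => ?_, ⟨O, fun g hg hO => ?_⟩,
    fun Λ hΛ g hgΛ hg => ?_⟩
  · rw [co_pos c l (mul_mem hg hh), co_pos c l hg, co_pos c l hh, c2 g hg.1 h hh.1, hD g hg.2,
      Module.End.one_apply, map_add]
  · rw [co_pos c l hg, c3 g hg.1 hO, map_zero]
  · obtain ⟨s, hs⟩ := c4 Λ hΛ
    rw [co_pos c l hg, hs g hgΛ hg.1, hD g hg.2, Module.End.one_apply, sub_self, map_zero]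

/-- representatives in `N` -/
def rep (N D : Subgroup G) (q : G ⧸ D) : G := by
  classical
  exact if h : ∃ g ∈ N, (g : G ⧸ D) = q then Classical.choose h else 1

theorem rep_spec {N D : Subgroup G} {g : G} (hg : g ∈ N) :
    rep N D (g : G ⧸ D) ∈ N ∧ (rep N D (g : G ⧸ D))⁻¹ * g ∈ D := by
  classical
  have h : ∃ g' ∈ N, (g' : G ⧸ D) = (g : G ⧸ D) := ⟨g, hg, rfl⟩
  have e : rep N D (g : G ⧸ D) = Classical.choose h := by
    unfold rep
    exact dif_pos h
  rw [e]
  exact ⟨(Classical.choose_spec h).1, QuotientGroup.eq.1 (Classical.choose_spec h).2⟩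

end FwdCAux

open FwdCAux in
theorem c_FwdC : S_FwdC := by
  intro G _ _ _ _ p _ Ls N D hDo S _ _ _ ρ hD hfin
  have hq : Finite (G ⧸ D) := Subgroup.quotient_finite_of_isOpen D hDo
  have hdual : Finite (Module.Dual (ZMod p) S) :=
    Finite.of_injective (fun (l : Module.Dual (ZMod p) S) (s : S) => l s) (by
      intro l l' h
      ext s
      exact congrFun h s)
  refine Finite.of_injective (fun (c : Coc Ls ρ N N) =>
    ((fun l : Module.Dual (ZMod p) S => (⟨co N D c.1 l, co_mem hD c.2 l⟩ : VV p Ls (N ⊓ D))),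
      (fun q : G ⧸ D => c.1 (rep N D q)))) ?_
  intro c c' h
  have h1 := congrArg Prod.fst h
  have h2 := congrArg Prod.snd h
  apply Subtype.ext
  funext g
  by_cases hg : g ∈ N
  · obtain ⟨r1, r2⟩ := rep_spec (D := D) hg
    set r := rep N D (g : G ⧸ D) with hr
    have hu : r⁻¹ * g ∈ N ⊓ D := ⟨N.mul_mem (N.inv_mem r1) hg, r2⟩
    have e1 : c.1 (r⁻¹ * g) = c'.1 (r⁻¹ * g) := by
      rw [← sub_eq_zero, ← Module.forall_dual_apply_eq_zero_iff (ZMod p)]
      intro l
      have h3 := congrArg (fun f : VV p Ls (N ⊓ D) => f.1 (r⁻¹ * g)) (congrFun h1 l)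
      have h4 : co N D c.1 l (r⁻¹ * g) = co N D c'.1 l (r⁻¹ * g) := h3
      rw [co_pos c.1 l hu, co_pos c'.1 l hu] at h4
      rw [map_sub, h4, sub_self]
    have e2 : c.1 r = c'.1 r := congrFun h2 (g : G ⧸ D)
    have e3 : r * (r⁻¹ * g) = g := by group
    rw [← e3, c.2.2.1 r r1 _ hu.1, c'.2.2.1 r r1 _ hu.1, e1, e2]
  · rw [c.2.1 g hg, c'.2.1 g hg]

end Pool.Agent.MuZ
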