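import Pool.Agent.Lib.MuZ.PDefs

/-!
# The definitions used in the hand-in FiniteLevel of MP_d0239a_nt
-/

noncomputable section

namespace Pool.Agent.MuP

/-- `F` is the `n`-th layer of the cyclotomic `ℤ_p`-extension of `k`. -/
def Layer (p : ℕ) (k : Fd) (n : ℕ) (F : Fd) : Prop :=
  k ≤ F ∧ F ≤ cyc p k ∧ deg F = p ^ n * deg k

/-- `σ` maps the prime `P` onto the prime `Q`. -/
def Maps (σ : Gam) (P Q : Pr) : Prop := ∀ x : Omega, InPr P x ↔ InPr Q (app σ x)

section

variable {p : ℕ} {k : Fd} {S : Type} [AddCommGroup S] [Module (ZMod p) S]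

theorem ac_add (ρ : Rep p k S) (g : gal k) (v w : S) : ac ρ g (v + w) = ac ρ g v + ac ρ g w :=
  map_add ((show Representation (ZMod p) (gal k) S from ρ) g) v w

theorem ac_zero (ρ : Rep p k S) (g : gal k) : ac ρ g 0 = 0 :=
  map_zero ((show Representation (ZMod p) (gal k) S from ρ) g)

theorem ac_smul (ρ : Rep p k S) (g : gal k) (r : ZMod p) (v : S) :
    ac ρ g (r • v) = r • ac ρ g v :=
  map_smul ((show Representation (ZMod p) (gal k) S from ρ) g) r v

/-- On the elements of `Gal(Ω/F)` with the property `Q`, `c` is the coboundary of some `s ∈ S`. -/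
def CobOn (ρ : Rep p k S) (F : Fd) (c : gal k → S) (Q : Gam → Prop) : Prop :=
  ∃ s : S, ∀ g : gal k, (g : Gam) ∈ gal F → Q g → c g = ac ρ g s - s

theorem CobOn.add {ρ : Rep p k S} {F : Fd} {c d : gal k → S} {Q : Gam → Prop}
    (hc : CobOn ρ F c Q) (hd : CobOn ρ F d Q) : CobOn ρ F (c + d) Q := by
  obtain ⟨s, hs⟩ := hc
  obtain ⟨t, ht⟩ := hd
  refine ⟨s + t, fun g hg hQ => ?_⟩
  rw [Pi.add_apply, hs g hg hQ, ht g hg hQ, ac_add]
  abel

theorem CobOn.zero (ρ : Rep p k S) (F : Fd) (Q : Gam → Prop) : CobOn ρ F 0 Q :=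
  ⟨0, fun g _ _ => by rw [ac_zero]; simp⟩

theorem CobOn.smul {ρ : Rep p k S} {F : Fd} {c : gal k → S} {Q : Gam → Prop} (r : ZMod p)
    (hc : CobOn ρ F c Q) : CobOn ρ F (r • c) Q := by
  obtain ⟨s, hs⟩ := hc
  refine ⟨r • s, fun g hg hQ => ?_⟩
  rw [Pi.smul_apply, hs g hg hQ, ac_smul, smul_sub]

/-- `c` is a continuous cocycle on `Gal(Ω/F)` (`k ≤ F`) with values in `S`, written as a function on
`Gal(Ω/k)` which vanishes outside `Gal(Ω/F)`, and its restriction to every inertia group and to every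
decomposition group above `p` is a coboundary. -/
structure IsZ (ρ : Rep p k S) (F : Fd) (c : gal k → S) : Prop where
  /-- `c` vanishes outside `Gal(Ω/F)`. -/
  supp : ∀ g : gal k, (g : Gam) ∉ gal F → c g = 0
  /-- The cocycle identity on `Gal(Ω/F)`. -/
  cocycle : ∀ g h : gal k, (g : Gam) ∈ gal F → (h : Gam) ∈ gal F → c (g * h) = c g + ac ρ g (c h)
  /-- `c` is continuous: it vanishes on `Gal(Ω/F E)` for some number field `E`. -/
  cont : ∃ E : Fd, IsNF E ∧ ∀ g : gal k, (g : Gam) ∈ gal F → (g : Gam) ∈ gal E → c g = 0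
  /-- The restriction to the inertia groups is a coboundary. -/
  inert : ∀ P : Pr, CobOn ρ F c (Inert P)
  /-- The restriction to the decomposition groups above `p` is a coboundary. -/
  split : ∀ P : Pr, Above p P → CobOn ρ F c (Decomp P)

theorem IsNF_comp (E E' : Fd) (h : IsNF E) (h' : IsNF E') : IsNF (comp E E') := by
  have h1 : FiniteDimensional ℚ (show IntermediateField ℚ (AlgebraicClosure ℚ) from E) := h
  have h2 : FiniteDimensional ℚ (show IntermediateField ℚ (AlgebraicClosure ℚ) from E') := h'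
  exact IntermediateField.finiteDimensional_sup _ _

theorem gal_comp_left (E E' : Fd) (g : Gam) (h : g ∈ gal (comp E E')) : g ∈ gal E :=
  IntermediateField.fixingSubgroup_le (le_sup_left (α := IntermediateField ℚ
    (AlgebraicClosure ℚ)) (a := E) (b := E')) h

theorem gal_comp_right (E E' : Fd) (g : Gam) (h : g ∈ gal (comp E E')) : g ∈ gal E' :=
  IntermediateField.fixingSubgroup_le (le_sup_right (α := IntermediateField ℚ
    (AlgebraicClosure ℚ)) (a := E) (b := E')) h

theorem IsZ.add {ρ : Rep p k S} {F : Fd} {c d : gal k → S} (hc : IsZ ρ F c) (hd : IsZ ρ F d) :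
    IsZ ρ F (c + d) := by
  refine ⟨fun g hg => ?_, fun g h hg hh => ?_, ?_, fun P => (hc.inert P).add (hd.inert P),
    fun P hP => (hc.split P hP).add (hd.split P hP)⟩
  · rw [Pi.add_apply, hc.supp g hg, hd.supp g hg, add_zero]
  · simp only [Pi.add_apply, hc.cocycle g h hg hh, hd.cocycle g h hg hh, ac_add]
    abel
  · obtain ⟨E, hE, h1⟩ := hc.cont
    obtain ⟨E', hE', h2⟩ := hd.cont
    refine ⟨comp E E', IsNF_comp E E' hE hE', fun g hg h3 => ?_⟩
    rw [Pi.add_apply, h1 g hg (gal_comp_left E E' g h3), h2 g hg (gal_comp_right E E' g h3),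
      add_zero]

theorem IsZ.zero (ρ : Rep p k S) (F : Fd) : IsZ ρ F 0 := by
  refine ⟨fun _ _ => rfl, fun g h _ _ => ?_, ?_, fun P => CobOn.zero ρ F _,
    fun P _ => CobOn.zero ρ F _⟩
  · simp [ac_zero]
  · refine ⟨(⊥ : IntermediateField ℚ (AlgebraicClosure ℚ)), ?_, fun _ _ _ => rfl⟩
    exact (inferInstance : FiniteDimensional ℚ (⊥ : IntermediateField ℚ (AlgebraicClosure ℚ)))

theorem IsZ.smul {ρ : Rep p k S} {F : Fd} (r : ZMod p) {c : gal k → S} (hc : IsZ ρ F c) :
    IsZ ρ F (r • c) := by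
  refine ⟨fun g hg => ?_, fun g h hg hh => ?_, ?_, fun P => (hc.inert P).smul r,
    fun P hP => (hc.split P hP).smul r⟩
  · rw [Pi.smul_apply, hc.supp g hg, smul_zero]
  · simp only [Pi.smul_apply, hc.cocycle g h hg hh, ac_smul, smul_add]
  · obtain ⟨E, hE, h1⟩ := hc.cont
    exact ⟨E, hE, fun g hg h3 => by rw [Pi.smul_apply, h1 g hg h3, smul_zero]⟩

/-- The space `Z(F, S)` of the locally trivial continuous cocycles on `Gal(Ω/F)`. -/
def ZL (ρ : Rep p k S) (F : Fd) : Submodule (ZMod p) (gal k → S) where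
  carrier := {c | IsZ ρ F c}
  add_mem' := IsZ.add
  zero_mem' := IsZ.zero ρ F
  smul_mem' := fun r _ => IsZ.smul r

/-- `φ` is a `Gal(Ω/F)`-equivariant function from the set of the primes above `p` to `S` (extended by
`0` to the other primes). -/
def IsE (ρ : Rep p k S) (F : Fd) (φ : Pr → S) : Prop :=
  (∀ P : Pr, ¬ Above p P → φ P = 0) ∧
    ∀ P Q : Pr, Above p P → ∀ g : gal k, (g : Gam) ∈ gal F → Maps g P Q → φ Q = ac ρ g (φ P)

theorem IsE.add {ρ : Rep p k S} {F : Fd} {φ ψ : Pr → S} (hφ : IsE ρ F φ) (hψ : IsE ρ F ψ) :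
    IsE ρ F (φ + ψ) :=
  ⟨fun P hP => by rw [Pi.add_apply, hφ.1 P hP, hψ.1 P hP, add_zero],
    fun P Q hP g hg h => by
      rw [Pi.add_apply, Pi.add_apply, hφ.2 P Q hP g hg h, hψ.2 P Q hP g hg h, ac_add]⟩

theorem IsE.zero (ρ : Rep p k S) (F : Fd) : IsE ρ F 0 :=
  ⟨fun _ _ => rfl, fun _ _ _ g _ _ => by simp [ac_zero]⟩

theorem IsE.smul {ρ : Rep p k S} {F : Fd} (r : ZMod p) {φ : Pr → S} (hφ : IsE ρ F φ) :
    IsE ρ F (r • φ) :=
  ⟨fun P hP => by rw [Pi.smul_apply, hφ.1 P hP, smul_zero],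
    fun P Q hP g hg h => by rw [Pi.smul_apply, Pi.smul_apply, hφ.2 P Q hP g hg h, ac_smul]⟩

/-- The space `E(F, S)` of the `Gal(Ω/F)`-equivariant functions from the set of the primes above `p` to
`S`; it is the direct sum, over the primes `v` of `F` above `p`, of the invariants of `S` under the
decomposition group of `v`. -/
def EL (ρ : Rep p k S) (F : Fd) : Submodule (ZMod p) (Pr → S) where
  carrier := {φ | IsE ρ F φ}
  add_mem' := IsE.add
  zero_mem' := IsE.zero ρ F
  smul_mem' := fun r _ => IsE.smul r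

/-- The dimension of `Z(F, S)`. -/
def zdim (ρ : Rep p k S) (F : Fd) : Cardinal := Module.rank (ZMod p) (ZL ρ F)

/-- The dimension of `E(F, S)`. -/
def edim (ρ : Rep p k S) (F : Fd) : Cardinal := Module.rank (ZMod p) (EL ρ F)

/-- The finite level condition for the representation `S`: there is a layer `F = k_n` with
`z(F) + e(F) < p ^ n + dim S`, or there are layers `F = k_n`, `F' = k_m`, `m < n`, with
`z(F) + e(F) - z(F') < p ^ n - p ^ m`. -/
def Slow (ρ : Rep p k S) : Prop :=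
  ∃ (n : ℕ) (F : Fd), Layer p k n F ∧
    (zdim ρ F + edim ρ F < ((p ^ n : ℕ) : Cardinal) + Module.rank (ZMod p) S ∨
      ∃ m < n, ∃ F' : Fd, Layer p k m F' ∧
        zdim ρ F + edim ρ F + ((p ^ m : ℕ) : Cardinal) < ((p ^ n : ℕ) : Cardinal) + zdim ρ F')

end

end Pool.Agent.MuP
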