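import Pool.Agent.Lib.MuZ.Pub
import Pool.Agent.Lib.MuZ.PDefsC
import Pool.Agent.Lib.MuZ.CDefs

/-!
# Comparison of the public definitions with `CDefs.lean`
-/

open scoped Pointwise

noncomputable section

namespace Pool.Agent.MuP

theorem layer_iff (p : ℕ) (k : Fd) (n : ℕ) (F : Fd) : Layer p k n F ↔ MuZ.Layer p k n F := by
  unfold Layer
  rw [cyc_eq]
  exact Iff.rfl

section

variable {p : ℕ} [Fact p.Prime] {k : Fd} {S : Type} [AddCommGroup S] [Module (ZMod p) S]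

theorem ne_bot_of_above (P : Ideal MuZ.ZZ) (h : (p : MuZ.ZZ) ∈ P) : P ≠ ⊥ := by
  rintro rfl
  have h2 : (p : MuZ.ZZ) = 0 := by simpa using h
  have h3 : p = 0 := by exact_mod_cast h2
  exact (Fact.out : p.Prime).ne_zero h3

theorem mem_ZL_iff (ρ : Rep p k S) (F : Fd) (c : gal k → S) :
    c ∈ ZL ρ F ↔ c ∈ MuZ.ZL p k F ρ := by
  constructor
  · rintro ⟨h1, h2, h3, h4, h5⟩
    refine ⟨h1, h2, h3, ?_⟩
    rintro Λ (⟨P, hP, hne, rfl⟩ | ⟨P, hP, hpP, rfl⟩)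
    · obtain ⟨s, hs⟩ := h4 ⟨P, hP, hne⟩
      exact ⟨s, fun g hg hΛ => hs g hg ((inert_iff ⟨P, hP, hne⟩ g.1).2 hΛ)⟩
    · have hne := ne_bot_of_above P hpP
      obtain ⟨s, hs⟩ := h5 ⟨P, hP, hne⟩ ((above_iff p ⟨P, hP, hne⟩).2 hpP)
      exact ⟨s, fun g hg hΛ => hs g hg ((decomp_iff ⟨P, hP, hne⟩ g.1).2 hΛ)⟩
  · rintro ⟨h1, h2, h3, h4⟩
    refine ⟨h1, h2, h3, ?_, ?_⟩
    · intro P
      obtain ⟨s, hs⟩ := h4 _ (Or.inl ⟨idl P, P.2.1, P.2.2, rfl⟩)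
      exact ⟨s, fun g hg hI => hs g hg ((inert_iff P g.1).1 hI)⟩
    · intro P hP
      obtain ⟨s, hs⟩ := h4 _ (Or.inr ⟨idl P, P.2.1, (above_iff p P).1 hP, rfl⟩)
      exact ⟨s, fun g hg hI => hs g hg ((decomp_iff P g.1).1 hI)⟩

theorem zdim_eq (ρ : Rep p k S) (F : Fd) :
    zdim ρ F = Module.rank (ZMod p) (MuZ.ZL p k F ρ) := by
  have h : ZL ρ F = MuZ.ZL p k F ρ := Submodule.ext fun c => mem_ZL_iff ρ F c
  unfold zdim
  rw [h]
  rfl

theorem maps_iff (σ : Gal(AlgebraicClosure ℚ/ℚ)) (P Q : Pr) :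
    Maps σ P Q ↔ idl Q = σ • idl P := by
  have hsm : ∀ (τ : Gal(AlgebraicClosure ℚ/ℚ)) (I : Ideal MuZ.ZZ) (x : MuZ.ZZ),
      x ∈ I ↔ τ • x ∈ τ • I :=
    fun τ I x => (Ideal.smul_mem_pointwise_smul_iff).symm
  constructor
  · intro h
    ext x
    have h1 := h ((σ⁻¹ • x : MuZ.ZZ) : AlgebraicClosure ℚ)
    have h2 : app σ ((σ⁻¹ • x : MuZ.ZZ) : AlgebraicClosure ℚ) =
        ((x : MuZ.ZZ) : AlgebraicClosure ℚ) := by
      change ((σ • (σ⁻¹ • x : MuZ.ZZ) : MuZ.ZZ) : AlgebraicClosure ℚ) = _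
      rw [smul_inv_smul]
    rw [h2] at h1
    have h4 : σ⁻¹ • x ∈ idl P ↔ x ∈ idl Q :=
      (inPr_iff P (σ⁻¹ • x)).symm.trans (h1.trans (inPr_iff Q x))
    have h3 := hsm σ (idl P) (σ⁻¹ • x)
    rw [smul_inv_smul] at h3
    exact h4.symm.trans h3
  · intro h x
    constructor
    · intro hx0
      have hx : IsIntegral ℤ (show AlgebraicClosure ℚ from x) := inPr_int P x hx0
      have hxP : (⟨x, hx⟩ : MuZ.ZZ) ∈ idl P := (inPr_iff P ⟨x, hx⟩).1 hx0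
      refine (inPr_iff Q ⟨σ x, isInt_app σ x hx⟩).2 ?_
      have h1 := (hsm σ (idl P) ⟨x, hx⟩).1 hxP
      rw [← h] at h1
      exact h1
    · intro hx0
      have hx : IsIntegral ℤ (σ (show AlgebraicClosure ℚ from x)) := inPr_int Q _ hx0
      have hx' : IsIntegral ℤ (show AlgebraicClosure ℚ from x) := by
        have h4 := isInt_app σ⁻¹ _ hx
        have h5 : σ⁻¹ (σ (show AlgebraicClosure ℚ from x)) = (show AlgebraicClosure ℚ from x) := by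
          change (σ⁻¹ * σ) (show AlgebraicClosure ℚ from x) = _
          rw [inv_mul_cancel]
          rfl
        rw [h5] at h4
        exact h4
      have hxP : (⟨σ x, hx⟩ : MuZ.ZZ) ∈ idl Q := (inPr_iff Q ⟨σ x, hx⟩).1 hx0
      refine (inPr_iff P ⟨x, hx'⟩).2 ?_
      rw [hsm σ (idl P) ⟨x, hx'⟩, ← h]
      exact hxP

/-- The prime ideal of an element of `Pr` is determined by it. -/
theorem pr_ext {P Q : Pr} (h : idl P = idl Q) : P = Q := Subtype.ext h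

theorem smul_above (σ : Gal(AlgebraicClosure ℚ/ℚ)) (I : Ideal MuZ.ZZ) (h : (p : MuZ.ZZ) ∈ I) :
    (p : MuZ.ZZ) ∈ σ • I := by
  have h1 := Ideal.smul_mem_pointwise_smul σ (p : MuZ.ZZ) I h
  rwa [show σ • (p : MuZ.ZZ) = (p : MuZ.ZZ) from
    map_natCast (MulSemiringAction.toRingHom Gal(AlgebraicClosure ℚ/ℚ) MuZ.ZZ σ) p] at h1

/-- An ideal as an element of `Pr`. -/
def mkPr (I : Ideal MuZ.ZZ) (h : I.IsPrime ∧ I ≠ ⊥) : Pr := ⟨I, h⟩

/-- Extension of a function on `Pr` by zero. -/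
def ext0 (φ : Pr → S) : Ideal MuZ.ZZ → S := by
  classical
  exact fun I => if h : (I.IsPrime ∧ I ≠ ⊥) then φ (mkPr I h) else 0

omit [AddCommGroup S] [Module (ZMod p) S] [Fact p.Prime] in
theorem ext0_pos [AddCommGroup S] (φ : Pr → S) (I : Ideal MuZ.ZZ) (h : I.IsPrime ∧ I ≠ ⊥) :
    ext0 φ I = φ (mkPr I h) := dif_pos h

omit [AddCommGroup S] [Module (ZMod p) S] [Fact p.Prime] in
theorem ext0_neg [AddCommGroup S] (φ : Pr → S) (I : Ideal MuZ.ZZ) (h : ¬ (I.IsPrime ∧ I ≠ ⊥)) :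
    ext0 φ I = 0 := dif_neg h

theorem ext0_mem (ρ : Rep p k S) (F : Fd) (φ : Pr → S) (hφ : IsE ρ F φ) :
    ext0 φ ∈ MuZ.EL p k F ρ := by
  constructor
  · intro I hI
    by_cases h : I.IsPrime ∧ I ≠ ⊥
    · rw [ext0_pos φ I h]
      exact hφ.1 _ fun h2 => hI ⟨h.1, (above_iff p (mkPr I h)).1 h2⟩
    · rw [ext0_neg φ I h]
  · intro I hI hp g hg
    have hne : I ≠ ⊥ := ne_bot_of_above I hp
    have hI' : ((g : Gal(AlgebraicClosure ℚ/ℚ)) • I).IsPrime := by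
      have := hI
      infer_instance
    have hp' := smul_above (p := p) (g : Gal(AlgebraicClosure ℚ/ℚ)) I hp
    have hne' : (g : Gal(AlgebraicClosure ℚ/ℚ)) • I ≠ ⊥ := ne_bot_of_above _ hp'
    rw [ext0_pos φ I ⟨hI, hne⟩, ext0_pos φ _ ⟨hI', hne'⟩]
    exact hφ.2 (mkPr I ⟨hI, hne⟩) (mkPr _ ⟨hI', hne'⟩) ((above_iff p _).2 hp) g hg
      ((maps_iff g.1 (mkPr I ⟨hI, hne⟩) (mkPr _ ⟨hI', hne'⟩)).2 rfl)

theorem res_mem (ρ : Rep p k S) (F : Fd) (ψ : Ideal MuZ.ZZ → S) (hψ : ψ ∈ MuZ.EL p k F ρ) :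
    IsE ρ F fun P => ψ (idl P) := by
  constructor
  · intro P hP
    exact hψ.1 (idl P) (fun h => hP ((above_iff p P).2 h.2))
  · intro P Q hP g hg h
    have h1 := hψ.2 (idl P) P.2.1 ((above_iff p P).1 hP) g hg
    rw [← (maps_iff g.1 P Q).1 h] at h1
    exact h1

/-- The comparison of the two spaces of equivariant functions. -/
def elEquiv (ρ : Rep p k S) (F : Fd) : EL ρ F ≃ₗ[ZMod p] MuZ.EL p k F ρ where
  toFun := fun φ => ⟨ext0 φ.1, ext0_mem ρ F φ.1 φ.2⟩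
  map_add' := by
    intro φ ψ
    apply Subtype.ext
    funext I
    change ext0 (φ.1 + ψ.1) I = ext0 φ.1 I + ext0 ψ.1 I
    by_cases h : I.IsPrime ∧ I ≠ ⊥
    · rw [ext0_pos _ I h, ext0_pos _ I h, ext0_pos _ I h]
      rfl
    · rw [ext0_neg _ I h, ext0_neg _ I h, ext0_neg _ I h, add_zero]
  map_smul' := by
    intro r φ
    apply Subtype.ext
    funext I
    change ext0 (r • φ.1) I = r • ext0 φ.1 I
    by_cases h : I.IsPrime ∧ I ≠ ⊥
    · rw [ext0_pos _ I h, ext0_pos _ I h]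
      rfl
    · rw [ext0_neg _ I h, ext0_neg _ I h, smul_zero]
  invFun := fun ψ => ⟨fun P => ψ.1 (idl P), res_mem ρ F ψ.1 ψ.2⟩
  left_inv := by
    intro φ
    apply Subtype.ext
    funext P
    exact ext0_pos φ.1 (idl P) P.2
  right_inv := by
    intro ψ
    apply Subtype.ext
    funext I
    change ext0 (fun P => ψ.1 (idl P)) I = ψ.1 I
    by_cases h : I.IsPrime ∧ I ≠ ⊥
    · rw [ext0_pos _ I h]
      rfl
    · rw [ext0_neg _ I h]
      refine (ψ.2.1 I ?_).symm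
      rintro ⟨h1, h2⟩
      exact h ⟨h1, ne_bot_of_above I h2⟩

theorem edim_eq (ρ : Rep p k S) (F : Fd) :
    edim ρ F = Module.rank (ZMod p) (MuZ.EL p k F ρ) :=
  LinearEquiv.rank_eq (elEquiv ρ F)

end

end Pool.Agent.MuP
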