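import Pool.Agent.Lib.MuZ.Inst

/-!
# Specification: the subfield criterion for mu = 0 and the reduction to vector fields

Every `S_...` below is a statement (a `Prop`) with a complete proof in its docstring. Every one is to
be proved in its own module; no statement needs another one unless it is named as a hypothesis.
-/

open scoped Pointwise

noncomputable section

namespace Pool.Agent.MuZ

/-! ## Abstract part: characters of a closed subgroup which are trivial on local subgroups -/

section Abs

variable {G : Type} [Group G] [TopologicalSpace G]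

/-- The conjugate `g Λ g⁻¹`. -/
def cj (g : G) (Λ : Subgroup G) : Subgroup G := Λ.map (MulAut.conj g).toMonoidHom

/-- `VV p Ls W`: the continuous homomorphisms `W → F_p` which are trivial on `Λ ∩ W` for all `Λ` in
`Ls`, written as functions on `G` which vanish outside `W`. -/
def VV (p : ℕ) (Ls : Set (Subgroup G)) (W : Subgroup G) : Submodule (ZMod p) (G → ZMod p) where
  carrier := {f | (∀ g ∉ W, f g = 0) ∧ (∀ g ∈ W, ∀ h ∈ W, f (g * h) = f g + f h) ∧
    (∃ O : OpenSubgroup G, ∀ g ∈ W, g ∈ O → f g = 0) ∧ ∀ Λ ∈ Ls, ∀ g ∈ Λ, g ∈ W → f g = 0}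
  add_mem' := by
    rintro a b ⟨a1, a2, ⟨O, a3⟩, a4⟩ ⟨b1, b2, ⟨O', b3⟩, b4⟩
    refine ⟨fun g hg => ?_, fun g hg h hh => ?_, ⟨O ⊓ O', fun g hg hO => ?_⟩,
      fun Λ hΛ g hg hW => ?_⟩
    · simp [a1 g hg, b1 g hg]
    · simp only [Pi.add_apply, a2 g hg h hh, b2 g hg h hh]
      ring
    · simp [a3 g hg hO.1, b3 g hg hO.2]
    · simp [a4 Λ hΛ g hg hW, b4 Λ hΛ g hg hW]
  zero_mem' := ⟨fun _ _ => rfl, fun _ _ _ _ => by simp, ⟨⊤, fun _ _ _ => rfl⟩,
    fun _ _ _ _ _ => rfl⟩
  smul_mem' := by
    rintro c a ⟨a1, a2, ⟨O, a3⟩, a4⟩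
    refine ⟨fun g hg => ?_, fun g hg h hh => ?_, ⟨O, fun g hg hO => ?_⟩, fun Λ hΛ g hg hW => ?_⟩
    · simp [a1 g hg]
    · simp only [Pi.smul_apply, smul_eq_mul, a2 g hg h hh]
      ring
    · simp [a3 g hg hO]
    · simp [a4 Λ hΛ g hg hW]

/-- Irreducible representation (elementary form): nonzero and without proper nonzero invariant
subspaces. -/
def Irr {p : ℕ} {K S : Type} [Group K] [AddCommGroup S] [Module (ZMod p) S]
    (ρ : Representation (ZMod p) K S) : Prop :=
  (∃ v : S, v ≠ 0) ∧ ∀ W : Submodule (ZMod p) S, (∀ g : K, ∀ w ∈ W, ρ g w ∈ W) → W = ⊥ ∨ W = ⊤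

end Abs

/-- (60 lines) **Restriction.** Characters of `W` restrict to characters of `U`.
PROOF. For `f` in `VV p Ls W` let `r f g = f g` if `g ∈ U`, and `0` otherwise; it lies in `VV p Ls U`
(`U ≤ W`). It is enough that `f` is determined by `r f` up to finitely many possibilities: the index
of `O` in the compact group `G` is finite (`OpenSubgroup`, `CompactSpace`: the quotient is finite),
choose for each left coset `x O` that meets `W` an element `s x ∈ W ∩ x O` (a finite set `Tr` of
elements of `W`); every `g ∈ W` is `t u` with `t ∈ Tr` and `u = t⁻¹ g ∈ W ∩ O ≤ U`, so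
`f g = f t + f u`. Hence the map `f ↦ (r f, f restricted to Tr)` is injective on `VV p Ls W` into the
finite set `VV p Ls U × (Tr → ZMod p)`. -/
def S_Res : Prop :=
  ∀ (G : Type) [Group G] [TopologicalSpace G] [IsTopologicalGroup G] [CompactSpace G]
    (p : ℕ) [Fact p.Prime] (Ls : Set (Subgroup G)) (U W : Subgroup G) (O : OpenSubgroup G),
    U ≤ W → W ⊓ (O : Subgroup G) ≤ U → Finite (VV p Ls U) → Finite (VV p Ls W)

/-- (150 lines) **Extension.** `U` is normal in `W`, of finite index (because of `O`), `Ls` is stable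
under conjugation by `W`, and the `Λ ∈ Ls` with `Λ ∩ W` not inside `U` fall into finitely many classes
under conjugation by `W`. If `VV p Ls W` is finite then there are only finitely many `W`-invariant
elements of `VV p Ls U`.
PROOF. Let `I` be the set (subspace) of invariant `f`. `W/U` is finite: choose a finite set `Tr ⊆ W`
such that every `w ∈ W` is uniquely `w = u t`, `u ∈ U`, `t ∈ Tr`; write `t = s w`, so
`s : W → Tr` depends only on the coset `U w`. STEP 1. For `f ∈ I` let
`β_f (t, t') = f (t t' (s (t t'))⁻¹)` for `t, t' ∈ Tr` (an element of `U`). The map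
`f ↦ β_f` goes to the finite set `Tr × Tr → ZMod p`, so by subtraction (the fibres of a linear map are
translates of its kernel) it is enough to show that the `f ∈ I` with `β_f = 0` are finitely many.
STEP 2. For such `f` put `F w = f (w (s w)⁻¹)` for `w ∈ W`, `F = 0` outside `W`. If `w = u t`,
`w' = u' t'` then `w w' = u (t u' t⁻¹) (t t' (s (t t'))⁻¹) (s (t t'))`, so
`F (w w') = f u + f (t u' t⁻¹) + β_f (t, t') = f u + f u' = F w + F w'`, and `F = f` on `U`
(if `1 ∈ Tr`, or note that `F` is additive and `F (u w) = f u + F w`; choose `1 ∈ Tr`). `F` is locally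
constant: if `f = 0` on `U ∩ O'` then `F = 0` on `W ∩ (O ∩ O')`. STEP 3. Let `R` be the finite set of
representatives of the bad `Λ`. For `Λ ∈ R` the restriction of `F` to `Λ ∩ W` vanishes on `Λ ∩ U`, so it
is determined by the values at finitely many elements of `Λ ∩ W` (representatives of the cosets of
`Λ ∩ U` in `Λ ∩ W`, at most `|W/U|` of them). So the map sending `f` to these values for all `Λ ∈ R`
has finite target and again it is enough to treat the `f` for which all these values are `0`, that is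
`F = 0` on `Λ ∩ W` for `Λ ∈ R`. Then `F ∈ VV p Ls W`: for `Λ ∈ Ls` with `Λ ∩ W ≤ U` use `f`; for a bad
`Λ = w Λ' w⁻¹`, `Λ' ∈ R`, `w ∈ W`: an element of `Λ ∩ W` is `w g w⁻¹` with `g ∈ Λ' ∩ W`, and
`F (w g w⁻¹) = F g = 0`. The map `f ↦ F` is injective (`F = f` on `U`), so these `f` are finitely
many. (It may be convenient to do steps 1 and 3 with `Set.Finite` and the lemma: if `A` is an additive
subgroup, `φ` additive on `A` with finite range, and `ker φ` finite, then `A` is finite.) -/
def S_Ext : Prop :=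
  ∀ (G : Type) [Group G] [TopologicalSpace G] [IsTopologicalGroup G] [CompactSpace G]
    (p : ℕ) [Fact p.Prime] (Ls : Set (Subgroup G)) (U W : Subgroup G) (O : OpenSubgroup G),
    U ≤ W → W ⊓ (O : Subgroup G) ≤ U → (∀ w ∈ W, ∀ u ∈ U, w * u * w⁻¹ ∈ U) →
    (∀ w ∈ W, ∀ Λ ∈ Ls, cj w Λ ∈ Ls) →
    (∃ R : Set (Subgroup G), R.Finite ∧ R ⊆ Ls ∧
      ∀ Λ ∈ Ls, ¬ (Λ ⊓ W ≤ U) → ∃ Λ' ∈ R, ∃ w ∈ W, Λ = cj w Λ') →
    Finite (VV p Ls W) →
    {f ∈ VV p Ls U | ∀ w ∈ W, ∀ u ∈ U, f (w * u * w⁻¹) = f u}.Finite

/-- (150 lines) **Finite modules.** `U` is a normal subgroup of finite index of the group `N` which acts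
trivially on `V`. If every finite irreducible representation of `N` over `F_p` trivial on `U` has a
nonzero vector fixed by some `H` in `Hs`, and `V` has only finitely many vectors fixed by `H` for every
`H` in `Hs`, then `V` is finite.
PROOF. Call `M` (a finite `F_p`-vector space with a representation `μ` of `N`, trivial on `U`) good if
there are only finitely many linear maps `φ : M → V` with `φ (μ g m) = ρ g (φ m)`. STEP 1: every finite
`M` is good, by strong induction on the cardinality of `M`. If `M = 0` clear. Otherwise choose an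
invariant subspace `S ≠ 0` of `M` of minimal cardinality; it is an irreducible representation `σ`
(`Irr`). Choose `H ∈ Hs` and `v ≠ 0` in `S` fixed by `H`. A `φ` is determined on `S` by `φ v`, because
the span of the `μ g v` is invariant and nonzero, hence is `S`; and `φ v` is fixed by `H`: finitely many
possibilities. If two maps `φ`, `φ'` agree on `S` their difference factors through the quotient `M / S`,
which is smaller, so it is good. STEP 2: `M = (N ⧸ U → ZMod p)` (functions, `g` acts by
`(g m) x = m (g⁻¹ x)`) is finite, so good. For `v ∈ V` put `φ_v m = ∑ over x in N ⧸ U of m x • ρ x v`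
(`ρ x v` is well defined since `U` acts trivially). It is equivariant and `φ_v (indicator of 1) = v`.
So `v ↦ φ_v` is injective and `V` is finite.
(One may of course pass to the finite group `N ⧸ U` and use `MonoidAlgebra`, composition series, etc.) -/
def S_Alg : Prop :=
  ∀ (N V : Type) [Group N] (U : Subgroup N) [U.Normal] [U.FiniteIndex] (p : ℕ) [Fact p.Prime]
    [AddCommGroup V] [Module (ZMod p) V] (ρ : Representation (ZMod p) N V)
    (Hs : Set (Subgroup N)), (∀ u ∈ U, ρ u = 1) →
    (∀ (S : Type) [AddCommGroup S] [Module (ZMod p) S] [Finite S]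
      (σ : Representation (ZMod p) N S), Irr σ → (∀ u ∈ U, σ u = 1) →
      ∃ H ∈ Hs, ∃ v : S, v ≠ 0 ∧ ∀ h ∈ H, σ h v = v) →
    (∀ H ∈ Hs, {v : V | ∀ h ∈ H, ρ h v = v}.Finite) →
    Finite V

/-- (150 lines) **Coinduction.** `N`, `D` normal subgroups of `K`, `D` of finite index, `σ` a finite
irreducible representation of `N` trivial on `N ∩ D`. There is a finite irreducible representation `τ`
of `K` trivial on `D` such that every nonzero vector fixed by a subgroup `H` under `τ` gives a nonzero
vector fixed by `N ∩ g H g⁻¹` under `σ`, for some `g`.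
PROOF. Let `C` be the space of all functions `φ : K → S'` with `φ (n x) = σ n (φ x)` for `n ∈ N` and
`φ (x d) = φ x` for `d ∈ D`. It is finite (a function is determined by its values on representatives
of `K / D`; or: functions on the finite set `K ⧸ D`). It is not zero: fix `s ≠ 0` in `S'` and put
`φ (n d) = σ n s` for `n ∈ N`, `d ∈ D`, and `φ = 0` outside `N D`; well defined because
`n d = n' d'` gives `n'⁻¹ n ∈ N ∩ D`; it is in `C` since `D` is normal (`n d d'`) and `N D` is a
subgroup. `K` acts by `(g φ) x = φ (x g)`; this preserves `C` (`D` normal: `x d g = x g (g⁻¹ d g)`) and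
`D` acts trivially. Let `S` be an invariant nonzero subspace of `C` of minimal cardinality, `τ` the
restricted representation: irreducible. Let `v = φ ∈ S` be nonzero and fixed by `H`, choose `g` with
`φ g ≠ 0` and put `v' = φ g`. If `n ∈ N` and `h := g⁻¹ n g ∈ H` then
`σ n v' = φ (n g) = φ (g h) = (h φ) g = φ g = v'`. -/
def S_Cliff : Prop :=
  ∀ (K S' : Type) [Group K] (N D : Subgroup K) [N.Normal] [D.Normal] [D.FiniteIndex]
    (p : ℕ) [Fact p.Prime] [AddCommGroup S'] [Module (ZMod p) S'] [Finite S']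
    (σ : Representation (ZMod p) N S'), Irr σ → (∀ n : N, (n : K) ∈ D → σ n = 1) →
    ∃ (S : Type) (_ : AddCommGroup S) (_ : Module (ZMod p) S) (_ : Finite S)
      (τ : Representation (ZMod p) K S), Irr τ ∧ (∀ d ∈ D, τ d = 1) ∧
      ∀ (H : Subgroup K) (v : S), v ≠ 0 → (∀ h ∈ H, τ h v = v) →
        ∃ (g : K) (v' : S'), v' ≠ 0 ∧ ∀ n : N, g⁻¹ * (n : K) * g ∈ H → σ n v' = v'

/-- (150 lines) **The abstract criterion.** `K ≤ G`, `N ≤ K` normalised by `K`, `D` an open subgroup,
`D ≤ K`, normalised by `K`; `U = N ∩ D`. Local groups: `Ls` is stable under conjugation by `K`, and the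
`Λ` with `Λ ∩ N` not inside `U` fall into finitely many classes under conjugation by `U`.
PROOF (uses `S_Ext`, `S_Alg`, `S_Cliff`). (1) Conjugation: for `g ∈ K` and `W ≤ N` the map
`f ↦ (x ↦ f (g⁻¹ x g))` is a bijection from `VV p Ls W` to `VV p Ls (cj g W)` (`Ls` is stable), so one
is finite iff the other is. (2) For `H ∈ Hs`, `g ∈ K` put `W = cj g (N ⊓ H) = N ⊓ cj g H`; then
`U ≤ W ≤ N` (`D` is normalised by `K`), and `VV p Ls W` is finite by (1). Apply `S_Ext` to `U ≤ W` with
`O = D`: the bad `Λ` for `W` are bad for `N`, and `U ≤ W`. So the set `I (g, H)` of elements of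
`VV p Ls U` which are invariant under `W` is finite. (3) Let `N` act on `V = VV p Ls U` by
`(n f) x = f (n⁻¹ x n)` (as a group: `N' = N.subgroupOf K`, a normal subgroup of the group `↥K`, and the
representation of `↥N'`); `U` acts trivially because `f` is a homomorphism on `U` into a commutative
group. Apply `S_Alg` with the subgroups of `N'` which come from the `N ⊓ cj g H`, `g ∈ K`, `H ∈ Hs`; the
fixed vectors are finitely many by (2). The hypothesis of `S_Alg` on irreducible representations `σ` of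
`N'` trivial on `U`: take `τ` from `S_Cliff` (for the group `↥K`, its normal subgroups `N'` and
`D' = D.subgroupOf K`, of finite index since `D` is open in the compact group `G`), then `H ∈ Hs` and
`v ≠ 0` from the hypothesis on `K`, then `g`, `v'` from `S_Cliff`: `v'` is fixed by the elements
`n ∈ N` with `g⁻¹ n g ∈ H`, that is by `N ⊓ cj g H`. -/
def S_Crit : Prop :=
  S_Ext → S_Alg → S_Cliff →
  ∀ (G : Type) [Group G] [TopologicalSpace G] [IsTopologicalGroup G] [CompactSpace G]
    (p : ℕ) [Fact p.Prime] (Ls : Set (Subgroup G)) (K N : Subgroup G) (D : OpenSubgroup G)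
    (Hs : Set (Subgroup G)),
    N ≤ K → (D : Subgroup G) ≤ K → (∀ g ∈ K, ∀ n ∈ N, g * n * g⁻¹ ∈ N) →
    (∀ g ∈ K, ∀ d ∈ D, g * d * g⁻¹ ∈ D) →
    (∀ g ∈ K, ∀ Λ ∈ Ls, cj g Λ ∈ Ls) →
    (∃ R : Set (Subgroup G), R.Finite ∧ R ⊆ Ls ∧
      ∀ Λ ∈ Ls, ¬ (Λ ⊓ N ≤ N ⊓ (D : Subgroup G)) →
        ∃ Λ' ∈ R, ∃ u ∈ N ⊓ (D : Subgroup G), Λ = cj u Λ') →
    (∀ H ∈ Hs, (D : Subgroup G) ≤ H ∧ H ≤ K) →
    (∀ (S : Type) [AddCommGroup S] [Module (ZMod p) S] [Finite S]
      (τ : Representation (ZMod p) K S), Irr τ → (∀ g : K, (g : G) ∈ D → τ g = 1) →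
      ∃ H ∈ Hs, ∃ v : S, v ≠ 0 ∧ ∀ g : K, (g : G) ∈ H → τ g v = v) →
    (∀ H ∈ Hs, Finite (VV p Ls (N ⊓ H))) →
    Finite (VV p Ls (N ⊓ (D : Subgroup G)))

/-! ## Number theoretic part -/

/-- The local groups: all inertia groups and the decomposition groups of the primes above `p`. -/
def Loc (p : ℕ) : Set (Subgroup Gal(Om/ℚ)) :=
  {Λ | (∃ P : Ideal ZZ, P.IsPrime ∧ P ≠ ⊥ ∧ Λ = P.inertia Gal(Om/ℚ)) ∨
    ∃ P : Ideal ZZ, P.IsPrime ∧ (p : ZZ) ∈ P ∧ Λ = MulAction.stabilizer Gal(Om/ℚ) P}

/-- (40 lines) **Conjugation of local groups.**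
PROOF. `σ (P.inertia) σ⁻¹ = (σ • P).inertia` and `σ (stabilizer P) σ⁻¹ = stabilizer (σ • P)`
(`MulAction.stabilizer_smul_eq_stabilizer_map_conj`); `σ • P` is a prime (`Ideal.IsPrime.smul`), not
`⊥` if `P ≠ ⊥`, and contains `p` if `P` does, because `σ • (p : ZZ) = p`. -/
def S_Conj : Prop :=
  (∀ (p : ℕ) (σ : Gal(Om/ℚ)), ∀ Λ ∈ Loc p, cj σ Λ ∈ Loc p) ∧
  (∀ (σ : Gal(Om/ℚ)) (P : Ideal ZZ), cj σ (P.inertia Gal(Om/ℚ)) = (σ • P).inertia Gal(Om/ℚ)) ∧
  (∀ (σ : Gal(Om/ℚ)) (P : Ideal ZZ), cj σ (MulAction.stabilizer Gal(Om/ℚ) P) =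
    MulAction.stabilizer Gal(Om/ℚ) (σ • P))

/-- (100 lines) **Only finitely many prime numbers ramify in a number field `L`.**
PROOF. `L` is generated by finitely many algebraic integers (`FiniteDimensional`; multiply generators
by natural numbers; or a primitive element `a`, made integral), it is enough to treat one generator
`a` (take unions / products of the `B`): we want `B > 0` such that `σ a = a` for all `σ` in the inertia
group of a prime `P` with `B ∉ P`. Let `f` be the minimal polynomial of `a` over `ℤ`, with the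
distinct roots `a = a_1, ..., a_n` in `ZZ`; the product `δ` of all `a_i - a_j`, `i ≠ j`, is an element
of `ZZ` fixed by `Gal(Ω/ℚ)`, so it is a rational number and integral, hence a nonzero integer (it is
up to sign the discriminant of `f`); `B = |δ|`. If `B ∉ P` and `σ` in the inertia group then
`σ a = a_i` for some `i` and `a_i - a ∈ P`; if `a_i ≠ a` then `a_i - a` divides `δ`, so `δ ∈ P`,
contradiction. -/
def S_Ram : Prop :=
  ∀ L : IntermediateField ℚ Om, FiniteDimensional ℚ L → ∃ B : ℕ, 0 < B ∧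
    ∀ P : Ideal ZZ, P.IsPrime → (B : ZZ) ∉ P → P.inertia Gal(Om/ℚ) ≤ L.fixingSubgroup

/-- (100 lines) **Frobenius elements.**
PROOF. `Gal(Om/ℚ)` is a profinite group acting continuously on the discrete ring `ZZ` (stabilisers of
elements are open: they contain the fixing subgroup of a finite extension), and
`Algebra.IsInvariant ℤ ZZ Gal(Om/ℚ)` holds (an algebraic integer fixed by everything is rational, so
an integer). The residue ring `ZZ ⧸ P` is a field (`P` maximal: `ZZ` is integral over `ℤ` and `l ∈ P`) and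
algebraic over `ℤ ⧸ (l)`, so `x ↦ x ^ l` is an automorphism of it over `ℤ ⧸ (P ∩ ℤ)` (injective; surjective
because every element lies in a finite subfield). By
`Ideal.Quotient.stabilizerHom_surjective_of_profinite` there is `σ` in the stabiliser of `P` with
`σ x - x ^ l ∈ P` for all `x`. (For `Gal(Om/ℚ)` one may also look at `exists_arithFrobAt`.) Let
`z ^ (p ^ n) = 1`. Then `σ z` is a root of the same equation and `σ z ≡ z ^ l mod P`. If `σ z ≠ z ^ l` then
`w = σ z / z ^ l ≠ 1` is a `p ^ n`-th root of unity with `1 - w ∈ P`; but `1 - w` divides `p ^ n` in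
`ZZ` (`∏ over all nontrivial p^n-th roots (1 - w') = p ^ n`; or: `1 + w + .. + w^(p^n - 1) = 0` and
`w ≡ 1 mod P` give `p ^ n ∈ P`), so `p ∈ P` and `l ∈ P`: contradiction. -/
def S_Frob : Prop :=
  ∀ (p l : ℕ), p.Prime → l.Prime → p ≠ l → ∀ P : Ideal ZZ, P.IsPrime → (l : ZZ) ∈ P →
    ∃ σ ∈ MulAction.stabilizer Gal(Om/ℚ) P, ∀ (z : Om) (n : ℕ), z ^ p ^ n = 1 → σ z = z ^ l

/-- (150 lines) **Powers of `l` modulo powers of `p`.** There is `a` such that every `c ≡ 1 mod p ^ a` is,
modulo every `p ^ n`, a power of `l`.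
PROOF. `l ^ (2 (p - 1)) ≡ 1 mod p` and mod 8 if `p = 2` (`l` odd: `l ^ 2 ≡ 1 mod 8`), and it is `> 1`. So
`l ^ m = 1 + p ^ a u` with `m > 0`, `p ∤ u`, `a ≥ 1`, and `a ≥ 2` if `p = 2`. The residue
`l ^ m` has order exactly `p ^ (n - a)` in the group `(ZMod (p ^ n))ˣ` for `n ≥ a` (lifting the exponent; in
Mathlib `ZMod.orderOf_one_add_mul_prime_pow` and similar lemmas in
`Mathlib/RingTheory/ZMod/UnitsCyclic.lean`, or `Int.emultiplicity_pow_sub_pow`), and the subgroup of the
residues `≡ 1 mod p ^ a` has `p ^ (n - a)` elements, so the powers of `l ^ m` are all of it. For `n < a`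
everything is trivial (`c ≡ 1 = l ^ 0`). Direct induction is also possible: if
`c ≡ l ^ (m j) mod p ^ n`, `n ≥ a`, then for a suitable `i < p`,
`c ≡ l ^ (m j + m i p ^ (n - a)) mod p ^ (n + 1)`, because `l ^ (m p ^ (n - a)) = 1 + p ^ n u'` with
`p ∤ u'`. -/
def S_Pow : Prop :=
  ∀ (p l : ℕ), p.Prime → l.Prime → p ≠ l →
    ∃ a : ℕ, ∀ (n c : ℕ), c ≡ 1 [MOD p ^ a] → ∃ j : ℕ, c ≡ l ^ j [MOD p ^ n]

/-- (150 lines) **`p` is totally ramified in `ℚ(μ_{p^n})`.** For a prime `P` above `p` every `τ` agrees on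
the `p^n`-th roots of unity with an element of the stabiliser of `P`.
PROOF. Let `K = ℚ(z)`, `z` a primitive `p^n`-th root of unity in `Om` (`n ≥ 1`; `n = 0` trivial),
`ZZ_K = ` the algebraic integers in `K` `= ℤ[z]` (Mathlib:
`IsCyclotomicExtension.Rat.isIntegralClosure_adjoin_singleton_of_prime_pow`). `1 - z ∈ P` and
`1 - z ∈ τ • P` because a power of it is `p` times a unit, or: `(1 - z) ^ (p ^ n) ≡ 1 - z ^ (p ^ n) = 0`
modulo `p`. So for a polynomial `f` over `ℤ`: `f(z) ∈ P ↔ f(1) ∈ P ↔ p ∣ f(1)`, and the same for `τ • P`.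
Hence `P` and `τ • P` contain the same elements of `ZZ_K`. The group `Gal(Om/K)` (that is
`K.fixingSubgroup`, closed, hence profinite, acting continuously on the discrete ring `ZZ`, with
invariants `ZZ_K`) acts transitively on the primes of `ZZ` above a given prime of `ZZ_K`
(`Algebra.IsInvariant.exists_smul_of_under_eq_of_profinite`), so there is `ρ ∈ Gal(Om/K)` with
`ρ • τ • P = P`. Take `δ = ρ τ`: it is in the stabiliser of `P` and `δ x = ρ (τ x) = τ x` for the
roots of unity `x ∈ K` (`τ x ∈ K`). -/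
def S_Tot : Prop :=
  ∀ (p : ℕ), p.Prime → ∀ P : Ideal ZZ, P.IsPrime → (p : ZZ) ∈ P →
    ∀ (τ : Gal(Om/ℚ)) (n : ℕ), ∃ δ ∈ MulAction.stabilizer Gal(Om/ℚ) P,
      ∀ z : Om, z ^ p ^ n = 1 → δ z = τ z

/-- (200 lines) **Finite decomposition.** For every prime number `l` there are only finitely many primes
of `F^cyc` above `l`: the primes `P` of `ZZ` above `l` fall into finitely many orbits under
`Gal(Ω/F^cyc)`.
PROOF (uses `S_Frob`, `S_Pow`, `S_Tot`). Let `Γ = Gal(Om/ℚ)`, `M` = the subgroup of the elements which fix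
all `p`-power roots of unity; it is normal, and `M ≤ (Qcyc p).fixingSubgroup` directly from the
definition of `Qcyc` (`m = 1`). Fix one prime `P` above `l` (if there is none, nothing to do) and
`D` = its stabiliser, a closed subgroup. `Γ` acts transitively on the primes above `l`
(`Algebra.IsInvariant.exists_smul_of_under_eq_of_profinite`; both contract to `(l)` in `ℤ`).
STEP 1: there is an open subgroup `A` of `Γ` with `A ⊆ D M`. Case `l ≠ p`: let `σ ∈ D` be from `S_Frob`, `a`
from `S_Pow` and `A` = the fixing subgroup of `ℚ(μ_{p^a})`. Let `τ ∈ A`. For every `n` there is `c` with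
`τ z = z ^ c` for all `p^n`-th roots of unity `z` and `c ≡ 1 mod p ^ a` (if `n ≥ a`), so
`c ≡ l ^ j mod p ^ n` and `σ ^ j ∈ D` agrees with `τ` on `μ_{p^n}`. Case `l = p`: `S_Tot`, with `A = Γ`. So in
both cases for every `n` the closed set `C_n = {δ ∈ D : δ = τ on μ_{p^n}}` is nonempty; they decrease
with `n`, so by compactness there is `δ ∈ D` which agrees with `τ` on all `p`-power roots of unity,
`δ⁻¹ τ ∈ M`. STEP 2: `Γ / A` is finite: `Γ = ⋃ r_i A` hence every `g ∈ Γ` is `g = r_i m d` with `m ∈ M`,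
`d ∈ D` (take inverses / use that `M` is normal: `D M = M D`), so `g = (r_i m r_i⁻¹) r_i d ∈ M r_i D`.
STEP 3: let `W = (cyc p F).fixingSubgroup = F.fixingSubgroup ⊓ (Qcyc p).fixingSubgroup`, it contains
`M ∩ F.fixingSubgroup`, which has finite index in `M` (`F.fixingSubgroup` is open, hence of finite
index): `M = ⋃ (M ∩ F.fixingSubgroup) m_j`, a finite union. So `g • P = w m_j r_i d • P =
w • (m_j r_i • P)`, `w ∈ W`: the finite set is `{m_j r_i • P}`. -/
def S_Orb : Prop :=
  S_Frob → S_Pow → S_Tot →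
  ∀ (p l : ℕ), p.Prime → l.Prime → ∀ F : IntermediateField ℚ Om, FiniteDimensional ℚ F →
    ∃ R : Set (Ideal ZZ), R.Finite ∧ (∀ P ∈ R, P.IsPrime ∧ (l : ZZ) ∈ P) ∧
      ∀ P : Ideal ZZ, P.IsPrime → (l : ZZ) ∈ P → ∃ P' ∈ R, ∃ w ∈ (cyc p F).fixingSubgroup,
        P = w • P'

/-! ## Characters and finite generation -/

/-- (100 lines) **Composita of admissible extensions.** (a) `Adm p L L`; (b) the compositum of two
admissible extensions is admissible; (c) every finite extension `E` of `ℚ` inside `K(L)` is inside an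
admissible extension.
PROOF. (b) Everything is checked on the generators: for a fixed `σ` (or a fixed pair) the elements `x`
of `Om` with the required property (`σ x = x`; `σ (τ x) = τ (σ x)`; `(σ ^ p ^ a) x = x` with `a` the larger
of the two exponents) form an intermediate field, which contains `M` and `M'`, so it contains
`M ⊔ M'`; `galois`: `σ (M ⊔ M') = σ M ⊔ σ M'` (the field `(M ⊔ M').comap σ` contains `M`, `M'`);
`fin`: `L ⊔ E ⊔ E'`, the compositum of finite extensions is finite. (c) By (a), (b) the family of the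
admissible `M` is directed, so the union is a field and every element of `KK p L` is in an admissible
`M` (`IntermediateField.mem_iSup_of_directed` or `IntermediateField.exists_finset_of_mem_iSup`); `E` is
generated by finitely many elements, take the compositum of the corresponding `M`'s. -/
def S_Sup : Prop :=
  ∀ (p : ℕ) (L : IntermediateField ℚ Om), p.Prime → Adm p L L ∧
    (∀ M M' : IntermediateField ℚ Om, Adm p L M → Adm p L M' → Adm p L (M ⊔ M')) ∧
    ∀ E : IntermediateField ℚ Om, FiniteDimensional ℚ E → E ≤ KK p L →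
      ∃ M : IntermediateField ℚ Om, Adm p L M ∧ E ≤ M

/-- (150 lines) **The field of a character.** For `f` in `VV p (Loc p) Gal(Ω/L)` there is an admissible
extension `M` of `L` with `Gal(Ω/M) = ker f`.
PROOF. Let `W' = {σ ∈ L.fixingSubgroup : f σ = 0}`, a subgroup. It is closed: `f` is `0` on
`L.fixingSubgroup ∩ O` with `O` open, so `W'` is open in the closed subgroup `L.fixingSubgroup`. Let `M` be
the fixed field of `W'` (`IntermediateField.fixedField`); by infinite Galois theory
(`InfiniteGalois.fixingSubgroup_fixedField`) `M.fixingSubgroup = W'`. Now `Adm p L M`: `le` since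
`W' ≤ L.fixingSubgroup`, `L` is the fixed field of its fixing subgroup. `fin`: the open subgroup `O`
contains the fixing subgroup of some finite extension `E` (`krullTopology_mem_nhds_one_iff`), and
`(L ⊔ E).fixingSubgroup = L.fixingSubgroup ⊓ E.fixingSubgroup ≤ W'`, so `M ≤ L ⊔ E`. `galois`: for
`σ ∈ L.fixingSubgroup`, `τ ∈ W'`: `τ (σ x) = σ (σ⁻¹ τ σ x) = σ x` as `f (σ⁻¹ τ σ) = f τ = 0`. `abelian`:
`τ⁻¹ σ⁻¹ τ σ ∈ W'`. `pgroup`: `a = 1`, `f (σ ^ p) = p f σ = 0`. `unramified`, `split`: `f` vanishes on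
the local groups, so these `σ` are in `W'`. -/
def S_Fld : Prop :=
  ∀ (p : ℕ) [Fact p.Prime] (L : IntermediateField ℚ Om), ∀ f ∈ VV p (Loc p) L.fixingSubgroup,
    ∃ M : IntermediateField ℚ Om, Adm p L M ∧
      ∀ σ : Gal(Om/ℚ), σ ∈ M.fixingSubgroup ↔ σ ∈ L.fixingSubgroup ∧ f σ = 0

/-- (120 lines) **Finitely generated implies finitely many characters.**
PROOF (uses `S_Fld`). Let `T` be as in `XFinGen`. The map `f ↦ f restricted to T` is injective on
`VV p (Loc p) L.fixingSubgroup`: let `f` vanish on `T`, then it vanishes on `Subgroup.closure T` (all in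
`L.fixingSubgroup`). Let `M` be from `S_Fld`, `σ ∈ L.fixingSubgroup`. There is a finite extension `E ≤ M` of
`ℚ` with `M ≤ L ⊔ E`: indeed `M ≤ L ⊔ E'` with `E'` finite; by the field theory `M = L(x_1, .., x_r)`, since
`L ⊔ E'` is a finite extension of `L` and so is `M`; put `E = ℚ(x_1, .., x_r)`. [Or: it is enough to have
`E ≤ M` finite over `ℚ` such that `σ|_E = τ|_E` implies `f σ = f τ`; if for every finite `E ≤ M` there were
`ρ_E ∈ L.fixingSubgroup ∩ E.fixingSubgroup` with `f ρ_E ≠ 0`, i.e. not in `M.fixingSubgroup`, by compactness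
of `{ρ ∈ L.fixingSubgroup : f ρ ≠ 0}` (closed) there is `ρ` in it which fixes `M`: contradiction.]
`E ≤ M ≤ KK p L`, so there is `τ ∈ Subgroup.closure T` with `τ = σ` on `E`; then `σ⁻¹ τ` fixes `L` and `E`,
so it fixes `M`, `f (σ⁻¹ τ) = 0` and `f σ = f τ = 0`. -/
def S_Fwd : Prop :=
  S_Fld → ∀ (p : ℕ) [Fact p.Prime] (L : IntermediateField ℚ Om), XFinGen p L →
    Finite (VV p (Loc p) L.fixingSubgroup)

/-- (200 lines) **Finitely many characters imply finitely generated.**
PROOF (uses `S_Sup`). `V = VV p (Loc p) L.fixingSubgroup` is finite, hence finite dimensional. For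
`σ ∈ L.fixingSubgroup` let `ev σ : V → ZMod p` be the evaluation at `σ`. The `ev σ` separate the elements of
`V` (a function in `V` which vanishes on `L.fixingSubgroup` is `0`), so they span the dual space: there is
a finite set `T ⊆ L.fixingSubgroup` such that an `f ∈ V` with `f τ = 0` for all `τ ∈ T` is `0` (for example
choose for every `f ≠ 0` in the finite set `V` one `τ` with `f τ ≠ 0`). Claim: `T` works. Let `E ≤ KK p L`
be finite over `ℚ` and `M` admissible with `E ≤ M` (`S_Sup`). The group `Q = L.fixingSubgroup / M.fixingSubgroup`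
(`M.fixingSubgroup` is normal in it by `galois`) is finite (by `fin`: it contains
`L.fixingSubgroup ⊓ E'.fixingSubgroup`), abelian (`abelian`) and a `p`-group (`pgroup`). Suppose that the
image `B` of `Subgroup.closure T` in `Q` is not `Q`. Then `Q / B` is a nontrivial finite abelian
`p`-group, so there is a surjective homomorphism `χ : Q → ZMod p` which is trivial on `B` (a finite
abelian `p`-group `A ≠ 0` has `A ≠ p A`, and `A / p A` is a nonzero `F_p`-vector space; or take a maximal
proper subgroup, of index `p`). Let `f σ = χ (class of σ)` on `L.fixingSubgroup`, `0` outside. Then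
`f ∈ V`: additive; trivial on `L.fixingSubgroup ∩ E'.fixingSubgroup`, and `E'.fixingSubgroup` is open; trivial
on the local groups by `unramified`, `split` (such `σ` fix `M`). `f ≠ 0` but `f` vanishes on `T`:
contradiction. So `B = Q`, and for `σ ∈ L.fixingSubgroup` there is `τ ∈ Subgroup.closure T` with
`σ⁻¹ τ ∈ M.fixingSubgroup`, so `τ x = σ x` for `x ∈ E ≤ M`. -/
def S_Bwd : Prop :=
  S_Sup → ∀ (p : ℕ) [Fact p.Prime] (L : IntermediateField ℚ Om),
    Finite (VV p (Loc p) L.fixingSubgroup) → XFinGen p L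

/-! ## The two theorems -/

/-- **Theorem A** (subfield criterion). -/
def ThmA : Prop :=
  ∀ (p : ℕ) [Fact p.Prime] (k L : IntermediateField ℚ Om) (Fs : Set (IntermediateField ℚ Om)),
    FiniteDimensional ℚ L → k ≤ L → (∀ σ ∈ k.fixingSubgroup, ∀ x ∈ L, σ x ∈ L) →
    (∀ F ∈ Fs, k ≤ F ∧ F ≤ L) →
    (∀ (S : Type) [AddCommGroup S] [Module (ZMod p) S]
      (ρ : Representation (ZMod p) k.fixingSubgroup S), Irr ρ →
      (∀ g : k.fixingSubgroup, (g : Gal(Om/ℚ)) ∈ L.fixingSubgroup → ρ g = 1) →
      ∃ F ∈ Fs, ∃ v : S, v ≠ 0 ∧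
        ∀ g : k.fixingSubgroup, (g : Gal(Om/ℚ)) ∈ F.fixingSubgroup → ρ g v = v) →
    (XFinGen p (cyc p L) ↔ ∀ F ∈ Fs, XFinGen p (cyc p F))

/-- `F` is a vector field over `k` (at `p`): `k ≤ F` and `Gal(Ω/F)` is the stabiliser of a nonzero vector
in an irreducible `F_p`-representation of `Gal(Ω/k)`. -/
def VectorField (p : ℕ) (k F : IntermediateField ℚ Om) : Prop :=
  ∃ (S : Type) (_ : AddCommGroup S) (_ : Module (ZMod p) S)
    (ρ : Representation (ZMod p) k.fixingSubgroup S), Irr ρ ∧ ∃ v : S, v ≠ 0 ∧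
      ∀ g : Gal(Om/ℚ), g ∈ F.fixingSubgroup ↔ ∃ h : g ∈ k.fixingSubgroup, ρ ⟨g, h⟩ v = v

/-- **Theorem B** (reduction to vector fields of degree prime to `p`). -/
def ThmB : Prop :=
  ∀ (p : ℕ) [Fact p.Prime] (k : IntermediateField ℚ Om), FiniteDimensional ℚ k →
    ((∀ F : IntermediateField ℚ Om, FiniteDimensional ℚ F → XFinGen p (cyc p F)) ↔
      ∀ F : IntermediateField ℚ Om, FiniteDimensional ℚ F → k ≤ F → VectorField p k F →
        ¬ p * Module.finrank ℚ k ∣ Module.finrank ℚ F → XFinGen p (cyc p F))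

/-- (150 lines) **Vectors with stabiliser of index prime to `p`.** Let `k ≤ L` be number fields, `L`
Galois over `k`, `ρ` an irreducible representation of `Gal(Ω/k)` trivial on `Gal(Ω/L)`. There is a nonzero
vector whose stabiliser is `Gal(Ω/F)` with `k ≤ F ≤ L` and `[F : k]` prime to `p`.
PROOF. `S` is finite: it is spanned by the orbit of a nonzero vector, which is finite since
`L.fixingSubgroup` is open, of finite index in `k.fixingSubgroup`. `Q = k.fixingSubgroup /
L.fixingSubgroup` is a finite group (`L.fixingSubgroup` is normal in it) acting on `S`. Its orbits on the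
set of the nonzero vectors: `|S| - 1` is not divisible by `p` (`|S|` is a power of `p`, at least `p`), so
some orbit has a length not divisible by `p`; let `v` be in it (or use a Sylow `p`-subgroup and
`IsPGroup` fixed points). The stabiliser `St` of `v` in `k.fixingSubgroup` is a closed (even open)
subgroup of `Gal(Om/ℚ)` which contains `L.fixingSubgroup`; let `F` be its fixed field. Then
`F.fixingSubgroup = St` (`InfiniteGalois.fixingSubgroup_fixedField`), `k ≤ F ≤ L` and
`[F : k] = [k.fixingSubgroup : St]` = the length of the orbit. Here the degrees are written over `ℚ`: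
`[F : ℚ] = [F : k] [k : ℚ]` and `[F : k]` is prime to `p`, so `p [k : ℚ]` does not divide `[F : ℚ]`. For the
degree formula one can use `IntermediateField.finrank_eq_fixingSubgroup_index` or count
`[F : ℚ] = [Gal(Om/ℚ) : F.fixingSubgroup]` and `relIndex`. -/
def S_Vec : Prop :=
  ∀ (p : ℕ) [Fact p.Prime] (k L : IntermediateField ℚ Om), FiniteDimensional ℚ L → k ≤ L →
    (∀ σ ∈ k.fixingSubgroup, ∀ x ∈ L, σ x ∈ L) →
    ∀ (S : Type) [AddCommGroup S] [Module (ZMod p) S]
      (ρ : Representation (ZMod p) k.fixingSubgroup S), Irr ρ →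
      (∀ g : k.fixingSubgroup, (g : Gal(Om/ℚ)) ∈ L.fixingSubgroup → ρ g = 1) →
      ∃ F : IntermediateField ℚ Om, k ≤ F ∧ F ≤ L ∧
        ¬ p * Module.finrank ℚ k ∣ Module.finrank ℚ F ∧ ∃ v : S, v ≠ 0 ∧
        ∀ g : Gal(Om/ℚ), g ∈ F.fixingSubgroup ↔ ∃ h : g ∈ k.fixingSubgroup, ρ ⟨g, h⟩ v = v

end Pool.Agent.MuZ
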